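import Mathlib
import Pool.Agent.Q1.M6f.GlueHol

set_option autoImplicit false
open MeasureTheory Set Filter Topology

/-! Module M6, chapter E, glue for WINDOWS (three headings E, S, N; one kind of track, one rapidity).

`ti_of_simple` : the discrete Cauchy-Riemann relation up to `o (1 / R)` implies translation invariance.
`Nat6` : the natural environments of the windows (six groups of walls, two parities) and their first order
properties; `TrackW` : the output of the chapters A, B, C for the track; `ti_of_window` : the conclusion. -/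

namespace Pool.Agent.H44.FM.WG

open Pool.Agent.Q1.M4 Pool.Agent.H25.Q1.Close Pool.Agent.Q1.M6f Pool.Agent.Q1.M6f.Glue

variable {R : ℕ → ℝ} {F : Filter ℕ} {Ω : Set ℂ}

/-! ### The exponential response function -/

/-- the response function `i e^{-iz}` -/
noncomputable def gE (z : ℂ) : ℂ := Complex.I * Complex.exp (-(Complex.I * z))

lemma norm_gE (z : ℂ) : ‖gE z‖ = Real.exp z.im := by
  unfold gE
  rw [norm_mul, Complex.norm_I, one_mul, Complex.norm_exp]
  congr 1
  simp

lemma gE_shift (z : ℂ) : gE (z + (Real.pi / 2 : ℝ)) = -Complex.I * gE z := by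
  unfold gE
  have : -(Complex.I * (z + ((Real.pi / 2 : ℝ) : ℂ))) = -(Complex.I * z) + -(Real.pi / 2 * Complex.I) := by
    push_cast; ring
  rw [this, Complex.exp_add, Complex.exp_neg (Real.pi / 2 * Complex.I), Complex.exp_pi_div_two_mul_I,
    Complex.inv_I]
  ring

lemma gHyp_gE (Y : ℝ) : GHyp 1 1 Y gE where
  diff := by unfold gE; fun_prop
  bound := fun z _ => by rw [norm_gE, one_mul]
  sym := fun z _ => by
    unfold gE
    rw [map_mul, Complex.conj_I, ← Complex.exp_conj]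
    have e1 : -(Complex.I * ((Real.pi : ℂ) - (starRingEnd ℂ) z)) =
        -(Real.pi * Complex.I) + Complex.I * (starRingEnd ℂ) z := by ring
    have e2 : (starRingEnd ℂ) (-(Complex.I * z)) = Complex.I * (starRingEnd ℂ) z := by
      rw [map_neg, map_mul, Complex.conj_I]; ring
    rw [e1, e2, Complex.exp_add, Complex.exp_neg, Complex.exp_pi_mul_I]
    ring
  lower := by rw [norm_gE]; simp

/-! ### Translation invariance from the simple relation -/

lemma norm_lat_le (d : ℤ × ℤ) : ‖lat d‖ ≤ |(d.1 : ℝ)| + |(d.2 : ℝ)| := by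
  refine (Complex.norm_le_abs_re_add_abs_im _).trans (le_of_eq ?_)
  simp [lat]

lemma lat_sub' (u d : ℤ × ℤ) : lat (u - d) = lat u - lat d := by
  apply Complex.ext <;> simp [lat]

/-- shifted points stay in a thickening -/
lemma shift_mem' {K : Set ℂ} {s r : ℝ} (hs : 0 < s) (hr : 0 < r) {d : ℤ × ℤ} (hd : ‖lat d‖ / s < r)
    {u : ℤ × ℤ} (hu : lat u / (r : ℂ) ∈ K) : lat (u - d) / (r : ℂ) ∈ Metric.cthickening s K := by
  refine Metric.mem_cthickening_of_dist_le _ _ s _ hu ?_
  rw [dist_eq_norm, lat_sub']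
  have e1 : (lat u - lat d) / (r : ℂ) - lat u / (r : ℂ) = -(lat d / (r : ℂ)) := by ring
  rw [e1, norm_neg, norm_div, Complex.norm_real, Real.norm_of_nonneg hr.le]
  rw [div_lt_iff₀ hs] at hd
  rw [div_le_iff₀ hr]
  linarith

/-- **Translation invariance** from the discrete Cauchy-Riemann relation up to `o (1 / R)`. -/
theorem ti_of_simple {U : Ultrafilter ℕ} (hR : Tendsto R atTop atTop) (hU : (U : Filter ℕ) ≤ atTop)
    (hΩ : IsOpen Ω) {f ff fl : ℕ → ℤ × ℤ → ℂ} {g : ℂ → ℂ}
    (cff : ∀ K ⊆ Ω, IsCompact K → ∀ τ > 0, ∀ᶠ j in (U : Filter ℕ),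
      Cls {v | lat v / (R j : ℂ) ∈ K} τ (f j) (ff j))
    (cfl : ∀ K ⊆ Ω, IsCompact K → ∀ τ > 0, ∀ᶠ j in (U : Filter ℕ),
      Cls {v | lat v / (R j : ℂ) ∈ K} τ (f j) (fl j))
    (rel : ∀ K ⊆ Ω, IsCompact K → ∀ ε > 0, ∀ᶠ j in (U : Filter ℕ), ∀ u v : ℤ × ℤ,
      lat u / (R j : ℂ) ∈ K → lat v / (R j : ℂ) ∈ K →
      ‖(al 0 (ff j) u - al 0 (ff j) v) - Complex.I * (be 0 (fl j) u - be 0 (fl j) v)‖ ≤ ε / R j)
    (hlim : ILim R U f Ω g) (hg : ContinuousOn g Ω) : TI Ω g := by
  have hRU : Tendsto R U atTop := hR.mono_left hU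
  have h3 : ∀ t : ℝ, |t| ≤ 1 → ‖gE (pt t)‖ ≤ 3 := by
    intro t ht
    rw [norm_gE, pt_im]
    exact (Real.exp_le_exp.2 (abs_le.1 ht).2).trans (by linarith [Real.exp_one_lt_d9])
  have main : GlueIn R U Ω f (fun _ => 0) ff fl ff (fun j v => fl j (v - rr)) := by
    refine ⟨cff, cfl, cff, ?_, ?_, ?_⟩
    · intro K hK hKc τ hτ
      obtain ⟨s, hs, hsub⟩ := hKc.exists_cthickening_subset_open hΩ hK
      filter_upwards [cfl _ hsub hKc.cthickening (τ / 3) (by positivity), hRU.eventually_gt_atTop 0,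
        hRU.eventually_gt_atTop (‖lat rr‖ / s)] with j h1 h2 h4
      intro u hu v hv d hd1 hd2
      have hu0 : lat u / (R j : ℂ) ∈ Metric.cthickening s K := Metric.self_subset_cthickening _ hu
      have hv0 : lat v / (R j : ℂ) ∈ Metric.cthickening s K := Metric.self_subset_cthickening _ hv
      have hu1 := shift_mem' hs h2 h4 hu
      have hv1 := shift_mem' hs h2 h4 hv
      have a1 := h1 (u - rr) hu1 (v - rr) hv1 d hd1 hd2
      have a2 := h1 (u - rr) hu1 (v - rr) hv1 rr (by decide) (by decide)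
      have a3 := h1 u hu0 v hv0 0 (by decide) (by decide)
      rw [sub_add_cancel, sub_add_cancel] at a2
      rw [add_zero, add_zero] at a3
      have e1 : u + d - rr = u - rr + d := by abel
      have e2 : v + d - rr = v - rr + d := by abel
      show ‖(fl j (u + d - rr) - fl j (v + d - rr)) - (f j u - f j v)‖ ≤ τ
      rw [e1, e2]
      have e3 : (fl j (u - rr + d) - fl j (v - rr + d)) - (f j u - f j v) =
          ((fl j (u - rr + d) - fl j (v - rr + d)) - (f j (u - rr) - f j (v - rr))) -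
          ((fl j u - fl j v) - (f j (u - rr) - f j (v - rr))) +
          ((fl j u - fl j v) - (f j u - f j v)) := by ring
      rw [e3]
      have n1 := norm_add_le (((fl j (u - rr + d) - fl j (v - rr + d)) - (f j (u - rr) - f j (v - rr))) -
          ((fl j u - fl j v) - (f j (u - rr) - f j (v - rr)))) ((fl j u - fl j v) - (f j u - f j v))
      have n2 := norm_sub_le ((fl j (u - rr + d) - fl j (v - rr + d)) - (f j (u - rr) - f j (v - rr)))
          ((fl j u - fl j v) - (f j (u - rr) - f j (v - rr)))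
      linarith
    · intro K hK hKc
      refine ⟨1, 1, one_pos, fun ε hε Y => ?_⟩
      filter_upwards [rel K hK hKc (ε / 3) (by positivity), hRU.eventually_gt_atTop 0] with j h1 h2
      refine ⟨gE, gHyp_gE Y, fun t ht u v hu hv => ?_⟩
      have k := h1 u v hu hv
      rw [gE_shift]
      have e1 : gE (pt t) * (al ((fun _ => 0 : ℕ → ℤ × ℤ → ℂ) j) (ff j) u -
          al ((fun _ => 0 : ℕ → ℤ × ℤ → ℂ) j) (ff j) v) + -Complex.I * gE (pt t) *
          (be ((fun _ => 0 : ℕ → ℤ × ℤ → ℂ) j) (fl j) u -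
            be ((fun _ => 0 : ℕ → ℤ × ℤ → ℂ) j) (fl j) v) = gE (pt t) * ((al 0 (ff j) u -
          al 0 (ff j) v) - Complex.I * (be 0 (fl j) u - be 0 (fl j) v)) := by
        show gE (pt t) * (al 0 (ff j) u - al 0 (ff j) v) + -Complex.I * gE (pt t) *
          (be 0 (fl j) u - be 0 (fl j) v) = _
        ring
      rw [e1, norm_mul]
      refine (mul_le_mul (h3 t ht) k (norm_nonneg _) (by norm_num)).trans (le_of_eq ?_)
      ring
    · intro K hK hKc
      refine ⟨1, 1, one_pos, fun ε hε Y => ?_⟩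
      filter_upwards [rel K hK hKc (ε / 3) (by positivity), hRU.eventually_gt_atTop 0] with j h1 h2
      refine ⟨gE, gHyp_gE Y, fun t ht u v hu hv => ?_⟩
      have k := h1 u v hu hv
      rw [gE_shift]
      have e0 : ∀ v : ℤ × ℤ, be' 0 (fun v => fl j (v - rr)) v = -be 0 (fl j) v := by
        intro v
        unfold be' be
        show fl j (v - rr) - fl j (v + rr - rr) - 0 = -(fl j v - fl j (v - rr) - 0)
        rw [add_sub_cancel_right]
        ring
      have e1 : gE (pt t) * ((starRingEnd ℂ) (al ((fun _ => 0 : ℕ → ℤ × ℤ → ℂ) j) (ff j) u) -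
          (starRingEnd ℂ) (al ((fun _ => 0 : ℕ → ℤ × ℤ → ℂ) j) (ff j) v)) + -Complex.I * gE (pt t) *
          ((starRingEnd ℂ) (be' ((fun _ => 0 : ℕ → ℤ × ℤ → ℂ) j) (fun v => fl j (v - rr)) u) -
            (starRingEnd ℂ) (be' ((fun _ => 0 : ℕ → ℤ × ℤ → ℂ) j) (fun v => fl j (v - rr)) v)) =
          gE (pt t) * (starRingEnd ℂ) ((al 0 (ff j) u -
          al 0 (ff j) v) - Complex.I * (be 0 (fl j) u - be 0 (fl j) v)) := by
        show gE (pt t) * ((starRingEnd ℂ) (al 0 (ff j) u) - (starRingEnd ℂ) (al 0 (ff j) v)) +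
          -Complex.I * gE (pt t) * ((starRingEnd ℂ) (be' 0 (fun v => fl j (v - rr)) u) -
            (starRingEnd ℂ) (be' 0 (fun v => fl j (v - rr)) v)) = _
        rw [e0, e0]
        simp only [map_sub, map_mul, map_neg, Complex.conj_I]
        ring
      rw [e1, norm_mul, Complex.norm_conj]
      refine (mul_le_mul (h3 t ht) k (norm_nonneg _) (by norm_num)).trans (le_of_eq ?_)
      ring
  exact main.ti hR hU hΩ hlim hg

/-! ### Calculus of `Agree` -/

/-- shift -/
def Sh (d : ℤ × ℤ) (A : ℕ → ℤ × ℤ → ℂ) : ℕ → ℤ × ℤ → ℂ := fun j v => A j (v - d)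

variable {A B C D A' B' : ℕ → ℤ × ℤ → ℂ}

lemma ag_symm (h : Agree R F Ω A B) : Agree R F Ω B A := by
  intro K hK hKc ε hε
  filter_upwards [h K hK hKc ε hε] with j hj u v hu hv
  rw [norm_sub_rev]
  exact hj u v hu hv

lemma ag_trans (h1 : Agree R F Ω A B) (h2 : Agree R F Ω B C) : Agree R F Ω A C := by
  intro K hK hKc ε hε
  filter_upwards [h1 K hK hKc (ε / 2) (by positivity), h2 K hK hKc (ε / 2) (by positivity)] with j a b u v hu hv
  have k1 := a u v hu hv
  have k2 := b u v hu hv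
  have e : (C j u - C j v) - (A j u - A j v) = ((C j u - C j v) - (B j u - B j v)) +
      ((B j u - B j v) - (A j u - A j v)) := by ring
  rw [e]
  refine (norm_add_le _ _).trans ?_
  have : ε / R j = ε / 2 / R j + ε / 2 / R j := by ring
  linarith

lemma ag_add (h1 : Agree R F Ω A B) (h2 : Agree R F Ω C D) : Agree R F Ω (A + C) (B + D) := by
  intro K hK hKc ε hε
  filter_upwards [h1 K hK hKc (ε / 2) (by positivity), h2 K hK hKc (ε / 2) (by positivity)] with j a b u v hu hv
  have k1 := a u v hu hv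
  have k2 := b u v hu hv
  have e : ((B + D) j u - (B + D) j v) - ((A + C) j u - (A + C) j v) =
      ((B j u - B j v) - (A j u - A j v)) + ((D j u - D j v) - (C j u - C j v)) := by
    simp only [Pi.add_apply]; ring
  rw [e]
  refine (norm_add_le _ _).trans ?_
  have : ε / R j = ε / 2 / R j + ε / 2 / R j := by ring
  linarith

lemma ag_neg (h1 : Agree R F Ω A B) : Agree R F Ω (-A) (-B) := by
  intro K hK hKc ε hε
  filter_upwards [h1 K hK hKc ε hε] with j a u v hu hv
  have e : ((-B) j u - (-B) j v) - ((-A) j u - (-A) j v) = -((B j u - B j v) - (A j u - A j v)) := by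
    simp only [Pi.neg_apply]; ring
  rw [e, norm_neg]
  exact a u v hu hv

lemma ag_sub (h1 : Agree R F Ω A B) (h2 : Agree R F Ω C D) : Agree R F Ω (A - C) (B - D) := by
  rw [sub_eq_add_neg, sub_eq_add_neg]
  exact ag_add h1 (ag_neg h2)

lemma ag_sh (hR : Tendsto R F atTop) (hΩ : IsOpen Ω) (h : Agree R F Ω A B) (d : ℤ × ℤ) :
    Agree R F Ω (Sh d A) (Sh d B) := by
  intro K hK hKc ε hε
  obtain ⟨s, hs, hsub⟩ := hKc.exists_cthickening_subset_open hΩ hK
  filter_upwards [h _ hsub hKc.cthickening ε hε, hR.eventually_gt_atTop 0,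
    hR.eventually_gt_atTop (‖lat d‖ / s)] with j h1 h2 h3 u v hu hv
  exact h1 _ _ (shift_mem' hs h2 h3 hu) (shift_mem' hs h2 h3 hv)

/-- The values at horizontally adjacent points agree up to `o (1 / R)`. -/
def AdjR (R : ℕ → ℝ) (F : Filter ℕ) (Ω : Set ℂ) (A : ℕ → ℤ × ℤ → ℂ) : Prop :=
  ∀ K ⊆ Ω, IsCompact K → ∀ ε > 0, ∀ᶠ j in F, ∀ v : ℤ × ℤ, lat v / (R j : ℂ) ∈ K →
    ‖A j v - A j (v - rr)‖ ≤ ε / R j

lemma ag_of_adj (h : Adj R F Ω A) : Agree R F Ω (Sh uu A) A := by
  intro K hK hKc ε hε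
  filter_upwards [h K hK hKc (ε / 2) (by positivity)] with j h1 u v hu hv
  have e : A j u - A j v - (Sh uu A j u - Sh uu A j v) = (A j u - A j (u - uu)) - (A j v - A j (v - uu)) := by
    unfold Sh; ring
  rw [e]
  refine (norm_sub_le _ _).trans ?_
  have : ε / R j = ε / 2 / R j + ε / 2 / R j := by ring
  linarith [h1 u hu, h1 v hv]

lemma ag_of_adjR (h : AdjR R F Ω A) : Agree R F Ω (Sh rr A) A := by
  intro K hK hKc ε hε
  filter_upwards [h K hK hKc (ε / 2) (by positivity)] with j h1 u v hu hv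
  have e : A j u - A j v - (Sh rr A j u - Sh rr A j v) = (A j u - A j (u - rr)) - (A j v - A j (v - rr)) := by
    unfold Sh; ring
  rw [e]
  refine (norm_sub_le _ _).trans ?_
  have : ε / R j = ε / 2 / R j + ε / 2 / R j := by ring
  linarith [h1 u hu, h1 v hv]

lemma adj_sub (h1 : Adj R F Ω A) (h2 : Adj R F Ω B) : Adj R F Ω (A - B) := by
  intro K hK hKc ε hε
  filter_upwards [h1 K hK hKc (ε / 2) (by positivity), h2 K hK hKc (ε / 2) (by positivity)] with j a b v hv
  have e : (A - B) j v - (A - B) j (v - uu) = (A j v - A j (v - uu)) - (B j v - B j (v - uu)) := by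
    simp only [Pi.sub_apply]; ring
  rw [e]
  refine (norm_sub_le _ _).trans ?_
  have : ε / R j = ε / 2 / R j + ε / 2 / R j := by ring
  linarith [a v hv, b v hv]

lemma ag_smul (c : ℂ) (h : Agree R F Ω A B) : Agree R F Ω (c • A) (c • B) := by
  intro K hK hKc ε hε
  filter_upwards [h K hK hKc (ε / (‖c‖ + 1)) (by positivity)] with j a u v hu hv
  have e : ((c • B) j u - (c • B) j v) - ((c • A) j u - (c • A) j v) =
      c * ((B j u - B j v) - (A j u - A j v)) := by
    simp only [Pi.smul_apply, smul_eq_mul]; ring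
  rw [e, norm_mul]
  have k := a u v hu hv
  have hR0 : 0 ≤ ε / (‖c‖ + 1) / R j := (norm_nonneg _).trans k
  have h1 : ‖c‖ * ‖(B j u - B j v) - (A j u - A j v)‖ ≤ (‖c‖ + 1) * (ε / (‖c‖ + 1) / R j) :=
    mul_le_mul (by linarith) k (norm_nonneg _) (by positivity)
  refine h1.trans (le_of_eq ?_)
  field_simp

lemma sh_add (d : ℤ × ℤ) : Sh d (A + B) = Sh d A + Sh d B := rfl
lemma sh_sub (d : ℤ × ℤ) : Sh d (A - B) = Sh d A - Sh d B := rfl
lemma sh_smul (d : ℤ × ℤ) (c : ℂ) : Sh d (c • A) = c • Sh d A := rfl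

/-! ### The natural environments of a window -/

/-- the groups of walls: floors, ceilings, left walls on the lower and on the upper arc, right walls on the
lower and on the upper arc -/
inductive Gr | fo | ce | ll | lu | rl | ru
  deriving DecidableEq

open Gr

/-- the response of the group `g` -/
def XG (N : Bool → Finset Gr → ℕ → ℤ × ℤ → ℂ) (p : Bool) (g : Gr) : ℕ → ℤ × ℤ → ℂ := N p {g} - N p ∅

/-- **Natural inputs**: `N p s` is the normalised potential of the natural window of parity `p`, the walls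
of the groups in `s` being pushed out by one row or column. All statements up to `o (1 / R)`. -/
structure Nat6 (R : ℕ → ℝ) (F : Filter ℕ) (Ω : Set ℂ) (N : Bool → Finset Gr → ℕ → ℤ × ℤ → ℂ) : Prop where
  /-- responses at adjacent points -/
  adj : ∀ p g, Adj R F Ω (XG N p g)
  adjR : ∀ p g, AdjR R F Ω (XG N p g)
  /-- mixed differences: a horizontal and a vertical group -/
  mixV : ∀ p, ∀ a ∈ ({fo, ce} : Finset Gr), ∀ g ∈ ({ll, lu, rl, ru} : Finset Gr),
    Agree R F Ω (XG N p g) (N p {a, g} - N p {a})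
  mixL : ∀ p, ∀ a ∈ ({fo, ce} : Finset Gr), Agree R F Ω (XG N p a) (N p {a, ll, lu} - N p {ll, lu})
  mixR : ∀ p, ∀ a ∈ ({fo, ce} : Finset Gr), Agree R F Ω (XG N p a) (N p {a, rl, ru} - N p {rl, ru})
  /-- mixed differences: the left walls of the two arcs, the right walls of the two arcs -/
  mixl : ∀ p, Agree R F Ω (XG N p ll) (N p {ll, lu} - N p {lu})
  mixr : ∀ p, Agree R F Ω (XG N p rl) (N p {rl, ru} - N p {ru})
  /-- translation by one row -/
  s1 : ∀ p, Agree R F Ω (Sh uu (N p {fo})) (N (!p) {ce})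
  s1' : ∀ p, ∀ g ∈ ({ll, lu, rl, ru} : Finset Gr), Agree R F Ω (Sh uu (N p {fo, g})) (N (!p) {ce, g})
  /-- translation by one column -/
  s2 : ∀ p, Agree R F Ω (Sh rr (N p {ll, lu})) (N (!p) {rl, ru})
  s2' : ∀ p, ∀ a ∈ ({fo, ce} : Finset Gr), Agree R F Ω (Sh rr (N p {a, ll, lu})) (N (!p) {a, rl, ru})

variable {N : Bool → Finset Gr → ℕ → ℤ × ℤ → ℂ}

/-- the responses of the vertical walls are the same in the two worlds -/
theorem Nat6.xv (H : Nat6 R F Ω N) (hR : Tendsto R F atTop) (hΩ : IsOpen Ω) (p : Bool) {g : Gr}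
    (hg : g ∈ ({ll, lu, rl, ru} : Finset Gr)) : Agree R F Ω (XG N p g) (XG N (!p) g) := by
  have h1 : Agree R F Ω (XG N p g) (Sh uu (XG N p g)) := ag_symm (ag_of_adj (H.adj p g))
  have h2 : Agree R F Ω (Sh uu (XG N p g)) (Sh uu (N p {fo, g} - N p {fo})) :=
    ag_sh hR hΩ (H.mixV p fo (by simp) g hg) uu
  have h3 : Agree R F Ω (Sh uu (N p {fo, g} - N p {fo})) (N (!p) {ce, g} - N (!p) {ce}) := by
    rw [sh_sub]
    exact ag_sub (H.s1' p g hg) (H.s1 p)
  exact ag_trans h1 (ag_trans h2 (ag_trans h3 (ag_symm (H.mixV (!p) ce (by simp) g hg))))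

/-- the responses of the horizontal walls are the same in the two worlds -/
theorem Nat6.xh (H : Nat6 R F Ω N) (hR : Tendsto R F atTop) (hΩ : IsOpen Ω) (p : Bool) {a : Gr}
    (ha : a ∈ ({fo, ce} : Finset Gr)) : Agree R F Ω (XG N p a) (XG N (!p) a) := by
  have h1 : Agree R F Ω (XG N p a) (Sh rr (XG N p a)) := ag_symm (ag_of_adjR (H.adjR p a))
  have h2 : Agree R F Ω (Sh rr (XG N p a)) (Sh rr (N p {a, ll, lu} - N p {ll, lu})) :=
    ag_sh hR hΩ (H.mixL p a ha) rr
  have h3 : Agree R F Ω (Sh rr (N p {a, ll, lu} - N p {ll, lu})) (N (!p) {a, rl, ru} - N (!p) {rl, ru}) := by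
    rw [sh_sub]
    exact ag_sub (H.s2' p a ha) (H.s2 p)
  exact ag_trans h1 (ag_trans h2 (ag_trans h3 (ag_symm (H.mixR (!p) a ha))))

/-- left minus right -/
theorem Nat6.lr (H : Nat6 R F Ω N) (hR : Tendsto R F atTop) (p : Bool) :
    Agree R F Ω (XG N p ll + XG N p lu - XG N p rl - XG N p ru) (N p {ll, lu} - N p {rl, ru}) := by
  have h1 := ag_sub (H.mixl p) (H.mixr p)
  have h2 := ag_add h1 (Agree.refl hR (A := XG N p lu - XG N p ru))
  have e1 : XG N p ll - XG N p rl + (XG N p lu - XG N p ru) =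
      XG N p ll + XG N p lu - XG N p rl - XG N p ru := by abel
  have e2 : N p {ll, lu} - N p {lu} - (N p {rl, ru} - N p {ru}) + (XG N p lu - XG N p ru) =
      N p {ll, lu} - N p {rl, ru} := by
    unfold XG; abel
  rw [e1, e2] at h2
  exact h2

/-- **The relation of the responses for the track** (lower world `0`, upper world `1`). -/
def RelW (R : ℕ → ℝ) (F : Filter ℕ) (Ω : Set ℂ) (N : Bool → Finset Gr → ℕ → ℤ × ℤ → ℂ) : Prop :=
  Agree R F Ω (Complex.I • ((XG N false ll - XG N true ru) - (XG N false rl - XG N true lu)))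
    (XG N false fo - XG N true ce)

/-- the relation in each world -/
theorem Nat6.relp (H : Nat6 R F Ω N) (hR : Tendsto R F atTop) (hΩ : IsOpen Ω) (hr : RelW R F Ω N)
    (p : Bool) : Agree R F Ω (Complex.I • (N p {ll, lu} - N p {rl, ru})) (N p {fo} - N p {ce}) := by
  have toP : ∀ g, g ∈ ({ll, lu, rl, ru} : Finset Gr) → ∀ q, Agree R F Ω (XG N p g) (XG N q g) := by
    intro g hg q
    rcases Bool.eq_or_eq_not q p with h | h
    · rw [h]; exact Agree.refl hR
    · rw [h]; exact H.xv hR hΩ p hg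
  have toH : ∀ a, a ∈ ({fo, ce} : Finset Gr) → ∀ q, Agree R F Ω (XG N p a) (XG N q a) := by
    intro g hg q
    rcases Bool.eq_or_eq_not q p with h | h
    · rw [h]; exact Agree.refl hR
    · rw [h]; exact H.xh hR hΩ p hg
  have h1 : Agree R F Ω (Complex.I • (XG N p ll + XG N p lu - XG N p rl - XG N p ru))
      (Complex.I • ((XG N false ll - XG N true ru) - (XG N false rl - XG N true lu))) := by
    apply ag_smul
    have k := ag_sub (ag_sub (toP ll (by simp) false) (toP ru (by simp) true))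
      (ag_sub (toP rl (by simp) false) (toP lu (by simp) true))
    have e1 : XG N p ll - XG N p ru - (XG N p rl - XG N p lu) =
        XG N p ll + XG N p lu - XG N p rl - XG N p ru := by abel
    rw [e1] at k
    exact k
  have h2 : Agree R F Ω (XG N false fo - XG N true ce) (N p {fo} - N p {ce}) := by
    have k := ag_sub (ag_symm (toH fo (by simp) false)) (ag_symm (toH ce (by simp) true))
    have e1 : XG N p fo - XG N p ce = N p {fo} - N p {ce} := by unfold XG; abel
    rw [e1] at k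
    exact k
  exact ag_trans (ag_symm (ag_smul _ (H.lr hR p))) (ag_trans h1 (ag_trans hr h2))

/-- the mean of the two worlds -/
noncomputable def mn (A B : ℕ → ℤ × ℤ → ℂ) : ℕ → ℤ × ℤ → ℂ := (1 / 2 : ℂ) • (A + B)

/-- **The discrete Cauchy-Riemann relation** for the means of the two worlds. -/
theorem Nat6.cr (H : Nat6 R F Ω N) (hR : Tendsto R F atTop) (hΩ : IsOpen Ω) (hr : RelW R F Ω N) :
    Agree R F Ω
      (Complex.I • (mn (N false {ll, lu}) (N true {ll, lu}) - Sh rr (mn (N false {ll, lu}) (N true {ll, lu}))))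
      (mn (N false {fo}) (N true {fo}) - Sh uu (mn (N false {fo}) (N true {fo}))) := by
  have h0 := ag_add (H.relp hR hΩ hr false) (H.relp hR hΩ hr true)
  have hv := ag_add (H.s1 true) (H.s1 false)
  have hh := ag_add (H.s2 true) (H.s2 false)
  simp only [Bool.not_true, Bool.not_false] at hv hh
  -- left side
  have l1 : Agree R F Ω (Complex.I • ((N false {ll, lu} + N true {ll, lu}) -
      (Sh rr (N true {ll, lu}) + Sh rr (N false {ll, lu}))))
      (Complex.I • (N false {ll, lu} - N false {rl, ru}) + Complex.I • (N true {ll, lu} - N true {rl, ru})) := by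
    have k := ag_smul Complex.I (ag_sub (Agree.refl hR (A := N false {ll, lu} + N true {ll, lu})) hh)
    have e1 : Complex.I • (N false {ll, lu} + N true {ll, lu} - (N false {rl, ru} + N true {rl, ru})) =
        Complex.I • (N false {ll, lu} - N false {rl, ru}) +
          Complex.I • (N true {ll, lu} - N true {rl, ru}) := by
      rw [← smul_add]; congr 1; abel
    rw [e1] at k
    exact k
  have r1 : Agree R F Ω (N false {fo} - N false {ce} + (N true {fo} - N true {ce}))
      ((N false {fo} + N true {fo}) - (Sh uu (N true {fo}) + Sh uu (N false {fo}))) := by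
    have k := ag_sub (Agree.refl hR (A := N false {fo} + N true {fo})) (ag_symm hv)
    have e1 : N false {fo} + N true {fo} - (N false {ce} + N true {ce}) =
        N false {fo} - N false {ce} + (N true {fo} - N true {ce}) := by abel
    rw [e1] at k
    exact k
  have k := ag_smul (1 / 2 : ℂ) (ag_trans l1 (ag_trans h0 r1))
  have e1 : (1 / 2 : ℂ) • (Complex.I • ((N false {ll, lu} + N true {ll, lu}) -
      (Sh rr (N true {ll, lu}) + Sh rr (N false {ll, lu})))) =
      (Complex.I • (mn (N false {ll, lu}) (N true {ll, lu}) -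
        Sh rr (mn (N false {ll, lu}) (N true {ll, lu})))) := by
    unfold mn
    rw [sh_smul, sh_add, ← smul_sub, smul_comm]
    congr 3
    abel
  have e2 : (1 / 2 : ℂ) • ((N false {fo} + N true {fo}) - (Sh uu (N true {fo}) + Sh uu (N false {fo}))) =
      (mn (N false {fo}) (N true {fo}) - Sh uu (mn (N false {fo}) (N true {fo}))) := by
    unfold mn
    rw [sh_smul, sh_add, ← smul_sub]
    congr 2
    abel
  rw [e1, e2] at k
  exact k

/-! ### The track -/

lemma adj_smul (c : ℂ) (h : Adj R F Ω A) : Adj R F Ω (c • A) := by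
  intro K hK hKc ε hε
  filter_upwards [h K hK hKc (ε / (‖c‖ + 1)) (by positivity)] with j a v hv
  have e : (c • A) j v - (c • A) j (v - uu) = c * (A j v - A j (v - uu)) := by
    simp only [Pi.smul_apply, smul_eq_mul]; ring
  rw [e, norm_mul]
  have k := a v hv
  have hR0 : 0 ≤ ε / (‖c‖ + 1) / R j := (norm_nonneg _).trans k
  have h1 : ‖c‖ * ‖A j v - A j (v - uu)‖ ≤ (‖c‖ + 1) * (ε / (‖c‖ + 1) / R j) :=
    mul_le_mul (by linarith) k (norm_nonneg _) (by positivity)
  refine h1.trans (le_of_eq ?_)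
  field_simp

/-- From the even rows to all rows. -/
lemma all_of_even (hR : Tendsto R F atTop) (hΩ : IsOpen Ω) (hA : Adj R F Ω A)
    (hE : ∀ K ⊆ Ω, IsCompact K → ∀ ε > 0, ∀ᶠ j in F, ∀ u v : ℤ × ℤ, Ev u → Ev v →
      lat u / (R j : ℂ) ∈ K → lat v / (R j : ℂ) ∈ K → ‖A j u - A j v‖ ≤ ε / R j) :
    ∀ K ⊆ Ω, IsCompact K → ∀ ε > 0, ∀ᶠ j in F, ∀ u v : ℤ × ℤ,
      lat u / (R j : ℂ) ∈ K → lat v / (R j : ℂ) ∈ K → ‖A j u - A j v‖ ≤ ε / R j := by
  intro K hK hKc ε hε
  obtain ⟨s, hs, hsub⟩ := hKc.exists_cthickening_subset_open hΩ hK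
  filter_upwards [hE _ hsub hKc.cthickening (ε / 3) (by positivity), hA K hK hKc (ε / 3) (by positivity),
    hR.eventually_gt_atTop 0, hR.eventually_gt_atTop (‖lat uu‖ / s)] with j h1 h2 h3 h4
  have nb : ∀ v : ℤ × ℤ, lat v / (R j : ℂ) ∈ K → ∃ v' : ℤ × ℤ, Ev v' ∧
      lat v' / (R j : ℂ) ∈ Metric.cthickening s K ∧ ‖A j v - A j v'‖ ≤ ε / 3 / R j := by
    intro v hv
    rcases Int.emod_two_eq_zero_or_one v.2 with h0 | h0
    · refine ⟨v, h0, Metric.self_subset_cthickening _ hv, ?_⟩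
      rw [sub_self, norm_zero]; positivity
    · refine ⟨v - uu, ?_, shift_mem' hs h3 h4 hv, h2 v hv⟩
      unfold Ev uu
      simp only [Prod.snd_sub]
      omega
  intro u v hu hv
  obtain ⟨u', eu, hu', a1⟩ := nb u hu
  obtain ⟨v', ev, hv', a2⟩ := nb v hv
  have k := h1 u' v' eu ev hu' hv'
  have e : A j u - A j v = (A j u - A j u') + (A j u' - A j v') - (A j v - A j v') := by ring
  rw [e]
  have n1 := norm_sub_le ((A j u - A j u') + (A j u' - A j v')) (A j v - A j v')
  have n2 := norm_add_le (A j u - A j u') (A j u' - A j v')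
  have : ε / R j = ε / 3 / R j + ε / 3 / R j + ε / 3 / R j := by ring
  linarith

/-- **Input for the track of a window** (all functions normalised by `R ^ (-2/3)`): `V j n` is the difference
`H_low - H_up` at the rapidity `π / 2 + i log n`, `e` the same for the natural environments, `A`, `B`, `B'`
the responses (low minus up) of the walls passed in direction E, S, N. -/
structure TrackW (R : ℕ → ℝ) (F : Filter ℕ) (Ω : Set ℂ) (V : ℕ → ℕ → ℤ × ℤ → ℂ)
    (e A B B' : ℕ → ℤ × ℤ → ℂ) : Prop where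
  ee : ∀ K ⊆ Ω, IsCompact K → ∀ ε > 0, ∀ᶠ j in F, ∀ u v : ℤ × ℤ, Ev u → Ev v →
    lat u / (R j : ℂ) ∈ K → lat v / (R j : ℂ) ∈ K → ‖e j u - e j v‖ ≤ ε
  ab : ∀ K ⊆ Ω, IsCompact K → ∃ ρ1 > 0, ∀ ρ : ℝ, 0 < ρ → ρ < ρ1 → ∀ ε > 0, ∀ᶠ j in F,
    ∀ u v : ℤ × ℤ, Ev u → Ev v → lat u / (R j : ℂ) ∈ K → lat v / (R j : ℂ) ∈ K →
    ‖V j ⌊ρ * R j⌋₊ u - V j ⌊ρ * R j⌋₊ v‖ ≤ ε
  cc : ∀ K ⊆ Ω, IsCompact K → ∃ c : ℝ, 0 < c ∧ ∀ ε > 0, ∃ ρ1 > 0, ∀ ρ : ℝ, 0 < ρ → ρ < ρ1 →
    ∀ᶠ j in F, ∃ g0 gp gm : ℂ, c ≤ ‖g0‖ ∧ ‖gp + Complex.I * g0‖ ≤ ε ∧ ‖gm - Complex.I * g0‖ ≤ ε ∧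
    ∀ u v : ℤ × ℤ, Ev u → Ev v → lat u / (R j : ℂ) ∈ K → lat v / (R j : ℂ) ∈ K →
    ‖(V j ⌊ρ * R j⌋₊ u - V j ⌊ρ * R j⌋₊ v) - (e j u - e j v) -
      (⌊ρ * R j⌋₊ : ℂ) * (g0 * (A j u - A j v) + gp * (B j u - B j v) + gm * (B' j u - B' j v))‖ ≤ ε * ρ
  bd : ∀ K ⊆ Ω, IsCompact K → ∃ C : ℝ, ∀ᶠ j in F, ∀ u v : ℤ × ℤ, Ev u → Ev v →
    lat u / (R j : ℂ) ∈ K → lat v / (R j : ℂ) ∈ K →
    ‖B j u - B j v‖ ≤ C / R j ∧ ‖B' j u - B' j v‖ ≤ C / R j
  adA : Adj R F Ω A
  adB : Adj R F Ω B
  adB' : Adj R F Ω B'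

/-- **The relation of the responses.** -/
theorem TrackW.rel (hR : Tendsto R F atTop) (hΩ : IsOpen Ω) {V : ℕ → ℕ → ℤ × ℤ → ℂ}
    {e A B B' : ℕ → ℤ × ℤ → ℂ} (h : TrackW R F Ω V e A B B') :
    Agree R F Ω (Complex.I • (B - B')) A := by
  have hW : Adj R F Ω (A - Complex.I • (B - B')) := adj_sub h.adA (adj_smul _ (adj_sub h.adB h.adB'))
  have main : ∀ K ⊆ Ω, IsCompact K → ∀ ε > 0, ∀ᶠ j in F, ∀ u v : ℤ × ℤ, Ev u → Ev v →
      lat u / (R j : ℂ) ∈ K → lat v / (R j : ℂ) ∈ K →
      ‖(A - Complex.I • (B - B')) j u - (A - Complex.I • (B - B')) j v‖ ≤ ε / R j := by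
    intro K hK hKc ε hε
    obtain ⟨c, hc, hcc⟩ := h.cc K hK hKc
    obtain ⟨CB, hCB⟩ := h.bd K hK hKc
    obtain ⟨ρ2, hρ2, hab⟩ := h.ab K hK hKc
    set ε1 : ℝ := c * ε / (6 + 2 * |CB|) with hε1
    have hden : 0 < 6 + 2 * |CB| := by positivity
    have hε1p : 0 < ε1 := by positivity
    obtain ⟨ρ3, hρ3, hcc⟩ := hcc ε1 hε1p
    set ρ : ℝ := min ρ2 ρ3 / 2 with hρ
    have hm : 0 < min ρ2 ρ3 := lt_min hρ2 hρ3
    have hρ0 : 0 < ρ := by rw [hρ]; positivity
    have hρm : ρ < min ρ2 ρ3 := by rw [hρ]; linarith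
    have l2 : ρ < ρ2 := hρm.trans_le (min_le_left _ _)
    have l3 : ρ < ρ3 := hρm.trans_le (min_le_right _ _)
    filter_upwards [h.ee K hK hKc (ε1 * ρ) (by positivity), hab ρ hρ0 l2 (ε1 * ρ) (by positivity),
      hcc ρ hρ0 l3, hCB, hR.eventually_gt_atTop 0, hR.eventually_gt_atTop (2 / ρ)] with j h3 h4 h5 h8 h6 h7
    set n : ℕ := ⌊ρ * R j⌋₊ with hn
    have hρR : 2 < ρ * R j := by rw [div_lt_iff₀ hρ0] at h7; linarith
    have hnlt := Nat.lt_floor_add_one (ρ * R j)
    rw [← hn] at hnlt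
    have hn2 : ρ * R j / 2 ≤ n := by linarith
    obtain ⟨g0, gp, gm, c0, c1, c2, h5⟩ := h5
    intro u v eu ev hu hv
    have k1 := h4 u v eu ev hu hv
    have k2 := h3 u v eu ev hu hv
    have k3 := h5 u v eu ev hu hv
    obtain ⟨b1, b2⟩ := h8 u v eu ev hu hv
    set S : ℂ := g0 * (A j u - A j v) + gp * (B j u - B j v) + gm * (B' j u - B' j v) with hS
    have k4 : ‖(n : ℂ) * S‖ ≤ 3 * ε1 * ρ := by
      have e0 : (n : ℂ) * S = (V j n u - V j n v) - (e j u - e j v) -
          ((V j n u - V j n v) - (e j u - e j v) - (n : ℂ) * S) := by ring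
      rw [e0]
      have a1 := norm_sub_le ((V j n u - V j n v) - (e j u - e j v))
        ((V j n u - V j n v) - (e j u - e j v) - (n : ℂ) * S)
      have a2 := norm_sub_le (V j n u - V j n v) (e j u - e j v)
      linarith
    rw [norm_mul, Complex.norm_natCast] at k4
    have k5 : ‖S‖ * R j ≤ 6 * ε1 := by
      have h8 : ρ * R j / 2 * ‖S‖ ≤ 3 * ε1 * ρ := (mul_le_mul_of_nonneg_right hn2 (norm_nonneg _)).trans k4
      have h9 : ρ * (‖S‖ * R j) ≤ ρ * (6 * ε1) := by linarith
      exact le_of_mul_le_mul_left h9 hρ0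
    -- replace the coefficients
    set W : ℂ := (A j u - A j v) - Complex.I * ((B j u - B j v) - (B' j u - B' j v)) with hWd
    have e1 : (A - Complex.I • (B - B')) j u - (A - Complex.I • (B - B')) j v = W := by
      simp only [Pi.sub_apply, Pi.smul_apply, smul_eq_mul, hWd]
      ring
    rw [e1]
    have e2 : g0 * W = S - (gp + Complex.I * g0) * (B j u - B j v) -
        (gm - Complex.I * g0) * (B' j u - B' j v) := by
      rw [hS, hWd]; ring
    have b1' : ‖B j u - B j v‖ ≤ |CB| / R j :=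
      b1.trans (div_le_div_of_nonneg_right (le_abs_self _) h6.le)
    have b2' : ‖B' j u - B' j v‖ ≤ |CB| / R j :=
      b2.trans (div_le_div_of_nonneg_right (le_abs_self _) h6.le)
    have k6 : ‖g0 * W‖ ≤ ‖S‖ + ε1 * (|CB| / R j) + ε1 * (|CB| / R j) := by
      rw [e2]
      have a1 := norm_sub_le (S - (gp + Complex.I * g0) * (B j u - B j v))
        ((gm - Complex.I * g0) * (B' j u - B' j v))
      have a2 := norm_sub_le S ((gp + Complex.I * g0) * (B j u - B j v))
      have a3 : ‖(gp + Complex.I * g0) * (B j u - B j v)‖ ≤ ε1 * (|CB| / R j) := by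
        rw [norm_mul]
        exact mul_le_mul c1 b1' (norm_nonneg _) hε1p.le
      have a4 : ‖(gm - Complex.I * g0) * (B' j u - B' j v)‖ ≤ ε1 * (|CB| / R j) := by
        rw [norm_mul]
        exact mul_le_mul c2 b2' (norm_nonneg _) hε1p.le
      linarith
    rw [norm_mul] at k6
    have k7 : c * ‖W‖ * R j ≤ (6 + 2 * |CB|) * ε1 := by
      have h1 : c * ‖W‖ ≤ ‖S‖ + ε1 * (|CB| / R j) + ε1 * (|CB| / R j) :=
        (mul_le_mul_of_nonneg_right c0 (norm_nonneg _)).trans k6
      have h2 := mul_le_mul_of_nonneg_right h1 h6.le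
      have h3 : (‖S‖ + ε1 * (|CB| / R j) + ε1 * (|CB| / R j)) * R j = ‖S‖ * R j + 2 * |CB| * ε1 := by
        field_simp
        ring
      rw [h3] at h2
      linarith
    have k8 : (6 + 2 * |CB|) * ε1 = c * ε := by
      rw [hε1]; field_simp
    rw [k8] at k7
    rw [le_div_iff₀ h6]
    have k9 : c * (‖W‖ * R j) ≤ c * ε := by linarith
    exact le_of_mul_le_mul_left k9 hc
  intro K hK hKc ε hε
  filter_upwards [all_of_even hR hΩ hW main K hK hKc ε hε] with j h1 u v hu hv
  have k := h1 u v hu hv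
  have e1 : (A j u - A j v) - ((Complex.I • (B - B')) j u - (Complex.I • (B - B')) j v) =
      (A - Complex.I • (B - B')) j u - (A - Complex.I • (B - B')) j v := by
    simp only [Pi.sub_apply, Pi.smul_apply, smul_eq_mul]
    ring
  rw [e1]
  exact k

/-- **Windows**: translation invariance of the limit from the relation of the responses and the natural
inputs. `f` is the observable of the window (only its limit matters). -/
theorem ti_of_relW {U : Ultrafilter ℕ} (hR : Tendsto R atTop atTop) (hU : (U : Filter ℕ) ≤ atTop)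
    (hΩ : IsOpen Ω) {f : ℕ → ℤ × ℤ → ℂ} {g : ℂ → ℂ} (H : Nat6 R U Ω N) (hr : RelW R U Ω N)
    (cl : ∀ p : Bool, ∀ s ∈ ({{fo}, {ll, lu}} : Finset (Finset Gr)), ∀ K ⊆ Ω, IsCompact K → ∀ τ > 0,
      ∀ᶠ j in (U : Filter ℕ), Cls {v | lat v / (R j : ℂ) ∈ K} τ (f j) (N p s j))
    (hlim : ILim R U f Ω g) (hg : ContinuousOn g Ω) : TI Ω g := by
  have hRU : Tendsto R U atTop := hR.mono_left hU
  have hcr := H.cr hRU hΩ hr
  have cmean : ∀ s ∈ ({{fo}, {ll, lu}} : Finset (Finset Gr)), ∀ K ⊆ Ω, IsCompact K → ∀ τ > 0,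
      ∀ᶠ j in (U : Filter ℕ), Cls {v | lat v / (R j : ℂ) ∈ K} τ (f j) (mn (N false s) (N true s) j) := by
    intro s hs K hK hKc τ hτ
    filter_upwards [cl false s hs K hK hKc τ hτ, cl true s hs K hK hKc τ hτ] with j h1 h2
    intro u hu v hv d hd1 hd2
    have a1 := h1 u hu v hv d hd1 hd2
    have a2 := h2 u hu v hv d hd1 hd2
    have e1 : (mn (N false s) (N true s) j (u + d) - mn (N false s) (N true s) j (v + d)) -
        (f j u - f j v) = (1 / 2 : ℂ) * (((N false s j (u + d) - N false s j (v + d)) - (f j u - f j v)) +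
        ((N true s j (u + d) - N true s j (v + d)) - (f j u - f j v))) := by
      unfold mn
      simp only [Pi.smul_apply, Pi.add_apply, smul_eq_mul]
      ring
    rw [e1, norm_mul]
    have n1 := norm_add_le ((N false s j (u + d) - N false s j (v + d)) - (f j u - f j v))
      ((N true s j (u + d) - N true s j (v + d)) - (f j u - f j v))
    have n2 : ‖(1 / 2 : ℂ)‖ = 1 / 2 := by norm_num
    rw [n2]
    linarith
  refine ti_of_simple hR hU hΩ (cmean {fo} (by simp)) (cmean {ll, lu} (by simp)) ?_ hlim hg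
  intro K hK hKc ε hε
  filter_upwards [hcr K hK hKc ε hε] with j h1 u v hu hv
  have k := h1 u v hu hv
  have e1 : (al 0 (mn (N false {fo}) (N true {fo}) j) u - al 0 (mn (N false {fo}) (N true {fo}) j) v) -
      Complex.I * (be 0 (mn (N false {ll, lu}) (N true {ll, lu}) j) u -
        be 0 (mn (N false {ll, lu}) (N true {ll, lu}) j) v) =
      ((mn (N false {fo}) (N true {fo}) - Sh uu (mn (N false {fo}) (N true {fo}))) j u -
        (mn (N false {fo}) (N true {fo}) - Sh uu (mn (N false {fo}) (N true {fo}))) j v) -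
      ((Complex.I • (mn (N false {ll, lu}) (N true {ll, lu}) -
        Sh rr (mn (N false {ll, lu}) (N true {ll, lu})))) j u -
      (Complex.I • (mn (N false {ll, lu}) (N true {ll, lu}) -
        Sh rr (mn (N false {ll, lu}) (N true {ll, lu})))) j v) := by
    unfold al be Sh
    simp only [Pi.sub_apply, Pi.smul_apply, smul_eq_mul, Pi.zero_apply]
    ring
  rw [e1]
  exact k

/-- **Windows**: translation invariance of the limit from the track and the natural inputs. `f` is the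
observable of the window (only its limit matters). The responses `A`, `B`, `B'` of the track may be those of
environments which differ from the natural windows by `o (1 / R)` (notches, corner tiles). -/
theorem ti_of_window {U : Ultrafilter ℕ} (hR : Tendsto R atTop atTop) (hU : (U : Filter ℕ) ≤ atTop)
    (hΩ : IsOpen Ω) {f : ℕ → ℤ × ℤ → ℂ} {g : ℂ → ℂ} (H : Nat6 R U Ω N)
    {V : ℕ → ℕ → ℤ × ℤ → ℂ} {e A B B' : ℕ → ℤ × ℤ → ℂ} (T : TrackW R U Ω V e A B B')
    (hA : Agree R U Ω A (XG N false fo - XG N true ce))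
    (hB : Agree R U Ω B (XG N false ll - XG N true ru))
    (hB' : Agree R U Ω B' (XG N false rl - XG N true lu))
    (cl : ∀ p : Bool, ∀ s ∈ ({{fo}, {ll, lu}} : Finset (Finset Gr)), ∀ K ⊆ Ω, IsCompact K → ∀ τ > 0,
      ∀ᶠ j in (U : Filter ℕ), Cls {v | lat v / (R j : ℂ) ∈ K} τ (f j) (N p s j))
    (hlim : ILim R U f Ω g) (hg : ContinuousOn g Ω) : TI Ω g :=
  ti_of_relW hR hU hΩ H (ag_trans (ag_smul _ (ag_sub (ag_symm hB) (ag_symm hB')))
    (ag_trans (T.rel (hR.mono_left hU) hΩ) hA)) cl hlim hg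

end Pool.Agent.H44.FM.WG
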