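import Mathlib
import Pool.Agent.H42.FM.Glue
import Pool.Agent.H75.Perc.Wedge

set_option autoImplicit false
open Finset

/-! # One arm in a quadrant of the tile frame: exponent `2 / 3`

`QA k w ρ R`: an open path inside the quadrant `k` at `w` from distance `ρ` to distance `R`.
Its probability is at most `C (ρ / R) ^ (2 / 3)`. -/

namespace Pool.Agent.H44.FM

open Pool.Agent.H75.Perc Pool.Agent.H75.TwoArm Pool.Agent.H75.Four
open Pool.Agent.H60.Q1 Pool.Agent.H60.Q1.Corn Pool.Agent.H99.NC Pool.Agent.H42.FM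

/-! ### the model quadrant `|y| ≤ x` -/

/-- an open path from `x ≤ ρ` to `R ≤ x` -/
def VA (ρ R : ℤ) (ω : Finset (ℤ × ℤ)) : Prop := ∃ u v : ℤ × ℤ, u.1 ≤ ρ ∧ R ≤ v.1 ∧ Co ω u v

lemma VA_inc (ρ R : ℤ) : Inc (VA ρ R) := by
  rintro ω ω' h ⟨u, v, h1, h2, h3⟩
  exact ⟨u, v, h1, h2, h3.mono h⟩

lemma VA_prod {ρ R : ℕ} (hρ : 1 ≤ ρ) (hR : 3 * ρ ≤ R) :
    pV (3 * ρ) * (1 / 2 ^ 47) * Pr (EV R) (VA ρ R) ≤ pV R := by
  have b1 := Bar_prob (a := (ρ : ℤ)) (b := 3 * ρ) ρ hρ (by omega) (by ring) (by omega)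
    (E := EV R) (by
      intro x y hx hy hxy
      rw [add_mem_ES hxy, hs_V, hs_V]
      unfold VS at hx hy
      omega)
  have b0 : pV (3 * ρ) ≤ Pr (EV R) (armV ((3 * ρ : ℕ) : ℤ)) :=
    Pr_inc (EV_sub hR) (armV_inc _)
  have f1 := Pr_harris (EV R) (armV_inc ((3 * ρ : ℕ) : ℤ)) (Bar_inc ρ (3 * ρ))
  have f2 := Pr_harris (EV R) (and_inc (armV_inc ((3 * ρ : ℕ) : ℤ)) (Bar_inc ρ (3 * ρ)))
    (VA_inc ρ R)
  have f3 : Pr (EV R) (fun ω => (armV ((3 * ρ : ℕ) : ℤ) ω ∧ Bar ρ (3 * ρ) ω) ∧ VA ρ R ω) ≤ pV R := by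
    apply Pr_mono
    rintro ω hω ⟨⟨⟨s, s1, s2⟩, g2⟩, l, t, l1, l2, l3⟩
    have hlt : Co ω l t := l3
    have hne : l ≠ t := by
      rintro rfl
      omega
    have hst : Co ω 0 t := by
      refine bar_glue (a := (ρ : ℤ)) (b := 3 * ρ) (by omega) (by omega) ?_ g2 s2 (by
        rw [s1]; push_cast; exact le_rfl) hlt l1 (by omega)
      intro x y hxy _
      have := (hxy.hs hω).2
      rw [hs_V] at this
      omega
    refine ⟨t, ?_, hst⟩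
    rcases Relation.ReflTransGen.cases_tail hlt with h | ⟨b, -, h⟩
    · exact absurd h.symm hne
    · have := (h.hs hω).2
      rw [hs_V] at this
      omega
  have p1 : 0 ≤ pV (3 * ρ) := pV_nonneg _
  have m1 := le_trans (mul_le_mul b0 b1 (by norm_num) (p1.trans b0)) f1
  exact (mul_le_mul_of_nonneg_right m1 (Pr_nonneg _ _)).trans (f2.trans f3)

theorem VA_le : ∃ C : ℝ, 0 < C ∧ ∀ ρ R : ℕ, 1 ≤ ρ → ρ ≤ R →
    Pr (EV R) (VA ρ R) ≤ C * ((ρ : ℝ) / R) ^ (2 / 3 : ℝ) := by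
  obtain ⟨c, C, hc, hC, h⟩ := PB_pV
  refine ⟨2 ^ 47 * 3 * C / c + 3, by positivity, fun ρ R hρ hR => ?_⟩
  have hρ' : (1 : ℝ) ≤ ρ := by exact_mod_cast hρ
  have hR' : (ρ : ℝ) ≤ R := by exact_mod_cast hR
  have hR0 : (0 : ℝ) < R := by linarith
  have hx0 : 0 < (ρ : ℝ) / R := by positivity
  have hX : 0 < ((ρ : ℝ) / R) ^ (2 / 3 : ℝ) := Real.rpow_pos_of_pos hx0 _
  by_cases h3 : 3 * ρ ≤ R
  · have h1 := VA_prod hρ h3
    have h2 := (h (3 * ρ) (by omega)).1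
    have h4 := (h R (by omega)).2
    simp only at h2 h4
    have e3 : ((3 * ρ : ℕ) : ℝ) = 3 * ρ := by push_cast; ring
    rw [e3, Real.mul_rpow (by norm_num) (by positivity)] at h2
    have hA := Pr_nonneg (EV R) (VA ρ R)
    have e5 : (3 : ℝ) ^ (-(2 / 3) : ℝ) ≥ 1 / 3 := by
      have : (3 : ℝ) ^ (-(2 / 3) : ℝ) ≥ (3 : ℝ) ^ (-1 : ℝ) :=
        Real.rpow_le_rpow_of_exponent_le (by norm_num) (by norm_num)
      rwa [Real.rpow_neg_one, ← one_div] at this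
    have e6 : ((ρ : ℝ) / R) ^ (2 / 3 : ℝ) = (R : ℝ) ^ (-(2 / 3) : ℝ) / (ρ : ℝ) ^ (-(2 / 3) : ℝ) := by
      rw [Real.div_rpow (by positivity) hR0.le, Real.rpow_neg hR0.le, Real.rpow_neg (by positivity)]
      field_simp
    have hq : 0 < (ρ : ℝ) ^ (-(2 / 3) : ℝ) := Real.rpow_pos_of_pos (by linarith) _
    have hr : 0 < (R : ℝ) ^ (-(2 / 3) : ℝ) := Real.rpow_pos_of_pos hR0 _
    have h7 : c * (1 / 3 * (ρ : ℝ) ^ (-(2 / 3) : ℝ)) ≤ pV (3 * ρ) := by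
      refine le_trans ?_ h2
      exact mul_le_mul_of_nonneg_left (mul_le_mul_of_nonneg_right e5 hq.le) hc.le
    have h8 : c * (1 / 3 * (ρ : ℝ) ^ (-(2 / 3) : ℝ)) * (1 / 2 ^ 47) * Pr (EV R) (VA ρ R) ≤
        C * (R : ℝ) ^ (-(2 / 3) : ℝ) := by
      refine le_trans ?_ (h1.trans h4)
      exact mul_le_mul_of_nonneg_right (mul_le_mul_of_nonneg_right h7 (by norm_num)) hA
    have h9 : Pr (EV R) (VA ρ R) ≤ 2 ^ 47 * 3 * C / c *
        ((R : ℝ) ^ (-(2 / 3) : ℝ) / (ρ : ℝ) ^ (-(2 / 3) : ℝ)) := by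
      rw [div_mul_div_comm, le_div_iff₀ (by positivity)]
      calc Pr (EV R) (VA ρ R) * (c * (ρ : ℝ) ^ (-(2 / 3) : ℝ))
          = 2 ^ 47 * 3 * (c * (1 / 3 * (ρ : ℝ) ^ (-(2 / 3) : ℝ)) * (1 / 2 ^ 47) *
            Pr (EV R) (VA ρ R)) := by ring
        _ ≤ 2 ^ 47 * 3 * (C * (R : ℝ) ^ (-(2 / 3) : ℝ)) :=
            mul_le_mul_of_nonneg_left h8 (by norm_num)
        _ = _ := by ring
    rw [e6]
    refine h9.trans ?_
    rw [add_mul]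
    have : 0 ≤ 3 * ((R : ℝ) ^ (-(2 / 3) : ℝ) / (ρ : ℝ) ^ (-(2 / 3) : ℝ)) := by positivity
    linarith
  · push Not at h3
    have h3' : (R : ℝ) ≤ 3 * ρ := by exact_mod_cast h3.le
    have e1 : (1 : ℝ) / 3 ≤ (ρ : ℝ) / R := by
      rw [div_le_div_iff₀ (by norm_num) hR0]; linarith
    have e2 : (1 : ℝ) / 3 ≤ ((ρ : ℝ) / R) ^ (2 / 3 : ℝ) := by
      calc (1 : ℝ) / 3 ≤ (ρ : ℝ) / R := e1
        _ = ((ρ : ℝ) / R) ^ (1 : ℝ) := (Real.rpow_one _).symm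
        _ ≤ _ := Real.rpow_le_rpow_of_exponent_ge hx0 (by rw [div_le_one hR0]; exact hR')
              (by norm_num)
    refine (Pr_le_one _ _).trans ?_
    have : 0 ≤ 2 ^ 47 * 3 * C / c * ((ρ : ℝ) / R) ^ (2 / 3 : ℝ) := by positivity
    rw [add_mul]
    linarith

/-! ### all quadrants -/

/-- an open path inside the quadrant `k` at `w` from distance `ρ` to distance `R` -/
def QA (k : ℤ) (w : ℤ × ℤ) (ρ R : ℤ) (ω : Finset (ℤ × ℤ)) : Prop :=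
  ∃ u v, Near w ρ u ∧ Far w R v ∧ Co (ω ∩ QB k w R) u v

lemma QA_inc (k : ℤ) (w : ℤ × ℤ) (ρ R : ℤ) : Inc (QA k w ρ R) := by
  rintro ω ω' h ⟨u, v, h1, h2, h3⟩
  exact ⟨u, v, h1, h2, h3.mono (inter_subset_inter_right h)⟩

lemma QA_local {k : ℤ} {w : ℤ × ℤ} {ρ R : ℤ} {ω : Finset (ℤ × ℤ)} :
    QA k w ρ R ω ↔ QA k w ρ R (ω ∩ QB k w R) := by
  unfold QA
  rw [inter_assoc, inter_self]

lemma Pr_QA_le (k : ℤ) (w : ℤ × ℤ) (ρ R : ℤ) (E : Finset (ℤ × ℤ)) :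
    Pr E (QA k w ρ R) ≤ Pr (QB k w R) (QA k w ρ R) := by
  have h1 : Pr E (QA k w ρ R) ≤ Pr (E ∪ QB k w R) (QA k w ρ R) :=
    Pr_inc subset_union_left (QA_inc k w ρ R)
  refine h1.trans (le_of_eq ?_)
  rw [← Pr_restrict (subset_union_right (s₁ := E) (s₂ := QB k w R))]
  exact Pr_congr fun ω _ => QA_local

lemma dK_tr (k : ℤ) (w l : ℤ × ℤ) : dK k w l ↔ dK k 0 ((syT w).G' l) := by
  unfold dK syT
  rcases cr_all k with ⟨-, e, f⟩ | ⟨-, e, f⟩ | ⟨-, e, f⟩ | ⟨-, e, f⟩ <;>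
  · simp only [e, f, Prod.fst_zero, Prod.snd_zero]
    omega

lemma QB_tr (k : ℤ) (w : ℤ × ℤ) (R : ℤ) (e : ℤ × ℤ) :
    e ∈ QB k w R ↔ (syT w).G' e ∈ QB k 0 R := by
  rw [mem_QB, mem_QB, mem_BR, mem_BR, dK_tr]
  unfold syT
  simp only [Prod.fst_zero, Prod.snd_zero]
  constructor
  · rintro ⟨h1, h2⟩
    exact ⟨by omega, h2⟩
  · rintro ⟨h1, h2⟩
    exact ⟨by omega, h2⟩

lemma Pr_QA_tr (k : ℤ) (w : ℤ × ℤ) (ρ R : ℤ) :
    Pr (QB k w R) (QA k w ρ R) = Pr (QB k 0 R) (QA k 0 ρ R) := by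
  rw [(syT w).Pr (QB_tr k w R)]
  apply Pr_congr
  intro ω _
  unfold QA
  rw [(syT w).map_inter ω (QB_tr k w R)]
  have hg : ∀ u, (syT w).g u = u + w := fun u => rfl
  constructor
  · rintro ⟨u, v, h1, h2, h3⟩
    refine ⟨u - w, v - w, ?_, ?_, ?_⟩
    · unfold Near at h1 ⊢
      simpa using h1
    · unfold Far at h2 ⊢
      simpa using h2
    · rw [← (syT w).co_iff, hg, hg, sub_add_cancel, sub_add_cancel]; exact h3
  · rintro ⟨u, v, h1, h2, h3⟩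
    refine ⟨u + w, v + w, ?_, ?_, ?_⟩
    · unfold Near at h1 ⊢
      simpa using h1
    · unfold Far at h2 ⊢
      simpa using h2
    · rw [← hg, ← hg, (syT w).co_iff]; exact h3

lemma Pr_QA_sym {S : Sy} (hS : Iso0 S) {k k' : ℤ} (hd : ∀ l, dK k' 0 l ↔ dK k 0 (S.G' l))
    (ρ R : ℤ) : Pr (QB k' 0 R) (QA k' 0 ρ R) = Pr (QB k 0 R) (QA k 0 ρ R) := by
  have hE : ∀ e, e ∈ QB k' 0 R ↔ S.G' e ∈ QB k 0 R := by
    intro e
    rw [mem_QB, mem_QB, hS.2.2 e R, hd]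
  rw [S.Pr hE]
  apply Pr_congr
  intro ω _
  unfold QA
  rw [S.map_inter ω hE]
  constructor
  · rintro ⟨u, v, h1, h2, h3⟩
    refine ⟨S.g' u, S.g' v, ?_, ?_, ?_⟩
    · rw [← hS.1, S.gg']; exact h1
    · rw [← hS.2.1, S.gg']; exact h2
    · rw [← S.co_iff, S.gg', S.gg']; exact h3
  · rintro ⟨u, v, h1, h2, h3⟩
    exact ⟨S.g u, S.g v, (hS.1 _ _).2 h1, (hS.2.1 _ _).2 h2, (S.co_iff _ _ _).2 h3⟩

/-- a path of the quadrant stays in the quadrant -/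
lemma co_dK {k : ℤ} {w : ℤ × ℤ} {R : ℤ} {ω : Finset (ℤ × ℤ)} {u v : ℤ × ℤ}
    (h : Co (ω ∩ QB k w R) u v) (hne : u ≠ v) :
    (cr k w ≤ cr k v ∧ cr (k + 1) w ≤ cr (k + 1) v) ∧ Near w R v := by
  rcases Relation.ReflTransGen.cases_tail h with h | ⟨b, -, h⟩
  · exact absurd h.symm hne
  · have h1 := cr_unit k h.1
    obtain ⟨h2, h3⟩ := mem_QB.1 (mem_inter.1 h.2).2
    obtain ⟨h4, h5⟩ := h3
    rw [cr_add] at h4 h5
    rw [mem_BR] at h2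
    have h6 := unit_cases h.1
    simp only [Prod.fst_add, Prod.snd_add] at h2
    refine ⟨by omega, ?_⟩
    unfold Near
    rw [abs_le, abs_le]
    omega

lemma Pr_QA_three {ρ R : ℕ} (hρ : ρ < R) : Pr (QB 3 0 R) (QA 3 0 ρ R) ≤ Pr (EV R) (VA ρ R) := by
  have hcr : (∀ v, cr 3 v = v.1 - v.2) ∧ ∀ v, cr (3 + 1) v = v.1 + v.2 := by
    have d3 : dir 3 = (0, -1) := by
      rcases dir_cases 3 with ⟨a, -⟩ | ⟨a, -⟩ | ⟨a, -⟩ | ⟨-, e⟩
      · omega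
      · omega
      · omega
      · exact e
    rcases cr_all 3 with ⟨⟨a, -⟩, -⟩ | ⟨⟨a, -⟩, -⟩ | ⟨⟨a, -⟩, -⟩ | ⟨-, e, f⟩
    · rw [d3] at a; simp at a
    · rw [d3] at a; simp at a
    · rw [d3] at a; simp at a
    · exact ⟨e, f⟩
  obtain ⟨e, f⟩ := hcr
  have hsub : QB 3 0 R ⊆ EV R := by
    intro l hl
    obtain ⟨h1, h2⟩ := mem_QB.1 hl
    rw [mem_BR] at h1
    unfold dK at h2
    rw [e, e, f, f] at h2
    simp only [Prod.fst_zero, Prod.snd_zero] at h1 h2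
    have h4 : ∃ a b : ℤ × ℤ, IsUnit4 (b - a) ∧ a + b = l := by
      obtain ⟨l1, l2⟩ := l
      simp only at h1
      rcases Int.emod_two_eq_zero_or_one l1 with h | h
      · refine ⟨(l1 / 2, (l2 - 1) / 2), (l1 / 2, (l2 - 1) / 2 + 1), ?_, ?_⟩
        · unfold IsUnit4; simp
        · refine Prod.ext ?_ ?_ <;> simp only [Prod.mk_add_mk] <;> omega
      · refine ⟨((l1 - 1) / 2, l2 / 2), ((l1 - 1) / 2 + 1, l2 / 2), ?_, ?_⟩
        · unfold IsUnit4; simp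
        · refine Prod.ext ?_ ?_ <;> simp only [Prod.mk_add_mk] <;> omega
    obtain ⟨a, b, h5, rfl⟩ := h4
    rw [add_mem_ES h5, hs_V, hs_V]
    have h6 := unit_cases h5
    simp only [Prod.fst_add, Prod.snd_add] at h1 h2
    omega
  have h1 : Pr (QB 3 0 R) (QA 3 0 ρ R) ≤ Pr (EV R) (QA 3 0 ρ R) := Pr_inc hsub (QA_inc _ _ _ _)
  refine h1.trans (Pr_mono ?_)
  rintro ω hω ⟨u, v, h2, h3, h4⟩
  have hne : u ≠ v := by
    rintro rfl
    unfold Near at h2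
    unfold Far at h3
    omega
  obtain ⟨h5, -⟩ := co_dK h4 hne
  rw [e, e, f, f] at h5
  unfold Near at h2
  rw [abs_le, abs_le] at h2
  unfold Far at h3
  rw [le_abs, le_abs] at h3
  simp only [Prod.fst_zero, Prod.snd_zero] at h2 h3 h5
  exact ⟨u, v, by omega, by omega, h4.mono inter_subset_left⟩

/-- **one arm in a quadrant** -/
theorem quad_arm : ∃ C : ℝ, 0 < C ∧ ∀ (k : ℤ) (w : ℤ × ℤ) (ρ R : ℕ) (E : Finset (ℤ × ℤ)),
    1 ≤ ρ → ρ ≤ R → Pr E (QA k w ρ R) ≤ C * ((ρ : ℝ) / R) ^ (2 / 3 : ℝ) := by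
  obtain ⟨C, hC, h⟩ := VA_le
  refine ⟨C + 1, by positivity, fun k w ρ R E h1 h2 => ?_⟩
  rcases eq_or_lt_of_le h2 with h3 | h3
  · subst h3
    have h4 : (0 : ℝ) < ρ := by exact_mod_cast h1
    rw [div_self h4.ne', Real.one_rpow, mul_one]
    exact (Pr_le_one _ _).trans (by linarith)
  have key : ∀ j : ℤ, Pr (QB j 0 R) (QA j 0 ρ R) = Pr (QB 3 0 R) (QA 3 0 ρ R) := by
    have c3 : (∀ v, cr 3 v = v.1 - v.2) ∧ ∀ v, cr (3 + 1) v = v.1 + v.2 := by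
      have d3 : dir 3 = (0, -1) := by
        rcases dir_cases 3 with ⟨a, -⟩ | ⟨a, -⟩ | ⟨a, -⟩ | ⟨-, e⟩
        · omega
        · omega
        · omega
        · exact e
      rcases cr_all 3 with ⟨⟨a, -⟩, -⟩ | ⟨⟨a, -⟩, -⟩ | ⟨⟨a, -⟩, -⟩ | ⟨-, e, f⟩
      · rw [d3] at a; simp at a
      · rw [d3] at a; simp at a
      · rw [d3] at a; simp at a
      · exact ⟨e, f⟩
    have c0 : (∀ v, cr 0 v = v.1 + v.2) ∧ ∀ v, cr (0 + 1) v = v.2 - v.1 := by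
      have d0 : dir 0 = (1, 0) := by
        rcases dir_cases 0 with ⟨-, e⟩ | ⟨a, -⟩ | ⟨a, -⟩ | ⟨a, -⟩
        · exact e
        · omega
        · omega
        · omega
      rcases cr_all 0 with ⟨-, e, f⟩ | ⟨⟨a, -⟩, -⟩ | ⟨⟨a, -⟩, -⟩ | ⟨⟨a, -⟩, -⟩
      · exact ⟨e, f⟩
      · rw [d0] at a; simp at a
      · rw [d0] at a; simp at a
      · rw [d0] at a; simp at a
    have k0 : Pr (QB 0 0 R) (QA 0 0 ρ R) = Pr (QB 3 0 R) (QA 3 0 ρ R) := by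
      refine Pr_QA_sym iso_D (fun l => ?_) _ _
      unfold dK
      rw [c0.1, c0.1, c0.2, c0.2, c3.1, c3.1, c3.2, c3.2]
      simp only [syD, Prod.fst_zero, Prod.snd_zero]
      omega
    intro j
    rcases cr_all j with ⟨-, e, f⟩ | ⟨-, e, f⟩ | ⟨-, e, f⟩ | ⟨-, e, f⟩
    · rw [← k0]
      have hd : dK j 0 = dK 0 0 := by
        funext l
        unfold dK
        rw [e, e, f, f, c0.1, c0.1, c0.2, c0.2]
      have hQ : QB j 0 R = QB 0 0 R := by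
        ext l
        rw [mem_QB, mem_QB, hd]
      have hA : QA j 0 ρ R = QA 0 0 ρ R := by
        funext ω
        unfold QA
        rw [hQ]
      rw [hQ, hA]
    · refine Pr_QA_sym iso_X (fun l => ?_) _ _
      unfold dK
      rw [e, e, f, f, c3.1, c3.1, c3.2, c3.2]
      simp only [syX, Prod.fst_zero, Prod.snd_zero]
      omega
    · rw [← k0]
      refine Pr_QA_sym iso_Y (fun l => ?_) _ _
      unfold dK
      rw [e, e, f, f, c0.1, c0.1, c0.2, c0.2]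
      simp only [syY, Prod.fst_zero, Prod.snd_zero]
      omega
    · have hd : dK j 0 = dK 3 0 := by
        funext l
        unfold dK
        rw [e, e, f, f, c3.1, c3.1, c3.2, c3.2]
      have hQ : QB j 0 R = QB 3 0 R := by
        ext l
        rw [mem_QB, mem_QB, hd]
      have hA : QA j 0 ρ R = QA 3 0 ρ R := by
        funext ω
        unfold QA
        rw [hQ]
      rw [hQ, hA]
  refine (Pr_QA_le k w ρ R E).trans ?_
  rw [Pr_QA_tr, key]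
  refine (Pr_QA_three h3).trans ((h ρ R h1 h2).trans ?_)
  have h4 : 0 ≤ ((ρ : ℝ) / R) ^ (2 / 3 : ℝ) := by positivity
  linarith

/-- **one dual arm in a quadrant** -/
theorem quad_arm_dual : ∃ C : ℝ, 0 < C ∧ ∀ (k : ℤ) (w : ℤ × ℤ) (ρ R : ℕ) (E : Finset (ℤ × ℤ)),
    1 ≤ ρ → ρ ≤ R → Pr E (fun ω => QA k w ρ R (du E ω)) ≤ C * ((ρ : ℝ) / R) ^ (2 / 3 : ℝ) := by
  obtain ⟨C, hC, h⟩ := quad_arm
  refine ⟨C, hC, fun k w ρ R E h1 h2 => ?_⟩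
  rw [Pr_du]
  exact h k w ρ R _ h1 h2

/-! ### arms in annuli -/

/-- an open path inside the quadrant, in the annulus -/
def UA (k : ℤ) (w : ℤ × ℤ) (ρ R : ℤ) (ω : Finset (ℤ × ℤ)) : Prop :=
  ∃ u v, Near w ρ u ∧ Far w R v ∧ Co (ω ∩ (QB k w R \ BR w ρ)) u v

lemma UA.qa {k : ℤ} {w : ℤ × ℤ} {ρ R : ℤ} {ω : Finset (ℤ × ℤ)} (h : UA k w ρ R ω) :
    QA k w ρ R ω := by
  obtain ⟨u, v, h1, h2, h3⟩ := h
  exact ⟨u, v, h1, h2, h3.mono (inter_subset_inter_left sdiff_subset)⟩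

lemma UA_congr {k : ℤ} {w : ℤ × ℤ} {ρ R : ℤ} {ω ω' : Finset (ℤ × ℤ)}
    (h : ∀ e, e ∉ BR w ρ → (e ∈ ω ↔ e ∈ ω')) : UA k w ρ R ω ↔ UA k w ρ R ω' := by
  have e : ω ∩ (QB k w R \ BR w ρ) = ω' ∩ (QB k w R \ BR w ρ) := by
    ext x
    simp only [mem_inter, mem_sdiff]
    constructor
    · rintro ⟨h1, h2, h3⟩
      exact ⟨(h x h3).1 h1, h2, h3⟩
    · rintro ⟨h1, h2, h3⟩
      exact ⟨(h x h3).2 h1, h2, h3⟩
  unfold UA
  rw [e]

/-- the annulus part of a path of the quadrant -/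
lemma UA_of {k : ℤ} {w : ℤ × ℤ} {ρ R : ℤ} {ω : Finset (ℤ × ℤ)} (hρ : ρ < R) {u v : ℤ × ℤ}
    (h1 : Near w ρ u) (h2 : Far w R v) (h3 : Co (ω ∩ QB k w R) u v) : UA k w ρ R ω := by
  have hnv : ¬ Near w ρ v := by
    intro h
    unfold Near at h
    unfold Far at h2
    omega
  obtain ⟨z, z', hz, hz', had, hcx, -⟩ := exit_co (X := fun y => ¬ Near w ρ y) h3.symm hnv
    (by simpa using h1)
  have hz'' : Near w ρ z' := by simpa using hz'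
  have hnb : ∀ a b : ℤ × ℤ, IsUnit4 (b - a) → ¬ Near w ρ a ∨ ¬ Near w ρ b → a + b ∉ BR w ρ := by
    intro a b hab hn hm
    rw [mem_BR] at hm
    have h5 := unit_cases hab
    simp only [Prod.fst_add, Prod.snd_add] at hm
    unfold Near at hn
    rw [abs_le, abs_le, abs_le, abs_le] at hn
    omega
  have key : ∀ y, CoX (ω ∩ QB k w R) (fun y => ¬ Near w ρ y) v y → ¬ Near w ρ y ∧
      Co (ω ∩ (QB k w R \ BR w ρ)) v y := by
    intro y hy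
    induction hy with
    | refl => exact ⟨hnv, Co.refl _ _⟩
    | @tail a b hab hbc ih =>
      refine ⟨hbc.2, Relation.ReflTransGen.tail ih.2 ⟨hbc.1.1, ?_⟩⟩
      obtain ⟨g1, g2⟩ := mem_inter.1 hbc.1.2
      exact mem_inter.2 ⟨g1, mem_sdiff.2 ⟨g2, hnb a b hbc.1.1 (Or.inl ih.1)⟩⟩
  obtain ⟨h4, h5⟩ := key z hcx
  obtain ⟨g1, g2⟩ := mem_inter.1 had.2
  have h6 : Co (ω ∩ (QB k w R \ BR w ρ)) v z' := Relation.ReflTransGen.tail h5 ⟨had.1,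
    mem_inter.2 ⟨g1, mem_sdiff.2 ⟨g2, hnb z z' had.1 (Or.inl h4)⟩⟩⟩
  exact ⟨z', v, hz'', h2, h6.symm⟩

/-- **confinement**: a path which cannot leave the quadrant inside the box -/
lemma conf {η η' : Finset (ℤ × ℤ)} {X : ℤ × ℤ → Prop} {k : ℤ} {w : ℤ × ℤ} {R : ℤ} {u v : ℤ × ℤ}
    (hstep : ∀ a b, Ad η a b → X a → ¬ Far w R a → a + b ∈ η' ∧ dK k w (a + b) ∧
      (¬ Far w R b → X b)) (hX : X u) (hv : Far w R v) (h : Co η u v) :
    ∃ v', Far w R v' ∧ Co (η' ∩ QB k w R) u v' := by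
  by_cases hu : Far w R u
  · exact ⟨u, hu, Co.refl _ _⟩
  obtain ⟨z, z', hz, hz', had, hcx, -⟩ := exit_co (X := fun y => ¬ Far w R y) h hu
    (by simpa using hv)
  have hz'' : Far w R z' := by simpa using hz'
  have hin : ∀ a b : ℤ × ℤ, IsUnit4 (b - a) → ¬ Far w R a → a + b ∈ BR w R := by
    intro a b hab hn
    rw [mem_BR]
    have h5 := unit_cases hab
    simp only [Prod.fst_add, Prod.snd_add]
    unfold Far at hn
    rw [not_or, not_le, not_le, abs_lt, abs_lt] at hn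
    omega
  have key : ∀ y, CoX η (fun y => ¬ Far w R y) u y → (X y ∧ ¬ Far w R y) ∧
      Co (η' ∩ QB k w R) u y := by
    intro y hy
    induction hy with
    | refl => exact ⟨⟨hX, hu⟩, Co.refl _ _⟩
    | @tail a b hab hbc ih =>
      obtain ⟨g1, g2, g3⟩ := hstep a b hbc.1 ih.1.1 ih.1.2
      exact ⟨⟨g3 hbc.2, hbc.2⟩, Relation.ReflTransGen.tail ih.2 ⟨hbc.1.1,
        mem_inter.2 ⟨g1, mem_QB.2 ⟨hin a b hbc.1.1 ih.1.2, g2⟩⟩⟩⟩
  obtain ⟨⟨h4, h4'⟩, h5⟩ := key z hcx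
  obtain ⟨g1, g2, -⟩ := hstep z z' had h4 h4'
  exact ⟨z', hz'', Relation.ReflTransGen.tail h5 ⟨had.1,
    mem_inter.2 ⟨g1, mem_QB.2 ⟨hin z z' had.1 h4', g2⟩⟩⟩⟩

end Pool.Agent.H44.FM
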