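import Mathlib
import Pool.Agent.Q1.M6e.AsmEnv

set_option autoImplicit false
open Finset

/-!
# Theorem C with several straight walls in one family: flat ties

`FlatWall` : the flat ties `FlT` of one straight wall of the family `i` (the family may contain other walls, e.g.
the walls of one arc of a polygon). `wall_rem` : the main terms restricted to contact sets of radius `m`.
-/

namespace Pool.Agent.H44.FM.AsmW

open Pool.Agent.H75.Perc Pool.Agent.H75.TwoArm Pool.Agent.H75.Four Pool.Agent.H49.Perc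
open Pool.Agent.H69.Q1 Pool.Agent.H39.Q1 Pool.Agent.H25.Q1.Add
open Pool.Agent.H99.NC Pool.Agent.H60.Q1 Pool.Agent.H20.Q1 Pool.Agent.H59.Q1 Pool.Agent.Q1
open Pool.Agent.Q1.M6e

section

variable {ι : Type*} [DecidableEq ι] {X : Pool.Agent.Q1.Env} {W Bb B TT Cs ω FlT : Finset (ℤ × ℤ)}
  {fm : ℤ × ℤ → ι} {co : ι → Bool} {Wl La : ι → Finset (ℤ × ℤ)}
  {b o : ℤ × ℤ → ℤ × ℤ} {a : ℤ × ℤ → ℂ} {s s' : ℤ × ℤ → ℂ} {e e' v δ : ℤ × ℤ} {i : ι}
  {ε : Bool × Bool} {rk : ℤ × ℤ → ℤ} {σ M : ℝ} {m r r1 r2 R : ℤ} {s0 : ℂ}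
  {Q : Finset (ℤ × ℤ) → ℤ × ℤ → Prop}

/-- **The flat ties of one straight wall of the family `i`.** -/
structure FlatWall (X : Pool.Agent.Q1.Env) (W Bb TT Cs : Finset (ℤ × ℤ)) (fm : ℤ × ℤ → ι)
    (co : ι → Bool) (Wl La : ι → Finset (ℤ × ℤ)) (b o : ℤ × ℤ → ℤ × ℤ) (rk : ℤ × ℤ → ℤ) (i : ι)
    (ε : Bool × Bool) (δ : ℤ × ℤ) (FlT : Finset (ℤ × ℤ)) (R : ℤ) : Prop where
  sub : FlT ⊆ TF TT fm i
  line : ∀ e ∈ FlT, ∀ e' ∈ FlT, (gm ε (b e)).1 + (gm ε (b e)).2 = (gm ε (b e')).1 + (gm ε (b e')).2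
  inj : ∀ e ∈ TF TT fm i, ∀ e' ∈ TF TT fm i, b e = b e' → e = e'
  rk : ∀ e ∈ FlT, ∀ e' ∈ TF TT fm i, (inR (b e) R (b e') ∨ e' ∈ FlT) →
    (rk e ≤ rk e' ↔ (gm ε (b e)).1 ≤ (gm ε (b e')).1)
  flat : ∀ e ∈ FlT, FlatL W Bb TT (TF TT fm i) (Wl i) (La i) b o (co i) ε δ (b e) (R + 1)
  root : ∀ e ∈ FlT, lab X.c0 ∉ bx (co i) (b e) R
  cs : ∀ e ∈ FlT, ∀ c ∈ Cs, lab c ∉ bx (co i) (b e) R

lemma crn_nonneg (hσ0 : 0 ≤ σ) : 0 ≤ crn TT fm co La b rk Q FlT σ e ω :=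
  mul_nonneg (pow_nonneg hσ0 _) (ind_nonneg _)

lemma FlatWall.env (hM : Multi X W Bb B TT fm co Wl La b o)
    (hF : FlatWall X W Bb TT Cs fm co Wl La b o rk i ε δ FlT R) {x : ℤ × ℤ}
    (hx : x ∈ FlX b ε FlT) : Pool.Agent.H20.Q1.Env 1 x R (Lx co La i ε) (Wx TT fm b i ε) := by
  unfold FlX at hx
  obtain ⟨e, he, rfl⟩ := mem_image.1 hx
  exact env_of_flat hM (hF.flat e he)

/-- bound of the functional -/
lemma norm_FT_le (hsb : ∀ e' ∈ TF TT fm (fm e), ‖s e'‖ ≤ σ) :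
    ‖FT (TF TT fm (fm e)) b rk s e (SM TT fm co La b e ω)‖ ≤
      σ ^ (cls TT fm co La b ω e).card * ind (∀ e' ∈ cls TT fm co La b ω e, rk e ≤ rk e') := by
  classical
  rw [FT_cls]
  by_cases h : ∀ e' ∈ cls TT fm co La b ω e, rk e ≤ rk e'
  · rw [if_pos h, ind_true h, mul_one, norm_prod, ← prod_const]
    refine prod_le_prod (fun _ _ => norm_nonneg _) fun e' h1 => hsb e' ?_
    have h2 := mem_cls.1 h1
    exact mem_TF.2 ⟨h2.1.1, h2.1.2⟩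
  · rw [if_neg h, ind_false h, norm_zero, mul_zero]

/-- number of contacts -/
lemma ncard_CS' (hinj : ∀ e ∈ TF TT fm i, ∀ e' ∈ TF TT fm i, b e = b e' → e = e') (he : fm e = i) :
    (CS (Wx TT fm b i ε) (eta co La i ε ω) (gm ε (b e))).ncard = (cls TT fm co La b ω e).card := by
  rw [CSx_eq he, Set.InjOn.ncard_image, Set.ncard_coe_finset]
  intro e1 h1 e2 h2 h3
  rw [mem_coe, mem_cls] at h1 h2
  exact hinj e1 (mem_TF.2 ⟨h1.1.1, h1.1.2.trans he⟩) e2 (mem_TF.2 ⟨h2.1.1, h2.1.2.trans he⟩)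
    (gm_inj h3)

/-- **the functional restricted to classes in `FlT`** -/
lemma norm_FT_flat (hF : FlatWall X W Bb TT Cs fm co Wl La b o rk i ε δ FlT R) (he : e ∈ FlT)
    (hsb : ∀ e' ∈ TF TT fm i, ‖s e'‖ ≤ σ) (hσ0 : 0 ≤ σ)
    (hin : ∀ e' ∈ cls TT fm co La b ω e, e' ∈ FlT) :
    ‖FT (TF TT fm (fm e)) b rk s e (SM TT fm co La b e ω)‖ ≤
      σ ^ (CS (Wx TT fm b i ε) (eta co La i ε ω) (gm ε (b e))).ncard *
        ind (∀ v ∈ CS (Wx TT fm b i ε) (eta co La i ε ω) (gm ε (b e)), (gm ε (b e)).1 ≤ v.1) := by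
  obtain ⟨heT, hei⟩ := mem_TF.1 (hF.sub he)
  refine (norm_FT_le (by rw [hei]; exact hsb)).trans ?_
  rw [ncard_CS' hF.inj hei]
  refine mul_le_mul_of_nonneg_left (ind_mono fun h => ?_) (pow_nonneg hσ0 _)
  rw [CSx_eq hei]
  rintro _ ⟨e', h1, rfl⟩
  rw [mem_coe] at h1
  have h2 := hin e' h1
  exact (hF.rk e he e' (hF.sub h2) (Or.inr h2)).1 (h e' h1)

/-- wide classes inside `Fl` -/
theorem wide_pt' {x : ℤ × ℤ} {η L : Finset (ℤ × ℤ)} {Wv : ℤ × ℤ → Prop} {Fl : Finset (ℤ × ℤ)}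
    (h0 : 0 ≤ σ) (h1 : σ ≤ 1) (hE : ∀ x ∈ Fl, Pool.Agent.H20.Q1.Env 1 x R L Wv) (hx : x ∈ Fl)
    (hη : η ⊆ L) (hr : 1 ≤ r) (hrR : r ≤ R) (hrr : 2 * r ≤ r1)
    (hline : ∀ v ∈ Fl, v.1 + v.2 = x.1 + x.2) (hF : InF Fl Wv x η) :
    rmf σ Wv x r1 R η ≤ ∑ x' ∈ Fl.filter (fun x' => 2 * r + 1 ≤ x'.1 - x.1),
      gS σ 1 1 x r η * gS σ 1 (-1) x' r η := by
  have n1 : 0 ≤ ∑ x' ∈ Fl.filter (fun x' => 2 * r + 1 ≤ x'.1 - x.1),
      gS σ 1 1 x r η * gS σ 1 (-1) x' r η := sum_nonneg fun x' _ =>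
    mul_nonneg (gS_nonneg h0) (gS_nonneg h0)
  by_cases hc : (∀ v ∈ CS Wv η x, x.1 ≤ v.1) ∧ (∃ v ∈ CS Wv η x, ¬ inR x r1 v) ∧ Rch x x R η
  swap
  · have : rmf σ Wv x r1 R η = 0 := by unfold rmf; rw [ind_false hc, mul_zero]
    rw [this]; exact n1
  have hrm : rmf σ Wv x r1 R η = σ ^ (CS Wv η x).ncard := by
    unfold rmf; rw [ind_true hc, mul_one]
  obtain ⟨g1, ⟨y0, g2, g3⟩, -⟩ := hc
  have hfin := cs_fin Wv η x
  obtain ⟨x', hx', hmax⟩ := Finset.exists_max_image hfin.toFinset (fun y => y.1)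
    ⟨y0, hfin.mem_toFinset.2 g2⟩
  have hx'S : x' ∈ CS Wv η x := hfin.mem_toFinset.1 hx'
  have hy0 : r1 < y0.1 - x.1 := by
    have h2 := hline y0 (hF y0 g2)
    have h3 := g1 y0 g2
    by_contra hcon
    apply g3
    rw [inR_iff]
    omega
  have hy1 := hmax y0 (hfin.mem_toFinset.2 g2)
  have hmem : x' ∈ Fl.filter (fun x' => 2 * r + 1 ≤ x'.1 - x.1) :=
    mem_filter.2 ⟨hF x' hx'S, by omega⟩
  rw [hrm]
  refine (two_of h0 h1 (hE x hx) (hE x' (hF x' hx'S)) hη hr hrR hx'S (by omega) g1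
    (fun v hv => hmax v (hfin.mem_toFinset.2 hv))).trans ?_
  exact single_le_sum (f := fun x' => gS σ 1 1 x r η * gS σ 1 (-1) x' r η)
    (fun x' _ => mul_nonneg (gS_nonneg h0) (gS_nonneg h0)) hmem

/-- **pointwise bound** of the part with a distant contact -/
theorem FlatWall.pt (hM : Multi X W Bb B TT fm co Wl La b o)
    (hc : ∀ c ∈ Cs, FarM X TT fm co Wl La b o c)
    (hF : FlatWall X W Bb TT Cs fm co Wl La b o rk i ε δ FlT R) (he : e ∈ FlT)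
    (hV : ∀ ω ⊆ B, ∀ P ⊆ TT, ‖VM X Cs a Bb B TT fm co ω P‖ ≤ M)
    (hQ : ∀ ω ⊆ B, ∀ e ∈ TT, DM X Cs a Bb B TT fm co La b e ω ≠ 0 → Q ω e)
    (hsb : ∀ e' ∈ TF TT fm i, ‖s e'‖ ≤ σ) (hσ0 : 0 ≤ σ) (hσ1 : σ ≤ 1) (hω : ω ⊆ B)
    (hm : 0 ≤ m) (hmr : m ≤ r1) (hr11 : 1 ≤ r1) (hr12 : r1 < r2) (hr2 : r2 < R) (hr : 1 ≤ r)
    (hrr : 2 * r ≤ r1) :
    ‖FT (TF TT fm (fm e)) b rk s e (SM TT fm co La b e ω) * DM X Cs a Bb B TT fm co La b e ω -
      FTm (TF TT fm (fm e)) b rk s e m (SM TT fm co La b e ω) *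
        DM X Cs a Bb B TT fm co La b e ω‖ ≤
      2 * M * (gl σ 1 (Wx TT fm b i ε) (gm ε (b e)) m r1 r2 R (eta co La i ε ω) +
        (∑ x' ∈ (FlX b ε FlT).filter (fun x' => 2 * r + 1 ≤ x'.1 - (gm ε (b e)).1),
          gS σ 1 1 (gm ε (b e)) r (eta co La i ε ω) * gS σ 1 (-1) x' r (eta co La i ε ω)) +
        crn TT fm co La b rk Q FlT σ e ω) := by
  classical
  have heF := hF.sub he
  obtain ⟨heT, hei⟩ := mem_TF.1 heF
  set x := gm ε (b e) with hx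
  set η := eta co La i ε ω with hη
  set Wv := Wx TT fm b i ε with hWv
  have hxF : x ∈ FlX b ε FlT := mem_image.2 ⟨e, he, rfl⟩
  have hE := hF.env hM hxF
  have hM0 : 0 ≤ M := (norm_nonneg _).trans (hV ∅ (empty_subset _) ∅ (empty_subset _))
  have hηL : η ⊆ Lx co La i ε := by
    have := push_gr (co := co) (La := La) (i := i) (ε := ε) (hM.la i) hω
    rw [hη]
    unfold eta Lx
    rw [← this]
    exact inter_subset_right
  have n1 : 0 ≤ gl σ 1 Wv x m r1 r2 R η := by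
    unfold gl
    exact add_nonneg (mul_nonneg (gS_nonneg hσ0) (ind_nonneg _))
      (mul_nonneg (pow_nonneg hσ0 _) (ind_nonneg _))
  have n2 : 0 ≤ ∑ x' ∈ (FlX b ε FlT).filter (fun x' => 2 * r + 1 ≤ x'.1 - x.1),
      gS σ 1 1 x r η * gS σ 1 (-1) x' r η := sum_nonneg fun x' _ =>
    mul_nonneg (gS_nonneg hσ0) (gS_nonneg hσ0)
  have n3 : 0 ≤ crn TT fm co La b rk Q FlT σ e ω := crn_nonneg hσ0
  rw [← sub_mul, norm_mul]
  by_cases hD : DM X Cs a Bb B TT fm co La b e ω = 0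
  · rw [hD, norm_zero, mul_zero]
    positivity
  have hnf : Q ω e := hQ ω hω e heT hD
  have hDb : ‖DM X Cs a Bb B TT fm co La b e ω‖ ≤ 2 * M := by
    unfold DM
    refine (norm_sub_le _ _).trans ?_
    have g1 := hV ω hω _ (sdiff_subset (s := TT) (t := cls TT fm co La b ω e))
    have g2 := hV ω hω TT (Subset.refl _)
    linarith
  rw [mul_comm]
  refine mul_le_mul hDb ?_ (norm_nonneg _) (by positivity)
  unfold FTm
  by_cases hin : ∀ v ∈ SM TT fm co La b e ω, inR (b e) m v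
  · rw [if_pos hin, sub_self, norm_zero]
    positivity
  rw [if_neg hin, sub_zero]
  -- the class contains a tie outside `FlT`
  by_cases hcl : ∀ e' ∈ cls TT fm co La b ω e, e' ∈ FlT
  swap
  · push Not at hcl
    have h1 : ‖FT (TF TT fm (fm e)) b rk s e (SM TT fm co La b e ω)‖ ≤
        crn TT fm co La b rk Q FlT σ e ω := by
      refine (norm_FT_le (by rw [hei]; exact hsb)).trans ?_
      unfold crn
      refine mul_le_mul_of_nonneg_left (ind_mono fun h2 => ⟨h2, hnf, ?_⟩) (pow_nonneg hσ0 _)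
      obtain ⟨e', g1, g2⟩ := hcl
      exact ⟨e', g1, g2⟩
    linarith
  -- the cluster reaches distance `R`
  have hG := wallG_of_flat (m := m) hM heT (by rw [hei]; exact hF.flat e he) hm (by omega)
    (by rw [inR_iff]; omega) (by rw [hei]; exact hF.root e he)
  have hR : Rch x x R η := by
    obtain ⟨v, g1, g2⟩ := hM.far hc hG hω heT hD
    refine ⟨gm ε v, ?_, ?_⟩
    · rw [hx, Far_gm, gm_gm]; exact g1
    · rw [hη]
      unfold eta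
      rw [← hei]
      exact Co_gm g2
  have hFT : ‖FT (TF TT fm (fm e)) b rk s e (SM TT fm co La b e ω)‖ ≤ rmf σ Wv x m R η := by
    refine (norm_FT_flat hF he hsb hσ0 hcl).trans ?_
    unfold rmf
    refine mul_le_mul_of_nonneg_left (ind_mono fun h1 => ?_) (pow_nonneg hσ0 _)
    refine ⟨h1, ?_, hR⟩
    push Not at hin
    obtain ⟨v, g1, g2⟩ := hin
    refine ⟨gm ε v, ?_, ?_⟩
    · rw [hη, hWv, mem_CSx hei, gm_gm]; exact g1
    · rw [hx, inR_gm]; exact g2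
  refine hFT.trans ?_
  have hI : InF (FlX b ε FlT) Wv x η := by
    intro v hv
    rw [hη, hWv, hx, CSx_eq hei] at hv
    obtain ⟨e', g5, rfl⟩ := hv
    exact mem_image.2 ⟨e', hcl e' (mem_coe.1 g5), rfl⟩
  have q1 := rem_pt (Or.inr rfl) hσ0 hσ1 hE hηL hr11 hmr hr12 hr2 hm
  have q2 := wide_pt' (r := r) hσ0 hσ1 (fun z hz => hF.env hM hz) hxF hηL hr (by omega) hrr
    (fun v hv => by
      obtain ⟨e', h1, rfl⟩ := mem_image.1 hv
      exact hF.line e' h1 e he) hI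
  linarith

end

/-- **Remainder of the flat ties of a wall.** -/
theorem wall_rem : ∃ K C β : ℝ, 0 < K ∧ 0 < C ∧ 0 < β ∧
    ∀ {ι : Type} [DecidableEq ι] (X : Pool.Agent.Q1.Env) (W Bb B TT Cs FlT : Finset (ℤ × ℤ))
      (fm : ℤ × ℤ → ι) (co : ι → Bool) (Wl La : ι → Finset (ℤ × ℤ)) (b o : ℤ × ℤ → ℤ × ℤ)
      (a : ℤ × ℤ → ℂ) (rk : ℤ × ℤ → ℤ) (i : ι) (δ : ℤ × ℤ) (ε : Bool × Bool) (a0 m r1 r2 R : ℤ)
      (M σ : ℝ) (s : ℤ × ℤ → ℂ) (Q : Finset (ℤ × ℤ) → ℤ × ℤ → Prop),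
      Multi X W Bb B TT fm co Wl La b o → (∀ c ∈ Cs, FarM X TT fm co Wl La b o c) →
      FlatWall X W Bb TT Cs fm co Wl La b o rk i ε δ FlT R →
      (∀ ω ⊆ B, ∀ P ⊆ TT, ‖VM X Cs a Bb B TT fm co ω P‖ ≤ M) →
      (∀ ω ⊆ B, ∀ e ∈ TT, DM X Cs a Bb B TT fm co La b e ω ≠ 0 → Q ω e) →
      (∀ e' ∈ TF TT fm i, ‖s e'‖ ≤ σ) → 1 / 4 ≤ σ → σ < 1 → 2 ≤ a0 →
      K ≤ (1 - σ) ^ ((3 : ℝ) / 2) * a0 → a0 ≤ m → 2 * m ≤ r1 → 2 * r1 ≤ r2 → r2 ≤ 8 * r1 →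
      8 * r2 ≤ 3 * R →
      ∑ e ∈ FlT, ‖Tm X Cs a Bb B TT fm co La b rk s e - Tmt X Cs a Bb B TT fm co La b rk s m e‖ ≤
        2 * M * (FlT.card * (C * (((a0 : ℝ) / m) ^ β + ((m : ℝ) / r2) ^ β) * a0 / (r2 : ℝ) ^ 2) +
          (FlT.card : ℝ) ^ 2 * (C * a0 / (r2 : ℝ) ^ 2) ^ 2 +
          Ex hf B (fun ω => ∑ e ∈ FlT, crn TT fm co La b rk Q FlT σ e ω)) := by
  obtain ⟨K1, C1, β, hK1, hC1, hβ, hgl⟩ := gl_le
  obtain ⟨K2, C2, hK2, hC2, hms⟩ := mass_le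
  refine ⟨max K1 K2, max C1 (2000 * C2), β, lt_max_of_lt_left hK1, lt_max_of_lt_left hC1, hβ, ?_⟩
  intro ι _ X W Bb B TT Cs FlT fm co Wl La b o a rk i δ ε a0 m r1 r2 R M σ s Q hM hc hF hV hQ hsb
    hσ1 hσ2 ha0 hK ham hmr hr12 hr28 hr2R
  have hσ0 : 0 ≤ σ := by linarith
  have hM0 : 0 ≤ M := (norm_nonneg _).trans (hV ∅ (empty_subset _) ∅ (empty_subset _))
  have haR : (2 : ℝ) ≤ a0 := by exact_mod_cast ha0
  have hr20 : (0 : ℝ) < r2 := by exact_mod_cast (by omega : (0 : ℤ) < r2)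
  set r : ℤ := r1 / 2 with hr
  have hr1' : 2 * r ≤ r1 := by omega
  have hra : a0 ≤ r := by omega
  have hr2r : r2 ≤ 24 * r := by omega
  have hrR0 : (0 : ℝ) < r := by exact_mod_cast (by omega : (0 : ℤ) < r)
  -- each tie
  have key : ∀ e ∈ FlT, ‖Tm X Cs a Bb B TT fm co La b rk s e -
      Tmt X Cs a Bb B TT fm co La b rk s m e‖ ≤
      2 * M * (C1 * (((a0 : ℝ) / m) ^ β + ((m : ℝ) / r2) ^ β) * a0 / (r2 : ℝ) ^ 2 +
        FlT.card * (C2 * a0 / (r : ℝ) ^ 2) ^ 2 + Ex hf B (crn TT fm co La b rk Q FlT σ e)) := by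
    intro e he
    have heF := hF.sub he
    have hxF : gm ε (b e) ∈ FlX b ε FlT := mem_image.2 ⟨e, he, rfl⟩
    have hE := hF.env hM hxF
    have hcard : ((FlX b ε FlT).card : ℝ) ≤ FlT.card := by exact_mod_cast card_image_le
    unfold Tm Tmt
    rw [← Ec_sub]
    refine (Ec_half_norm fun ω hω => hF.pt (r := r) (r1 := r1) (r2 := r2) (m := m) hM hc he hV hQ hsb
      hσ0 hσ2.le hω (by omega) (by omega) (by omega) (by omega) (by omega) (by omega) hr1').trans ?_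
    rw [Ex_smul]
    refine mul_le_mul_of_nonneg_left ?_ (by positivity)
    rw [Ex_add, Ex_add]
    refine add_le_add (add_le_add ?_ ?_) le_rfl
    · rw [Ex_eta (hM.la i) (gl σ 1 (Wx TT fm b i ε) (gm ε (b e)) m r1 r2 R)]
      exact hgl 1 (Or.inr rfl) σ hσ1 hσ2 a0 ha0 ((le_max_left _ _).trans hK) _ m r1 r2 R _ _ hE ham
        (by omega) hr12 hr28 hr2R
    · rw [Ex_eta (hM.la i) (fun η => ∑ x' ∈ (FlX b ε FlT).filter
        (fun x' => 2 * r + 1 ≤ x'.1 - (gm ε (b e)).1),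
        gS σ 1 1 (gm ε (b e)) r η * gS σ 1 (-1) x' r η), Ex_sum]
      have hsub : ∀ z ∈ FlX b ε FlT, HL 1 z r ⊆ Lx co La i ε := fun z hz =>
        (Pool.Agent.Q1.M6e.HL_mono (by omega)).trans (hF.env hM hz).sub
      have e2 : ∀ x' ∈ (FlX b ε FlT).filter (fun x' => 2 * r + 1 ≤ x'.1 - (gm ε (b e)).1),
          Ex hf (Lx co La i ε) (fun η => gS σ 1 1 (gm ε (b e)) r η * gS σ 1 (-1) x' r η) =
          pS σ 1 1 r * pS σ 1 (-1) r := by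
        intro x' hx'
        obtain ⟨g1, g2⟩ := mem_filter.1 hx'
        exact Ex_two g2 (hsub _ hxF) (hsub x' g1)
      rw [sum_congr rfl e2, sum_const, nsmul_eq_mul]
      have p1 := hms 1 (Or.inr rfl) 1 (Or.inl rfl) σ hσ1 hσ2 a0 ha0 ((le_max_right _ _).trans hK) r
        hra
      have p2 := hms 1 (Or.inr rfl) (-1) (Or.inr rfl) σ hσ1 hσ2 a0 ha0
        ((le_max_right _ _).trans hK) r hra
      have p3 : (0 : ℝ) ≤ pS σ 1 1 r := pS_nonneg hσ0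
      have p4 : (0 : ℝ) ≤ pS σ 1 (-1) r := pS_nonneg hσ0
      have p5 : (0 : ℝ) ≤ C2 * a0 / (r : ℝ) ^ 2 := by positivity
      refine mul_le_mul ?_ ?_ (mul_nonneg p3 p4) (Nat.cast_nonneg _)
      · refine le_trans ?_ hcard
        exact_mod_cast card_filter_le _ _
      · rw [pow_two]
        exact mul_le_mul p1 p2 p4 p5
  refine (sum_le_sum key).trans ?_
  rw [← mul_sum]
  refine mul_le_mul_of_nonneg_left ?_ (by positivity)
  rw [sum_add_distrib, sum_add_distrib, sum_const, sum_const, nsmul_eq_mul, nsmul_eq_mul, ← Ex_sum]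
  refine add_le_add (add_le_add ?_ ?_) le_rfl
  · refine mul_le_mul_of_nonneg_left (div_le_div_of_nonneg_right ?_ (by positivity))
      (Nat.cast_nonneg _)
    refine mul_le_mul_of_nonneg_right ?_ (by linarith)
    refine mul_le_mul_of_nonneg_right (le_max_left _ _) ?_
    have h1 : (0 : ℝ) ≤ ((a0 : ℝ) / m) ^ β := Real.rpow_nonneg (div_nonneg (by linarith)
      (by exact_mod_cast (by omega : (0 : ℤ) ≤ m))) _
    have h2 : (0 : ℝ) ≤ ((m : ℝ) / r2) ^ β := Real.rpow_nonneg (div_nonneg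
      (by exact_mod_cast (by omega : (0 : ℤ) ≤ m)) hr20.le) _
    linarith
  · rw [← mul_assoc, ← pow_two]
    refine mul_le_mul_of_nonneg_left ?_ (by positivity)
    refine pow_le_pow_left₀ (by positivity) ?_ 2
    rw [div_le_div_iff₀ (by positivity) (by positivity)]
    have h1 : (r2 : ℝ) ≤ 24 * r := by exact_mod_cast hr2r
    have h2 : (r2 : ℝ) ^ 2 ≤ 576 * (r : ℝ) ^ 2 := by
      have := pow_le_pow_left₀ hr20.le h1 2
      rw [mul_pow] at this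
      linarith
    have h3 : 2000 * C2 ≤ max C1 (2000 * C2) := le_max_right _ _
    calc C2 * a0 * (r2 : ℝ) ^ 2 ≤ C2 * a0 * (576 * (r : ℝ) ^ 2) :=
          mul_le_mul_of_nonneg_left h2 (by positivity)
      _ ≤ (2000 * C2) * a0 * (r : ℝ) ^ 2 := by
          have : 0 ≤ C2 * a0 * (r : ℝ) ^ 2 := by positivity
          nlinarith
      _ ≤ max C1 (2000 * C2) * a0 * (r : ℝ) ^ 2 :=
          mul_le_mul_of_nonneg_right (mul_le_mul_of_nonneg_right h3 (by linarith)) (by positivity)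

end Pool.Agent.H44.FM.AsmW
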