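import Mathlib
import Pool.Agent.H44.FM.AsmW2

set_option autoImplicit false
open Finset

/-!
# Theorem C with several straight walls in one family: response to arbitrary weights

`asm_walls` : the analogue of helper15's `asm_env` (same right side, index = walls). `resp_wall` : bound of the
natural response of one wall. `asm_groups` : walls with the same weight together.
-/

namespace Pool.Agent.H44.FM.AsmW

open Pool.Agent.H75.Perc Pool.Agent.H75.TwoArm Pool.Agent.H75.Four Pool.Agent.H49.Perc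
open Pool.Agent.H69.Q1 Pool.Agent.H39.Q1 Pool.Agent.H25.Q1.Add
open Pool.Agent.H99.NC Pool.Agent.H60.Q1 Pool.Agent.H20.Q1 Pool.Agent.H59.Q1 Pool.Agent.Q1
open Pool.Agent.Q1.M6e

/-- **Assembly for one environment with several walls.** -/
theorem asm_walls : ∃ K C β γ : ℝ, 0 < K ∧ 0 < C ∧ 0 < β ∧ 0 < γ ∧
    ∀ {ι κ : Type} [DecidableEq ι] [DecidableEq κ] [Fintype κ] (X : Pool.Agent.Q1.Env)
      (W Bb B TT Cs : Finset (ℤ × ℤ)) (fm : ℤ × ℤ → ι) (co : ι → Bool)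
      (Wl La : ι → Finset (ℤ × ℤ)) (b o : ℤ × ℤ → ℤ × ℤ) (a : ℤ × ℤ → ℂ) (rk : ℤ × ℤ → ℤ)
      (wl : ℤ × ℤ → κ) (fw : κ → ι) (ε : κ → Bool × Bool) (δ : κ → ℤ × ℤ)
      (FlT : κ → Finset (ℤ × ℤ)) (a0 : κ → ℤ) (a1 m r1 r2 R : ℤ)
      (M EF : ℝ) (EF' σ Z Z' : κ → ℝ) (s0 : κ → ℂ) (Q : Finset (ℤ × ℤ) → ℤ × ℤ → Prop),
      Multi X W Bb B TT fm co Wl La b o → (∀ c ∈ Cs, FarM X TT fm co Wl La b o c) →
      Walls X W Bb TT Cs fm co Wl La b o rk wl fw ε δ FlT R →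
      (∀ ω ⊆ B, ∀ P ⊆ TT, ‖VM X Cs a Bb B TT fm co ω P‖ ≤ M) →
      (∀ ω ⊆ B, ∀ e ∈ TT, DM X Cs a Bb B TT fm co La b e ω ≠ 0 → Q ω e) →
      (∀ w w', fw w' = fw w → ‖s0 w'‖ ≤ σ w) → (∀ w, 1 / 4 ≤ σ w) → (∀ w, σ w < 1) →
      (∀ w, 2 ≤ a0 w) →
      (∀ w, K ≤ (1 - σ w) ^ ((3 : ℝ) / 2) * a0 w) → (∀ w, a0 w ≤ m) → 2 ≤ a1 → a1 ≤ m →
      K ≤ (1 - 1 / 4 : ℝ) ^ ((3 : ℝ) / 2) * a1 → 2 * m ≤ r1 → 2 * r1 ≤ r2 → r2 ≤ 8 * r1 →
      8 * r2 ≤ 3 * R →
      ‖Tot X Cs a Bb TT fm co (fun e => s0 (wl e)) -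
        Eh Bb (fun ω => U X Cs a (ω ∪ opn TT fm co TT)) -
        ∑ e ∈ TT, Tm X Cs a Bb B TT fm co La b rk (fun e => s0 (wl e)) e‖ ≤ EF →
      (∀ w, ‖Tot X Cs a Bb TT fm co (w4 wl {w}) -
        Eh Bb (fun ω => U X Cs a (ω ∪ opn TT fm co TT)) -
        ∑ e ∈ TT, Tm X Cs a Bb B TT fm co La b rk (w4 wl {w}) e‖ ≤ EF' w) →
      (∀ w, Ex hf B (fun ω => ∑ e ∈ TW TT wl w,
        crn TT fm co La b rk Q (FlT w) (σ w) e ω) ≤ Z w) →
      (∀ w, Ex hf B (fun ω => ∑ e ∈ TW TT wl w,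
        crn TT fm co La b rk Q (FlT w) (1 / 4) e ω) ≤ Z' w) →
      ‖Tot X Cs a Bb TT fm co (fun e => s0 (wl e)) -
        Eh Bb (fun ω => U X Cs a (ω ∪ opn TT fm co TT)) -
        ∑ w, DR 1 m R (s0 w) * (Tot X Cs a Bb TT fm co (w4 wl {w}) -
          Eh Bb (fun ω => U X Cs a (ω ∪ opn TT fm co TT)))‖ ≤
      EF + ∑ w, (‖DR 1 m R (s0 w)‖ * EF' w +
        ((FlT w).card * (C * M * (((m : ℝ) + 1) / R) ^ γ /
          ((1 - σ w) ^ ((3 : ℝ) / 2) * (R : ℝ) ^ 2)) +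
        (remB C β M (FlT w).card (Z w) (a0 w) m r2 +
          ‖DR 1 m R (s0 w)‖ * remB C β M (FlT w).card (Z' w) a1 m r2))) := by
  obtain ⟨K1, C1, γ, hK1, hC1, hγ, hmix⟩ := tie_mix
  obtain ⟨K2, C2, β, hK2, hC2, hβ, hrem⟩ := wall_rem
  refine ⟨max K1 K2, max C1 C2, β, γ, lt_max_of_lt_left hK1, lt_max_of_lt_left hC1, hβ, hγ, ?_⟩
  intro ι κ _ _ _ X W Bb B TT Cs fm co Wl La b o a rk wl fw ε δ FlT a0 a1 m r1 r2 R M EF EF' σ Z Z' s0 Q
    hM hc hW hV hQ hs0 hσ1 hσ2 ha0 hK ham ha1 ha1m hK' hmr hr12 hr28 hr2R hEF hEF' hZ hZ'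
  set s : ℤ × ℤ → ℂ := fun e => s0 (wl e) with hs
  set f0 := Eh Bb (fun ω => U X Cs a (ω ∪ opn TT fm co TT)) with hf0
  set D : κ → ℂ := fun w => DR 1 m R (s0 w) with hD
  have hM0 : 0 ≤ M := (norm_nonneg _).trans (hV ∅ (empty_subset _) ∅ (empty_subset _))
  have hsb : ∀ w, ∀ e' ∈ TF TT fm (fw w), ‖s e'‖ ≤ σ w := fun w e' he' => by
    obtain ⟨h1, h2⟩ := mem_TF.1 he'
    exact hs0 w (wl e') (by rw [← h2, hW.hfw e' h1])
  -- the ties of one wall
  have fam : ∀ w, ‖∑ e ∈ TW TT wl w, (Tm X Cs a Bb B TT fm co La b rk s e -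
      D w * Tm X Cs a Bb B TT fm co La b rk (w4 wl {w}) e)‖ ≤
      (FlT w).card * (max C1 C2 * M * (((m : ℝ) + 1) / R) ^ γ /
        ((1 - σ w) ^ ((3 : ℝ) / 2) * (R : ℝ) ^ 2)) +
      (remB (max C1 C2) β M (FlT w).card (Z w) (a0 w) m r2 +
        ‖D w‖ * remB (max C1 C2) β M (FlT w).card (Z' w) a1 m r2) := by
    intro w
    have hFi := hW.hfl w
    have hsub := FlT_sub hW w
    -- flat ties
    have q1 : ∀ e ∈ FlT w, ‖Tm X Cs a Bb B TT fm co La b rk s e -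
        D w * Tm X Cs a Bb B TT fm co La b rk (w4 wl {w}) e‖ ≤
        C1 * M * (((m : ℝ) + 1) / R) ^ γ / ((1 - σ w) ^ ((3 : ℝ) / 2) * (R : ℝ) ^ 2) +
        (‖Tm X Cs a Bb B TT fm co La b rk s e - Tmt X Cs a Bb B TT fm co La b rk s m e‖ +
        ‖D w‖ * ‖Tm X Cs a Bb B TT fm co La b rk (w4 wl {w}) e -
          Tmt X Cs a Bb B TT fm co La b rk (w4 wl {w}) m e‖) := by
      intro e he
      obtain ⟨heT, hei⟩ := mem_TF.1 (hFi.sub he)
      have hmR : m ≤ R := by omega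
      have hloc : ∀ e' ∈ TF TT fm (fm e), inR (b e) m (b e') → wl e' = w := by
        intro e' he' hin
        rw [hei] at he'
        exact hW.hloc w e he e' he' (by rw [inR_iff] at hin ⊢; omega)
      have hmx := hmix X W Bb B TT Cs fm co Wl La b o a rk e (δ w) (ε w) m R M (σ w) (s0 w) s
        (w4 wl {w}) hM hc heT (by rw [hei]; exact hFi.flat e he) (by rw [hei]; exact hFi.root e he)
        (by rw [hei]; exact hFi.cs e he) hV
        (fun e' he' hin => by rw [hs]; simp only [hloc e' he' hin])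
        (fun e' he' hin => by unfold w4; rw [hloc e' he' hin, if_pos (mem_singleton_self _)])
        (fun e' he' hin => hFi.rk e he e' (by rw [← hei]; exact he')
          (Or.inl (by rw [inR_iff] at hin ⊢; omega)))
        (hσ1 w) (hσ2 w) (hs0 w w rfl) ?_ (by omega)
      · have e1 : Tm X Cs a Bb B TT fm co La b rk s e -
            D w * Tm X Cs a Bb B TT fm co La b rk (w4 wl {w}) e =
            (Tmt X Cs a Bb B TT fm co La b rk s m e -
              D w * Tmt X Cs a Bb B TT fm co La b rk (w4 wl {w}) m e) +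
            ((Tm X Cs a Bb B TT fm co La b rk s e - Tmt X Cs a Bb B TT fm co La b rk s m e) -
            D w * (Tm X Cs a Bb B TT fm co La b rk (w4 wl {w}) e -
              Tmt X Cs a Bb B TT fm co La b rk (w4 wl {w}) m e)) := by ring
        rw [e1]
        refine (norm_add_le _ _).trans (add_le_add hmx ?_)
        refine (norm_sub_le _ _).trans ?_
        rw [norm_mul]
      · refine ((le_max_left _ _).trans (hK w)).trans ?_
        have h1 : (0 : ℝ) ≤ (1 - σ w) ^ ((3 : ℝ) / 2) :=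
          Real.rpow_nonneg (by linarith [hσ2 w]) _
        exact mul_le_mul_of_nonneg_left (by exact_mod_cast ham w) h1
    -- the others
    have q2 : ∀ e ∈ TW TT wl w \ FlT w, ‖Tm X Cs a Bb B TT fm co La b rk s e -
        D w * Tm X Cs a Bb B TT fm co La b rk (w4 wl {w}) e‖ ≤
        2 * M * Ex hf B (crn TT fm co La b rk Q (FlT w) (σ w) e) +
        ‖D w‖ * (2 * M * Ex hf B (crn TT fm co La b rk Q (FlT w) (1 / 4) e)) := by
      intro e he
      obtain ⟨g1, g2⟩ := mem_sdiff.1 he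
      obtain ⟨g3, g4⟩ := mem_TW.1 g1
      have g5 : fm e = fw w := by rw [hW.hfw e g3, g4]
      refine (norm_sub_le _ _).trans ?_
      rw [norm_mul]
      refine add_le_add (Tm_out g3 hV hQ (by linarith [hσ1 w]) (by rw [g5]; exact hsb w) g2)
        (mul_le_mul_of_nonneg_left (Tm_out g3 hV hQ (by norm_num) (fun e' _ => norm_w4 _ _ _) g2)
          (norm_nonneg _))
    have r1' := hrem X W Bb B TT Cs (FlT w) fm co Wl La b o a rk (fw w) (δ w) (ε w) (a0 w) m r1 r2 R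
      M (σ w) s Q hM hc hFi hV hQ (hsb w) (hσ1 w) (hσ2 w) (ha0 w)
      ((le_max_right _ _).trans (hK w)) (ham w) hmr hr12 hr28 hr2R
    have r2' := hrem X W Bb B TT Cs (FlT w) fm co Wl La b o a rk (fw w) (δ w) (ε w) a1 m r1 r2 R
      M (1 / 4) (w4 wl {w}) Q hM hc hFi hV hQ (fun e' _ => norm_w4 _ _ _) le_rfl (by norm_num) ha1
      ((le_max_right _ _).trans hK') ha1m hmr hr12 hr28 hr2R
    have hsplit : ∀ g : ℤ × ℤ → ℝ, ∑ e ∈ TW TT wl w, g e =
        ∑ e ∈ FlT w, g e + ∑ e ∈ TW TT wl w \ FlT w, g e := fun g =>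
      (add_comm _ _).trans (sum_sdiff hsub) |>.symm
    have hcr : ∀ t : ℝ, Ex hf B (fun ω => ∑ e ∈ FlT w,
          crn TT fm co La b rk Q (FlT w) t e ω) +
        ∑ e ∈ TW TT wl w \ FlT w, Ex hf B (crn TT fm co La b rk Q (FlT w) t e) =
        Ex hf B (fun ω => ∑ e ∈ TW TT wl w, crn TT fm co La b rk Q (FlT w) t e ω) := by
      intro t
      rw [Ex_sum, Ex_sum]
      exact (hsplit (fun e => Ex hf B (crn TT fm co La b rk Q (FlT w) t e))).symm
    refine (norm_sum_le _ _).trans ?_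
    rw [hsplit]
    refine (add_le_add (sum_le_sum q1) (sum_le_sum q2)).trans ?_
    rw [sum_add_distrib, sum_add_distrib, sum_add_distrib, sum_const, nsmul_eq_mul, ← mul_sum,
      ← mul_sum, ← mul_sum, ← mul_sum]
    set n : ℝ := ((FlT w).card : ℝ) with hn
    have hn0 : 0 ≤ n := Nat.cast_nonneg _
    have hRR : (0 : ℝ) ≤ (((m : ℝ) + 1) / R) ^ γ := by
      have h1 : (0 : ℝ) ≤ m := by exact_mod_cast (by omega : (0 : ℤ) ≤ m)
      have h2 : (0 : ℝ) ≤ R := by exact_mod_cast (by omega : (0 : ℤ) ≤ R)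
      exact Real.rpow_nonneg (by positivity) _
    have w1 : n * (C1 * M * (((m : ℝ) + 1) / R) ^ γ /
        ((1 - σ w) ^ ((3 : ℝ) / 2) * (R : ℝ) ^ 2)) ≤
        n * (max C1 C2 * M * (((m : ℝ) + 1) / R) ^ γ /
        ((1 - σ w) ^ ((3 : ℝ) / 2) * (R : ℝ) ^ 2)) := by
      refine mul_le_mul_of_nonneg_left (div_le_div_of_nonneg_right ?_ ?_) hn0
      · exact mul_le_mul_of_nonneg_right (mul_le_mul_of_nonneg_right (le_max_left _ _) hM0) hRR
      · exact mul_nonneg (Real.rpow_nonneg (by linarith [hσ2 w]) _) (sq_nonneg _)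
    have w2 : ∀ (Z1 : ℝ) (t : ℤ), 2 ≤ t → remB C2 β M n Z1 t m r2 ≤
        remB (max C1 C2) β M n Z1 t m r2 := by
      intro Z1 t ht
      unfold remB
      have ht0 : (0 : ℝ) ≤ t := by exact_mod_cast (by omega : (0 : ℤ) ≤ t)
      have hm0 : (0 : ℝ) ≤ m := by exact_mod_cast (by omega : (0 : ℤ) ≤ m)
      have hr0 : (0 : ℝ) ≤ r2 := by exact_mod_cast (by omega : (0 : ℤ) ≤ r2)
      have h1 : (0 : ℝ) ≤ ((t : ℝ) / m) ^ β := Real.rpow_nonneg (div_nonneg ht0 hm0) _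
      have h2 : (0 : ℝ) ≤ ((m : ℝ) / r2) ^ β := Real.rpow_nonneg (div_nonneg hm0 hr0) _
      have h3 : C2 ≤ max C1 C2 := le_max_right _ _
      refine mul_le_mul_of_nonneg_left (add_le_add (add_le_add ?_ ?_) le_rfl) (by positivity)
      · refine mul_le_mul_of_nonneg_left (div_le_div_of_nonneg_right ?_ (by positivity)) hn0
        exact mul_le_mul_of_nonneg_right (mul_le_mul_of_nonneg_right h3 (by linarith)) ht0
      · refine mul_le_mul_of_nonneg_left (pow_le_pow_left₀ (by positivity) ?_ 2) (by positivity)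
        exact div_le_div_of_nonneg_right (mul_le_mul_of_nonneg_right h3 ht0) (by positivity)
    have v1 := w2 (Z w) (a0 w) (ha0 w)
    have v2 := w2 (Z' w) a1 ha1
    -- remainders including the ties which are not flat
    have t1 : ∑ e ∈ FlT w, ‖Tm X Cs a Bb B TT fm co La b rk s e -
          Tmt X Cs a Bb B TT fm co La b rk s m e‖ +
        2 * M * ∑ e ∈ TW TT wl w \ FlT w, Ex hf B (crn TT fm co La b rk Q (FlT w) (σ w) e) ≤
        remB C2 β M n (Z w) (a0 w) m r2 := by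
      refine (add_le_add r1' le_rfl).trans ?_
      unfold remB
      rw [← mul_add, add_assoc, add_assoc, hcr]
      rw [← add_assoc]
      exact mul_le_mul_of_nonneg_left (by linarith [hZ w]) (by positivity)
    have t2 : ∑ e ∈ FlT w, ‖Tm X Cs a Bb B TT fm co La b rk (w4 wl {w}) e -
          Tmt X Cs a Bb B TT fm co La b rk (w4 wl {w}) m e‖ +
        2 * M * ∑ e ∈ TW TT wl w \ FlT w, Ex hf B (crn TT fm co La b rk Q (FlT w) (1 / 4) e) ≤
        remB C2 β M n (Z' w) a1 m r2 := by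
      refine (add_le_add r2' le_rfl).trans ?_
      unfold remB
      rw [← mul_add, add_assoc, add_assoc, hcr]
      rw [← add_assoc]
      exact mul_le_mul_of_nonneg_left (by linarith [hZ' w]) (by positivity)
    have t2' := mul_le_mul_of_nonneg_left (t2.trans v2) (norm_nonneg (D w))
    rw [mul_add] at t2'
    linarith
  -- the identity
  have e1 : Tot X Cs a Bb TT fm co s - f0 -
      ∑ w, D w * (Tot X Cs a Bb TT fm co (w4 wl {w}) - f0) =
      (Tot X Cs a Bb TT fm co s - f0 - ∑ e ∈ TT, Tm X Cs a Bb B TT fm co La b rk s e) +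
      ∑ w, (∑ e ∈ TW TT wl w, (Tm X Cs a Bb B TT fm co La b rk s e -
        D w * Tm X Cs a Bb B TT fm co La b rk (w4 wl {w}) e) -
        D w * (Tot X Cs a Bb TT fm co (w4 wl {w}) - f0 -
          ∑ e ∈ TT, Tm X Cs a Bb B TT fm co La b rk (w4 wl {w}) e)) := by
    rw [sum_TW (wl := wl) (Tm X Cs a Bb B TT fm co La b rk s)]
    have e2 : ∀ w, ∑ e ∈ TW TT wl w, (Tm X Cs a Bb B TT fm co La b rk s e -
        D w * Tm X Cs a Bb B TT fm co La b rk (w4 wl {w}) e) -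
        D w * (Tot X Cs a Bb TT fm co (w4 wl {w}) - f0 -
          ∑ e ∈ TT, Tm X Cs a Bb B TT fm co La b rk (w4 wl {w}) e) =
        ∑ e ∈ TW TT wl w, Tm X Cs a Bb B TT fm co La b rk s e -
        D w * (Tot X Cs a Bb TT fm co (w4 wl {w}) - f0) := by
      intro w
      rw [sum_w4 w, sum_sub_distrib, ← mul_sum]
      ring
    rw [sum_congr rfl fun w _ => e2 w, sum_sub_distrib]
    ring
  rw [e1]
  refine (norm_add_le _ _).trans (add_le_add hEF ((norm_sum_le _ _).trans (sum_le_sum fun w _ => ?_)))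
  refine (norm_sub_le _ _).trans ?_
  rw [norm_mul, add_comm]
  exact add_le_add (mul_le_mul_of_nonneg_left (hEF' w) (norm_nonneg _)) (fam w)

/-- **Bound of the natural response of one wall.** -/
theorem resp_wall : ∃ K C : ℝ, 0 < K ∧ 0 < C ∧
    ∀ {ι κ : Type} [DecidableEq ι] [DecidableEq κ] [Fintype κ] (X : Pool.Agent.Q1.Env)
      (W Bb B TT Cs : Finset (ℤ × ℤ)) (fm : ℤ × ℤ → ι) (co : ι → Bool)
      (Wl La : ι → Finset (ℤ × ℤ)) (b o : ℤ × ℤ → ℤ × ℤ) (a : ℤ × ℤ → ℂ) (rk : ℤ × ℤ → ℤ)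
      (wl : ℤ × ℤ → κ) (fw : κ → ι) (ε : κ → Bool × Bool) (δ : κ → ℤ × ℤ)
      (FlT : κ → Finset (ℤ × ℤ)) (R : ℤ) (M EF' Z' : ℝ) (f0 : ℂ)
      (Q : Finset (ℤ × ℤ) → ℤ × ℤ → Prop) (w : κ),
      Multi X W Bb B TT fm co Wl La b o → (∀ c ∈ Cs, FarM X TT fm co Wl La b o c) →
      Walls X W Bb TT Cs fm co Wl La b o rk wl fw ε δ FlT R →
      (∀ ω ⊆ B, ∀ P ⊆ TT, ‖VM X Cs a Bb B TT fm co ω P‖ ≤ M) →
      (∀ ω ⊆ B, ∀ e ∈ TT, DM X Cs a Bb B TT fm co La b e ω ≠ 0 → Q ω e) → K ≤ R →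
      ‖Tot X Cs a Bb TT fm co (w4 wl {w}) - f0 -
        ∑ e ∈ TT, Tm X Cs a Bb B TT fm co La b rk (w4 wl {w}) e‖ ≤ EF' →
      Ex hf B (fun ω => ∑ e ∈ TW TT wl w,
        crn TT fm co La b rk Q (FlT w) (1 / 4) e ω) ≤ Z' →
      ‖Tot X Cs a Bb TT fm co (w4 wl {w}) - f0‖ ≤
        EF' + 2 * M * ((FlT w).card * (C / (R : ℝ) ^ 2) + Z') := by
  obtain ⟨K, C, hK, hC, hms⟩ := mass_le
  set q : ℝ := (1 - 1 / 4 : ℝ) ^ ((3 : ℝ) / 2) with hq
  have hq0 : 0 < q := Real.rpow_pos_of_pos (by norm_num) _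
  obtain ⟨a0, ha0, ha1⟩ : ∃ a0 : ℤ, 2 ≤ a0 ∧ K ≤ q * a0 := by
    refine ⟨max 2 ⌈K / q⌉, le_max_left _ _, ?_⟩
    have h1 : K / q ≤ (max 2 ⌈K / q⌉ : ℤ) := (Int.le_ceil _).trans (by exact_mod_cast le_max_right _ _)
    rw [div_le_iff₀ hq0] at h1
    linarith
  have ha0' : (2 : ℝ) ≤ a0 := by exact_mod_cast ha0
  refine ⟨a0, C * a0, by linarith, by positivity, ?_⟩
  intro ι κ _ _ _ X W Bb B TT Cs fm co Wl La b o a rk wl fw ε δ FlT R M EF' Z' f0 Q w hM hc hW hV hQ hKR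
    hEF' hZ'
  have hM0 : 0 ≤ M := (norm_nonneg _).trans (hV ∅ (empty_subset _) ∅ (empty_subset _))
  have haR : a0 ≤ R := by exact_mod_cast hKR
  have hR2 : 2 ≤ R := by omega
  have hp := hms 1 (Or.inr rfl) 1 (Or.inl rfl) (1 / 4) le_rfl (by norm_num) a0 ha0 ha1 R haR
  have hFi := hW.hfl w
  have hsub := FlT_sub hW w
  have n0 : ∀ e, 0 ≤ Ex hf B (crn TT fm co La b rk Q (FlT w) (1 / 4) e) := fun e =>
    Ex_nonneg hf_pb fun ω _ => crn_nonneg (by norm_num)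
  have key : ∀ e ∈ TW TT wl w, ‖Tm X Cs a Bb B TT fm co La b rk (w4 wl {w}) e‖ ≤
      (if e ∈ FlT w then 2 * M * (C * a0 / (R : ℝ) ^ 2) else 0) +
        2 * M * Ex hf B (crn TT fm co La b rk Q (FlT w) (1 / 4) e) := by
    intro e he
    split_ifs with h
    · refine (Tm_in hM hc hFi h hV hQ (fun e' _ => norm_w4 _ _ _) (by norm_num) (by norm_num)
        hR2).trans ?_
      rw [← mul_add]
      exact mul_le_mul_of_nonneg_left (by linarith) (by positivity)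
    · rw [zero_add]
      obtain ⟨g3, g4⟩ := mem_TW.1 he
      exact Tm_out g3 hV hQ (by norm_num) (fun e' _ => norm_w4 _ _ _) h
  have e1 : Tot X Cs a Bb TT fm co (w4 wl {w}) - f0 =
      (Tot X Cs a Bb TT fm co (w4 wl {w}) - f0 -
        ∑ e ∈ TT, Tm X Cs a Bb B TT fm co La b rk (w4 wl {w}) e) +
      ∑ e ∈ TW TT wl w, Tm X Cs a Bb B TT fm co La b rk (w4 wl {w}) e := by
    rw [sum_w4 w]; ring
  rw [e1]
  refine (norm_add_le _ _).trans (add_le_add hEF' ((norm_sum_le _ _).trans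
    ((sum_le_sum key).trans ?_)))
  rw [sum_add_distrib, ← mul_sum, ← Ex_sum, sum_ite_mem, inter_eq_right.2 hsub, sum_const,
    nsmul_eq_mul]
  have e2 : 2 * M * ((FlT w).card * (C * a0 / (R : ℝ) ^ 2) + Z') =
      (FlT w).card * (2 * M * (C * a0 / (R : ℝ) ^ 2)) + 2 * M * Z' := by ring
  rw [e2]
  exact add_le_add le_rfl (mul_le_mul_of_nonneg_left hZ' (by positivity))

/-- **Groups of walls with the same weight**: `Xg g` is the response of the group `g`, `Xw w` of the wall `w`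
(see `asm_walls`, `add_walls`). -/
theorem asm_groups {κ η : Type} [Fintype κ] [Fintype η] [DecidableEq η] (h : κ → η) (D : η → ℂ)
    (T f0 : ℂ) (Xw : κ → ℂ) (Xg : η → ℂ) {E1 : ℝ} {E2 : η → ℝ}
    (h1 : ‖T - f0 - ∑ w, D (h w) * Xw w‖ ≤ E1)
    (h2 : ∀ g, ‖Xg g - ∑ w with h w = g, Xw w‖ ≤ E2 g) :
    ‖T - f0 - ∑ g, D g * Xg g‖ ≤ E1 + ∑ g, ‖D g‖ * E2 g := by
  have e1 : ∑ w, D (h w) * Xw w = ∑ g, D g * ∑ w with h w = g, Xw w := by
    rw [← sum_fiberwise_of_maps_to (s := univ) (t := univ) (g := h) (fun _ _ => mem_univ _)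
      (fun w => D (h w) * Xw w)]
    refine sum_congr rfl fun g _ => ?_
    rw [mul_sum]
    refine sum_congr rfl fun w hw => ?_
    rw [(mem_filter.1 hw).2]
  have e2 : T - f0 - ∑ g, D g * Xg g = (T - f0 - ∑ w, D (h w) * Xw w) -
      ∑ g, D g * (Xg g - ∑ w with h w = g, Xw w) := by
    rw [e1]
    simp only [mul_sub, sum_sub_distrib]
    ring
  rw [e2]
  refine (norm_sub_le _ _).trans (add_le_add h1 ((norm_sum_le _ _).trans (sum_le_sum fun g _ => ?_)))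
  rw [norm_mul]
  exact mul_le_mul_of_nonneg_left (h2 g) (norm_nonneg _)

/-- **Mixed differences**: `F S` is the total for the set `S` of walls at the weight `1/4`, additive up to `E S`
(see `add_walls`). -/
theorem mix_walls {κ : Type} [DecidableEq κ] {F : Finset κ → ℂ} {f0 : ℂ} {E : Finset κ → ℝ}
    (h : ∀ S, ‖F S - f0 - ∑ w ∈ S, (F {w} - f0)‖ ≤ E S) {S T : Finset κ} (hST : Disjoint S T) :
    ‖F (S ∪ T) - F S - F T + f0‖ ≤ E (S ∪ T) + E S + E T := by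
  have h1 := h (S ∪ T)
  have h2 := h S
  have h3 := h T
  rw [sum_union hST] at h1
  have e : F (S ∪ T) - F S - F T + f0 =
      (F (S ∪ T) - f0 - (∑ w ∈ S, (F {w} - f0) + ∑ w ∈ T, (F {w} - f0))) -
      (F S - f0 - ∑ w ∈ S, (F {w} - f0)) - (F T - f0 - ∑ w ∈ T, (F {w} - f0)) := by ring
  rw [e]
  refine (norm_sub_le _ _).trans (add_le_add ((norm_sub_le _ _).trans (add_le_add h1 h2)) h3)

end Pool.Agent.H44.FM.AsmW
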