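import Mathlib
import Pool.Agent.H42.FM.Loc

set_option autoImplicit false
open Finset

/-! # The shape near a convex corner

`s` is the side after the corner, `w = wv h s 0` its tail, `k = s.2`. In the ball of radius `h` around `w`
the random labels are the labels of the quadrant `dK k w`; the layers of the two sides are the labels
next to the quadrant. -/

namespace Pool.Agent.H44.FM

open Pool.Agent.H75.Perc hiding WL CT hh EE sh
open Pool.Agent.H75.TwoArm Pool.Agent.H75.Four Pool.Agent.H69.Q1 Pool.Agent.Q1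
open Pool.Agent.Q1.M4 (Cell Good IsSide nextSide tail head PType Adj4 Conn4)
open Pool.Agent.H33.Q1
open Pool.Agent.H21.FM Pool.Agent.H42.FM
open Pool.Agent.H60.Q1 (Near Far)
open Pool.Agent.H99.NC (BR inR inR_iff)

/-- convex corner at the tail of `s` -/
structure Cv (Q : Finset Cell) (s : Cell × ℤ) : Prop where
  c1 : s.1 ∈ Q
  c2 : s.1 - dir (s.2 + 1) ∉ Q
  c3 : s.1 - dir s.2 ∉ Q
  c4 : s.1 - dir (s.2 + 1) - dir s.2 ∉ Q

lemma Cv.of {Q : Finset Cell} (hQ : Good Q) {s s' : Cell × ℤ} (h1 : IsSide Q s) (h2 : IsSide Q s')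
    (h3 : s'.1 = s.1) (h4 : s'.2 = s.2 + 1 ∨ s'.2 + 3 = s.2) : Cv Q s' := by
  have a1 : s'.1 - dir (s'.2 + 1) ∉ Q := by
    have := h2.2
    rw [dir_pred, ← sub_eq_add_neg] at this
    exact this
  have a2 : s'.1 - dir s'.2 ∉ Q := by
    have := h1.2
    have e : dir (s.2 - 1) = - dir s'.2 := by
      rcases h4 with h4 | h4
      · have := Pool.Agent.Q1.M4.dir_neg (s.2 - 1)
        rw [show s.2 - 1 + 2 = s'.2 by omega] at this
        rw [this, neg_neg]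
      · have := Pool.Agent.Q1.M4.dir_neg s'.2
        rw [show s'.2 + 2 = s.2 - 1 by omega] at this
        exact this
    rw [e, ← sub_eq_add_neg, ← h3] at this
    exact this
  refine ⟨h2.1, a1, a2, ?_⟩
  have := diag_notMem hQ h2.1 h2.2 a2
  rw [dir_pred, ← sub_eq_add_neg] at this
  exact this

lemma cv_side (P : PType) {i : ℕ} (h : P.side (i + 1) = ((P.side i).1, (P.side i).2 + 1)) :
    Cv P.Q (P.side (i + 1)) :=
  Cv.of P.good (isSide_side' P i) (isSide_side' P (i + 1)) (by rw [h]) (Or.inl (by rw [h]))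

variable {Q : Finset Cell} {s : Cell × ℤ} {h : ℕ} {l : ℤ × ℤ}

/-- the random labels near the corner -/
theorem Cv.mem_TL (hC : Cv Q s) (hh : 0 < h) (hl : l ∈ BR (wv h s 0) h) :
    l ∈ TL Q (2 * h) ↔ dK s.2 (wv h s 0) l := by
  obtain ⟨c1, c2, c3, c4⟩ := hC
  obtain ⟨d1, d2, d3, d4⟩ := cell4 hh s hl
  have hn : (0 : ℤ) < 2 * h := by positivity
  rw [Pool.Agent.H33.Q1.mem_TL hn]
  rw [mem_BR] at hl
  unfold dK
  by_cases a : 2 * cr s.2 (wv h s 0) ≤ cr s.2 l <;>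
  by_cases b : 2 * cr (s.2 + 1) (wv h s 0) ≤ cr (s.2 + 1) l
  · exact ⟨fun _ => ⟨a, b⟩, fun _ => ⟨hl.2.2, by rw [d1 a b]; exact c1⟩⟩
  · exact ⟨fun g => absurd (d2 a b ▸ g.2) c2, fun g => absurd g.2 b⟩
  · exact ⟨fun g => absurd (d3 a b ▸ g.2) c3, fun g => absurd g.1 a⟩
  · exact ⟨fun g => absurd (d4 a b ▸ g.2) c4, fun g => absurd g.1 a⟩

lemma sh_small (k : ℤ) : -1 ≤ (sh (-dir k)).1 ∧ (sh (-dir k)).1 ≤ 1 ∧ -1 ≤ (sh (-dir k)).2 ∧
    (sh (-dir k)).2 ≤ 1 ∧ ((sh (-dir k)).1 + (sh (-dir k)).2) % 2 = 0 := by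
  unfold sh
  rcases dir_cases k with ⟨-, g⟩ | ⟨-, g⟩ | ⟨-, g⟩ | ⟨-, g⟩ <;> rw [g] <;> simp

lemma BR_sh {w : ℤ × ℤ} {R : ℤ} (hl : l ∈ BR w (R - 1)) (k : ℤ) : l + sh (-dir k) ∈ BR w R := by
  have := sh_small k
  rw [mem_BR] at hl ⊢
  simp only [Prod.fst_add, Prod.snd_add]
  omega

lemma dir_ne (k : ℤ) {j : ℤ} (h : dir j = dir k) : (j - k) % 4 = 0 := Pool.Agent.Q1.M4.dir_inj h

/-- **the layers near the corner** -/
theorem Cv.LY_near (hC : Cv Q s) (hh : 0 < h) {s' : Cell × ℤ} (hs' : IsSide Q s')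
    (hl : l ∈ LY (2 * h) s') (hB : l ∈ BR (wv h s 0) (h - 1)) : s'.1 = s.1 ∧
    (((s'.2 - s.2) % 4 = 0 ∧ cr (s.2 + 1) l = 2 * cr (s.2 + 1) (wv h s 0) - 1 ∧
      2 * cr s.2 (wv h s 0) ≤ cr s.2 l) ∨
    ((s'.2 - s.2 + 1) % 4 = 0 ∧ cr s.2 l = 2 * cr s.2 (wv h s 0) - 1 ∧
      2 * cr (s.2 + 1) (wv h s 0) ≤ cr (s.2 + 1) l)) := by
  have hn : (0 : ℤ) < 2 * h := by positivity
  rw [mem_LY hn] at hl
  obtain ⟨hodd, e1, e2⟩ := hl
  set δ := dir (s'.2 - 1) with hδ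
  set l' := l + sh (-δ) with hl'
  have ht' : tt l' = tt l - δ := by rw [hl', tt_sh hodd, sub_eq_add_neg]
  have hl'B : l' ∈ BR (wv h s 0) h := BR_sh hB _
  have hlB : l ∈ BR (wv h s 0) h := Pool.Agent.H20.Q1.BR_mono (by omega) hB
  have hl'odd : (l'.1 + l'.2) % 2 = 1 := (mem_BR.1 hl'B).2.2
  have hl'E : l' ∈ TL Q (2 * h) := by
    rw [Pool.Agent.H33.Q1.mem_TL hn, ht', e2]
    exact ⟨hl'odd, hs'.1⟩
  have hlE : l ∉ TL Q (2 * h) := by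
    rw [Pool.Agent.H33.Q1.mem_TL hn, e1]
    exact fun g => hs'.2 g.2
  have hd' := (hC.mem_TL hh hl'B).1 hl'E
  have hd : ¬ dK s.2 (wv h s 0) l := fun g => hlE ((hC.mem_TL hh hlB).2 g)
  have g1 : s'.1 = s.1 := by
    have := (cell4 hh s hl'B).1 hd'.1 hd'.2
    rw [← this, ht', e2]
  refine ⟨g1, ?_⟩
  obtain ⟨-, d2, d3, d4⟩ := cell4 hh s hlB
  have hcl : cr s.2 l' = cr s.2 l + cr s.2 (sh (-δ)) ∧
      cr (s.2 + 1) l' = cr (s.2 + 1) l + cr (s.2 + 1) (sh (-δ)) := by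
    rw [hl', cr_add, cr_add]
    exact ⟨rfl, rfl⟩
  unfold dK at hd hd'
  have p1 : (cr s.2 l) % 2 = 1 ∧ (cr (s.2 + 1) l) % 2 = 1 := by
    rcases cr_all s.2 with ⟨-, e, f⟩ | ⟨-, e, f⟩ | ⟨-, e, f⟩ | ⟨-, e, f⟩ <;> rw [e, f] <;> omega
  by_cases a : 2 * cr s.2 (wv h s 0) ≤ cr s.2 l
  · left
    have b : ¬ 2 * cr (s.2 + 1) (wv h s 0) ≤ cr (s.2 + 1) l := fun b => hd ⟨a, b⟩
    have g2 := d2 a b
    rw [e1, g1, sub_eq_add_neg, add_right_inj] at g2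
    have g3 : (s'.2 - s.2) % 4 = 0 := by
      have h5 := g2
      rw [← dir_pred] at h5
      have := Pool.Agent.Q1.M4.dir_inj h5
      omega
    rw [g2, neg_neg] at hcl
    have g4 : cr (s.2 + 1) (sh (dir (s.2 + 1))) = 2 := (cr_sh_self (s.2 + 1)).1
    refine ⟨g3, ?_, a⟩
    omega
  · right
    by_cases b : 2 * cr (s.2 + 1) (wv h s 0) ≤ cr (s.2 + 1) l
    · have g2 := d3 a b
      rw [e1, g1, sub_eq_add_neg, add_right_inj] at g2
      have g3 : (s'.2 - s.2 + 1) % 4 = 0 := by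
        have h5 := g2
        have h6 := Pool.Agent.Q1.M4.dir_neg s.2
        rw [← h6] at h5
        have := Pool.Agent.Q1.M4.dir_inj h5
        omega
      rw [g2, neg_neg] at hcl
      have g4 := cr_sh_self s.2
      refine ⟨g3, ?_, b⟩
      omega
    · exfalso
      have g2 := d4 a b
      rw [e1, g1] at g2
      rcases cr_all s.2 with ⟨⟨u, v⟩, -⟩ | ⟨⟨u, v⟩, -⟩ | ⟨⟨u, v⟩, -⟩ | ⟨⟨u, v⟩, -⟩ <;>
      rw [u, v] at g2 <;>
      rcases dir_cases (s'.2 - 1) with ⟨-, g⟩ | ⟨-, g⟩ | ⟨-, g⟩ | ⟨-, g⟩ <;> rw [hδ, g] at g2 <;>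
      simp [Prod.ext_iff] at g2 <;> omega

/-- the layer of the outgoing side -/
theorem LY_of1 (hh : 0 < h) (hl : l ∈ BR (wv h s 0) (h - 1))
    (h1 : cr (s.2 + 1) l = 2 * cr (s.2 + 1) (wv h s 0) - 1)
    (h2 : 2 * cr s.2 (wv h s 0) ≤ cr s.2 l) : l ∈ LY (2 * h) s := by
  have hn : (0 : ℤ) < 2 * h := by positivity
  have hodd : (l.1 + l.2) % 2 = 1 := (mem_BR.1 hl).2.2
  rw [mem_LY hn, dir_pred]
  have hlB : l ∈ BR (wv h s 0) h := Pool.Agent.H20.Q1.BR_mono (by omega) hl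
  refine ⟨hodd, ?_, ?_⟩
  · have := (cell4 hh s hlB).2.1 h2 (by omega)
    rw [this, sub_eq_add_neg]
  · rw [sub_neg_eq_add, ← tt_sh hodd]
    have hl' : l + sh (dir (s.2 + 1)) ∈ BR (wv h s 0) h := by
      have := BR_sh hl (s.2 + 3)
      have e := Pool.Agent.Q1.M4.dir_neg (s.2 + 1)
      rw [show s.2 + 1 + 2 = s.2 + 3 by ring] at e
      rw [e, neg_neg] at this
      exact this
    have g3 := cr_sh_self (s.2 + 1)
    have g4 : cr s.2 (sh (dir (s.2 + 1))) = 0 := by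
      unfold sh
      rcases cr_all s.2 with ⟨⟨a, b⟩, e, f⟩ | ⟨⟨a, b⟩, e, f⟩ | ⟨⟨a, b⟩, e, f⟩ | ⟨⟨a, b⟩, e, f⟩ <;>
        rw [e, b] <;> simp
    refine (cell4 hh s hl').1 ?_ ?_
    · rw [cr_add]
      omega
    · rw [cr_add]
      omega

/-- the layer of the incoming side -/
theorem LY_of2 (hh : 0 < h) (hl : l ∈ BR (wv h s 0) (h - 1))
    (h1 : cr s.2 l = 2 * cr s.2 (wv h s 0) - 1)
    (h2 : 2 * cr (s.2 + 1) (wv h s 0) ≤ cr (s.2 + 1) l) {s' : Cell × ℤ} (e1 : s'.1 = s.1)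
    (e2 : (s'.2 - s.2 + 1) % 4 = 0) : l ∈ LY (2 * h) s' := by
  have hn : (0 : ℤ) < 2 * h := by positivity
  have hodd : (l.1 + l.2) % 2 = 1 := (mem_BR.1 hl).2.2
  have hd : dir (s'.2 - 1) = - dir s.2 := by
    rcases dir_cases (s'.2 - 1) with ⟨a, g⟩ | ⟨a, g⟩ | ⟨a, g⟩ | ⟨a, g⟩ <;>
    rcases dir_cases s.2 with ⟨a', g'⟩ | ⟨a', g'⟩ | ⟨a', g'⟩ | ⟨a', g'⟩ <;> rw [g, g'] <;>
    first | (exfalso; omega) | simp
  rw [mem_LY hn, hd, e1]
  have hlB : l ∈ BR (wv h s 0) h := Pool.Agent.H20.Q1.BR_mono (by omega) hl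
  refine ⟨hodd, ?_, ?_⟩
  · have := (cell4 hh s hlB).2.2.1 (by omega) h2
    rw [this, sub_eq_add_neg]
  · rw [sub_neg_eq_add, ← tt_sh hodd]
    have hl' : l + sh (dir s.2) ∈ BR (wv h s 0) h := by
      have := BR_sh hl (s.2 + 2)
      rw [Pool.Agent.Q1.M4.dir_neg s.2, neg_neg] at this
      exact this
    have g3 := cr_sh_self s.2
    refine (cell4 hh s hl').1 ?_ ?_
    · rw [cr_add]
      omega
    · rw [cr_add]
      omega

end Pool.Agent.H44.FM
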