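import Mathlib
import Pool.Agent.H44.FM.QuadArm
import Pool.Agent.H42.FM.Ev
import Pool.Agent.H21.FM.CTab
import Pool.Agent.H21.FM.Common

set_option autoImplicit false
open Finset

/-! # Mark estimates: definitions and interfaces

`mw S h m`, `mk S m`: vertex and quadrant of the mark number `m = 0, 1, 2, 3` (marks 1, 2, 3, 4).
`XA`: exceptional arms at the mark (an open or a dual arm inside the quadrant). -/

namespace Pool.Agent.H44.FM

open Pool.Agent.H75.Perc hiding WL CT hh ph EE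
open Pool.Agent.H75.TwoArm Pool.Agent.H75.Four Pool.Agent.H69.Q1 Pool.Agent.Q1
open Pool.Agent.H33.Q1 Pool.Agent.H21.FM Pool.Agent.H42.FM
open Pool.Agent.H60.Q1 (Near Far)

/-- index of the side after the mark -/
def ms (S : Shape) : Fin 4 → ℕ
  | 0 => 0
  | 1 => S.m2
  | 2 => S.m3
  | 3 => S.m4

/-- vertex of the mark -/
def mw (S : Shape) (h : ℕ) (m : Fin 4) : ℤ × ℤ := wv h (S.P.side (ms S m)) 0

/-- quadrant of the mark -/
def mk (S : Shape) (m : Fin 4) : ℤ := S.k (ms S m)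

/-- exceptional arms at the mark -/
def XA (S : Shape) (h : ℕ) (m : Fin 4) (ρ R : ℤ) (ω : Finset (ℤ × ℤ)) : Prop :=
  UA (mk S m) (mw S h m) ρ R ω ∨
    UA (mk S m) (mw S h m - dir (mk S m + 1)) (ρ + 2) (R - 2) (du (EE S h) ω)

/-- **open case**: a corner near the mark whose vertex is connected to the other wired arc -/
def OpenCase (S : Shape) (h : ℕ) (m : Fin 4) : Prop :=
  ∀ ω ⊆ EE S h, ∀ (ρ : ℤ) (z : ℤ × ℤ), ρ < h - 2 → (lab z ∈ EE S h ∨ plab z ∈ EE S h) →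
    Near (mw S h m) ρ (vx z) → ¬ TT S h ω →
    (if m = 0 ∨ m = 3 then C3 S h (vx z) ω else C1 S h (vx z) ω) →
    UA (mk S m) (mw S h m) ρ (h - 2) ω

/-- **dual case**: a corner near the mark whose face is joined to the other free arc -/
def DualCase (S : Shape) (h : ℕ) (m : Fin 4) : Prop :=
  ∀ ω ⊆ EE S h, ∀ W, Wir S h W → ∀ (ρ : ℤ) (z : ℤ × ℤ), ρ < h - 6 →
    (lab z ∈ EE S h ∨ plab z ∈ EE S h) → Near (mw S h m) ρ (vx z) →
    ¬ DCo (ω ∪ W) (fi (r1 S h)) (fi (r3 S h)) →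
    DCo (ω ∪ W) (fi (if m = 0 ∨ m = 1 then r3 S h else r1 S h)) (fi z) →
    UA (mk S m) (mw S h m - dir (mk S m + 1)) (ρ + 2) (h - 4) (du (EE S h) ω)

end Pool.Agent.H44.FM
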