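import Mathlib
import Pool.Agent.H44.FM.MarkDefs
import Pool.Agent.H21.FM.Facts
import Pool.Agent.H65.Dom.Clu

set_option autoImplicit false
open Finset

/-! # The combinations of the three environments near the marks

Near the mark `m` the combination with the coefficients `al m` of `X12, X23, X34` has no contribution
unless there is an exceptional arm. -/

namespace Pool.Agent.H44.FM

open Pool.Agent.H75.Perc hiding WL CT hh ph EE
open Pool.Agent.H75.TwoArm Pool.Agent.H75.Four Pool.Agent.H69.Q1 Pool.Agent.Q1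
open Pool.Agent.H33.Q1 Pool.Agent.H21.FM Pool.Agent.H42.FM
open Pool.Agent.H60.Q1 (Near Far)
open Pool.Agent.H99.NC (BR)

/-- coefficients of `X12, X23, X34` at the mark `m` -/
noncomputable def al : Fin 4 → Fin 3 → ℂ
  | 0 => ![0, -1, 1]
  | 1 => ![-ph 2, -1, 1]
  | 2 => ![-ph 2, ph 2, 1]
  | 3 => ![-1, 1, 0]

variable {S : Shape} {h : ℕ} {ω W34 W12 : Finset (ℤ × ℤ)} {X12 X23 X34 : Env}

theorem comb_zero (hh : 0 < h) (Q : ThreeW S h W34 W12) {m : Fin 4} (hO : OpenCase S h m)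
    (hD : DualCase S h m)
    (T : CTab S h X12 X23 X34 (V1 S h) (V3 S h) (s1 S h) (s3 S h))
    (hω : ω ⊆ EE S h) {ρ : ℤ} (hρ : ρ < h - 6) {z : ℤ × ℤ} (hz : lab z ∈ EE S h ∨ plab z ∈ EE S h)
    (hn : Near (mw S h m) ρ (vx z)) (hX : ¬ XA S h m ρ (h - 2) ω) :
    ∑ i, al m i * (![X12, X23, X34] i).incO ω z = 0 := by
  unfold XA at hX
  rw [not_or] at hX
  rw [show (h : ℤ) - 2 - 2 = h - 4 by ring] at hX
  have cO : ¬ TT S h ω → ¬ (if m = 0 ∨ m = 3 then C3 S h (vx z) ω else C1 S h (vx z) ω) :=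
    fun ht hc => hX.1 (hO ω hω ρ z (by omega) hz hn ht hc)
  have cD : TT S h ω →
      ¬ DCo (ω ∪ W34) (fi (if m = 0 ∨ m = 1 then r3 S h else r1 S h)) (fi z) :=
    fun ht hc => hX.2 (hD ω hω W34 Q.w34 ρ z hρ hz hn
      (not_dco_of_tt hh Q hω Q.w34 Q.co34 ht) hc)
  have f1 : V1 S h ω z ≠ 0 → C1 S h (vx z) ω ∧ DCo (ω ∪ W34) (fi (r1 S h)) (fi z) := fun hv =>
    ⟨s1_co (s1_of_V1 hv), s1_dco_all hh Q.w0 Q.w34 hω (s1_of_V1 hv)⟩
  have f3 : V3 S h ω z ≠ 0 → C3 S h (vx z) ω ∧ DCo (ω ∪ W34) (fi (r3 S h)) (fi z) := fun hv =>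
    ⟨s3_co (s3_of_V3 hv), s3_dco_all hh Q.w0 Q.w34 hω (s3_of_V3 hv)⟩
  rw [Fin.sum_univ_three]
  show al m 0 * X12.incO ω z + al m 1 * X23.incO ω z + al m 2 * X34.incO ω z = 0
  rw [T.incO12 ω hω z hz, T.incO23 ω hω z hz, T.incO34 ω hω z hz]
  by_cases ht : TT S h ω
  · have cD := cD ht
    rw [if_pos ht, if_pos ht, if_pos ht]
    fin_cases m
    · simp only [Fin.zero_eta, Fin.isValue, true_or, if_true] at cD
      have : V3 S h ω z = 0 := by
        by_contra hv
        exact cD (f3 hv).2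
      simp only [al, this]
      simp
    · simp only [Fin.mk_one, Fin.isValue, or_true, if_true] at cD
      have : V3 S h ω z = 0 := by
        by_contra hv
        exact cD (f3 hv).2
      simp only [al, this]
      simp
    · have : V1 S h ω z = 0 := by
        by_contra hv
        refine cD ?_
        rw [if_neg (by decide)]
        exact (f1 hv).2
      simp only [al, this]
      simp
    · have : V1 S h ω z = 0 := by
        by_contra hv
        refine cD ?_
        rw [if_neg (by decide)]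
        exact (f1 hv).2
      simp only [al, this]
      simp
  · have cO := cO ht
    rw [if_neg ht, if_neg ht, if_neg ht]
    fin_cases m
    · rw [if_pos (by decide)] at cO
      have : V3 S h ω z = 0 := by
        by_contra hv
        exact cO (f3 hv).1
      simp only [al, this]
      simp
    · rw [if_neg (by decide)] at cO
      have : V1 S h ω z = 0 := by
        by_contra hv
        exact cO (f1 hv).1
      simp only [al, this]
      simp
    · rw [if_neg (by decide)] at cO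
      have : V1 S h ω z = 0 := by
        by_contra hv
        exact cO (f1 hv).1
      simp only [al, this]
      simp
    · rw [if_pos (by decide)] at cO
      have : V3 S h ω z = 0 := by
        by_contra hv
        exact cO (f3 hv).1
      simp only [al, this]
      simp

/-! ### locality and probability of the exceptional arms -/

lemma XA_local {m : Fin 4} {ρ R : ℤ} {B : Finset (ℤ × ℤ)} (hB : B ⊆ BR (mw S h m) ρ)
    {ω ω' : Finset (ℤ × ℤ)} (he : ∀ e, e ∉ B → (e ∈ ω' ↔ e ∈ ω)) :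
    XA S h m ρ R ω' ↔ XA S h m ρ R ω := by
  unfold XA
  have h1 : UA (mk S m) (mw S h m) ρ R ω' ↔ UA (mk S m) (mw S h m) ρ R ω :=
    UA_congr fun e he' => he e fun h' => he' (hB h')
  have h2 : UA (mk S m) (mw S h m - dir (mk S m + 1)) (ρ + 2) (R - 2) (du (EE S h) ω') ↔
      UA (mk S m) (mw S h m - dir (mk S m + 1)) (ρ + 2) (R - 2) (du (EE S h) ω) := by
    refine UA_congr fun e he' => ?_
    rw [Pool.Agent.H65.Dom.mem_du_iff', Pool.Agent.H65.Dom.mem_du_iff']
    have h3 : e - (1, 1) ∉ B := by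
      intro h'
      apply he'
      have h4 := mem_BR.1 (hB h')
      rw [mem_BR]
      simp only [Prod.fst_sub, Prod.snd_sub] at h4 ⊢
      rcases dir_cases (mk S m + 1) with ⟨-, a⟩ | ⟨-, a⟩ | ⟨-, a⟩ | ⟨-, a⟩ <;> rw [a] <;>
        simp only <;> omega
    rw [he _ h3]
  rw [h1, h2]

theorem XA_prob : ∃ C : ℝ, 0 < C ∧ ∀ (S : Shape) (h : ℕ) (m : Fin 4) (ρ : ℕ), 1 ≤ ρ → 8 ≤ h →
    Pr (EE S h) (XA S h m ρ (h - 2)) ≤ C * ((ρ : ℝ) / h) ^ (2 / 3 : ℝ) := by
  obtain ⟨C1, hC1, h1⟩ := quad_arm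
  obtain ⟨C2, hC2, h2⟩ := quad_arm_dual
  refine ⟨6 * (C1 + C2 + 2), by positivity, fun S h m ρ hρ hh => ?_⟩
  have hρ' : (1 : ℝ) ≤ ρ := by exact_mod_cast hρ
  have hh' : (8 : ℝ) ≤ h := by exact_mod_cast hh
  have hX : 0 ≤ ((ρ : ℝ) / h) ^ (2 / 3 : ℝ) := by positivity
  -- comparison of the ratios
  have comp : ∀ a b : ℝ, 0 ≤ a → 0 < b → a / b ≤ 6 * ((ρ : ℝ) / h) →
      (a / b) ^ (2 / 3 : ℝ) ≤ 6 * ((ρ : ℝ) / h) ^ (2 / 3 : ℝ) := by
    intro a b ha hb hab
    have e1 : (a / b) ^ (2 / 3 : ℝ) ≤ (6 * ((ρ : ℝ) / h)) ^ (2 / 3 : ℝ) :=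
      Real.rpow_le_rpow (by positivity) hab (by norm_num)
    refine e1.trans ?_
    rw [Real.mul_rpow (by norm_num) (by positivity)]
    refine mul_le_mul_of_nonneg_right ?_ hX
    calc (6 : ℝ) ^ (2 / 3 : ℝ) ≤ (6 : ℝ) ^ (1 : ℝ) :=
          Real.rpow_le_rpow_of_exponent_le (by norm_num) (by norm_num)
      _ = 6 := Real.rpow_one 6
  have hsplit : Pr (EE S h) (XA S h m ρ (h - 2)) ≤
      Pr (EE S h) (UA (mk S m) (mw S h m) ρ (h - 2)) +
      Pr (EE S h) (fun ω => UA (mk S m) (mw S h m - dir (mk S m + 1)) (ρ + 2) (h - 2 - 2)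
        (du (EE S h) ω)) := Pr_or_le _ _ _
  refine hsplit.trans ?_
  by_cases hbig : ρ + 6 ≤ h
  · have a1 : Pr (EE S h) (UA (mk S m) (mw S h m) ρ (h - 2)) ≤
        C1 * (6 * ((ρ : ℝ) / h) ^ (2 / 3 : ℝ)) := by
      have b1 := h1 (mk S m) (mw S h m) ρ (h - 2) (EE S h) hρ (by omega)
      have e : ((h - 2 : ℕ) : ℤ) = h - 2 := by omega
      rw [e] at b1
      refine (Pr_mono fun ω _ hω => hω.qa).trans (b1.trans ?_)
      refine mul_le_mul_of_nonneg_left (comp _ _ (by positivity) ?_ ?_) hC1.le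
      · have : 0 < h - 2 := by omega
        exact_mod_cast this
      · rw [Nat.cast_sub (by omega)]
        push_cast
        have : (h : ℝ) / 6 ≤ h - 2 := by linarith
        calc (ρ : ℝ) / (h - 2) ≤ ρ / (h / 6) :=
              div_le_div_of_nonneg_left (by positivity) (by positivity) this
          _ = 6 * (ρ / h) := by field_simp
    have a2 : Pr (EE S h) (fun ω => UA (mk S m) (mw S h m - dir (mk S m + 1)) (ρ + 2) (h - 2 - 2)
        (du (EE S h) ω)) ≤ C2 * (6 * ((ρ : ℝ) / h) ^ (2 / 3 : ℝ)) := by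
      have b1 := h2 (mk S m) (mw S h m - dir (mk S m + 1)) (ρ + 2) (h - 4) (EE S h) (by omega)
        (by omega)
      have e : ((h - 4 : ℕ) : ℤ) = h - 2 - 2 := by omega
      have e' : ((ρ + 2 : ℕ) : ℤ) = ρ + 2 := by push_cast; ring
      rw [e, e'] at b1
      refine (Pr_mono fun ω _ hω => UA.qa hω).trans (b1.trans ?_)
      refine mul_le_mul_of_nonneg_left (comp _ _ (by positivity) ?_ ?_) hC2.le
      · have : 0 < h - 4 := by omega
        exact_mod_cast this
      · rw [Nat.cast_sub (by omega)]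
        push_cast
        have g1 : (h : ℝ) / 2 ≤ h - 4 := by linarith
        have g2 : (ρ : ℝ) + 2 ≤ 3 * ρ := by linarith
        calc ((ρ : ℝ) + 2) / (h - 4) ≤ (3 * ρ) / (h / 2) :=
              div_le_div₀ (by positivity) g2 (by positivity) g1
          _ = 6 * (ρ / h) := by field_simp; ring
    have : 0 ≤ 6 * ((ρ : ℝ) / h) ^ (2 / 3 : ℝ) := by positivity
    calc _ ≤ C1 * (6 * ((ρ : ℝ) / h) ^ (2 / 3 : ℝ)) + C2 * (6 * ((ρ : ℝ) / h) ^ (2 / 3 : ℝ)) :=
          add_le_add a1 a2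
      _ ≤ _ := by nlinarith
  · push Not at hbig
    have e1 : (h : ℝ) ≤ ρ + 5 := by
      have : h ≤ ρ + 5 := by omega
      exact_mod_cast this
    have e2 : (1 : ℝ) / 6 ≤ (ρ : ℝ) / h := by
      rw [div_le_div_iff₀ (by norm_num) (by linarith)]
      linarith
    have e3 : (1 : ℝ) / 6 ≤ ((ρ : ℝ) / h) ^ (2 / 3 : ℝ) := by
      calc (1 : ℝ) / 6 ≤ (1 / 6 : ℝ) ^ (2 / 3 : ℝ) := by
            conv_lhs => rw [← Real.rpow_one (1 / 6 : ℝ)]
            exact Real.rpow_le_rpow_of_exponent_ge (by norm_num) (by norm_num) (by norm_num)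
        _ ≤ _ := Real.rpow_le_rpow (by norm_num) e2 (by norm_num)
    refine (add_le_add (Pr_le_one _ _) (Pr_le_one _ _)).trans ?_
    nlinarith

end Pool.Agent.H44.FM
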