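import Mathlib
import Pool.Agent.H44.FM.Comb0
import Pool.Agent.H54.FM.Comb
import Pool.Agent.H76.FM.Hold

set_option autoImplicit false
open Finset

/-! # The combinations are small near the marks -/

namespace Pool.Agent.H44.FM

open Pool.Agent.H75.Perc hiding WL CT hh ph EE
open Pool.Agent.H75.TwoArm Pool.Agent.H75.Four Pool.Agent.H69.Q1 Pool.Agent.Q1
open Pool.Agent.H33.Q1 Pool.Agent.H21.FM Pool.Agent.H42.FM Pool.Agent.H76.FM
open Pool.Agent.H60.Q1 (Far)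
open Pool.Agent.H99.NC
open Pool.Agent.Q1.M4 (RegBound lat)
open Pool.Agent.Q1.M6c (PlaneK planeK_freeze)

/-- The three environments of a shape with their primitives. -/
structure Trip (S : Shape) (h : ℕ) (X : Fin 3 → Env) (Ht : Fin 3 → ℤ × ℤ → ℂ) : Prop where
  env : ∃ W34 W12, ThreeW S h W34 W12 ∧ IsEnv S h W12 (r3 S h) (S.k S.m3 + 1) (X 0) ∧
    IsEnv S h (W0 S h) (r1 S h) (S.k 0 + 1) (X 1) ∧ IsEnv S h W34 (r1 S h) (S.k 0 + 1) (X 2)
  prim : ∀ i, GPrim (X i) (Ht i)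

/-- The combination at the mark `m`. -/
noncomputable def Gm (Ht : Fin 3 → ℤ × ℤ → ℂ) (m : Fin 4) (p : ℤ × ℤ) : ℂ := ∑ i, al m i * Ht i p

lemma norm_al (m : Fin 4) : ∑ i, ‖al m i‖ ≤ 3 := by
  have h2 : ‖(ph 2 : ℂ)‖ = 1 := ph_norm 2
  rw [Fin.sum_univ_three]
  fin_cases m <;> simp [al, h2] <;> norm_num

variable {S : Shape} {h : ℕ} {X : Fin 3 → Env} {Ht : Fin 3 → ℤ × ℤ → ℂ}

lemma Trip.planeK (T : Trip S h X Ht) (i : Fin 3) : PlaneK (X i) := by
  obtain ⟨W34, W12, -, h0, h1, h2⟩ := T.env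
  fin_cases i
  · exact ⟨_, h0.1⟩
  · exact ⟨_, h1.1⟩
  · exact ⟨_, h2.1⟩

lemma Trip.E (T : Trip S h X Ht) (i : Fin 3) : (X i).E = EE S h := by
  obtain ⟨W34, W12, -, h0, h1, h2⟩ := T.env
  fin_cases i
  · exact h0.2.1
  · exact h1.2.1
  · exact h2.2.1

lemma Trip.zero (T : Trip S h X Ht) (hh : 0 < h) {m : Fin 4} (hO : OpenCase S h m)
    (hD : DualCase S h m) {ω : Finset (ℤ × ℤ)} (hω : ω ⊆ EE S h) {ρ : ℤ} (hρ : ρ < h - 6)
    {z : ℤ × ℤ} (hz : lab z ∈ EE S h ∨ plab z ∈ EE S h)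
    (hn : Pool.Agent.H60.Q1.Near (mw S h m) ρ (vx z)) (hX : ¬ XA S h m ρ (h - 2) ω) :
    ∑ i, al m i * (X i).incO ω z = 0 := by
  obtain ⟨W34, W12, Q, h0, h1, h2⟩ := T.env
  have := comb_zero hh Q hO hD (ctab hh Q h0 h1 h2) hω hρ hz hn hX
  rw [Fin.sum_univ_three] at this ⊢
  exact this

/-- tile distance and primal distance -/
lemma near_tile {w v : ℤ × ℤ} {L : ℤ} (h : M4.Near L (tv v) (tv w)) :
    Pool.Agent.H60.Q1.Near w L v := by
  unfold M4.Near tv at h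
  unfold Pool.Agent.H60.Q1.Near
  rw [abs_le, abs_le] at *
  simp only at h
  omega

theorem regBound_mark (hAP : AP PlaneK) : ∃ C : ℝ, 0 < C ∧ ∀ (S : Shape) (h : ℕ)
    (X : Fin 3 → Env) (Ht : Fin 3 → ℤ × ℤ → ℂ), Trip S h X Ht → ∀ m, OpenCase S h m →
    DualCase S h m → ∀ L : ℕ, 1 ≤ L → L + 8 ≤ h →
    RegBound S.P.Q (fun i => 2 * h * i) (fun i => 2 * h * i) L (tv (mw S h m))
      (C * ((L : ℝ) / h) ^ (2 / 3 : ℝ)) (Gm Ht m) := by
  obtain ⟨C0, hC0, hAP⟩ := hAP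
  obtain ⟨C1, hC1, hXP⟩ := XA_prob
  refine ⟨50 * (3 * (C0 + 1) * (2 * C1)), by positivity, fun S h X Ht T m hO hD L hL hLh => ?_⟩
  have hh : 0 < h := by omega
  have hL' : (1 : ℝ) ≤ L := by exact_mod_cast hL
  have hhR : (0 : ℝ) < h := by exact_mod_cast hh
  set η : ℝ := 2 * C1 * ((L : ℝ) / h) ^ (2 / 3 : ℝ) with hη
  have hη0 : 0 ≤ η := by positivity
  -- the probability of the exceptional arms
  have hP : PrP (fun _ => 1 / 2) (EE S h) (XA S h m (L + 1) (h - 2)) ≤ η := by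
    rw [PrP_half]
    have h1 := hXP S h m (L + 1) (by omega) (by omega)
    push_cast at h1
    refine h1.trans ?_
    have h2 : (((L : ℝ) + 1) / h) ^ (2 / 3 : ℝ) ≤ 2 * ((L : ℝ) / h) ^ (2 / 3 : ℝ) := by
      have e1 : ((L : ℝ) + 1) / h ≤ 2 * (L / h) := by
        rw [mul_div_assoc']
        exact div_le_div_of_nonneg_right (by linarith) hhR.le
      refine (Real.rpow_le_rpow (by positivity) e1 (by norm_num)).trans ?_
      rw [Real.mul_rpow (by norm_num) (by positivity)]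
      refine mul_le_mul_of_nonneg_right ?_ (by positivity)
      calc (2 : ℝ) ^ (2 / 3 : ℝ) ≤ (2 : ℝ) ^ (1 : ℝ) :=
            Real.rpow_le_rpow_of_exponent_le (by norm_num) (by norm_num)
        _ = 2 := Real.rpow_one 2
    calc C1 * (((L : ℝ) + 1) / h) ^ (2 / 3 : ℝ) ≤ C1 * (2 * ((L : ℝ) / h) ^ (2 / 3 : ℝ)) :=
          mul_le_mul_of_nonneg_left h2 hC1.le
      _ = η := by rw [hη]; ring
  have hP0 : 0 ≤ PrP (fun _ => 1 / 2) (EE S h) (XA S h m (L + 1) (h - 2)) :=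
    PrP_nonneg (Pb.const (by norm_num) (by norm_num)) _ _
  have hal0 : 0 ≤ ∑ i, ‖al m i‖ := Finset.sum_nonneg fun _ _ => norm_nonneg _
  have hal := norm_al m
  have hE : EE S h = TL S.P.Q (2 * h) := rfl
  have key := regBound_of_box (Q := S.P.Q) (n := 2 * h) (G := Gm Ht m) (L := L)
    (p := tv (mw S h m)) (A := 3 * (C0 + 1) * η) (by positivity) (by positivity) ?_ ?_
  · have e : 50 * (3 * (C0 + 1) * (2 * C1)) * ((L : ℝ) / h) ^ (2 / 3 : ℝ) =
        50 * (3 * (C0 + 1) * η) := by rw [hη]; ring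
    rw [e]
    exact key
  · -- boxes
    intro a b N hN hbox hnear u hu1 hu2
    rw [← hE] at hbox
    have q0 : ∀ a : ℤ, Qt a N a := by intro a; unfold Qt; simp
    have u1 := hu1.bounds
    have u2 := hu2.bounds
    have hbr : ∀ v : ℤ × ℤ, inB (a - N) (a + N) (b - N) (b + N) v →
        Pool.Agent.H60.Q1.Near (mw S h m) L v := by
      intro v hv
      apply near_tile
      obtain ⟨⟨m1, m2⟩, m3, m4⟩ := hv
      unfold M4.Near tv at hnear ⊢
      simp only [abs_le] at hnear ⊢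
      omega
    have hsub : Bx (a - N) (a + N) (b - N) (b + N) ⊆ BR (mw S h m) (L + 1) := by
      intro e he
      rw [mem_Bx] at he
      rw [mem_BR]
      unfold M4.Near tv at hnear
      simp only [abs_le] at hnear
      omega
    have s1 := Env.comb_diff3 (E := EE S h) (X := X) (fun i => T.E i) (a := a - N) (b := a + N)
      (c := b - N) (d := b + N) hbox.sub (Hv := fun i v => Ht i (tv v))
      (Hf := fun i f => Ht i (tf f))
      (fun i => prim_of_gprim (T.prim i) (by rw [T.E i]; exact hbox.sub)) (al m)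
      (B := C0 * (N : ℝ) ^ (2 / 3 : ℝ)) (u := u) (v := (a, b))
      (by unfold inB; omega) (by unfold inB; simp only; omega) (by
        intro i ω1 hω1 Hv' Hf' hP'
        refine hAP _ (planeK_freeze (T.planeK i) _ ω1) a b N ?_ Hv' Hf' hP' _ _ hu1 hu2
          (q0 _) (q0 _)
        rw [Env.freeze_E, T.E i]
        exact subset_inter hbox.sub (Subset.refl _))
      (XA S h m (L + 1) (h - 2)) (fun ω ω' _ _ he => XA_local hsub he) (by
        intro ω hω hn z hz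
        refine T.zero hh hO hD hω (by omega) (Or.inl (hbox.lab z hz).1) ?_ hn
        have := hbr _ hz
        unfold Pool.Agent.H60.Q1.Near at this ⊢
        omega)
    have e1 : Gm Ht m (tv u) - Gm Ht m (tv (a, b)) =
        ∑ i, al m i * (Ht i (tv u) - Ht i (tv (a, b))) := by
      unfold Gm
      rw [← Finset.sum_sub_distrib]
      exact Finset.sum_congr rfl fun i _ => by ring
    rw [e1]
    refine s1.trans ?_
    have hN0 : 0 ≤ (N : ℝ) ^ (2 / 3 : ℝ) := by positivity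
    calc (∑ i, ‖al m i‖) * (C0 * (N : ℝ) ^ (2 / 3 : ℝ)) *
          PrP (fun _ => 1 / 2) (EE S h) (XA S h m (L + 1) (h - 2))
        ≤ 3 * (C0 * (N : ℝ) ^ (2 / 3 : ℝ)) * η :=
          mul_le_mul (mul_le_mul_of_nonneg_right hal (by positivity)) hP hP0 (by positivity)
      _ ≤ 3 * (C0 + 1) * η * (N : ℝ) ^ (2 / 3 : ℝ) := by
          nlinarith [mul_nonneg hη0 hN0]
  · -- edges
    intro c hc hnear
    rw [← hE] at hc
    have s1 := Env.comb_edge3 (E := EE S h) (X := X) (fun i => T.E i) (al m)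
      (XA S h m (L + 1) (h - 2)) (z := c) (by
        intro ω hω hn
        exact T.zero hh hO hD hω (by omega) hc (near_tile hnear) hn)
    have e1 : Gm Ht m (tv (vx c)) - Gm Ht m (tf (fi c)) = ∑ i, al m i * (X i).inc c := by
      unfold Gm
      rw [← Finset.sum_sub_distrib]
      refine Finset.sum_congr rfl fun i _ => ?_
      rw [← T.prim i c (by rw [T.E i]; exact hc)]
      ring
    rw [e1]
    refine s1.trans ?_
    calc (∑ i, ‖al m i‖) * PrP (fun _ => 1 / 2) (EE S h) (XA S h m (L + 1) (h - 2))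
        ≤ 3 * η := mul_le_mul hal hP hP0 (by norm_num)
      _ ≤ 3 * (C0 + 1) * η := by nlinarith

/-- **The combination is small near the mark**, Hölder form. -/
theorem mark_small_of (hAP : AP PlaneK) : ∃ C : ℝ, 0 < C ∧ ∀ (S : Shape) (h : ℕ)
    (X : Fin 3 → Env) (Ht : Fin 3 → ℤ × ℤ → ℂ), Trip S h X Ht → ∀ m, OpenCase S h m →
    DualCase S h m → ∀ ρ : ℕ, 1 ≤ ρ → 19 * ρ + 8 ≤ h → ∀ u v, inG S.P h u → inG S.P h v →
    M4.Near ρ u (tv (mw S h m)) → M4.Near ρ v (tv (mw S h m)) →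
    ‖Gm Ht m u - Gm Ht m v‖ ≤
      C * ((ρ : ℝ) / h) ^ (2 / 3 : ℝ) * ‖lat u - lat v‖ ^ (2 / 3 : ℝ) := by
  obtain ⟨C, hC, H⟩ := regBound_mark hAP
  refine ⟨220 * (19 * C), by positivity, ?_⟩
  intro S h X Ht T m hO hD ρ hρ hρh u v hu hv hup hvp
  have hh : 0 < h := by omega
  have hhR : (0 : ℝ) < h := by exact_mod_cast hh
  have hR := H S h X Ht T m hO hD (19 * ρ) (by omega) (by omega)
  have h1 := hR.holder' (by positivity) (ρ := 2 * ρ)
    (wide_tile S.P.Q (by push_cast; omega)) hu hv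
    ((hup.trans hvp.symm).mono (by push_cast; omega)) (hup.mono (by push_cast; omega))
  refine h1.trans (mul_le_mul_of_nonneg_right ?_ (by positivity))
  have h2 : (((19 * ρ : ℕ) : ℝ) / h) ^ (2 / 3 : ℝ) ≤ 19 * ((ρ : ℝ) / h) ^ (2 / 3 : ℝ) := by
    push_cast
    rw [mul_div_assoc, Real.mul_rpow (by norm_num) (by positivity)]
    refine mul_le_mul_of_nonneg_right ?_ (by positivity)
    calc (19 : ℝ) ^ (2 / 3 : ℝ) ≤ (19 : ℝ) ^ (1 : ℝ) :=
          Real.rpow_le_rpow_of_exponent_le (by norm_num) (by norm_num)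
      _ = 19 := Real.rpow_one 19
  nlinarith [mul_le_mul_of_nonneg_left h2 hC.le]

/-- **The combination is small near the mark.** -/
theorem mark_small_of' (hAP : AP PlaneK) : ∃ C : ℝ, 0 < C ∧ ∀ (S : Shape) (h : ℕ)
    (X : Fin 3 → Env) (Ht : Fin 3 → ℤ × ℤ → ℂ), Trip S h X Ht → ∀ m, OpenCase S h m →
    DualCase S h m → ∀ ρ : ℕ, 1 ≤ ρ → 19 * ρ + 8 ≤ h → ∀ u v, inG S.P h u → inG S.P h v →
    M4.Near ρ u (tv (mw S h m)) → M4.Near ρ v (tv (mw S h m)) →
    ‖Gm Ht m u - Gm Ht m v‖ ≤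
      C * (ρ : ℝ) ^ (2 / 3 : ℝ) * ((ρ : ℝ) / h) ^ (2 / 3 : ℝ) := by
  obtain ⟨C, hC, H⟩ := mark_small_of hAP
  refine ⟨C * 4, by positivity, ?_⟩
  intro S h X Ht T m hO hD ρ hρ hρh u v hu hv hup hvp
  refine (H S h X Ht T m hO hD ρ hρ hρh u v hu hv hup hvp).trans ?_
  have h1 : ‖lat u - lat v‖ ≤ 4 * ρ := by
    have h2 := (hup.trans hvp.symm)
    have e1 : |(u.1 : ℝ) - v.1| ≤ 2 * ρ := by
      have := h2.1
      have h3 : ((|u.1 - v.1| : ℤ) : ℝ) ≤ ((ρ + ρ : ℤ) : ℝ) := by exact_mod_cast this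
      push_cast at h3
      linarith
    have e2 : |(u.2 : ℝ) - v.2| ≤ 2 * ρ := by
      have := h2.2
      have h3 : ((|u.2 - v.2| : ℤ) : ℝ) ≤ ((ρ + ρ : ℤ) : ℝ) := by exact_mod_cast this
      push_cast at h3
      linarith
    refine (Complex.norm_le_abs_re_add_abs_im _).trans ?_
    have r1 : (lat u - lat v).re = (u.1 : ℝ) - v.1 := by simp [lat]
    have r2 : (lat u - lat v).im = (u.2 : ℝ) - v.2 := by simp [lat]
    rw [r1, r2]
    linarith
  have h2 : ‖lat u - lat v‖ ^ (2 / 3 : ℝ) ≤ 4 * (ρ : ℝ) ^ (2 / 3 : ℝ) := by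
    refine (Real.rpow_le_rpow (norm_nonneg _) h1 (by norm_num)).trans ?_
    rw [Real.mul_rpow (by norm_num) (by positivity)]
    refine mul_le_mul_of_nonneg_right ?_ (by positivity)
    calc (4 : ℝ) ^ (2 / 3 : ℝ) ≤ (4 : ℝ) ^ (1 : ℝ) :=
          Real.rpow_le_rpow_of_exponent_le (by norm_num) (by norm_num)
      _ = 4 := Real.rpow_one 4
  calc C * ((ρ : ℝ) / h) ^ (2 / 3 : ℝ) * ‖lat u - lat v‖ ^ (2 / 3 : ℝ)
      ≤ C * ((ρ : ℝ) / h) ^ (2 / 3 : ℝ) * (4 * (ρ : ℝ) ^ (2 / 3 : ℝ)) :=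
        mul_le_mul_of_nonneg_left h2 (by positivity)
    _ = _ := by ring

end Pool.Agent.H44.FM
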