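import Mathlib
import Pool.Agent.Q1.M6f.GlueHol3
import Pool.Agent.Q1.M6c.APMain
import Pool.Agent.H42.FM.Open
import Pool.Agent.H9.FM.Dual
import Pool.Agent.H21.FM.Final2

set_option autoImplicit false
open Filter Topology

/-! # Cardy's formula on a shape: everything except the tracks -/

namespace Pool.Agent.H44.FM

open Pool.Agent.H75.TwoArm Pool.Agent.H75.Four Pool.Agent.H69.Q1 Pool.Agent.Q1
open Pool.Agent.H21.FM
open Pool.Agent.H19.RH (Cht lam)
open Pool.Agent.H13.Q1.Four (cardy)
open Pool.Agent.H14.FM (ic)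
open Pool.Agent.Q1.M6f.Glue (TI3 Tracks3 hol3_of_ti hol3_of_tracks)

/-- the open and the dual case at every mark of every shape -/
theorem openDual (S : Shape) (m : Fin 4) :
    ∀ᶠ h in atTop, OpenCase S h m ∧ DualCase S h m := by
  filter_upwards [eventually_ge_atTop 10] with h hh
  exact ⟨Pool.Agent.H42.FM.openCase S hh m, Pool.Agent.H9.FM.dualCase S hh m⟩

/-- `Hol3 S` from translation invariance alone -/
theorem hol3_of_ti' {S : Shape} (hTI : TI3 S) : Hol3 S :=
  hol3_of_ti M6c.ap_planeK (openDual S) hTI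

/-- `Hol3 S` from the tracks alone -/
theorem hol3_of_tracks' {S : Shape} (hT : Tracks3 S) : Hol3 S :=
  hol3_of_tracks M6c.ap_planeK (openDual S) hT

/-- **Cardy's formula on a shape** from translation invariance. -/
theorem cardyShape_of_ti (S : Shape) {φ : ℂ → ℂ} (C : Cht S.P ic ic φ) (hTI : TI3 S) :
    Tendsto (fun h => qn S h) atTop (𝓝 (cardy (lam S.P ic ic S.m2 S.m3 S.m4 φ))) :=
  cardyShape S C (hol3_of_ti' hTI)

/-- **Cardy's formula on a shape** from the tracks. -/
theorem cardyShape_of_tracks (S : Shape) {φ : ℂ → ℂ} (C : Cht S.P ic ic φ) (hT : Tracks3 S) :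
    Tendsto (fun h => qn S h) atTop (𝓝 (cardy (lam S.P ic ic S.m2 S.m3 S.m4 φ))) :=
  cardyShape S C (hol3_of_tracks' hT)

end Pool.Agent.H44.FM
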