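import Mathlib
import Pool.Agent.H95.R45.Main
import Pool.Agent.H53.FM.GSquare

set_option autoImplicit false
open Finset Filter Topology

/-!
# The response function is determined by the 45 degree rectangles

`C45at` : the linear response of the 45 degree rectangles at one scale, for a given response function `G`.
`gfix45` : a response function with the bounds `GHypX` and `C45at` satisfies `G (π) = -i G (π / 2)` and
`G (π / 2) = -i G (0)` up to `ε`.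
-/

namespace Pool.Agent.H44.FM

open Pool.Agent.H75.TwoArm Pool.Agent.Q1 Pool.Agent.H33.Q1
open Pool.Agent.H75.Perc hiding ph
open Pool.Agent.H74.R45 Pool.Agent.H33.R45 Pool.Agent.H64.Q1 Pool.Agent.Q1.M6f.Glue
open Pool.Agent.H25.Q1.Close Pool.Agent.Q1.M6f
open Pool.Agent.Q1.M4 (lat Om)
open Pool.Agent.Q1.M6e (OFar Inn inc2)
open Pool.Agent.H21.FM (GPrim Shape IsEnv Tri3 Hol3 nrm bp)
open Pool.Agent.H87.FM (gx Rs)
open Pool.Agent.H57.FM (RS)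
open Pool.Agent.H95.R45
open Pool.Agent.H53.FM (GHypX LinT TrackAB g_fixed_shape)

/-- the inequality of `C45` at the scale `R` for the given response function `G` -/
def C45at (η : ℝ) (R : ℕ) (ρ ε : ℝ) (G : ℂ → ℂ) : Prop :=
  ∀ (w h : ℤ) (O : Out w h), Sc η R O → ∀ top : Bool, ∀ t : ℝ, |t| ≤ 1 → ∀ H H0 H1 H2 : ℤ → ℤ → ℂ,
    PotJ O top (wa (rap ⌊ρ * R⌋₊ t)) (wa (rap ⌊ρ * R⌋₊ t + Real.pi / 2)) H →
    PotJ O top 0 1 H0 → PotJ O top (1 / 2) 1 H1 → PotJ O top 0 (1 / 2) H2 →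
    ∀ p q : ℤ × ℤ, Inn w h (η * R) p → Inn w h (η * R) q →
    ‖inc2 H p q - inc2 H0 p q - (⌊ρ * R⌋₊ : ℂ) * (G (pt t) * (inc2 H1 p q - inc2 H0 p q) +
      G (pt t + (Real.pi / 2 : ℝ)) * (inc2 H2 p q - inc2 H0 p q))‖ ≤ ε * ρ * (R : ℝ) ^ (2 / 3 : ℝ)

variable {A B : ℕ}

/-- from `C45at` to `LinT` for one sequence of outsides -/
theorem lin_of_at (F : Fam A B) (hA : 0 < A) (hB : 0 < B) {K : Set ℂ} (hK : K ⊆ Om2 A B)
    (hKc : IsCompact K) : ∃ η > 0, ∀ κ : ℕ → ℂ, (∀ n, ‖κ n‖ = 1) → ∀ ρ ε : ℝ,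
      ∀ᶠ n in atTop, ∀ G : ℂ → ℂ, C45at η (2 * n) ρ ε G →
        LinT R2 (F.V κ) (F.e κ) (fun n => Glue.al (F.e κ n) (F.ff κ n)) (fun n => Glue.be (F.e κ n) (F.fl κ n))
          G n ρ (2 * ε) K := by
  obtain ⟨η, hη, hw⟩ := F.work hA hB hK hKc
  refine ⟨η, hη, fun κ hκ ρ ε => ?_⟩
  filter_upwards [hw, F.root] with n k1 k3 G h3
  obtain ⟨hn, hsc, hd, hin⟩ := k1
  have hR := R2_pos hn
  intro t ht u v _ _ hu hv
  have i0 : ∀ v : ℤ × ℤ, lat v / (R2 n : ℂ) ∈ K → Inn (F.w n) (F.h n) (η * ((2 * n : ℕ) : ℝ)) v := by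
    intro v hv
    have := hin v hv 0 le_rfl (by norm_num)
    rwa [sub_zero] at this
  have i1 : ∀ v : ℤ × ℤ, lat v / (R2 n : ℂ) ∈ K →
      Inn (F.w n) (F.h n) (η * ((2 * n : ℕ) : ℝ)) (v.1, v.2 - 1) := fun v hv =>
    hin v hv 1 (by norm_num) (by norm_num)
  have pos : ∀ v : ℤ × ℤ, lat v / (R2 n : ℂ) ∈ K → 1 ≤ v.1 ∧ v.1 ≤ F.w n ∧ 1 ≤ v.2 ∧ v.2 ≤ F.h n :=
    fun v hv => Inn.pos hd (i0 v hv)
  have pu := pos u hu
  have pv := pos v hv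
  have hl := F.lo_spec n (wa (rap ⌊ρ * R2 n⌋₊ t)) (wa (rap ⌊ρ * R2 n⌋₊ t + Real.pi / 2))
  have hup := F.up_spec n (wa (rap ⌊ρ * R2 n⌋₊ t)) (wa (rap ⌊ρ * R2 n⌋₊ t + Real.pi / 2))
  rw [R2_cast] at hl hup
  have a := h3 _ _ _ hsc false t ht _ _ _ _ hl (F.lo_spec n 0 1)
    (F.lo_spec n (1 / 2) 1) (F.lo_spec n 0 (1 / 2)) u v (i0 u hu) (i0 v hv)
  have b := h3 _ _ _ hsc true t ht _ _ _ _ hup (F.up_spec n 0 1)
    (F.up_spec n (1 / 2) 1) (F.up_spec n 0 (1 / 2)) _ _ (i1 u hu) (i1 v hv)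
  rw [← R2_cast] at a b
  have eA := F.al_sub κ k3 (u := u) (v := v) (by omega) (by omega)
  have eB := F.be_sub κ k3 (u := u) (v := v) (by omega) (by omega)
  set φ := rap ⌊ρ * R2 n⌋₊ t with hφ
  set g1 := G (pt t) with hg1
  set g2 := G (pt t + (Real.pi / 2 : ℝ)) with hg2
  have e0 : (F.V κ n φ u - F.V κ n φ v) - (F.e κ n u - F.e κ n v) - (⌊ρ * R2 n⌋₊ : ℂ) *
      (g1 * (Glue.al (F.e κ n) (F.ff κ n) u - Glue.al (F.e κ n) (F.ff κ n) v) +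
      g2 * (Glue.be (F.e κ n) (F.fl κ n) u - Glue.be (F.e κ n) (F.fl κ n) v)) = κ n * nu n *
      ((inc2 (F.Lo n (wa φ) (wa (φ + Real.pi / 2))) u v - inc2 (F.Lo n 0 1) u v -
        (⌊ρ * R2 n⌋₊ : ℂ) * (g1 * (inc2 (F.Lo n (1 / 2) 1) u v - inc2 (F.Lo n 0 1) u v) +
          g2 * (inc2 (F.Lo n 0 (1 / 2)) u v - inc2 (F.Lo n 0 1) u v))) -
      (inc2 (F.Up n (wa φ) (wa (φ + Real.pi / 2))) (u.1, u.2 - 1) (v.1, v.2 - 1) -
        inc2 (F.Up n 0 1) (u.1, u.2 - 1) (v.1, v.2 - 1) -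
        (⌊ρ * R2 n⌋₊ : ℂ) * (g1 * (inc2 (F.Up n (1 / 2) 1) (u.1, u.2 - 1) (v.1, v.2 - 1) -
          inc2 (F.Up n 0 1) (u.1, u.2 - 1) (v.1, v.2 - 1)) +
          g2 * (inc2 (F.Up n 0 (1 / 2)) (u.1, u.2 - 1) (v.1, v.2 - 1) -
            inc2 (F.Up n 0 1) (u.1, u.2 - 1) (v.1, v.2 - 1))))) := by
    rw [eA, eB]
    unfold Fam.V Fam.e Fam.dL Fam.dU inc2
    ring
  have e1 : (F.V κ n φ u - F.V κ n φ v) - (F.e κ n u - F.e κ n v) - (⌊ρ * R2 n⌋₊ : ℂ) *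
      (G (pt t) * ((fun n => Glue.al (F.e κ n) (F.ff κ n)) n u - (fun n => Glue.al (F.e κ n) (F.ff κ n)) n v) +
      G (pt t + (Real.pi / 2 : ℝ)) * ((fun n => Glue.be (F.e κ n) (F.fl κ n)) n u -
        (fun n => Glue.be (F.e κ n) (F.fl κ n)) n v)) =
    (F.V κ n φ u - F.V κ n φ v) - (F.e κ n u - F.e κ n v) - (⌊ρ * R2 n⌋₊ : ℂ) *
      (g1 * (Glue.al (F.e κ n) (F.ff κ n) u - Glue.al (F.e κ n) (F.ff κ n) v) +
      g2 * (Glue.be (F.e κ n) (F.fl κ n) u - Glue.be (F.e κ n) (F.fl κ n) v)) := rfl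
  rw [e1, e0, norm_knu κ hκ hn]
  calc R2 n ^ (-(2 / 3) : ℝ) * _ ≤ R2 n ^ (-(2 / 3) : ℝ) *
        (ε * ρ * R2 n ^ (2 / 3 : ℝ) + ε * ρ * R2 n ^ (2 / 3 : ℝ)) :=
        mul_le_mul_of_nonneg_left ((norm_sub_le _ _).trans (add_le_add a b)) (by positivity)
    _ = 2 * ε * ρ * (R2 n ^ (-(2 / 3) : ℝ) * R2 n ^ (2 / 3 : ℝ)) := by ring
    _ = 2 * ε * ρ := by rw [pw hR, mul_one]

/-- **The response function is determined.** -/
theorem gfix45 (hAB : AB45) (hC : C45) (hN : N45) (hM : M45) : ∀ C c : ℝ, 0 < c → ∀ ε > 0,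
    ∃ ε' > 0, ∃ Y : ℝ, ∃ η > 0, ∃ ρ1 > 0, ∀ ρ : ℝ, 0 < ρ → ρ < ρ1 → ∃ n0 : ℕ, ∀ n : ℕ, n0 ≤ n →
      ∀ G : ℂ → ℂ, GHypX C c Y G → C45at η (2 * n) ρ ε' G →
        ‖G (Real.pi : ℝ) + Complex.I * G (Real.pi / 2 : ℝ)‖ ≤ ε ∧
        ‖G (Real.pi / 2 : ℝ) + Complex.I * G 0‖ ≤ ε := by
  classical
  have h1 : 0 < 1 := one_pos
  set S : Shape := RS 1 1 h1 h1 with hS
  have hol : Hol3 S := hol3_rect h1 h1 hAB hC hN hM
  -- the environments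
  have hex : ∀ h : ℕ, ∃ (X : Fin 3 → Env) (H : Fin 3 → ℤ × ℤ → ℂ), 4 ≤ h → Tri3 S h X H := by
    intro h
    by_cases hh : 4 ≤ h
    · obtain ⟨X, H, hXH⟩ := Pool.Agent.H21.FM.exists_tri3 S (Pool.Agent.H76.FM.exGPrim S.P) hh
      exact ⟨X, H, fun _ => hXH⟩
    · obtain ⟨X, H, -⟩ := Pool.Agent.H21.FM.exists_tri3 S (Pool.Agent.H76.FM.exGPrim S.P) (le_refl 4)
      exact ⟨X, H, fun h' => absurd h' hh⟩
  choose X H hXH using hex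
  have hT : ∀ᶠ h in atTop, Tri3 S h (X h) (H h) := by
    filter_upwards [eventually_ge_atTop 4] with h hh
    exact hXH h hh
  set F : Fam2 1 1 := fam23 h1 h1 with hF
  have hX : ∀ᶠ n in atTop, GPrim (X n 1) (H n 1) ∧ (X n 1).E = RT 0 (F.w n) 0 (F.h n) ∧
      ∃ k : ℤ, ∀ c, (lab c ∈ RT 0 (F.w n) 0 (F.h n) ∨ plab c ∈ RT 0 (F.w n) 0 (F.h n)) →
        (XN (F.O n)).inc c = ph k * (X n 1).inc c := by
    filter_upwards [hT, eventually_ge_atTop 4] with n h1' h2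
    refine ⟨h1'.prim 1, E_RS h1 h1 h2 h1' 1, ?_⟩
    have e : ∀ N, N = n → IsEnv (RS 1 1 h1 h1) N (Pool.Agent.H21.FM.W0 (RS 1 1 h1 h1) N)
        (Pool.Agent.H21.FM.r1 (RS 1 1 h1 h1) N) ((RS 1 1 h1 h1).k 0 + 1) (X n 1) := by
      rintro N rfl; exact h1'.e23
    exact xn23 (parN h1 h1 n) (four_le n) (e _ (n4_eq h2))
  -- the phase
  obtain ⟨k, hk⟩ : ∃ k : ℕ → ℤ, ∀ᶠ n in atTop, GPrim (X n 1) (H n 1) ∧
      (X n 1).E = RT 0 (F.w n) 0 (F.h n) ∧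
      ∀ c, (lab c ∈ RT 0 (F.w n) 0 (F.h n) ∨ plab c ∈ RT 0 (F.w n) 0 (F.h n)) →
        (XN (F.O n)).inc c = ph (k n) * (X n 1).inc c := by
    refine ⟨fun n => if h : ∃ k : ℤ, ∀ c, (lab c ∈ RT 0 (F.w n) 0 (F.h n) ∨
      plab c ∈ RT 0 (F.w n) 0 (F.h n)) → (XN (F.O n)).inc c = ph k * (X n 1).inc c then h.choose
      else 0, ?_⟩
    filter_upwards [hX] with n h1'
    obtain ⟨h1', h2, h3⟩ := h1'
    refine ⟨h1', h2, ?_⟩
    rw [dif_pos h3]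
    exact h3.choose_spec
  set κ : ℕ → ℂ := fun n => (ph (k n))⁻¹ with hκd
  have hκ : ∀ n, ‖κ n‖ = 1 := fun n => by rw [hκd]; simp only; rw [norm_inv, ph_norm, inv_one]
  set Hn : ℕ → ℤ → ℤ → ℂ := fun n x y => ph (k n) * H n 1 (x, y) with hHn
  have pn : ∀ᶠ n in atTop, Pot (fun c => (XN (F.O n)).inc c) (Hn n) 0 (F.w n) 0 (F.h n) := by
    filter_upwards [hk] with n h1'
    obtain ⟨h1', h2, h3⟩ := h1'
    have hw0 := (F.O n).hw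
    have hh0 := (F.O n).hh
    have : GPrim (XN (F.O n)) (fun p => ph (k n) * H n 1 p) := by
      intro c hc
      have hc' : lab c ∈ RT 0 (F.w n) 0 (F.h n) ∨ plab c ∈ RT 0 (F.w n) 0 (F.h n) := hc
      rw [h3 c hc', ← mul_sub, h1' c (by rw [h2]; exact hc')]
    exact pot_of_gprim (X := XN (F.O n)) rfl (by omega) (by omega) this
  have half1 := Fam.half (F := F.toFam) h1 h1 hAB hC hN hM dl45 pn
  have hg : ∀ K ⊆ Om2 1 1, IsCompact K → ∀ᶠ n in atTop, ∀ u v : ℤ × ℤ, lat u / (R2 n : ℂ) ∈ K →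
      lat v / (R2 n : ℂ) ∈ K → nrm S.P n (H n 1) u - nrm S.P n (H n 1) v =
        κ n * nf (NR n) (Hn n) u - κ n * nf (NR n) (Hn n) v := by
    intro K _ _
    refine Eventually.of_forall fun n u v _ _ => ?_
    have h1' : κ n * ph (k n) = 1 := inv_mul_cancel₀ (ph_ne _)
    show (NR n : ℂ) * (H n 1 u - H n 1 (bp S.P n)) - (NR n : ℂ) * (H n 1 v - H n 1 (bp S.P n)) = _
    unfold nf
    simp only [hHn]
    linear_combination ((NR n : ℂ) * (H n 1 v - H n 1 u)) * h1'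
  have half2 := half1.smul hκ hg
  have eV : (fun j φ v => κ j * F.toFam.V (fun _ => 1) j φ v) = F.toFam.V κ := by
    funext j φ v
    unfold Fam.V
    ring
  have ee : (fun j v => κ j * (fun n => ne (NR n) (F.toFam.Lo n 0 1) (F.toFam.Up n 0 1)) j v) =
      F.toFam.e κ := by
    funext j v
    simp only [ne, Fam.e, nu_eq]
    ring
  have eff : (fun j v => κ j * (fun n => nf (NR n) (F.toFam.Lo n (1 / 2) 1)) j v) = F.toFam.ff κ := by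
    funext j v
    simp only [nf, Fam.ff, nu_eq]
    ring
  have efl : (fun j v => κ j * (fun n => nf (NR n) (F.toFam.Lo n 0 (1 / 2))) j v) = F.toFam.fl κ := by
    funext j v
    simp only [nf, Fam.fl, nu_eq]
    ring
  rw [eV, ee, eff, efl] at half2
  have half3 : Half (Rs fun h => h) atTop (Om S.P.Q gx gx) (fun n => nrm S.P n (H n 1))
      (F.toFam.e κ) (F.toFam.ff κ) (F.toFam.fl κ) (F.toFam.V κ) := by
    rw [Om_RS h1 h1]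
    exact half2
  have main := g_fixed_shape S hT hol half3.cff half3.cfl half3.t.toAB
  intro C c hc ε hε
  obtain ⟨ε', hε', Y, ρ1, hρ1, K, hK, hKc, hm⟩ := main C c hc ε hε
  rw [Om_RS h1 h1] at hK
  obtain ⟨η, hη, hl⟩ := lin_of_at F.toFam h1 h1 hK hKc
  refine ⟨ε' / 2, by positivity, Y, η, hη, ρ1, hρ1, fun ρ hρ hρl => ?_⟩
  obtain ⟨n0, hn0⟩ := eventually_atTop.1 ((hm ρ hρ hρl).and (hl κ hκ ρ (ε' / 2)))
  refine ⟨n0, fun n hn G hG hat => ?_⟩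
  obtain ⟨g1, g2⟩ := hn0 n hn
  have g3 := g2 G hat
  rw [show 2 * (ε' / 2) = ε' by ring] at g3
  exact g1 G hG g3

end Pool.Agent.H44.FM
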