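import Mathlib
import Pool.Agent.Q1.M6e.Comb
import Pool.Agent.Q1.M6e.Wn.P45
import Pool.Agent.H44.FM.Fix45

set_option autoImplicit false
open Finset

/-! # From `LRat` to `C45at` at one scale, the same response function -/

namespace Pool.Agent.H44.FM

open Pool.Agent.H75.Perc Pool.Agent.H75.TwoArm Pool.Agent.H75.Four Pool.Agent.H49.Perc
open Pool.Agent.H69.Q1 Pool.Agent.H39.Q1 Pool.Agent.H25.Q1.Add
open Pool.Agent.H99.NC Pool.Agent.H60.Q1 Pool.Agent.H20.Q1 Pool.Agent.Q1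
open Pool.Agent.H33.Q1 Pool.Agent.H74.R45 Pool.Agent.H13.R45 Pool.Agent.H13.Q1
open Pool.Agent.H64.Q1 Pool.Agent.Q1.M6f.Glue Pool.Agent.H25.Q1.Close Pool.Agent.Q1.M6f
open Pool.Agent.H95.R45 (Sc PotJ C45 N45 M45)
open Pool.Agent.Q1.M6e
open Pool.Agent.Q1.M6e.Wn (LRat)
open Pool.Agent.H53.FM (GHypX UBY UB)

/-- **From the response of every frozen state to the response of the potentials**, one scale, given `G`. -/
theorem c45at_of (hD : DL45) {η : ℝ} (hη : 0 < η) (C c : ℝ) {ε : ℝ} (hε : 0 < ε) {Y : ℝ} (hY : 2 ≤ Y)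
    {ρ : ℝ} (hρ : 0 < ρ) : ∃ R0 : ℕ, ∀ R : ℕ, R0 ≤ R → ∀ G : ℂ → ℂ, GHypX C c Y G →
      LRat η R ⌊ρ * R⌋₊ G (ε / 8 * ρ * (R : ℝ) ^ (2 / 3 : ℝ)) → C45at η R ρ ε G := by
  obtain ⟨CD, R1, hDL⟩ := hD η hη
  set CG : ℝ := |C| * Real.exp 1 with hCG
  have hCG0 : 0 ≤ CG := by positivity
  set D' : ℝ := max CD 0 with hD'
  have hD0 : 0 ≤ D' := le_max_right _ _
  obtain ⟨R2, hR2⟩ := large_lin 3 hη
  obtain ⟨R3, hR3⟩ := large_pow (D' * (8 + 32 * ρ * CG) / (ε / 2 * ρ)) (α := 1 / 3) (by norm_num)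
  refine ⟨max R1 (max (max R2 R3) 1), fun R hR G hG hLR => ?_⟩
  have g1 : R1 ≤ R := le_trans (by simp) hR
  have g2 : R2 ≤ R := le_trans (by simp) hR
  have g3 : R3 ≤ R := le_trans (by simp) hR
  have g4 : 1 ≤ R := le_trans (by simp) hR
  intro w h O hSc top t ht H H0 H1 H2 hH hH0 hH1 hH2 p q hp hq
  have hp0 := Real.pi_pos
  have ht' := (abs_le.1 ht)
  have hGb : ∀ z : ℂ, z ∈ Pool.Agent.H25.Q1.Close.U → z.im = t → ‖G z‖ ≤ CG := by
    intro z hz hz'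
    have h1 := hG.bound z ⟨hz, by rw [hz']; exact lt_of_le_of_lt ht (by linarith)⟩
    rw [hz'] at h1
    refine h1.trans ?_
    rw [hCG]
    exact mul_le_mul (le_abs_self C) (Real.exp_le_exp.2 ht'.2) (Real.exp_pos _).le (abs_nonneg _)
  have hg1 : ‖G (pt t)‖ ≤ CG := hGb _ (V_subset_U (pt_mem_V t)) (pt_im t)
  have hg2 : ‖G (pt t + (Real.pi / 2 : ℝ))‖ ≤ CG := by
    refine hGb _ (shift_mem (pt_mem_V t)) ?_
    rw [Complex.add_im, pt_im, Complex.ofReal_im, add_zero]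
  set n : ℕ := ⌊ρ * R⌋₊ with hn
  set z : ℂ := rap n t with hz
  have hzr : z.re = Real.pi / 4 := by rw [hz]; unfold rap; rw [re_shift, pt_re]
  have e9 : (z + (Real.pi : ℂ) / 2) = z + ((Real.pi / 2 : ℝ) : ℂ) := by push_cast; ring
  have hzr' : (z + (Real.pi : ℂ) / 2).re = 3 * Real.pi / 4 := by
    rw [e9, Complex.add_re, Complex.ofReal_re, hzr]; ring
  have N := near_pot (hR2 R g2) hSc (mE η R) (LE η R) top (norm_wa (z := z) (by linarith)
    (by linarith)) (norm_one_sub_wa (by linarith) (by linarith))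
    (norm_wa (z := z + (Real.pi : ℂ) / 2) (by linarith) (by linarith))
    (norm_one_sub_wa (by linarith) (by linarith)) hH hp hq
  have N0 := near_pot (hR2 R g2) hSc (mE η R) (LE η R) top norm_zero1 norm_zero1' norm_one1
    norm_one1' hH0 hp hq
  have N1 := near_pot (hR2 R g2) hSc (mE η R) (LE η R) top norm_half norm_half' norm_one1
    norm_one1' hH1 hp hq
  have N2 := near_pot (hR2 R g2) hSc (mE η R) (LE η R) top norm_zero1 norm_zero1' norm_half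
    norm_half' hH2 hp hq
  rw [sab_wa (by linarith) (by linarith)] at N
  rw [sab_01] at N0
  rw [sab_h1] at N1
  rw [sab_0h] at N2
  have key := comb_core (n := n) (g1 := G (pt t)) (g2 := G (pt t + (Real.pi / 2 : ℝ)))
    (CG := CG) (A := ε / 8 * ρ * (R : ℝ) ^ (2 / 3 : ℝ)) (D := D' * (R : ℝ) ^ (-(2 / 3) : ℝ))
    (empty_subset (RRJ w h top)) hg1 hg2 (fun S hS => ?_)
    (dl_bound fun S S' hS hS' => hDL R g1 w h O hSc top S S' hS hS' p q hp hq _ (Or.inl rfl))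
    (dl_bound fun S S' hS hS' => hDL R g1 w h O hSc top S S' hS hS' p q hp hq _
      (Or.inr (Or.inl rfl)))
    (dl_bound fun S S' hS hS' => hDL R g1 w h O hSc top S S' hS hS' p q hp hq _
      (Or.inr (Or.inr rfl))) N N0 N1 N2
  · refine key.trans ?_
    have hR1 : (1 : ℝ) ≤ R := by exact_mod_cast g4
    have hRp : (0 : ℝ) < R := by linarith
    have hnR : (n : ℝ) ≤ ρ * R := Nat.floor_le (by positivity)
    have hX : (R : ℝ) ^ (-(2 / 3) : ℝ) * R = (R : ℝ) ^ (1 / 3 : ℝ) := by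
      rw [← Real.rpow_add_one hRp.ne']; norm_num
    have hY : (R : ℝ) ^ (2 / 3 : ℝ) = (R : ℝ) ^ (1 / 3 : ℝ) * (R : ℝ) ^ (1 / 3 : ℝ) := by
      rw [← Real.rpow_add hRp]; norm_num
    have h0 : 0 < (R : ℝ) ^ (1 / 3 : ℝ) := Real.rpow_pos_of_pos hRp _
    have hm : 0 < (R : ℝ) ^ (-(2 / 3) : ℝ) := Real.rpow_pos_of_pos hRp _
    have k1 : 8 + 32 * (n : ℝ) * CG ≤ (8 + 32 * ρ * CG) * R := by
      have : 32 * (n : ℝ) * CG ≤ 32 * (ρ * R) * CG := by
        refine mul_le_mul_of_nonneg_right ?_ hCG0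
        linarith
      nlinarith
    have k2 : D' * (R : ℝ) ^ (-(2 / 3) : ℝ) * (8 + 32 * n * CG) ≤
        D' * (8 + 32 * ρ * CG) * (R : ℝ) ^ (1 / 3 : ℝ) := by
      calc D' * (R : ℝ) ^ (-(2 / 3) : ℝ) * (8 + 32 * n * CG)
          ≤ D' * (R : ℝ) ^ (-(2 / 3) : ℝ) * ((8 + 32 * ρ * CG) * R) :=
            mul_le_mul_of_nonneg_left k1 (mul_nonneg hD0 hm.le)
        _ = D' * (8 + 32 * ρ * CG) * ((R : ℝ) ^ (-(2 / 3) : ℝ) * R) := by ring
        _ = _ := by rw [hX]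
    have k3 := hR3 R g3
    rw [div_le_iff₀ (by positivity)] at k3
    have k4 := mul_le_mul_of_nonneg_right k3 h0.le
    rw [hY]
    nlinarith
  · simp only [tS_eq hS, Dat.tot_zero]
    exact hLR w h O hSc top S hS p q hp hq t ht _ rfl

end Pool.Agent.H44.FM
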