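import Mathlib
import Pool.Agent.H44.FM.WGlue

set_option autoImplicit false
open MeasureTheory Set Filter Topology

/-! # Windows: from the unnormalised estimates to translation invariance

`RawW` : the estimates for the potentials of the natural environments of a window (world `p`, groups of walls
pushed out by one row or column) and for the two line potentials `Vl`, `Vu`, not normalised. `RawW.ti` : the
conclusion, for every observable whose limit is the limit of the natural potentials. -/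

namespace Pool.Agent.H44.FM.WG

open Pool.Agent.Q1.M4 Pool.Agent.H25.Q1.Close Pool.Agent.Q1.M6f Pool.Agent.Q1.M6f.Glue
open Gr

variable {R : ℕ → ℝ} {F : Filter ℕ} {Ω : Set ℂ}

/-- increments between any two points are `o (R ^ a)` -/
def SmR (R : ℕ → ℝ) (F : Filter ℕ) (Ω : Set ℂ) (a : ℝ) (A : ℕ → ℤ × ℤ → ℂ) : Prop :=
  ∀ K ⊆ Ω, IsCompact K → ∀ ε > 0, ∀ᶠ j in F, ∀ u v : ℤ × ℤ, lat u / (R j : ℂ) ∈ K →
    lat v / (R j : ℂ) ∈ K → ‖A j u - A j v‖ ≤ ε * R j ^ a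

/-- increments between any two points are `O (R ^ a)` -/
def BdR (R : ℕ → ℝ) (F : Filter ℕ) (Ω : Set ℂ) (a : ℝ) (A : ℕ → ℤ × ℤ → ℂ) : Prop :=
  ∀ K ⊆ Ω, IsCompact K → ∃ C : ℝ, ∀ᶠ j in F, ∀ u v : ℤ × ℤ, lat u / (R j : ℂ) ∈ K →
    lat v / (R j : ℂ) ∈ K → ‖A j u - A j v‖ ≤ C * R j ^ a

/-- the values at `v` and `v - d` differ by `o (R ^ a)` -/
def StR (R : ℕ → ℝ) (F : Filter ℕ) (Ω : Set ℂ) (a : ℝ) (d : ℤ × ℤ) (A : ℕ → ℤ × ℤ → ℂ) : Prop :=
  ∀ K ⊆ Ω, IsCompact K → ∀ ε > 0, ∀ᶠ j in F, ∀ v : ℤ × ℤ, lat v / (R j : ℂ) ∈ K →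
    ‖A j v - A j (v - d)‖ ≤ ε * R j ^ a

/-- normalisation -/
noncomputable def nz (R : ℕ → ℝ) (κ : ℕ → ℂ) (A : ℕ → ℤ × ℤ → ℂ) : ℕ → ℤ × ℤ → ℂ :=
  fun j v => κ j * ((R j ^ (-(2 / 3) : ℝ) : ℝ) : ℂ) * A j v

variable {κ : ℕ → ℂ} {A B : ℕ → ℤ × ℤ → ℂ}

lemma norm_nz (hκ : ∀ n, ‖κ n‖ = 1) {j : ℕ} (hR : 0 < R j) (x : ℂ) :
    ‖κ j * ((R j ^ (-(2 / 3) : ℝ) : ℝ) : ℂ) * x‖ = R j ^ (-(2 / 3) : ℝ) * ‖x‖ := by
  rw [norm_mul, norm_mul, hκ, one_mul, Complex.norm_real, Real.norm_of_nonneg (by positivity)]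

lemma pw1 {r : ℝ} (hr : 0 < r) : r ^ (-(2 / 3) : ℝ) * r ^ (2 / 3 : ℝ) = 1 := by
  rw [← Real.rpow_add hr]; norm_num

lemma pw2 {r : ℝ} (hr : 0 < r) : r ^ (-(2 / 3) : ℝ) * r ^ (-(1 / 3) : ℝ) = 1 / r := by
  rw [← Real.rpow_add hr, show (-(2 / 3) : ℝ) + -(1 / 3) = -1 by norm_num, Real.rpow_neg_one, one_div]

lemma nz_sub : nz R κ A - nz R κ B = nz R κ (A - B) := by
  funext j v
  simp only [nz, Pi.sub_apply]
  ring

lemma nz_sh (d : ℤ × ℤ) : Sh d (nz R κ A) = nz R κ (Sh d A) := rfl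

/-- from `o (R ^ (-1/3))` to `Agree` -/
lemma SmR.agree (hR : Tendsto R F atTop) (hκ : ∀ n, ‖κ n‖ = 1) (h : SmR R F Ω (-(1 / 3)) (B - A)) :
    Agree R F Ω (nz R κ A) (nz R κ B) := by
  intro K hK hKc ε hε
  filter_upwards [h K hK hKc ε hε, hR.eventually_gt_atTop 0] with j h1 h2 u v hu hv
  have k := h1 u v hu hv
  have e : (nz R κ B j u - nz R κ B j v) - (nz R κ A j u - nz R κ A j v) =
      κ j * ((R j ^ (-(2 / 3) : ℝ) : ℝ) : ℂ) * ((B - A) j u - (B - A) j v) := by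
    simp only [nz, Pi.sub_apply]; ring
  rw [e, norm_nz hκ h2]
  calc R j ^ (-(2 / 3) : ℝ) * _ ≤ R j ^ (-(2 / 3) : ℝ) * (ε * R j ^ (-(1 / 3) : ℝ)) :=
        mul_le_mul_of_nonneg_left k (by positivity)
    _ = ε * (R j ^ (-(2 / 3) : ℝ) * R j ^ (-(1 / 3) : ℝ)) := by ring
    _ = ε / R j := by rw [pw2 h2]; ring

lemma StR.adj (hR : Tendsto R F atTop) (hκ : ∀ n, ‖κ n‖ = 1) (h : StR R F Ω (-(1 / 3)) uu A) :
    Adj R F Ω (nz R κ A) := by
  intro K hK hKc ε hε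
  filter_upwards [h K hK hKc ε hε, hR.eventually_gt_atTop 0] with j h1 h2 v hv
  have e : nz R κ A j v - nz R κ A j (v - uu) =
      κ j * ((R j ^ (-(2 / 3) : ℝ) : ℝ) : ℂ) * (A j v - A j (v - uu)) := by
    simp only [nz]; ring
  rw [e, norm_nz hκ h2]
  calc R j ^ (-(2 / 3) : ℝ) * _ ≤ R j ^ (-(2 / 3) : ℝ) * (ε * R j ^ (-(1 / 3) : ℝ)) :=
        mul_le_mul_of_nonneg_left (h1 v hv) (by positivity)
    _ = ε * (R j ^ (-(2 / 3) : ℝ) * R j ^ (-(1 / 3) : ℝ)) := by ring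
    _ = ε / R j := by rw [pw2 h2]; ring

lemma StR.adjR (hR : Tendsto R F atTop) (hκ : ∀ n, ‖κ n‖ = 1) (h : StR R F Ω (-(1 / 3)) rr A) :
    AdjR R F Ω (nz R κ A) := by
  intro K hK hKc ε hε
  filter_upwards [h K hK hKc ε hε, hR.eventually_gt_atTop 0] with j h1 h2 v hv
  have e : nz R κ A j v - nz R κ A j (v - rr) =
      κ j * ((R j ^ (-(2 / 3) : ℝ) : ℝ) : ℂ) * (A j v - A j (v - rr)) := by
    simp only [nz]; ring
  rw [e, norm_nz hκ h2]
  calc R j ^ (-(2 / 3) : ℝ) * _ ≤ R j ^ (-(2 / 3) : ℝ) * (ε * R j ^ (-(1 / 3) : ℝ)) :=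
        mul_le_mul_of_nonneg_left (h1 v hv) (by positivity)
    _ = ε * (R j ^ (-(2 / 3) : ℝ) * R j ^ (-(1 / 3) : ℝ)) := by ring
    _ = ε / R j := by rw [pw2 h2]; ring

lemma SmR.add {a : ℝ} (h1 : SmR R F Ω a A) (h2 : SmR R F Ω a B) : SmR R F Ω a (A + B) := by
  intro K hK hKc ε hε
  filter_upwards [h1 K hK hKc (ε / 2) (by positivity), h2 K hK hKc (ε / 2) (by positivity)]
    with j a1 b1 u v hu hv
  have e : (A + B) j u - (A + B) j v = (A j u - A j v) + (B j u - B j v) := by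
    simp only [Pi.add_apply]; ring
  rw [e]
  refine (norm_add_le _ _).trans ?_
  have := a1 u v hu hv
  have := b1 u v hu hv
  linarith

lemma SmR.neg {a : ℝ} (h1 : SmR R F Ω a A) : SmR R F Ω a (-A) := by
  intro K hK hKc ε hε
  filter_upwards [h1 K hK hKc ε hε] with j a1 u v hu hv
  have e : (-A) j u - (-A) j v = -(A j u - A j v) := by simp only [Pi.neg_apply]; ring
  rw [e, norm_neg]
  exact a1 u v hu hv

lemma SmR.sub {a : ℝ} (h1 : SmR R F Ω a A) (h2 : SmR R F Ω a B) : SmR R F Ω a (A - B) := by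
  rw [sub_eq_add_neg]; exact h1.add h2.neg

/-- a bigger exponent -/
lemma BdR.smR (hR : Tendsto R F atTop) {a b : ℝ} (hab : a < b) (h : BdR R F Ω a A) : SmR R F Ω b A := by
  intro K hK hKc ε hε
  obtain ⟨C, hC⟩ := h K hK hKc
  have h1 : Tendsto (fun j => R j ^ (-(b - a))) F (𝓝 0) :=
    (tendsto_rpow_neg_atTop (by linarith : 0 < b - a)).comp hR
  filter_upwards [hC, hR.eventually_gt_atTop 0,
    h1.eventually_lt_const (by positivity : (0 : ℝ) < ε / (|C| + 1))] with j a1 a2 a3 u v hu hv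
  have hp : (0 : ℝ) < R j ^ b := by positivity
  have e1 : R j ^ a = R j ^ (-(b - a)) * R j ^ b := by
    rw [← Real.rpow_add a2]; congr 1; ring
  have hC1 : 0 < |C| + 1 := by positivity
  calc ‖A j u - A j v‖ ≤ C * R j ^ a := a1 u v hu hv
    _ ≤ (|C| + 1) * R j ^ a := mul_le_mul_of_nonneg_right (by linarith [le_abs_self C]) (by positivity)
    _ = (|C| + 1) * R j ^ (-(b - a)) * R j ^ b := by rw [e1]; ring
    _ ≤ (|C| + 1) * (ε / (|C| + 1)) * R j ^ b :=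
        mul_le_mul_of_nonneg_right (mul_le_mul_of_nonneg_left a3.le hC1.le) hp.le
    _ = ε * R j ^ b := by field_simp

lemma SmR.mono (hR : Tendsto R F atTop) {a b : ℝ} (hab : a ≤ b) (h : SmR R F Ω a A) :
    SmR R F Ω b A := by
  intro K hK hKc ε hε
  filter_upwards [h K hK hKc ε hε, hR.eventually_ge_atTop 1] with j a1 a2 u v hu hv
  exact (a1 u v hu hv).trans (mul_le_mul_of_nonneg_left (Real.rpow_le_rpow_of_exponent_le a2 hab) hε.le)

lemma SmR.sh (hR : Tendsto R F atTop) (hΩ : IsOpen Ω) {a : ℝ} (h : SmR R F Ω a A) (d : ℤ × ℤ) :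
    SmR R F Ω a (Sh d A) := by
  intro K hK hKc ε hε
  obtain ⟨s, hs, hsub⟩ := hKc.exists_cthickening_subset_open hΩ hK
  filter_upwards [h _ hsub hKc.cthickening ε hε, hR.eventually_gt_atTop 0,
    hR.eventually_gt_atTop (‖lat d‖ / s)] with j h1 h2 h3 u v hu hv
  exact h1 _ _ (shift_mem' hs h2 h3 hu) (shift_mem' hs h2 h3 hv)

/-- bounded steps -/
def EdB (R : ℕ → ℝ) (F : Filter ℕ) (Ω : Set ℂ) (A : ℕ → ℤ × ℤ → ℂ) : Prop :=
  ∀ K ⊆ Ω, IsCompact K → ∃ C : ℝ, ∀ᶠ j in F, ∀ v : ℤ × ℤ, lat v / (R j : ℂ) ∈ K →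
    ∀ d : ℤ × ℤ, |d.1| ≤ 1 → |d.2| ≤ 1 → ‖A j (v + d) - A j v‖ ≤ C

/-- a shift by one step costs `O (1)` -/
lemma EdB.sh (hR : Tendsto R F atTop) {a : ℝ} (ha : 0 < a) (h : EdB R F Ω A) {d : ℤ × ℤ}
    (h1 : |d.1| ≤ 1) (h2 : |d.2| ≤ 1) : SmR R F Ω a (Sh d A - A) := by
  refine BdR.smR hR ha ?_
  intro K hK hKc
  obtain ⟨C, hC⟩ := h K hK hKc
  refine ⟨2 * C, ?_⟩
  filter_upwards [hC] with j hj u v hu hv
  have n1 : |(-d).1| ≤ 1 := by rw [Prod.fst_neg, abs_neg]; exact h1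
  have n2 : |(-d).2| ≤ 1 := by rw [Prod.snd_neg, abs_neg]; exact h2
  have k1 := hj u hu (-d) n1 n2
  have k2 := hj v hv (-d) n1 n2
  have e : (Sh d A - A) j u - (Sh d A - A) j v = (A j (u + -d) - A j u) - (A j (v + -d) - A j v) := by
    simp only [Pi.sub_apply, Sh, sub_eq_add_neg]
  rw [e, Real.rpow_zero, mul_one]
  refine (norm_sub_le _ _).trans ?_
  linarith

/-- the pairing `XG` commutes with the normalisation -/
lemma XG_nz {P : Bool → Finset Gr → ℕ → ℤ × ℤ → ℂ} (p : Bool) (g : Gr) :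
    XG (fun p s => nz R κ (P p s)) p g = nz R κ (XG P p g) := by
  unfold XG
  rw [nz_sub]

/-- the linear response of the two worlds of a window at the scale `j`, with the response function `G` -/
def LinW (R : ℕ → ℝ) (P : Bool → Finset Gr → ℕ → ℤ × ℤ → ℂ) (Vl Vu : ℕ → ℕ → ℤ × ℤ → ℂ) (G : ℂ → ℂ)
    (j : ℕ) (ρ ε : ℝ) (K : Set ℂ) : Prop :=
  ∀ u v : ℤ × ℤ, Ev u → Ev v → lat u / (R j : ℂ) ∈ K → lat v / (R j : ℂ) ∈ K →
    ‖(Vl j ⌊ρ * R j⌋₊ u - Vl j ⌊ρ * R j⌋₊ v) - (P false ∅ j u - P false ∅ j v) -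
      (⌊ρ * R j⌋₊ : ℂ) * (G (Real.pi / 2 : ℝ) * (XG P false fo j u - XG P false fo j v) +
        G (Real.pi : ℝ) * (XG P false ll j u - XG P false ll j v) +
        G 0 * (XG P false rl j u - XG P false rl j v))‖ ≤ ε * ρ * R j ^ (2 / 3 : ℝ) ∧
    ‖(Vu j ⌊ρ * R j⌋₊ u - Vu j ⌊ρ * R j⌋₊ v) - (P true ∅ j u - P true ∅ j v) -
      (⌊ρ * R j⌋₊ : ℂ) * (G (Real.pi / 2 : ℝ) * (XG P true ce j u - XG P true ce j v) +
        G (Real.pi : ℝ) * (XG P true ru j u - XG P true ru j v) +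
        G 0 * (XG P true lu j u - XG P true lu j v))‖ ≤ ε * ρ * R j ^ (2 / 3 : ℝ)

/-- the vertical groups -/
def gV : Finset Gr := {ll, lu, rl, ru}
/-- the horizontal groups -/
def gH : Finset Gr := {fo, ce}

/-- **Estimates for the windows** (not normalised). `P p s` : potential of the natural environment of the
world `p` with the walls of the groups in `s` pushed out, at the point `v - p (0, 1)`; `Vl`, `Vu` : the line
potentials (`Vu` at `v - (0, 1)`), at the rapidity `π / 2 + i log n`. -/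
structure RawW (R : ℕ → ℝ) (F : Filter ℕ) (Ω : Set ℂ) (P : Bool → Finset Gr → ℕ → ℤ × ℤ → ℂ)
    (Vl Vu : ℕ → ℕ → ℤ × ℤ → ℂ) : Prop where
  /-- responses -/
  bd : ∀ p g, BdR R F Ω (-(1 / 3)) (XG P p g)
  /-- mixed differences -/
  mix : ∀ p s t, Disjoint s t → SmR R F Ω (-(1 / 3)) (P p (s ∪ t) - P p s - P p t + P p ∅)
  adj : ∀ p g, StR R F Ω (-(1 / 3)) uu (XG P p g)
  adjR : ∀ p g, StR R F Ω (-(1 / 3)) rr (XG P p g)
  edge : ∀ p s, EdB R F Ω (P p s)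
  s1 : ∀ p, ∀ s ⊆ gV, SmR R F Ω (-(1 / 3)) (P (!p) ({ce} ∪ s) - Sh uu (P p ({fo} ∪ s)))
  s2 : ∀ p, ∀ s ⊆ gH, SmR R F Ω (-(1 / 3)) (P (!p) ({rl, ru} ∪ s) - Sh rr (P p ({ll, lu} ∪ s)))
  ab : ∀ K ⊆ Ω, IsCompact K → ∃ ρ1 > 0, ∀ ρ : ℝ, 0 < ρ → ρ < ρ1 → ∀ ε > 0, ∀ᶠ j in F,
    ∀ u v : ℤ × ℤ, Ev u → Ev v → lat u / (R j : ℂ) ∈ K → lat v / (R j : ℂ) ∈ K →
    ‖(Vl j ⌊ρ * R j⌋₊ u - Vl j ⌊ρ * R j⌋₊ v) - (Vu j ⌊ρ * R j⌋₊ u - Vu j ⌊ρ * R j⌋₊ v)‖ ≤
      ε * R j ^ (2 / 3 : ℝ)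
  cc : ∀ K ⊆ Ω, IsCompact K → ∃ c : ℝ, 0 < c ∧ ∀ ε > 0, ∃ ρ1 > 0, ∀ ρ : ℝ, 0 < ρ → ρ < ρ1 →
    ∀ᶠ j in F, ∃ G : ℂ → ℂ, c ≤ ‖G (Real.pi / 2 : ℝ)‖ ∧
      ‖G (Real.pi : ℝ) + Complex.I * G (Real.pi / 2 : ℝ)‖ ≤ ε ∧
      ‖G (Real.pi / 2 : ℝ) + Complex.I * G 0‖ ≤ ε ∧ LinW R P Vl Vu G j ρ ε K

variable {P : Bool → Finset Gr → ℕ → ℤ × ℤ → ℂ} {Vl Vu : ℕ → ℕ → ℤ × ℤ → ℂ}

/-- the mixed difference of one group and a set -/
lemma RawW.mix1 (H : RawW R F Ω P Vl Vu) (p : Bool) (g : Gr) (s : Finset Gr) (hg : g ∉ s) :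
    SmR R F Ω (-(1 / 3)) ((P p (insert g s) - P p s) - XG P p g) := by
  have h := H.mix p s {g} (by simpa using hg)
  have e : P p (s ∪ {g}) - P p s - P p {g} + P p ∅ = (P p (insert g s) - P p s) - XG P p g := by
    rw [Finset.union_singleton]
    unfold XG
    abel
  rwa [e] at h

/-- the natural environments are close to each other -/
lemma RawW.near (H : RawW R F Ω P Vl Vu) (hR : Tendsto R F atTop) (p : Bool) (s : Finset Gr) :
    SmR R F Ω (2 / 3) (P p s - P p ∅) := by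
  classical
  induction s using Finset.induction_on with
  | empty =>
    intro K _ _ ε hε
    filter_upwards [hR.eventually_gt_atTop 0] with j hj u v _ _
    simp only [sub_self, Pi.zero_apply, norm_zero]
    positivity
  | insert g s hg ih =>
    have h1 := (H.mix1 p g s hg).mono hR (by norm_num : (-(1 / 3) : ℝ) ≤ 2 / 3)
    have h2 := BdR.smR hR (by norm_num : (-(1 / 3) : ℝ) < 2 / 3) (H.bd p g)
    have h3 := (h1.add h2).add ih
    have e : (P p (insert g s) - P p s) - XG P p g + XG P p g + (P p s - P p ∅) =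
        P p (insert g s) - P p ∅ := by abel
    rwa [e] at h3

/-- the two worlds are close to each other -/
lemma RawW.two (H : RawW R F Ω P Vl Vu) (hR : Tendsto R F atTop) :
    SmR R F Ω (2 / 3) (P true ∅ - P false ∅) := by
  have h1 := (H.s1 false ∅ (by simp)).mono hR (by norm_num : (-(1 / 3) : ℝ) ≤ 2 / 3)
  simp only [Finset.union_empty, Bool.not_false] at h1
  have h2 := EdB.sh hR (by norm_num : (0 : ℝ) < 2 / 3) (H.edge false {fo}) (d := uu) (by decide)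
    (by decide)
  have h3 := ((h1.add h2).add (H.near hR false {fo})).sub (H.near hR true {ce})
  have e : P true {ce} - Sh uu (P false {fo}) + (Sh uu (P false {fo}) - P false {fo}) +
      (P false {fo} - P false ∅) - (P true {ce} - P true ∅) = P true ∅ - P false ∅ := by abel
  rwa [e] at h3

/-- the natural inputs -/
theorem RawW.nat6 (H : RawW R F Ω P Vl Vu) (hR : Tendsto R F atTop) (hκ : ∀ n, ‖κ n‖ = 1) :
    Nat6 R F Ω (fun p s => nz R κ (P p s)) := by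
  have key : ∀ (p : Bool) (g : Gr) (s : Finset Gr), g ∉ s →
      Agree R F Ω (XG (fun p s => nz R κ (P p s)) p g) (nz R κ (P p (insert g s)) - nz R κ (P p s)) := by
    intro p g s hg
    rw [XG_nz, nz_sub]
    exact SmR.agree hR hκ (H.mix1 p g s hg)
  refine ⟨fun p g => ?_, fun p g => ?_, fun p a ha g hg => ?_, fun p a ha => ?_, fun p a ha => ?_,
    fun p => ?_, fun p => ?_, fun p => ?_, fun p g hg => ?_, fun p => ?_, fun p a ha => ?_⟩
  · rw [XG_nz]; exact StR.adj hR hκ (H.adj p g)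
  · rw [XG_nz]; exact StR.adjR hR hκ (H.adjR p g)
  · have h1 : g ∉ ({a} : Finset Gr) := by
      simp only [Finset.mem_insert, Finset.mem_singleton] at ha hg ⊢
      rintro rfl
      rcases ha with rfl | rfl <;> simp at hg
    have := key p g {a} h1
    rwa [Finset.pair_comm g a] at this
  · have h1 : a ∉ ({ll, lu} : Finset Gr) := by
      simp only [Finset.mem_insert, Finset.mem_singleton] at ha ⊢
      rcases ha with rfl | rfl <;> simp
    exact key p a {ll, lu} h1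
  · have h1 : a ∉ ({rl, ru} : Finset Gr) := by
      simp only [Finset.mem_insert, Finset.mem_singleton] at ha ⊢
      rcases ha with rfl | rfl <;> simp
    exact key p a {rl, ru} h1
  · exact key p ll {lu} (by simp)
  · exact key p rl {ru} (by simp)
  · rw [nz_sh]
    have := H.s1 p ∅ (by simp)
    simp only [Finset.union_empty] at this
    exact SmR.agree hR hκ this
  · rw [nz_sh]
    have := H.s1 p {g} (by
      intro x hx
      rw [Finset.mem_singleton] at hx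
      rw [hx]
      simpa [gV] using hg)
    rw [Finset.singleton_union, Finset.singleton_union] at this
    exact SmR.agree hR hκ this
  · rw [nz_sh]
    have := H.s2 p ∅ (by simp)
    simp only [Finset.union_empty] at this
    exact SmR.agree hR hκ this
  · rw [nz_sh]
    have := H.s2 p {a} (by
      intro x hx
      rw [Finset.mem_singleton] at hx
      rw [hx]
      simpa [gH] using ha)
    rw [Finset.union_singleton, Finset.union_singleton] at this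
    exact SmR.agree hR hκ this

/-- **The track.** -/
theorem RawW.track (H : RawW R F Ω P Vl Vu) (hR : Tendsto R F atTop) (hκ : ∀ n, ‖κ n‖ = 1) :
    TrackW R F Ω (fun j n v => κ j * ((R j ^ (-(2 / 3) : ℝ) : ℝ) : ℂ) * (Vl j n v - Vu j n v))
      (nz R κ (P false ∅) - nz R κ (P true ∅))
      (XG (fun p s => nz R κ (P p s)) false fo - XG (fun p s => nz R κ (P p s)) true ce)
      (XG (fun p s => nz R κ (P p s)) false ll - XG (fun p s => nz R κ (P p s)) true ru)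
      (XG (fun p s => nz R κ (P p s)) false rl - XG (fun p s => nz R κ (P p s)) true lu) where
  ee := by
    intro K hK hKc ε hε
    filter_upwards [H.two hR K hK hKc ε hε, hR.eventually_gt_atTop 0] with j h1 h2 u v _ _ hu hv
    have k := h1 u v hu hv
    have e : (nz R κ (P false ∅) - nz R κ (P true ∅)) j u - (nz R κ (P false ∅) - nz R κ (P true ∅)) j v =
        -(κ j * ((R j ^ (-(2 / 3) : ℝ) : ℝ) : ℂ) * ((P true ∅ - P false ∅) j u -
          (P true ∅ - P false ∅) j v)) := by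
      simp only [nz, Pi.sub_apply]; ring
    rw [e, norm_neg, norm_nz hκ h2]
    calc R j ^ (-(2 / 3) : ℝ) * _ ≤ R j ^ (-(2 / 3) : ℝ) * (ε * R j ^ (2 / 3 : ℝ)) :=
          mul_le_mul_of_nonneg_left k (by positivity)
      _ = ε * (R j ^ (-(2 / 3) : ℝ) * R j ^ (2 / 3 : ℝ)) := by ring
      _ = ε := by rw [pw1 h2, mul_one]
  ab := by
    intro K hK hKc
    obtain ⟨ρ1, hρ1, h⟩ := H.ab K hK hKc
    refine ⟨ρ1, hρ1, fun ρ hρ hρl ε hε => ?_⟩
    filter_upwards [h ρ hρ hρl ε hε, hR.eventually_gt_atTop 0] with j h1 h2 u v eu ev hu hv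
    have k := h1 u v eu ev hu hv
    have e : κ j * ((R j ^ (-(2 / 3) : ℝ) : ℝ) : ℂ) * (Vl j ⌊ρ * R j⌋₊ u - Vu j ⌊ρ * R j⌋₊ u) -
        κ j * ((R j ^ (-(2 / 3) : ℝ) : ℝ) : ℂ) * (Vl j ⌊ρ * R j⌋₊ v - Vu j ⌊ρ * R j⌋₊ v) =
        κ j * ((R j ^ (-(2 / 3) : ℝ) : ℝ) : ℂ) * ((Vl j ⌊ρ * R j⌋₊ u - Vl j ⌊ρ * R j⌋₊ v) -
          (Vu j ⌊ρ * R j⌋₊ u - Vu j ⌊ρ * R j⌋₊ v)) := by ring
    rw [e, norm_nz hκ h2]
    calc R j ^ (-(2 / 3) : ℝ) * _ ≤ R j ^ (-(2 / 3) : ℝ) * (ε * R j ^ (2 / 3 : ℝ)) :=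
          mul_le_mul_of_nonneg_left k (by positivity)
      _ = ε * (R j ^ (-(2 / 3) : ℝ) * R j ^ (2 / 3 : ℝ)) := by ring
      _ = ε := by rw [pw1 h2, mul_one]
  cc := by
    intro K hK hKc
    obtain ⟨c, hc, h⟩ := H.cc K hK hKc
    refine ⟨c, hc, fun ε hε => ?_⟩
    obtain ⟨ρ1, hρ1, h⟩ := h (ε / 2) (by positivity)
    refine ⟨ρ1, hρ1, fun ρ hρ hρl => ?_⟩
    filter_upwards [h ρ hρ hρl, hR.eventually_gt_atTop 0] with j h1 h2
    obtain ⟨G, g1, g2, g3, g4⟩ := h1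
    refine ⟨G (Real.pi / 2 : ℝ), G (Real.pi : ℝ), G 0, g1, g2.trans (by linarith), ?_, ?_⟩
    · have e : G 0 - Complex.I * G (Real.pi / 2 : ℝ) =
          -Complex.I * (G (Real.pi / 2 : ℝ) + Complex.I * G 0) := by
        have hI := Complex.I_mul_I
        linear_combination (G 0) * hI
      rw [e, norm_mul, norm_neg, Complex.norm_I, one_mul]
      exact g3.trans (by linarith)
    intro u v eu ev hu hv
    obtain ⟨k1, k2⟩ := g4 u v eu ev hu hv
    simp only [XG_nz, nz_sub]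
    set n := ⌊ρ * R j⌋₊ with hn
    have e : κ j * ((R j ^ (-(2 / 3) : ℝ) : ℝ) : ℂ) * (Vl j n u - Vu j n u) -
        κ j * ((R j ^ (-(2 / 3) : ℝ) : ℝ) : ℂ) * (Vl j n v - Vu j n v) -
        (nz R κ (P false ∅ - P true ∅) j u - nz R κ (P false ∅ - P true ∅) j v) -
        (n : ℂ) * (G (Real.pi / 2 : ℝ) * (nz R κ (XG P false fo - XG P true ce) j u -
          nz R κ (XG P false fo - XG P true ce) j v) +
          G (Real.pi : ℝ) * (nz R κ (XG P false ll - XG P true ru) j u -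
            nz R κ (XG P false ll - XG P true ru) j v) +
          G 0 * (nz R κ (XG P false rl - XG P true lu) j u -
            nz R κ (XG P false rl - XG P true lu) j v)) =
        κ j * ((R j ^ (-(2 / 3) : ℝ) : ℝ) : ℂ) *
        (((Vl j n u - Vl j n v) - (P false ∅ j u - P false ∅ j v) -
          (n : ℂ) * (G (Real.pi / 2 : ℝ) * (XG P false fo j u - XG P false fo j v) +
            G (Real.pi : ℝ) * (XG P false ll j u - XG P false ll j v) +
            G 0 * (XG P false rl j u - XG P false rl j v))) -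
        ((Vu j n u - Vu j n v) - (P true ∅ j u - P true ∅ j v) -
          (n : ℂ) * (G (Real.pi / 2 : ℝ) * (XG P true ce j u - XG P true ce j v) +
            G (Real.pi : ℝ) * (XG P true ru j u - XG P true ru j v) +
            G 0 * (XG P true lu j u - XG P true lu j v)))) := by
      simp only [nz, Pi.sub_apply]
      ring
    rw [e, norm_nz hκ h2]
    calc R j ^ (-(2 / 3) : ℝ) * _ ≤ R j ^ (-(2 / 3) : ℝ) *
          (ε / 2 * ρ * R j ^ (2 / 3 : ℝ) + ε / 2 * ρ * R j ^ (2 / 3 : ℝ)) :=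
          mul_le_mul_of_nonneg_left ((norm_sub_le _ _).trans (add_le_add k1 k2)) (by positivity)
      _ = ε * ρ * (R j ^ (-(2 / 3) : ℝ) * R j ^ (2 / 3 : ℝ)) := by ring
      _ = ε * ρ := by rw [pw1 h2, mul_one]
  bd := by
    have b : ∀ (p q : Bool) (g h : Gr), BdR R F Ω (-(1 / 3)) (XG P p g - XG P q h) := by
      intro p q g h K hK hKc
      obtain ⟨C1, h1⟩ := H.bd p g K hK hKc
      obtain ⟨C2, h2⟩ := H.bd q h K hK hKc
      refine ⟨C1 + C2, ?_⟩
      filter_upwards [h1, h2] with j a1 a2 u v hu hv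
      have e : (XG P p g - XG P q h) j u - (XG P p g - XG P q h) j v =
          (XG P p g j u - XG P p g j v) - (XG P q h j u - XG P q h j v) := by
        simp only [Pi.sub_apply]; ring
      rw [e, add_mul]
      exact (norm_sub_le _ _).trans (add_le_add (a1 u v hu hv) (a2 u v hu hv))
    have nb : ∀ (A : ℕ → ℤ × ℤ → ℂ) (C : ℝ) (j : ℕ) (u v : ℤ × ℤ), 0 < R j →
        ‖A j u - A j v‖ ≤ C * R j ^ (-(1 / 3) : ℝ) → ‖nz R κ A j u - nz R κ A j v‖ ≤ C / R j := by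
      intro A C j u v h2 k
      have e : nz R κ A j u - nz R κ A j v =
          κ j * ((R j ^ (-(2 / 3) : ℝ) : ℝ) : ℂ) * (A j u - A j v) := by
        simp only [nz]; ring
      rw [e, norm_nz hκ h2]
      calc R j ^ (-(2 / 3) : ℝ) * _ ≤ R j ^ (-(2 / 3) : ℝ) * (C * R j ^ (-(1 / 3) : ℝ)) :=
            mul_le_mul_of_nonneg_left k (by positivity)
        _ = C * (R j ^ (-(2 / 3) : ℝ) * R j ^ (-(1 / 3) : ℝ)) := by ring
        _ = C / R j := by rw [pw2 h2]; ring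
    intro K hK hKc
    obtain ⟨C1, h1⟩ := b false true ll ru K hK hKc
    obtain ⟨C2, h2⟩ := b false true rl lu K hK hKc
    refine ⟨max C1 C2, ?_⟩
    filter_upwards [h1, h2, hR.eventually_gt_atTop 0] with j a1 a2 a3 u v _ _ hu hv
    simp only [XG_nz, nz_sub]
    have hp : (0 : ℝ) ≤ R j ^ (-(1 / 3) : ℝ) := by positivity
    exact ⟨nb _ _ j u v a3 ((a1 u v hu hv).trans (mul_le_mul_of_nonneg_right (le_max_left _ _) hp)),
      nb _ _ j u v a3 ((a2 u v hu hv).trans (mul_le_mul_of_nonneg_right (le_max_right _ _) hp))⟩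
  adA := by
    simp only [XG_nz]
    exact adj_sub (StR.adj hR hκ (H.adj _ _)) (StR.adj hR hκ (H.adj _ _))
  adB := by
    simp only [XG_nz]
    exact adj_sub (StR.adj hR hκ (H.adj _ _)) (StR.adj hR hκ (H.adj _ _))
  adB' := by
    simp only [XG_nz]
    exact adj_sub (StR.adj hR hκ (H.adj _ _)) (StR.adj hR hκ (H.adj _ _))

/-- **Translation invariance for the windows.** `f` : the observable, close to the normalised natural
potential (one world is enough). -/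
theorem RawW.ti {U : Ultrafilter ℕ} (hR : Tendsto R atTop atTop) (hU : (U : Filter ℕ) ≤ atTop)
    (hΩ : IsOpen Ω) (H : RawW R U Ω P Vl Vu) (hκ : ∀ n, ‖κ n‖ = 1) {f : ℕ → ℤ × ℤ → ℂ} {g : ℂ → ℂ}
    (hf : ∀ K ⊆ Ω, IsCompact K → ∀ τ > 0, ∀ᶠ j in (U : Filter ℕ), ∀ u v : ℤ × ℤ,
      lat u / (R j : ℂ) ∈ K → lat v / (R j : ℂ) ∈ K →
      ‖(nz R κ (P false ∅) j u - nz R κ (P false ∅) j v) - (f j u - f j v)‖ ≤ τ)
    (hlim : ILim R U f Ω g) (hg : ContinuousOn g Ω) : TI Ω g := by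
  have hRU : Tendsto R U atTop := hR.mono_left hU
  refine ti_of_window hR hU hΩ (H.nat6 hRU hκ) (H.track hRU hκ) (Agree.refl hRU) (Agree.refl hRU)
    (Agree.refl hRU) ?_ hlim hg
  -- closeness of the natural potentials to the observable
  have near : ∀ (p : Bool) (s : Finset Gr), SmR R U Ω (2 / 3) (P p s - P false ∅) := by
    intro p s
    cases p with
    | false => exact H.near hRU false s
    | true =>
      have := (H.near hRU true s).add (H.two hRU)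
      have e : P true s - P true ∅ + (P true ∅ - P false ∅) = P true s - P false ∅ := by abel
      rwa [e] at this
  intro p s _ K hK hKc τ hτ
  obtain ⟨C, hC⟩ := H.edge p s K hK hKc
  have hp : Tendsto (fun j => R j ^ (-(2 / 3) : ℝ)) (U : Filter ℕ) (𝓝 0) :=
    (tendsto_rpow_neg_atTop (by norm_num : (0 : ℝ) < 2 / 3)).comp hRU
  filter_upwards [near p s K hK hKc (τ / 4) (by positivity), hf K hK hKc (τ / 4) (by positivity), hC,
    hRU.eventually_gt_atTop 0, hp.eventually_lt_const (by positivity : (0 : ℝ) < τ / 4 / (|C| + 1))]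
    with j h1 h2 h3 h4 h5
  intro u hu v hv d hd1 hd2
  have k1 := h1 u v hu hv
  have k2 := h2 u v hu hv
  have k3 := h3 u hu d hd1 hd2
  have k4 := h3 v hv d hd1 hd2
  have e : (nz R κ (P p s) j (u + d) - nz R κ (P p s) j (v + d)) - (f j u - f j v) =
      κ j * ((R j ^ (-(2 / 3) : ℝ) : ℝ) : ℂ) * (((P p s j (u + d) - P p s j u) -
        (P p s j (v + d) - P p s j v)) + ((P p s - P false ∅) j u - (P p s - P false ∅) j v)) +
      ((nz R κ (P false ∅) j u - nz R κ (P false ∅) j v) - (f j u - f j v)) := by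
    simp only [nz, Pi.sub_apply]
    ring
  rw [e]
  refine (norm_add_le _ _).trans ?_
  rw [norm_nz hκ h4]
  have hC1 : 0 < |C| + 1 := by positivity
  have b1 : ‖((P p s j (u + d) - P p s j u) - (P p s j (v + d) - P p s j v)) +
      ((P p s - P false ∅) j u - (P p s - P false ∅) j v)‖ ≤ 2 * (|C| + 1) + τ / 4 * R j ^ (2 / 3 : ℝ) := by
    refine (norm_add_le _ _).trans (add_le_add ((norm_sub_le _ _).trans ?_) k1)
    linarith [le_abs_self C]
  have b2 : R j ^ (-(2 / 3) : ℝ) * (2 * (|C| + 1) + τ / 4 * R j ^ (2 / 3 : ℝ)) ≤ 3 * (τ / 4) := by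
    have e1 : R j ^ (-(2 / 3) : ℝ) * (2 * (|C| + 1) + τ / 4 * R j ^ (2 / 3 : ℝ)) =
        2 * ((|C| + 1) * R j ^ (-(2 / 3) : ℝ)) + τ / 4 * (R j ^ (-(2 / 3) : ℝ) * R j ^ (2 / 3 : ℝ)) := by ring
    rw [e1, pw1 h4, mul_one]
    have : (|C| + 1) * R j ^ (-(2 / 3) : ℝ) ≤ τ / 4 := by
      have := mul_le_mul_of_nonneg_left h5.le hC1.le
      rwa [mul_div_cancel₀ _ hC1.ne'] at this
    linarith
  have b3 := (mul_le_mul_of_nonneg_left b1 (by positivity : (0 : ℝ) ≤ R j ^ (-(2 / 3) : ℝ))).trans b2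
  linarith

end Pool.Agent.H44.FM.WG
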