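import Mathlib
import Pool.Agent.H44.FM.WRaw

set_option autoImplicit false
open Set Filter Topology

/-! # Chains of linked pairs

Two points are linked at the distance `η` if the rectangle spanned by them, enlarged by `η`, lies in `Ω`. Any
two lattice points of `R K`, `K ⊆ Ω` compact, `Ω` open and connected, are joined by a chain of linked lattice
points of bounded length, the intermediate points lie in even rows. -/

namespace Pool.Agent.H44.FM.WG

open Pool.Agent.Q1.M4 Pool.Agent.Q1.M6f.Glue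

/-- the rectangle spanned by `z` and `w`, enlarged by `η` -/
def RBox (η : ℝ) (z w : ℂ) : Set ℂ :=
  {ζ | min z.re w.re - η ≤ ζ.re ∧ ζ.re ≤ max z.re w.re + η ∧ min z.im w.im - η ≤ ζ.im ∧
    ζ.im ≤ max z.im w.im + η}

/-- linked points -/
def RL (Ω : Set ℂ) (η : ℝ) (z w : ℂ) : Prop := RBox η z w ⊆ Ω

variable {Ω K : Set ℂ} {η η' δ : ℝ} {z w z' w' : ℂ}

lemma RBox_mono (h : η ≤ η') : RBox η z w ⊆ RBox η' z w := by
  rintro ζ ⟨h1, h2, h3, h4⟩
  exact ⟨by linarith, by linarith, by linarith, by linarith⟩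

lemma RL.mono (h : RL Ω η' z w) (hη : η ≤ η') : RL Ω η z w := (RBox_mono hη).trans h

lemma RL.symm (h : RL Ω η z w) : RL Ω η w z := by
  rintro ζ ⟨h1, h2, h3, h4⟩
  exact h ⟨by rw [min_comm]; exact h1, by rw [max_comm]; exact h2, by rw [min_comm]; exact h3,
    by rw [max_comm]; exact h4⟩

lemma RL.right (h : RL Ω η z w) : RL Ω η w w := by
  rintro ζ ⟨h1, h2, h3, h4⟩
  rw [min_self] at h1 h3
  rw [max_self] at h2 h4
  exact h ⟨by linarith [min_le_right z.re w.re], by linarith [le_max_right z.re w.re],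
    by linarith [min_le_right z.im w.im], by linarith [le_max_right z.im w.im]⟩

/-- moving the two points -/
lemma RL.move (h : RL Ω η z w) (h1 : |z'.re - z.re| ≤ δ) (h2 : |z'.im - z.im| ≤ δ)
    (h3 : |w'.re - w.re| ≤ δ) (h4 : |w'.im - w.im| ≤ δ) : RL Ω (η - δ) z' w' := by
  rw [abs_le] at h1 h2 h3 h4
  rintro ζ ⟨g1, g2, g3, g4⟩
  have a1 : min z.re w.re - δ ≤ min z'.re w'.re := le_min
    (by linarith [min_le_left z.re w.re]) (by linarith [min_le_right z.re w.re])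
  have a2 : max z'.re w'.re ≤ max z.re w.re + δ := max_le
    (by linarith [le_max_left z.re w.re]) (by linarith [le_max_right z.re w.re])
  have a3 : min z.im w.im - δ ≤ min z'.im w'.im := le_min
    (by linarith [min_le_left z.im w.im]) (by linarith [min_le_right z.im w.im])
  have a4 : max z'.im w'.im ≤ max z.im w.im + δ := max_le
    (by linarith [le_max_left z.im w.im]) (by linarith [le_max_right z.im w.im])
  exact h ⟨by linarith, by linarith, by linarith, by linarith⟩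

/-- close points are linked -/
lemma RL_near (hz : Metric.ball z (4 * δ) ⊆ Ω) (hw : dist w z < δ) (hw' : dist w' z < δ) :
    RL Ω δ w w' := by
  rintro ζ ⟨g1, g2, g3, g4⟩
  apply hz
  rw [Metric.mem_ball, dist_eq_norm]
  rw [dist_eq_norm] at hw hw'
  have e1 := (Complex.abs_re_le_norm (w - z)).trans_lt hw
  have e2 := (Complex.abs_im_le_norm (w - z)).trans_lt hw
  have e3 := (Complex.abs_re_le_norm (w' - z)).trans_lt hw'
  have e4 := (Complex.abs_im_le_norm (w' - z)).trans_lt hw'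
  simp only [Complex.sub_re, Complex.sub_im, abs_lt] at e1 e2 e3 e4
  have a1 : z.re - δ < min w.re w'.re := lt_min (by linarith) (by linarith)
  have a2 : max w.re w'.re < z.re + δ := max_lt (by linarith) (by linarith)
  have a3 : z.im - δ < min w.im w'.im := lt_min (by linarith) (by linarith)
  have a4 : max w.im w'.im < z.im + δ := max_lt (by linarith) (by linarith)
  refine (Complex.norm_le_abs_re_add_abs_im _).trans_lt ?_
  rw [Complex.sub_re, Complex.sub_im]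
  have b1 : |ζ.re - z.re| < 2 * δ := by rw [abs_lt]; constructor <;> linarith
  have b2 : |ζ.im - z.im| < 2 * δ := by rw [abs_lt]; constructor <;> linarith
  linarith

/-- chain of `k` links -/
def Chn (Ω : Set ℂ) (η : ℝ) (k : ℕ) (z w : ℂ) : Prop :=
  ∃ p : ℕ → ℂ, p 0 = z ∧ p k = w ∧ ∀ i < k, RL Ω η (p i) (p (i + 1))

lemma Chn.mono {k : ℕ} (h : Chn Ω η' k z w) (hη : η ≤ η') : Chn Ω η k z w := by
  obtain ⟨p, h1, h2, h3⟩ := h
  exact ⟨p, h1, h2, fun i hi => (h3 i hi).mono hη⟩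

lemma Chn.one (h : RL Ω η z w) : Chn Ω η 1 z w :=
  ⟨fun i => if i = 0 then z else w, by simp, by simp, fun i hi => by
    have : i = 0 := by omega
    subst this
    simpa using h⟩

lemma Chn.trans {k l : ℕ} {v : ℂ} (h : Chn Ω η k z v) (h' : Chn Ω η l v w) : Chn Ω η (k + l) z w := by
  obtain ⟨p, h1, h2, h3⟩ := h
  obtain ⟨q, g1, g2, g3⟩ := h'
  refine ⟨fun i => if i ≤ k then p i else q (i - k), by simp [h1], ?_, fun i hi => ?_⟩
  · simp only
    by_cases hl : l = 0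
    · subst hl
      rw [if_pos (by omega), add_zero, h2, ← g1, g2]
    · rw [if_neg (by omega), Nat.add_sub_cancel_left, g2]
  · simp only
    rcases lt_trichotomy i k with h | h | h
    · rw [if_pos (by omega), if_pos (by omega)]
      exact h3 i h
    · subst h
      rw [if_pos le_rfl, if_neg (by omega), Nat.add_sub_cancel_left, h2, ← g1]
      exact g3 0 (by omega)
    · rw [if_neg (by omega), if_neg (by omega), show i + 1 - k = i - k + 1 by omega]
      exact g3 (i - k) (by omega)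

lemma Chn.symm {k : ℕ} (h : Chn Ω η k z w) : Chn Ω η k w z := by
  obtain ⟨p, h1, h2, h3⟩ := h
  refine ⟨fun i => p (k - i), by simp [h2], by simp [h1], fun i hi => ?_⟩
  have := h3 (k - (i + 1)) (by omega)
  rw [show k - (i + 1) + 1 = k - i by omega] at this
  exact this.symm

lemma Chn.pad {k : ℕ} (h : Chn Ω η k z w) (hk : 1 ≤ k) {l : ℕ} (hl : k ≤ l) : Chn Ω η l z w := by
  obtain ⟨n, rfl⟩ := Nat.exists_eq_add_of_le hl
  refine h.trans ⟨fun _ => w, rfl, rfl, fun i _ => ?_⟩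
  obtain ⟨p, h1, h2, h3⟩ := h
  have := h3 (k - 1) (by omega)
  rw [show k - 1 + 1 = k by omega, h2] at this
  exact this.right

/-- any two points are joined by a chain -/
theorem exists_chn (hΩ : IsOpen Ω) (hc : IsPreconnected Ω) (hz : z ∈ Ω) (hw : w ∈ Ω) :
    ∃ η > 0, ∃ k, 1 ≤ k ∧ Chn Ω η k z w := by
  refine hc.induction₂ (fun z w => ∃ η > 0, ∃ k, 1 ≤ k ∧ Chn Ω η k z w) ?_ ?_ ?_ hz hw
  · intro x hx
    obtain ⟨r, hr, hb⟩ := Metric.isOpen_iff.1 hΩ x hx
    filter_upwards [mem_nhdsWithin_of_mem_nhds (Metric.ball_mem_nhds x (by positivity : 0 < r / 4))]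
      with y hy
    refine ⟨r / 4, by positivity, 1, le_rfl, Chn.one (RL_near (z := x) ?_ ?_ hy)⟩
    · rw [show 4 * (r / 4) = r by ring]; exact hb
    · rw [dist_self]; positivity
  · rintro x y v _ _ _ ⟨η1, h1, k1, h2, h3⟩ ⟨η2, g1, k2, g2, g3⟩
    exact ⟨min η1 η2, lt_min h1 g1, k1 + k2, by omega,
      (h3.mono (min_le_left _ _)).trans (g3.mono (min_le_right _ _))⟩
  · rintro x y _ _ ⟨η1, h1, k1, h2, h3⟩
    exact ⟨η1, h1, k1, h2, h3.symm⟩

/-- uniformly on compact sets -/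
theorem exists_chn_unif (hΩ : IsOpen Ω) (hc : IsPreconnected Ω) (hK : K ⊆ Ω) (hKc : IsCompact K) :
    ∃ η > 0, ∃ k, 1 ≤ k ∧ ∀ z ∈ K, ∀ w ∈ K, Chn Ω η k z w := by
  have key : ∃ η > 0, ∃ k, 1 ≤ k ∧ ∀ x ∈ K ×ˢ K, Chn Ω η k x.1 x.2 := by
    refine (hKc.prod hKc).induction_on (p := fun s => ∃ η > 0, ∃ k, 1 ≤ k ∧ ∀ x ∈ s,
      Chn Ω η k x.1 x.2) ?_ ?_ ?_ ?_
    · exact ⟨1, one_pos, 1, le_rfl, fun x hx => by simp at hx⟩
    · rintro s t hst ⟨η, h1, k, h2, h3⟩
      exact ⟨η, h1, k, h2, fun x hx => h3 x (hst hx)⟩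
    · rintro s t ⟨η1, h1, k1, h2, h3⟩ ⟨η2, g1, k2, g2, g3⟩
      refine ⟨min η1 η2, lt_min h1 g1, max k1 k2, by omega, fun x hx => ?_⟩
      rcases hx with hx | hx
      · exact ((h3 x hx).mono (min_le_left _ _)).pad h2 (le_max_left _ _)
      · exact ((g3 x hx).mono (min_le_right _ _)).pad g2 (le_max_right _ _)
    · rintro ⟨x, y⟩ ⟨hx, hy⟩
      simp only at hx hy
      obtain ⟨η, h1, k, h2, h3⟩ := exists_chn hΩ hc (hK hx) (hK hy)
      obtain ⟨r, hr, hb⟩ := Metric.isOpen_iff.1 hΩ x (hK hx)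
      obtain ⟨r', hr', hb'⟩ := Metric.isOpen_iff.1 hΩ y (hK hy)
      refine ⟨Metric.ball x (r / 4) ×ˢ Metric.ball y (r' / 4), ?_, min η (min (r / 4) (r' / 4)),
        by positivity, 1 + (k + 1), by omega, ?_⟩
      · refine mem_nhdsWithin_of_mem_nhds (prod_mem_nhds (Metric.ball_mem_nhds _ (by positivity))
          (Metric.ball_mem_nhds _ (by positivity)))
      · rintro ⟨x', y'⟩ ⟨hx', hy'⟩
        have c1 : RL Ω (r / 4) x' x := RL_near (z := x) (by rw [show 4 * (r / 4) = r by ring]; exact hb)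
          hx' (by rw [dist_self]; positivity)
        have c2 : RL Ω (r' / 4) y y' := RL_near (z := y)
          (by rw [show 4 * (r' / 4) = r' by ring]; exact hb')
          (by rw [dist_self]; positivity) hy'
        refine (Chn.one (c1.mono ?_)).trans ((h3.mono (min_le_left _ _)).trans (Chn.one (c2.mono ?_)))
        · exact (min_le_right _ _).trans (min_le_left _ _)
        · exact (min_le_right _ _).trans (min_le_right _ _)
  obtain ⟨η, h1, k, h2, h3⟩ := key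
  exact ⟨η, h1, k, h2, fun z hz w hw => h3 (z, w) ⟨hz, hw⟩⟩

/-- rounding to the even rows -/
noncomputable def rnd (r : ℝ) (z : ℂ) : ℤ × ℤ := (⌊r * z.re⌋, 2 * ⌊r * z.im / 2⌋)

lemma rnd_ev (r : ℝ) (z : ℂ) : Ev (rnd r z) := by
  unfold Ev rnd
  simp

lemma rnd_near {r : ℝ} (hr : 0 < r) (z : ℂ) : |(lat (rnd r z) / (r : ℂ)).re - z.re| ≤ 2 / r ∧
    |(lat (rnd r z) / (r : ℂ)).im - z.im| ≤ 2 / r := by
  rw [Complex.div_ofReal_re, Complex.div_ofReal_im]
  have e1 : (lat (rnd r z)).re = ⌊r * z.re⌋ := rfl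
  have e2 : (lat (rnd r z)).im = ((2 * ⌊r * z.im / 2⌋ : ℤ) : ℝ) := rfl
  rw [e1, e2]
  have a1 := Int.floor_le (r * z.re)
  have a2 := Int.lt_floor_add_one (r * z.re)
  have a3 := Int.floor_le (r * z.im / 2)
  have a4 := Int.lt_floor_add_one (r * z.im / 2)
  have b1 : (⌊r * z.re⌋ : ℝ) / r - z.re = (⌊r * z.re⌋ - r * z.re) / r := by field_simp
  have b2 : ((2 * ⌊r * z.im / 2⌋ : ℤ) : ℝ) / r - z.im = (2 * ⌊r * z.im / 2⌋ - r * z.im) / r := by
    push_cast; field_simp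
  rw [b1, b2, abs_div, abs_div, abs_of_pos hr]
  constructor
  · refine div_le_div_of_nonneg_right ?_ hr.le
    rw [abs_le]; constructor <;> linarith
  · refine div_le_div_of_nonneg_right ?_ hr.le
    rw [abs_le]; constructor <;> linarith

/-- **Chains of lattice points.** -/
theorem exists_chain (hΩ : IsOpen Ω) (hc : IsPreconnected Ω) (hK : K ⊆ Ω) (hKc : IsCompact K) :
    ∃ η > 0, ∃ k : ℕ, ∀ᶠ r : ℝ in atTop, ∀ u v : ℤ × ℤ, lat u / (r : ℂ) ∈ K → lat v / (r : ℂ) ∈ K →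
      ∃ p : ℕ → ℤ × ℤ, p 0 = u ∧ p k = v ∧ (∀ i, 0 < i → i < k → Ev (p i)) ∧
        ∀ i < k, RL Ω η (lat (p i) / (r : ℂ)) (lat (p (i + 1)) / (r : ℂ)) := by
  obtain ⟨η, h1, k, h2, h3⟩ := exists_chn_unif hΩ hc hK hKc
  refine ⟨η / 2, by positivity, k, ?_⟩
  filter_upwards [eventually_gt_atTop (4 / η), eventually_gt_atTop 0] with r hr hr0 u v hu hv
  obtain ⟨q, g1, g2, g3⟩ := h3 _ hu _ hv
  set p : ℕ → ℤ × ℤ := fun i => if i = 0 then u else if i = k then v else rnd r (q i) with hp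
  have hr' : 2 / r ≤ η / 2 := by
    rw [div_lt_iff₀ h1] at hr
    rw [div_le_div_iff₀ hr0 two_pos]
    linarith
  have near : ∀ i, i ≤ k → |(lat (p i) / (r : ℂ)).re - (q i).re| ≤ 2 / r ∧
      |(lat (p i) / (r : ℂ)).im - (q i).im| ≤ 2 / r := by
    intro i hi
    have h0 : (0 : ℝ) ≤ 2 / r := by positivity
    simp only [hp]
    split_ifs with c1 c2
    · subst c1
      rw [g1, sub_self, sub_self, abs_zero]
      exact ⟨h0, h0⟩
    · subst c2
      rw [g2, sub_self, sub_self, abs_zero]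
      exact ⟨h0, h0⟩
    · exact rnd_near hr0 _
  refine ⟨p, by simp [hp], ?_, fun i hi1 hi2 => ?_, fun i hi => ?_⟩
  · simp only [hp]
    rw [if_neg (by omega), if_pos trivial]
  · simp only [hp]
    rw [if_neg (by omega), if_neg (by omega)]
    exact rnd_ev _ _
  · have n1 := near i hi.le
    have n2 := near (i + 1) hi
    exact ((g3 i hi).move n1.1 n1.2 n2.1 n2.2).mono (by linarith)

/-- telescoping -/
lemma chain_sum {A : ℤ × ℤ → ℂ} {p : ℕ → ℤ × ℤ} {k : ℕ} {B : ℝ}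
    (h : ∀ i < k, ‖A (p i) - A (p (i + 1))‖ ≤ B) : ‖A (p 0) - A (p k)‖ ≤ k * B := by
  induction k with
  | zero => simp
  | succ k ih =>
    have h1 := ih fun i hi => h i (by omega)
    have h2 := h k (by omega)
    have e : A (p 0) - A (p (k + 1)) = (A (p 0) - A (p k)) + (A (p k) - A (p (k + 1))) := by ring
    rw [e]
    refine (norm_add_le _ _).trans ?_
    push_cast
    linarith

variable {R : ℕ → ℝ} {F : Filter ℕ}

/-- **From linked pairs to all pairs**, general form. `c ε` : the factor. -/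
theorem of_linked (hR : Tendsto R F atTop) (hΩ : IsOpen Ω) (hc : IsPreconnected Ω)
    {A : ℕ → ℤ × ℤ → ℂ} {b : ℕ → ℝ} {K : Set ℂ} (hK : K ⊆ Ω) (hKc : IsCompact K) :
    ∃ η > 0, ∃ k : ℕ, (∀ᶠ j in F, ∀ u v : ℤ × ℤ, RL Ω η (lat u / (R j : ℂ)) (lat v / (R j : ℂ)) →
        ‖A j u - A j v‖ ≤ b j) →
      ∀ᶠ j in F, ∀ u v : ℤ × ℤ, lat u / (R j : ℂ) ∈ K → lat v / (R j : ℂ) ∈ K →
        ‖A j u - A j v‖ ≤ k * b j := by
  obtain ⟨η, hη, k, h⟩ := exists_chain hΩ hc hK hKc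
  refine ⟨η, hη, k, fun hb => ?_⟩
  filter_upwards [hb, hR.eventually h] with j h1 h2 u v hu hv
  obtain ⟨p, p0, pk, -, p3⟩ := h2 u v hu hv
  rw [← p0, ← pk]
  exact chain_sum fun i hi => h1 _ _ (p3 i hi)

/-- the same in the even rows -/
theorem of_linked_ev (hR : Tendsto R F atTop) (hΩ : IsOpen Ω) (hc : IsPreconnected Ω)
    {A : ℕ → ℤ × ℤ → ℂ} {b : ℕ → ℝ} {K : Set ℂ} (hK : K ⊆ Ω) (hKc : IsCompact K) :
    ∃ η > 0, ∃ k : ℕ, (∀ᶠ j in F, ∀ u v : ℤ × ℤ, Ev u → Ev v →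
        RL Ω η (lat u / (R j : ℂ)) (lat v / (R j : ℂ)) → ‖A j u - A j v‖ ≤ b j) →
      ∀ᶠ j in F, ∀ u v : ℤ × ℤ, Ev u → Ev v → lat u / (R j : ℂ) ∈ K → lat v / (R j : ℂ) ∈ K →
        ‖A j u - A j v‖ ≤ k * b j := by
  obtain ⟨η, hη, k, h⟩ := exists_chain hΩ hc hK hKc
  refine ⟨η, hη, k, fun hb => ?_⟩
  filter_upwards [hb, hR.eventually h] with j h1 h2 u v eu ev hu hv
  obtain ⟨p, p0, pk, pe, p3⟩ := h2 u v hu hv
  have pe' : ∀ i ≤ k, Ev (p i) := by
    intro i hi
    rcases Nat.eq_zero_or_pos i with c | c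
    · subst c; rw [p0]; exact eu
    · rcases Nat.lt_or_ge i k with c' | c'
      · exact pe i c c'
      · have : i = k := by omega
        subst this; rw [pk]; exact ev
  rw [← p0, ← pk]
  exact chain_sum fun i hi => h1 _ _ (pe' i hi.le) (pe' _ hi) (p3 i hi)

end Pool.Agent.H44.FM.WG
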