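import Mathlib
import Pool.Agent.H44.FM.Chain
import Pool.Agent.Q1.M6e.Wn.P45
import Pool.Agent.Q1.M6e.PathT

set_option autoImplicit false
open Finset

/-! # Windows: one pair of points in one world

`CaseG` : a tied environment whose walls are grouped. `PairD Q C E p N V y` : the natural values `N s`
(walls of the groups of `s` pushed out) are, up to `E`, the totals of every frozen state `y i`, the line values
`V n` are means of totals. `PairD.mix`, `PairD.resp`, `PairD.lin` : the consequences of the additivity, of the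
bound of the responses and of the linear response of the walls. -/

namespace Pool.Agent.H44.FM.Br

open Pool.Agent.Q1.M6e.Wn (CaseW wS sz swn)
open Pool.Agent.H44.FM.WG (Gr)
open Pool.Agent.H44.FM.WG.Gr

/-- headings of the line along the walls of a group -/
noncomputable def hd : Gr → ℂ
  | .fo => (Real.pi / 2 : ℝ)
  | .ce => (Real.pi / 2 : ℝ)
  | .ll => (Real.pi : ℝ)
  | .ru => (Real.pi : ℝ)
  | .lu => 0
  | .rl => 0

/-- the groups of the line arc of a world -/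
def arcG : Bool → Finset Gr
  | false => {fo, ll, rl}
  | true => {ce, ru, lu}

lemma card_arcG (p : Bool) : (arcG p).card = 3 := by cases p <;> rfl

/-- a tied environment with grouped walls -/
structure CaseG where
  x : CaseW
  wg : Gr → Finset x.κ
  dj : ∀ g g', g ≠ g' → Disjoint (wg g) (wg g')

namespace CaseG

variable (y : CaseG)

/-- the walls of the groups of `s` -/
def ws (s : Finset Gr) : Finset y.x.κ := s.biUnion y.wg

open Classical in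
/-- the headings of the walls -/
noncomputable def hz (w : y.x.κ) : ℂ := if h : ∃ g, w ∈ y.wg g then hd h.choose else 0

variable {y}

lemma hz_of {g : Gr} {w : y.x.κ} (h : w ∈ y.wg g) : y.hz w = hd g := by
  have h' : ∃ g, w ∈ y.wg g := ⟨g, h⟩
  unfold hz
  rw [dif_pos h']
  by_contra hne
  have hg : h'.choose ≠ g := fun e => hne (by rw [e])
  exact (disjoint_left.1 (y.dj _ _ hg)) h'.choose_spec h

lemma hd_re (g : Gr) : 0 ≤ (hd g).re ∧ (hd g).re ≤ Real.pi ∧ (hd g).im = 0 := by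
  have hp := Real.pi_pos
  cases g <;> simp only [hd, Complex.ofReal_re, Complex.ofReal_im, Complex.zero_re, Complex.zero_im] <;>
    exact ⟨by linarith, by linarith, trivial⟩

lemma hz_re (w : y.x.κ) : 0 ≤ (y.hz w).re ∧ (y.hz w).re ≤ Real.pi ∧ |(y.hz w).im| ≤ 1 := by
  unfold hz
  split_ifs with h
  · obtain ⟨h1, h2, h3⟩ := hd_re h.choose
    refine ⟨h1, h2, ?_⟩
    rw [h3]; simp
  · simp [Real.pi_pos.le]

lemma ws_empty : y.ws ∅ = ∅ := by unfold ws; exact biUnion_empty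

lemma ws_single (g : Gr) : y.ws {g} = y.wg g := by unfold ws; exact singleton_biUnion

lemma sum_ws {s : Finset Gr} {f : y.x.κ → ℂ} : ∑ w ∈ y.ws s, f w = ∑ g ∈ s, ∑ w ∈ y.wg g, f w := by
  unfold ws
  exact sum_biUnion fun g _ g' _ hne => y.dj g g' hne

end CaseG

/-- the tied total -/
lemma tot_empty (x : CaseW) : x.tot (wS ∅) = x.tot0 := by
  show x.d.tot x.Cs x.a (wS ∅) = x.d.tot0 x.Cs x.a
  have e : (wS (∅ : Finset x.κ)) = fun _ => 0 := by funext w; unfold wS; simp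
  rw [e]
  exact Pool.Agent.Q1.M6e.Tot_zero

/-- **One pair of points in one world.** -/
structure PairD (Q : CaseW → Prop) (C E : ℝ) (p : Bool) (N : Finset Gr → ℂ) (V : ℕ → ℂ) {σ : Type}
    (y : σ → CaseG) : Prop where
  ne : Nonempty σ
  mem : ∀ i, Q (y i).x
  nat : ∀ i s, ‖(y i).x.tot (wS ((y i).ws s)) - N s‖ ≤ E
  lin : ∀ n : ℕ, 1 ≤ n → ∀ (ζ : ℂ) (B : ℝ),
    (∀ i, ‖(y i).x.tot (sz ((y i).ws (arcG p)) n (y i).hz) - ζ‖ ≤ B) → ‖V n - ζ‖ ≤ C * B

section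

variable {Q : CaseW → Prop} {C E M : ℝ} {p : Bool} {N : Finset Gr → ℂ} {V : ℕ → ℂ} {σ : Type}
  {y : σ → CaseG} {D e : ℝ} {N0 : ℕ}

/-- the response of a set of groups is the sum of the responses of the walls -/
lemma PairD.sum (h : PairD Q C E p N V y)
    (hv : ∀ i, (y i).x.d.HV (y i).x.Cs (y i).x.a M)
    (hmix : ∀ x : CaseW, Q x → ∀ M : ℝ, x.d.HV x.Cs x.a M → ∀ S : Finset x.κ,
      ‖x.tot (wS S) - x.tot0 - ∑ w ∈ S, (x.tot (wS {w}) - x.tot0)‖ ≤ D * M * e) (i : σ)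
    (s : Finset Gr) : ‖(N s - N ∅) - ∑ g ∈ s, ∑ w ∈ (y i).wg g,
      ((y i).x.tot (wS {w}) - (y i).x.tot0)‖ ≤ 2 * E + D * M * e := by
  have h1 := h.nat i s
  have h2 := h.nat i ∅
  have h3 := hmix _ (h.mem i) M (hv i) ((y i).ws s)
  rw [CaseG.sum_ws] at h3
  rw [CaseG.ws_empty, tot_empty] at h2
  set S := ∑ g ∈ s, ∑ w ∈ (y i).wg g, ((y i).x.tot (wS {w}) - (y i).x.tot0)
  have e1 : (N s - N ∅) - S = ((y i).x.tot (wS ((y i).ws s)) - (y i).x.tot0 - S) -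
      ((y i).x.tot (wS ((y i).ws s)) - N s) + ((y i).x.tot0 - N ∅) := by ring
  rw [e1]
  have k1 := norm_add_le (((y i).x.tot (wS ((y i).ws s)) - (y i).x.tot0 - S) -
      ((y i).x.tot (wS ((y i).ws s)) - N s)) ((y i).x.tot0 - N ∅)
  have k2 := norm_sub_le ((y i).x.tot (wS ((y i).ws s)) - (y i).x.tot0 - S)
      ((y i).x.tot (wS ((y i).ws s)) - N s)
  linarith

/-- **Mixed differences.** -/
theorem PairD.mix (h : PairD Q C E p N V y)
    (hv : ∀ i, (y i).x.d.HV (y i).x.Cs (y i).x.a M)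
    (hmix : ∀ x : CaseW, Q x → ∀ M : ℝ, x.d.HV x.Cs x.a M → ∀ S : Finset x.κ,
      ‖x.tot (wS S) - x.tot0 - ∑ w ∈ S, (x.tot (wS {w}) - x.tot0)‖ ≤ D * M * e)
    {s t : Finset Gr} (hst : Disjoint s t) :
    ‖N (s ∪ t) - N s - N t + N ∅‖ ≤ 3 * (2 * E + D * M * e) := by
  obtain ⟨i⟩ := h.ne
  have h1 := h.sum hv hmix i (s ∪ t)
  have h2 := h.sum hv hmix i s
  have h3 := h.sum hv hmix i t
  rw [sum_union hst] at h1
  set a := ∑ g ∈ s, ∑ w ∈ (y i).wg g, ((y i).x.tot (wS {w}) - (y i).x.tot0)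
  set b := ∑ g ∈ t, ∑ w ∈ (y i).wg g, ((y i).x.tot (wS {w}) - (y i).x.tot0)
  have e1 : N (s ∪ t) - N s - N t + N ∅ = ((N (s ∪ t) - N ∅) - (a + b)) - ((N s - N ∅) - a) -
      ((N t - N ∅) - b) := by ring
  rw [e1]
  have k1 := norm_sub_le (((N (s ∪ t) - N ∅) - (a + b)) - ((N s - N ∅) - a)) ((N t - N ∅) - b)
  have k2 := norm_sub_le ((N (s ∪ t) - N ∅) - (a + b)) ((N s - N ∅) - a)
  linarith

/-- **The natural response of a group.** -/
theorem PairD.resp (h : PairD Q C E p N V y)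
    (hv : ∀ i, (y i).x.d.HV (y i).x.Cs (y i).x.a M)
    (hmix : ∀ x : CaseW, Q x → ∀ M : ℝ, x.d.HV x.Cs x.a M → ∀ S : Finset x.κ,
      ‖x.tot (wS S) - x.tot0 - ∑ w ∈ S, (x.tot (wS {w}) - x.tot0)‖ ≤ D * M * e) {L : ℝ}
    (hcard : ∀ x : CaseW, Q x → Fintype.card x.κ ≤ N0)
    (hnr : ∀ x : CaseW, Q x → ∀ M : ℝ, x.d.HV x.Cs x.a M → ∀ w : x.κ,
      ‖x.tot (wS {w}) - x.tot0‖ ≤ L * M) (hL : 0 ≤ L * M) (g : Gr) :
    ‖N {g} - N ∅‖ ≤ 2 * E + D * M * e + N0 * (L * M) := by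
  obtain ⟨i⟩ := h.ne
  have h1 := h.sum hv hmix i {g}
  rw [sum_singleton] at h1
  have h2 : ‖∑ w ∈ (y i).wg g, ((y i).x.tot (wS {w}) - (y i).x.tot0)‖ ≤ N0 * (L * M) := by
    refine (norm_sum_le_of_le _ fun w _ => hnr _ (h.mem i) M (hv i) w).trans ?_
    rw [sum_const, nsmul_eq_mul]
    refine mul_le_mul_of_nonneg_right ?_ hL
    exact_mod_cast (card_le_univ _).trans (hcard _ (h.mem i))
  have e1 : N {g} - N ∅ = ((N {g} - N ∅) - ∑ w ∈ (y i).wg g, ((y i).x.tot (wS {w}) -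
      (y i).x.tot0)) + ∑ w ∈ (y i).wg g, ((y i).x.tot (wS {w}) - (y i).x.tot0) := by ring
  rw [e1]
  exact (norm_add_le _ _).trans (add_le_add h1 h2)

/-- **Linear response of the groups.** -/
theorem PairD.linR (h : PairD Q C E p N V y)
    (hv : ∀ i, (y i).x.d.HV (y i).x.Cs (y i).x.a M)
    (hmix : ∀ x : CaseW, Q x → ∀ M : ℝ, x.d.HV x.Cs x.a M → ∀ S : Finset x.κ,
      ‖x.tot (wS S) - x.tot0 - ∑ w ∈ S, (x.tot (wS {w}) - x.tot0)‖ ≤ D * M * e) {A CG : ℝ}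
    {G : ℂ → ℂ} {n : ℕ} (hn : 1 ≤ n) (hG : ∀ g, ‖G (hd g)‖ ≤ CG)
    (hlr : ∀ x : CaseW, Q x → ∀ (S : Finset x.κ) (z : x.κ → ℂ),
      (∀ w, 0 ≤ (z w).re ∧ (z w).re ≤ Real.pi ∧ |(z w).im| ≤ 1) →
      ‖x.tot (sz S n z) - x.tot0 - (n : ℂ) * ∑ w ∈ S, G (z w) * (x.tot (wS {w}) - x.tot0)‖ ≤ A) :
    ‖V n - N ∅ - (n : ℂ) * ∑ g ∈ arcG p, G (hd g) * (N {g} - N ∅)‖ ≤
      C * (A + E + n * (3 * (CG * (2 * E + D * M * e)))) := by
  have key : ∀ i, ‖(y i).x.tot (sz ((y i).ws (arcG p)) n (y i).hz) -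
      (N ∅ + (n : ℂ) * ∑ g ∈ arcG p, G (hd g) * (N {g} - N ∅))‖ ≤
      A + E + n * (3 * (CG * (2 * E + D * M * e))) := by
    intro i
    have h1 := hlr _ (h.mem i) ((y i).ws (arcG p)) (y i).hz fun w => CaseG.hz_re w
    rw [CaseG.sum_ws] at h1
    have h2 := h.nat i ∅
    rw [CaseG.ws_empty, tot_empty] at h2
    have e1 : ∑ g ∈ arcG p, ∑ w ∈ (y i).wg g, G ((y i).hz w) * ((y i).x.tot (wS {w}) -
        (y i).x.tot0) = ∑ g ∈ arcG p, G (hd g) * ∑ w ∈ (y i).wg g, ((y i).x.tot (wS {w}) -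
        (y i).x.tot0) := by
      refine sum_congr rfl fun g _ => ?_
      rw [mul_sum]
      refine sum_congr rfl fun w hw => ?_
      rw [CaseG.hz_of hw]
    rw [e1] at h1
    have h3 : ‖∑ g ∈ arcG p, G (hd g) * ((N {g} - N ∅) - ∑ w ∈ (y i).wg g,
        ((y i).x.tot (wS {w}) - (y i).x.tot0))‖ ≤ 3 * (CG * (2 * E + D * M * e)) := by
      refine (norm_sum_le_of_le (n := fun _ => CG * (2 * E + D * M * e)) _ fun g _ => ?_).trans ?_
      · rw [norm_mul]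
        have h4 := h.sum hv hmix i {g}
        rw [sum_singleton] at h4
        exact mul_le_mul (hG g) h4 (norm_nonneg _) ((norm_nonneg _).trans (hG g))
      · rw [sum_const, card_arcG, nsmul_eq_mul]
        norm_num
    set T := (y i).x.tot (sz ((y i).ws (arcG p)) n (y i).hz)
    set P := ∑ g ∈ arcG p, G (hd g) * ∑ w ∈ (y i).wg g, ((y i).x.tot (wS {w}) - (y i).x.tot0)
    have e2 : T - (N ∅ + (n : ℂ) * ∑ g ∈ arcG p, G (hd g) * (N {g} - N ∅)) =
        (T - (y i).x.tot0 - (n : ℂ) * P) + ((y i).x.tot0 - N ∅) -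
        (n : ℂ) * ∑ g ∈ arcG p, G (hd g) * ((N {g} - N ∅) - ∑ w ∈ (y i).wg g,
          ((y i).x.tot (wS {w}) - (y i).x.tot0)) := by
      simp only [mul_sub, sum_sub_distrib, P]
      ring
    rw [e2]
    have k1 := norm_sub_le ((T - (y i).x.tot0 - (n : ℂ) * P) + ((y i).x.tot0 - N ∅))
      ((n : ℂ) * ∑ g ∈ arcG p, G (hd g) * ((N {g} - N ∅) - ∑ w ∈ (y i).wg g,
          ((y i).x.tot (wS {w}) - (y i).x.tot0)))
    have k2 := norm_add_le (T - (y i).x.tot0 - (n : ℂ) * P) ((y i).x.tot0 - N ∅)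
    have k3 : ‖(n : ℂ) * ∑ g ∈ arcG p, G (hd g) * ((N {g} - N ∅) - ∑ w ∈ (y i).wg g,
          ((y i).x.tot (wS {w}) - (y i).x.tot0))‖ ≤ n * (3 * (CG * (2 * E + D * M * e))) := by
      rw [norm_mul, Complex.norm_natCast]
      exact mul_le_mul_of_nonneg_left h3 (Nat.cast_nonneg n)
    linarith
  have := h.lin n hn _ _ key
  rw [← sub_sub] at this
  exact this

end

end Pool.Agent.H44.FM.Br
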