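import Mathlib
import Pool.Agent.H44.FM.WRaw
import Pool.Agent.Q1.Env

set_option autoImplicit false
open MeasureTheory Set Filter Topology

/-! # Windows: the comparison of the worlds up to phases

`RawP` : `RawW` with unknown phases `ph (κ j)` in `s1`, `s2` (`s0` : one of them is `1`). `RawP.dich` : along an
ultrafilter either the natural potentials are `o (R ^ (2/3))` or the phases are `1`. `RawP.ti`. -/

namespace Pool.Agent.H44.FM.WG

open Pool.Agent.Q1 (ph ph_mod ph_add ph_zero ph_one ph_norm)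
open Pool.Agent.Q1.M4 Pool.Agent.H25.Q1.Close Pool.Agent.Q1.M6f Pool.Agent.Q1.M6f.Glue
open Gr

variable {R : ℕ → ℝ} {F : Filter ℕ} {Ω : Set ℂ} {κ : ℕ → ℂ}
  {P : Bool → Finset Gr → ℕ → ℤ × ℤ → ℂ} {Vl Vu : ℕ → ℕ → ℤ × ℤ → ℂ}

/-- a phase close to `1` is `1` -/
lemma ph_gap {k : ℤ} (h : ‖1 - ph k‖ < 1 / 2) : ph k = 1 := by
  have h0 : |(1 - ph k).re| < 1 / 2 := (Complex.abs_re_le_norm _).trans_lt h
  rw [abs_lt, Complex.sub_re, Complex.one_re] at h0
  have w : (Pool.Agent.Q1.w6).re = 1 / 2 := by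
    have := Pool.Agent.Q1.ph_one
    unfold Pool.Agent.Q1.w6
    simp
  have e1 : ph 1 = Pool.Agent.Q1.w6 := ph_one
  have e2 : ph 2 = Pool.Agent.Q1.w6 - 1 := by
    have := Pool.Agent.Q1.ph_rec 0
    rw [zero_add, zero_add, ph_zero, e1] at this
    exact this
  have e3 : ph 3 = -1 := Pool.Agent.Q1.ph_three
  have e4 : ph 4 = -Pool.Agent.Q1.w6 := by
    have := Pool.Agent.Q1.ph_add_three 1
    rw [e1] at this
    exact this
  have e5 : ph 5 = -(Pool.Agent.Q1.w6 - 1) := by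
    have := Pool.Agent.Q1.ph_add_three 2
    rw [e2] at this
    exact this
  rw [ph_mod] at h0 ⊢
  have h6 := Int.emod_nonneg k (by norm_num : (6 : ℤ) ≠ 0)
  have h7 := Int.emod_lt_of_pos k (by norm_num : (0 : ℤ) < 6)
  rcases (by omega : k % 6 = 0 ∨ k % 6 = 1 ∨ k % 6 = 2 ∨ k % 6 = 3 ∨ k % 6 = 4 ∨ k % 6 = 5) with
    h | h | h | h | h | h <;> rw [h] at h0 ⊢
  · exact ph_zero
  · rw [e1, w] at h0; norm_num at h0
  · rw [e2, Complex.sub_re, w, Complex.one_re] at h0; norm_num at h0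
  · rw [e3, Complex.neg_re, Complex.one_re] at h0; norm_num at h0
  · rw [e4, Complex.neg_re, w] at h0; norm_num at h0
  · rw [e5, Complex.neg_re, Complex.sub_re, w, Complex.one_re] at h0; norm_num at h0

/-- **Estimates for the windows**, the comparison of the worlds up to phases. -/
structure RawP (R : ℕ → ℝ) (F : Filter ℕ) (Ω : Set ℂ) (P : Bool → Finset Gr → ℕ → ℤ × ℤ → ℂ)
    (Vl Vu : ℕ → ℕ → ℤ × ℤ → ℂ) : Prop where
  bd : ∀ p g, BdR R F Ω (-(1 / 3)) (XG P p g)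
  mix : ∀ p s t, Disjoint s t → SmR R F Ω (-(1 / 3)) (P p (s ∪ t) - P p s - P p t + P p ∅)
  adj : ∀ p g, StR R F Ω (-(1 / 3)) uu (XG P p g)
  adjR : ∀ p g, StR R F Ω (-(1 / 3)) rr (XG P p g)
  edge : ∀ p s, EdB R F Ω (P p s)
  s0 : SmR R F Ω (-(1 / 3)) (P true {ce} - Sh uu (P false {fo}))
  s1 : ∀ p, ∀ s ⊆ gV, ∃ k : ℕ → ℤ, SmR R F Ω (-(1 / 3))
    (P (!p) ({ce} ∪ s) - fun j v => ph (k j) * Sh uu (P p ({fo} ∪ s)) j v)
  s2 : ∀ p, ∀ s ⊆ gH, ∃ k : ℕ → ℤ, SmR R F Ω (-(1 / 3))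
    (P (!p) ({rl, ru} ∪ s) - fun j v => ph (k j) * Sh rr (P p ({ll, lu} ∪ s)) j v)
  ab : ∀ K ⊆ Ω, IsCompact K → ∃ ρ1 > 0, ∀ ρ : ℝ, 0 < ρ → ρ < ρ1 → ∀ ε > 0, ∀ᶠ j in F,
    ∀ u v : ℤ × ℤ, Ev u → Ev v → lat u / (R j : ℂ) ∈ K → lat v / (R j : ℂ) ∈ K →
    ‖(Vl j ⌊ρ * R j⌋₊ u - Vl j ⌊ρ * R j⌋₊ v) - (Vu j ⌊ρ * R j⌋₊ u - Vu j ⌊ρ * R j⌋₊ v)‖ ≤
      ε * R j ^ (2 / 3 : ℝ)
  cc : ∀ K ⊆ Ω, IsCompact K → ∃ c : ℝ, 0 < c ∧ ∀ ε > 0, ∃ ρ1 > 0, ∀ ρ : ℝ, 0 < ρ → ρ < ρ1 →
    ∀ᶠ j in F, ∃ G : ℂ → ℂ, c ≤ ‖G (Real.pi / 2 : ℝ)‖ ∧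
      ‖G (Real.pi : ℝ) + Complex.I * G (Real.pi / 2 : ℝ)‖ ≤ ε ∧
      ‖G (Real.pi / 2 : ℝ) + Complex.I * G 0‖ ≤ ε ∧ LinW R P Vl Vu G j ρ ε K

/-- the mixed difference of one group and a set -/
lemma RawP.mix1 (H : RawP R F Ω P Vl Vu) (p : Bool) (g : Gr) (s : Finset Gr) (hg : g ∉ s) :
    SmR R F Ω (-(1 / 3)) ((P p (insert g s) - P p s) - XG P p g) := by
  have h := H.mix p s {g} (by simpa using hg)
  have e : P p (s ∪ {g}) - P p s - P p {g} + P p ∅ = (P p (insert g s) - P p s) - XG P p g := by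
    rw [Finset.union_singleton]
    unfold XG
    abel
  rwa [e] at h

/-- the natural environments are close to each other -/
lemma RawP.near (H : RawP R F Ω P Vl Vu) (hR : Tendsto R F atTop) (p : Bool) (s : Finset Gr) :
    SmR R F Ω (2 / 3) (P p s - P p ∅) := by
  classical
  induction s using Finset.induction_on with
  | empty =>
    intro K _ _ ε hε
    filter_upwards [hR.eventually_gt_atTop 0] with j hj u v _ _
    simp only [sub_self, Pi.zero_apply, norm_zero]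
    positivity
  | insert g s hg ih =>
    have h1 := (H.mix1 p g s hg).mono hR (by norm_num : (-(1 / 3) : ℝ) ≤ 2 / 3)
    have h2 := BdR.smR hR (by norm_num : (-(1 / 3) : ℝ) < 2 / 3) (H.bd p g)
    have h3 := (h1.add h2).add ih
    have e : (P p (insert g s) - P p s) - XG P p g + XG P p g + (P p s - P p ∅) =
        P p (insert g s) - P p ∅ := by abel
    rwa [e] at h3

/-- all natural potentials are close to each other -/
lemma RawP.near2 (H : RawP R F Ω P Vl Vu) (hR : Tendsto R F atTop) (p : Bool) (s : Finset Gr) :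
    SmR R F Ω (2 / 3) (P p s - P false ∅) := by
  cases p with
  | false => exact H.near hR false s
  | true =>
    have h1 := H.s0.mono hR (by norm_num : (-(1 / 3) : ℝ) ≤ 2 / 3)
    have h2 := EdB.sh hR (by norm_num : (0 : ℝ) < 2 / 3) (H.edge false {fo}) (d := uu) (by decide)
      (by decide)
    have h3 := (((h1.add h2).add (H.near hR false {fo})).sub (H.near hR true {ce})).add
      (H.near hR true s)
    have e : P true {ce} - Sh uu (P false {fo}) + (Sh uu (P false {fo}) - P false {fo}) +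
        (P false {fo} - P false ∅) - (P true {ce} - P true ∅) + (P true s - P true ∅) =
        P true s - P false ∅ := by abel
    rwa [e] at h3

/-- the phase is `1` as soon as the increments are large -/
lemma phase_one {U : Ultrafilter ℕ} (hR : Tendsto R U atTop) {A B N : ℕ → ℤ × ℤ → ℂ} {k : ℕ → ℤ}
    (h : SmR R U Ω (-(1 / 3)) (A - fun j v => ph (k j) * B j v)) (hA : SmR R U Ω (2 / 3) (A - N))
    (hB : SmR R U Ω (2 / 3) (B - N)) (hN : ¬ SmR R U Ω (2 / 3) N) :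
    SmR R U Ω (-(1 / 3)) (A - B) := by
  unfold SmR at hN
  push Not at hN
  obtain ⟨K, hK, hKc, ε, hε, hN⟩ := hN
  have h1 := h.mono hR (by norm_num : (-(1 / 3) : ℝ) ≤ 2 / 3)
  have key : ∀ᶠ j in (U : Filter ℕ), ph (k j) = 1 := by
    filter_upwards [hN, h1 K hK hKc (ε / 8) (by positivity), hA K hK hKc (ε / 8) (by positivity),
      hB K hK hKc (ε / 8) (by positivity), hR.eventually_gt_atTop 0] with j a1 a2 a3 a4 a5
    obtain ⟨u, v, hu, hv, a1⟩ := a1
    have b2 := a2 u v hu hv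
    have b3 := a3 u v hu hv
    have b4 := a4 u v hu hv
    simp only [Pi.sub_apply] at b2 b3 b4
    refine ph_gap ?_
    have hr : 0 < R j ^ (2 / 3 : ℝ) := by positivity
    have hn : 0 < ‖N j u - N j v‖ := lt_trans (by positivity) a1
    have e : (1 - ph (k j)) * (N j u - N j v) = (A j u - ph (k j) * B j u - (A j v - ph (k j) * B j v)) -
        (A j u - N j u - (A j v - N j v)) + ph (k j) * (B j u - N j u - (B j v - N j v)) := by ring
    have h5 : ‖1 - ph (k j)‖ * ‖N j u - N j v‖ ≤ 3 * (ε / 8 * R j ^ (2 / 3 : ℝ)) := by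
      rw [← norm_mul, e]
      refine (norm_add_le _ _).trans ?_
      have k1 := norm_sub_le (A j u - ph (k j) * B j u - (A j v - ph (k j) * B j v))
        (A j u - N j u - (A j v - N j v))
      rw [norm_mul, ph_norm, one_mul]
      linarith
    by_contra hcon
    rw [not_lt] at hcon
    have h6 : 1 / 2 * ‖N j u - N j v‖ ≤ 3 * (ε / 8 * R j ^ (2 / 3 : ℝ)) :=
      (mul_le_mul_of_nonneg_right hcon hn.le).trans h5
    nlinarith
  intro K' hK' hKc' ε' hε'
  filter_upwards [h K' hK' hKc' ε' hε', key] with j a1 a2 u v hu hv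
  have := a1 u v hu hv
  simpa only [Pi.sub_apply, a2, one_mul] using this

/-- **Degenerate or without phases.** -/
theorem RawP.dich {U : Ultrafilter ℕ} (H : RawP R U Ω P Vl Vu) (hR : Tendsto R U atTop) :
    SmR R U Ω (2 / 3) (P false ∅) ∨ RawW R U Ω P Vl Vu := by
  by_cases hN : SmR R U Ω (2 / 3) (P false ∅)
  · exact Or.inl hN
  right
  have sh : ∀ (d : ℤ × ℤ), |d.1| ≤ 1 → |d.2| ≤ 1 → ∀ p s,
      SmR R U Ω (2 / 3) (Sh d (P p s) - P false ∅) := by
    intro d d1 d2 p s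
    have h1 := (EdB.sh hR (by norm_num : (0 : ℝ) < 2 / 3) (H.edge p s) d1 d2).add (H.near2 hR p s)
    have e : Sh d (P p s) - P p s + (P p s - P false ∅) = Sh d (P p s) - P false ∅ := by abel
    rwa [e] at h1
  refine ⟨H.bd, H.mix, H.adj, H.adjR, H.edge, fun p s hs => ?_, fun p s hs => ?_, H.ab, H.cc⟩
  · obtain ⟨k, hk⟩ := H.s1 p s hs
    exact phase_one hR hk (H.near2 hR _ _) (sh uu (by decide) (by decide) _ _) hN
  · obtain ⟨k, hk⟩ := H.s2 p s hs
    exact phase_one hR hk (H.near2 hR _ _) (sh rr (by decide) (by decide) _ _) hN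

/-- constant functions are translation invariant -/
lemma ti_const {g : ℂ → ℂ} (h : ∀ z ∈ Ω, ∀ z' ∈ Ω, g z = g z') : TI Ω g := by
  have key : ∀ a b c d : ℝ, a < b → c < d → Icc a b ×ℂ Icc c d ⊆ Ω → JJ g a b c d = 0 := by
    intro a b c d hab hcd hsub
    set z0 : ℂ := a + c * Complex.I with hz0
    have h0 : z0 ∈ Ω := hsub (mem_rect (left_mem_Icc.2 hab.le) (left_mem_Icc.2 hcd.le))
    have e1 : ∀ y ∈ Icc c d, (∫ x in a..b, g (x + y * Complex.I)) = ∫ _ in a..b, g z0 := by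
      intro y hy
      refine intervalIntegral.integral_congr fun x hx => ?_
      rw [uIcc_of_le hab.le] at hx
      exact h _ (hsub (mem_rect hx hy)) _ h0
    have e2 : ∀ x ∈ Icc a b, (∫ y in c..d, g (x + y * Complex.I)) = ∫ _ in c..d, g z0 := by
      intro x hx
      refine intervalIntegral.integral_congr fun y hy => ?_
      rw [uIcc_of_le hcd.le] at hy
      exact h _ (hsub (mem_rect hx hy)) _ h0
    unfold JJ
    rw [e1 d (right_mem_Icc.2 hcd.le), e1 c (left_mem_Icc.2 hcd.le), e2 b (right_mem_Icc.2 hab.le),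
      e2 a (left_mem_Icc.2 hab.le)]
    ring
  intro a b c d x y hab hcd h1 h2
  rw [key a b c d hab hcd h1, key _ _ _ _ (by linarith) (by linarith) h2]

/-- **Translation invariance for the windows.** -/
theorem RawP.ti {U : Ultrafilter ℕ} (hR : Tendsto R atTop atTop) (hU : (U : Filter ℕ) ≤ atTop)
    (hΩ : IsOpen Ω) (H : RawP R U Ω P Vl Vu) (hκ : ∀ n, ‖κ n‖ = 1) {f : ℕ → ℤ × ℤ → ℂ} {g : ℂ → ℂ}
    (hf : ∀ K ⊆ Ω, IsCompact K → ∀ τ > 0, ∀ᶠ j in (U : Filter ℕ), ∀ u v : ℤ × ℤ,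
      lat u / (R j : ℂ) ∈ K → lat v / (R j : ℂ) ∈ K →
      ‖(nz R κ (P false ∅) j u - nz R κ (P false ∅) j v) - (f j u - f j v)‖ ≤ τ)
    (hlim : ILim R U f Ω g) (hg : ContinuousOn g Ω) : TI Ω g := by
  have hRU : Tendsto R U atTop := hR.mono_left hU
  rcases H.dich hRU with hN | hW
  · refine ti_const fun z hz z' hz' => ?_
    by_contra hne
    set δ : ℝ := ‖g z - g z'‖ with hδ
    have hδ0 : 0 < δ := norm_pos_iff.2 (sub_ne_zero.2 hne)
    have t1 : Tendsto (fun j => lat (fl R z j) / (R j : ℂ)) U (𝓝 z) :=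
      (fl_tendsto hR _).mono_left hU
    have t2 : Tendsto (fun j => lat (fl R z' j) / (R j : ℂ)) U (𝓝 z') :=
      (fl_tendsto hR _).mono_left hU
    have l1 := (hlim z hz _ t1).sub (hlim z' hz' _ t2)
    have l2 := l1.norm
    obtain ⟨K, hKc, hK1, hK2⟩ : ∃ K : Set ℂ, IsCompact K ∧ K ⊆ Ω ∧ {z, z'} ⊆ interior K := by
      obtain ⟨K, hKc, h1, h2⟩ := exists_compact_between (isCompact_singleton.insert z : IsCompact {z, z'})
        hΩ (by rintro w (rfl | rfl) <;> assumption)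
      exact ⟨K, hKc, h2, h1⟩
    have m1 : ∀ᶠ j in (U : Filter ℕ), lat (fl R z j) / (R j : ℂ) ∈ K :=
      t1.eventually (mem_interior_iff_mem_nhds.1 (hK2 (by simp)))
    have m2 : ∀ᶠ j in (U : Filter ℕ), lat (fl R z' j) / (R j : ℂ) ∈ K :=
      t2.eventually (mem_interior_iff_mem_nhds.1 (hK2 (by simp)))
    have hlow := l2.eventually (lt_mem_nhds (show δ / 2 < ‖g z - g z'‖ by rw [← hδ]; linarith))
    obtain ⟨j, a1, a2, a3, a4, a5, a6⟩ := (m1.and (m2.and (hlow.and ((hN K hK1 hKc (δ / 8)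
      (by positivity)).and ((hf K hK1 hKc (δ / 8) (by positivity)).and
        (hRU.eventually_gt_atTop 0)))))).exists
    have b4 := a4 _ _ a1 a2
    have b5 := a5 _ _ a1 a2
    have e : nz R κ (P false ∅) j (fl R z j) - nz R κ (P false ∅) j (fl R z' j) =
        κ j * ((R j ^ (-(2 / 3) : ℝ) : ℝ) : ℂ) * (P false ∅ j (fl R z j) - P false ∅ j (fl R z' j)) := by
      simp only [nz]; ring
    have b6 : ‖nz R κ (P false ∅) j (fl R z j) - nz R κ (P false ∅) j (fl R z' j)‖ ≤ δ / 8 := by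
      rw [e, norm_nz hκ a6]
      calc R j ^ (-(2 / 3) : ℝ) * _ ≤ R j ^ (-(2 / 3) : ℝ) * (δ / 8 * R j ^ (2 / 3 : ℝ)) :=
            mul_le_mul_of_nonneg_left b4 (by positivity)
        _ = δ / 8 * (R j ^ (-(2 / 3) : ℝ) * R j ^ (2 / 3 : ℝ)) := by ring
        _ = δ / 8 := by rw [pw1 a6, mul_one]
    have b7 : ‖f j (fl R z j) - f j (fl R z' j)‖ ≤ δ / 4 := by
      have e2 : f j (fl R z j) - f j (fl R z' j) =
          (nz R κ (P false ∅) j (fl R z j) - nz R κ (P false ∅) j (fl R z' j)) -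
          ((nz R κ (P false ∅) j (fl R z j) - nz R κ (P false ∅) j (fl R z' j)) -
            (f j (fl R z j) - f j (fl R z' j))) := by ring
      rw [e2]
      refine (norm_sub_le _ _).trans ?_
      linarith
    linarith
  · exact RawW.ti hR hU hΩ hW hκ hf hlim hg

end Pool.Agent.H44.FM.WG
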