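import Mathlib
import Pool.Agent.H44.FM.Br1
import Pool.Agent.H44.FM.LRC
import Pool.Agent.H44.FM.WRawP

set_option autoImplicit false
open Filter Topology Set

/-! # Windows: from pairs of points to `RawP`

`BrW` : the inputs for a sequence of windows. `BrW.raw` : the estimates `RawP` of the unnormalised natural
potentials and line potentials. -/

namespace Pool.Agent.H44.FM.Br

open Pool.Agent.Q1 (ph)
open Pool.Agent.Q1.M4 (lat)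
open Pool.Agent.Q1.M6f.Glue (Ev uu rr)
open Pool.Agent.Q1.M6e.Wn (CaseW wS sz swn FineP HVP lrJ nrP mixP LRat)
open Pool.Agent.Q1.M6e (Fine45 HV45 DL45)
open Pool.Agent.H44.FM (C45at gfix45 c45at_of)
open Pool.Agent.H44.FM.WG
open Pool.Agent.H44.FM.WG.Gr
open Pool.Agent.H53.FM (GHypX)

/-- **Inputs for a sequence of windows**, size `R j`. `N p s j v` : potential of the natural window of the
world `p`, the walls of the groups of `s` pushed out, at the point `v - p (0, 1)`; `V p j n v` : potential of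
the window of the world `p` with a line of rapidity `π / 2 + i log n`, at the same point. -/
structure BrW (P : ℝ → ℕ → CaseW → Prop) (R : ℕ → ℕ) (F : Filter ℕ) (Ω : Set ℂ)
    (N : Bool → Finset Gr → ℕ → ℤ × ℤ → ℂ) (V : Bool → ℕ → ℕ → ℤ × ℤ → ℂ) : Prop where
  /-- linked pairs -/
  pair : ∀ η > 0, ∃ η' > 0, ∃ C : ℝ, ∀ ε > 0, ∀ᶠ j in F, ∀ u v : ℤ × ℤ,
    RL Ω η (lat u / ((R j : ℝ) : ℂ)) (lat v / ((R j : ℝ) : ℂ)) → ∀ p : Bool,
    ∃ (σ : Type) (y : σ → CaseG), PairD (P η' (R j)) C (ε * (R j : ℝ) ^ (-(1 / 3) : ℝ)) p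
      (fun s => N p s j u - N p s j v) (fun n => V p j n u - V p j n v) y ∧
      (|u.1 - v.1| ≤ 1 → |u.2 - v.2| ≤ 1 → ∀ i, (y i).x.d.HV (y i).x.Cs (y i).x.a C)
  edge : ∀ p s, EdB (fun j => (R j : ℝ)) F Ω (N p s)
  s0 : SmR (fun j => (R j : ℝ)) F Ω (-(1 / 3)) (N true {ce} - Sh uu (N false {fo}))
  s1 : ∀ p, ∀ s ⊆ gV, ∃ k : ℕ → ℤ, SmR (fun j => (R j : ℝ)) F Ω (-(1 / 3))
    (N (!p) ({ce} ∪ s) - fun j v => ph (k j) * Sh uu (N p ({fo} ∪ s)) j v)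
  s2 : ∀ p, ∀ s ⊆ gH, ∃ k : ℕ → ℤ, SmR (fun j => (R j : ℝ)) F Ω (-(1 / 3))
    (N (!p) ({rl, ru} ∪ s) - fun j v => ph (k j) * Sh rr (N p ({ll, lu} ∪ s)) j v)
  ab : ∀ η > 0, ∀ ρ : ℝ, 0 < ρ → ∀ ε > 0, ∀ᶠ j in F, ∀ u v : ℤ × ℤ, Ev u → Ev v →
    RL Ω η (lat u / ((R j : ℝ) : ℂ)) (lat v / ((R j : ℝ) : ℂ)) →
    ‖(V false j ⌊ρ * (R j : ℝ)⌋₊ u - V false j ⌊ρ * (R j : ℝ)⌋₊ v) -
      (V true j ⌊ρ * (R j : ℝ)⌋₊ u - V true j ⌊ρ * (R j : ℝ)⌋₊ v)‖ ≤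
      ε * (R j : ℝ) ^ (2 / 3 : ℝ)

/-! ### Numbers -/

lemma pow_split {r c : ℝ} (hr : 0 < r) : r ^ (2 / 3 : ℝ) * (1 / r) ^ (1 + c) =
    r ^ (-c) * r ^ (-(1 / 3) : ℝ) := by
  rw [one_div, Real.inv_rpow hr.le, ← Real.rpow_neg hr.le, ← Real.rpow_add hr, ← Real.rpow_add hr]
  congr 1
  ring

lemma pow_one_le {r c : ℝ} (hr : 1 ≤ r) (hc : 0 < c) : (1 / r) ^ (1 + c) ≤
    r ^ (-(2 / 3) : ℝ) * r ^ (-(1 / 3) : ℝ) := by
  have h0 : 0 < r := by linarith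
  rw [one_div, Real.inv_rpow h0.le, ← Real.rpow_neg h0.le, ← Real.rpow_add h0]
  exact Real.rpow_le_rpow_of_exponent_le hr (by linarith)

lemma inv_split {r : ℝ} (hr : 0 < r) : 1 / r = r ^ (-(2 / 3) : ℝ) * r ^ (-(1 / 3) : ℝ) := by
  rw [← Real.rpow_add hr, show (-(2 / 3) : ℝ) + -(1 / 3) = -1 by norm_num, Real.rpow_neg_one, one_div]

lemma rp_tend {R : ℕ → ℕ} {F : Filter ℕ} (hR : Tendsto R F atTop) {c : ℝ} (hc : 0 < c) :
    Tendsto (fun j => (R j : ℝ) ^ (-c)) F (𝓝 0) :=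
  (tendsto_rpow_neg_atTop hc).comp (tendsto_natCast_atTop_atTop.comp hR)

/-- adjacent points of a compact set are linked -/
lemma RL_adj {R : ℕ → ℝ} {F : Filter ℕ} (hR : Tendsto R F atTop) {Ω K : Set ℂ} (hΩ : IsOpen Ω)
    (hK : K ⊆ Ω) (hKc : IsCompact K) : ∃ η > 0, ∀ᶠ j in F, ∀ v d : ℤ × ℤ, |d.1| ≤ 1 → |d.2| ≤ 1 →
      lat v / (R j : ℂ) ∈ K → RL Ω η (lat v / (R j : ℂ)) (lat (v - d) / (R j : ℂ)) := by
  obtain ⟨s, hs, hsub⟩ := hKc.exists_cthickening_subset_open hΩ hK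
  refine ⟨s / 8, by positivity, ?_⟩
  filter_upwards [hR.eventually_gt_atTop 0, hR.eventually_gt_atTop (16 / s)] with j h1 h2 v d d1 d2 hv
  refine RL_near (z := lat v / (R j : ℂ)) ?_ (by rw [dist_self]; positivity) ?_
  · refine Subset.trans ?_ hsub
    intro w hw
    rw [Metric.mem_ball] at hw
    exact Metric.mem_cthickening_of_dist_le w _ _ _ hv (by linarith)
  · rw [dist_eq_norm]
    have e : lat (v - d) / (R j : ℂ) - lat v / (R j : ℂ) = -(lat d) / (R j : ℂ) := by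
      have : lat (v - d) = lat v - lat d := by
        apply Complex.ext <;> simp [lat]
      rw [this]; ring
    rw [e, norm_div, norm_neg, Complex.norm_real, Real.norm_of_nonneg h1.le]
    have hd : ‖lat d‖ ≤ 2 := by
      refine (Complex.norm_le_abs_re_add_abs_im _).trans ?_
      have a1 : |((d.1 : ℤ) : ℝ)| ≤ 1 := by exact_mod_cast d1
      have a2 : |((d.2 : ℤ) : ℝ)| ≤ 1 := by exact_mod_cast d2
      have e1 : (lat d).re = d.1 := rfl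
      have e2 : (lat d).im = d.2 := rfl
      rw [e1, e2]
      linarith
    rw [div_lt_iff₀ h1]
    rw [div_lt_iff₀ hs] at h2
    nlinarith

variable {P : ℝ → ℕ → CaseW → Prop} {R : ℕ → ℕ} {F : Filter ℕ} {Ω : Set ℂ}
  {N : Bool → Finset Gr → ℕ → ℤ × ℤ → ℂ} {V : Bool → ℕ → ℕ → ℤ × ℤ → ℂ}

/-- **Linked pairs: the three natural bounds.** -/
theorem BrW.nat (H : BrW P R F Ω N V) (hR : Tendsto R F atTop) (hF : FineP P) (hH : HVP P) {η : ℝ}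
    (hη : 0 < η) :
    (∃ B : ℝ, ∀ᶠ j in F, ∀ u v : ℤ × ℤ, RL Ω η (lat u / ((R j : ℝ) : ℂ)) (lat v / ((R j : ℝ) : ℂ)) →
      ∀ p g, ‖XG N p g j u - XG N p g j v‖ ≤ B * (R j : ℝ) ^ (-(1 / 3) : ℝ)) ∧
    (∀ ε > 0, ∀ᶠ j in F, ∀ u v : ℤ × ℤ, RL Ω η (lat u / ((R j : ℝ) : ℂ)) (lat v / ((R j : ℝ) : ℂ)) →
      ∀ p, ∀ s t, Disjoint s t → ‖(N p (s ∪ t) - N p s - N p t + N p ∅) j u -
        (N p (s ∪ t) - N p s - N p t + N p ∅) j v‖ ≤ ε * (R j : ℝ) ^ (-(1 / 3) : ℝ)) ∧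
    (∀ ε > 0, ∀ᶠ j in F, ∀ u v : ℤ × ℤ, RL Ω η (lat u / ((R j : ℝ) : ℂ)) (lat v / ((R j : ℝ) : ℂ)) →
      |u.1 - v.1| ≤ 1 → |u.2 - v.2| ≤ 1 → ∀ p g, ‖XG N p g j u - XG N p g j v‖ ≤
        ε * (R j : ℝ) ^ (-(1 / 3) : ℝ)) := by
  obtain ⟨η', hη', C, hp⟩ := H.pair η hη
  obtain ⟨N0, C1, c1, K1, ζ1, R1, -, -, -, -, hFi⟩ := hF η' hη'
  obtain ⟨Dn, R2, hDn, hnr⟩ := nrP hF η' hη'
  obtain ⟨Dm, cm, R3, hDm, hcm, hmx⟩ := mixP hF η' hη'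
  obtain ⟨Ch, R4, hHV⟩ := hH η' hη'
  have hRr : Tendsto (fun j => (R j : ℝ)) F atTop := tendsto_natCast_atTop_atTop.comp hR
  set C2 : ℝ := |Ch| + 1 with hC2
  have hC20 : 0 < C2 := by positivity
  set C3 : ℝ := |C| + 1 with hC3
  have hC30 : 0 < C3 := by positivity
  have hN0 : (0 : ℝ) ≤ N0 := Nat.cast_nonneg _
  -- the common facts at the scale `j`
  have base : ∀ᶠ j in F, R1 ≤ R j ∧ R2 ≤ R j ∧ R3 ≤ R j ∧ R4 ≤ R j ∧ (1 : ℝ) ≤ R j := by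
    filter_upwards [hR.eventually_ge_atTop R1, hR.eventually_ge_atTop R2, hR.eventually_ge_atTop R3,
      hR.eventually_ge_atTop R4, hRr.eventually_ge_atTop 1] with j a b c d e
    exact ⟨a, b, c, d, e⟩
  -- the three conclusions for `M`
  have fact : ∀ ε > 0, ∀ᶠ j in F, ∀ u v : ℤ × ℤ,
      RL Ω η (lat u / ((R j : ℝ) : ℂ)) (lat v / ((R j : ℝ) : ℂ)) → ∀ p, ∀ M : ℝ, 0 ≤ M →
      (M = C2 * (R j : ℝ) ^ (2 / 3 : ℝ) ∨ (M = C3 ∧ |u.1 - v.1| ≤ 1 ∧ |u.2 - v.2| ≤ 1)) →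
      (∀ g, ‖XG N p g j u - XG N p g j v‖ ≤ 2 * (ε * (R j : ℝ) ^ (-(1 / 3) : ℝ)) +
        Dm * M * (1 / (R j : ℝ)) ^ (1 + cm) + N0 * (Dn / R j * M)) ∧
      (∀ s t, Disjoint s t → ‖(N p (s ∪ t) - N p s - N p t + N p ∅) j u -
        (N p (s ∪ t) - N p s - N p t + N p ∅) j v‖ ≤ 3 * (2 * (ε * (R j : ℝ) ^ (-(1 / 3) : ℝ)) +
        Dm * M * (1 / (R j : ℝ)) ^ (1 + cm))) := by
    intro ε hε
    filter_upwards [hp ε hε, base] with j h1 h2 u v huv p M hM0 hM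
    obtain ⟨r1, r2, r3, r4, r5⟩ := h2
    obtain ⟨σ, y, hy, hy1⟩ := h1 u v huv p
    have hRp : (0 : ℝ) < R j := by linarith
    have hv : ∀ i, (y i).x.d.HV (y i).x.Cs (y i).x.a M := by
      intro i
      rcases hM with hM | ⟨hM, m1, m2⟩
      · intro ω hω Q hQ
        refine (hHV (R j) r4 (y i).x (hy.mem i) ω hω Q hQ).trans ?_
        rw [hM]
        exact mul_le_mul_of_nonneg_right (by rw [hC2]; linarith [le_abs_self Ch]) (by positivity)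
      · intro ω hω Q hQ
        refine (hy1 m1 m2 i ω hω Q hQ).trans ?_
        rw [hM, hC3]
        linarith [le_abs_self C]
    have hmix : ∀ x : CaseW, P η' (R j) x → ∀ M : ℝ, x.d.HV x.Cs x.a M → ∀ S : Finset x.κ,
        ‖x.tot (wS S) - x.tot0 - ∑ w ∈ S, (x.tot (wS {w}) - x.tot0)‖ ≤
        Dm * M * (1 / (R j : ℝ)) ^ (1 + cm) := fun x hx M hM S => hmx (R j) r3 x hx M hM S
    have hn : ∀ x : CaseW, P η' (R j) x → ∀ M : ℝ, x.d.HV x.Cs x.a M → ∀ w : x.κ,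
        ‖x.tot (wS {w}) - x.tot0‖ ≤ Dn / R j * M := by
      intro x hx M hM w
      refine (hnr (R j) r2 x hx M hM w).trans (le_of_eq (by ring))
    have hcard : ∀ x : CaseW, P η' (R j) x → Fintype.card x.κ ≤ N0 := fun x hx =>
      (hFi (R j) r1 x hx).1
    refine ⟨fun g => ?_, fun s t hst => ?_⟩
    · have := hy.resp hv hmix hcard hn (by positivity) g
      have e : XG N p g j u - XG N p g j v = (N p {g} j u - N p {g} j v) - (N p ∅ j u - N p ∅ j v) := by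
        simp only [XG, Pi.sub_apply]; ring
      rw [e]
      exact this
    · have := hy.mix hv hmix hst
      have e : (N p (s ∪ t) - N p s - N p t + N p ∅) j u - (N p (s ∪ t) - N p s - N p t + N p ∅) j v =
          (N p (s ∪ t) j u - N p (s ∪ t) j v) - (N p s j u - N p s j v) - (N p t j u - N p t j v) +
          (N p ∅ j u - N p ∅ j v) := by
        simp only [Pi.sub_apply, Pi.add_apply]; ring
      rw [e]
      exact this
  refine ⟨⟨2 + Dm * C2 + N0 * (Dn * C2), ?_⟩, fun ε hε => ?_, fun ε hε => ?_⟩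
  · filter_upwards [fact 1 one_pos, base] with j h1 h2 u v huv p g
    have r5 := h2.2.2.2.2
    have hRp : (0 : ℝ) < R j := by linarith
    have k := (h1 u v huv p (C2 * (R j : ℝ) ^ (2 / 3 : ℝ)) (by positivity) (Or.inl rfl)).1 g
    refine k.trans ?_
    have hq : (0 : ℝ) < (R j : ℝ) ^ (-(1 / 3) : ℝ) := by positivity
    have e1 : Dm * (C2 * (R j : ℝ) ^ (2 / 3 : ℝ)) * (1 / (R j : ℝ)) ^ (1 + cm) =
        Dm * C2 * ((R j : ℝ) ^ (-cm) * (R j : ℝ) ^ (-(1 / 3) : ℝ)) := by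
      rw [← pow_split hRp]; ring
    have e2 : (R j : ℝ) ^ (-cm) ≤ 1 := Real.rpow_le_one_of_one_le_of_nonpos r5 (by linarith)
    have e3 : Dn / R j * (C2 * (R j : ℝ) ^ (2 / 3 : ℝ)) = Dn * C2 * (R j : ℝ) ^ (-(1 / 3) : ℝ) := by
      have : (1 / (R j : ℝ)) * (R j : ℝ) ^ (2 / 3 : ℝ) = (R j : ℝ) ^ (-(1 / 3) : ℝ) := by
        rw [one_div, ← Real.rpow_neg_one, ← Real.rpow_add hRp]; norm_num
      rw [← this]; ring
    rw [e1, e3]
    have e4 : Dm * C2 * ((R j : ℝ) ^ (-cm) * (R j : ℝ) ^ (-(1 / 3) : ℝ)) ≤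
        Dm * C2 * (1 * (R j : ℝ) ^ (-(1 / 3) : ℝ)) :=
      mul_le_mul_of_nonneg_left (mul_le_mul_of_nonneg_right e2 hq.le) (by positivity)
    linarith
  · have t1 := rp_tend hR hcm
    filter_upwards [fact (ε / 12) (by positivity), base,
      t1.eventually_lt_const (by positivity : (0 : ℝ) < ε / (6 * (Dm * C2)))] with j h1 h2 h3 u v huv p
      s t hst
    have r5 := h2.2.2.2.2
    have hRp : (0 : ℝ) < R j := by linarith
    have k := (h1 u v huv p (C2 * (R j : ℝ) ^ (2 / 3 : ℝ)) (by positivity) (Or.inl rfl)).2 s t hst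
    refine k.trans ?_
    have hq : (0 : ℝ) < (R j : ℝ) ^ (-(1 / 3) : ℝ) := by positivity
    have e1 : Dm * (C2 * (R j : ℝ) ^ (2 / 3 : ℝ)) * (1 / (R j : ℝ)) ^ (1 + cm) =
        Dm * C2 * ((R j : ℝ) ^ (-cm) * (R j : ℝ) ^ (-(1 / 3) : ℝ)) := by
      rw [← pow_split hRp]; ring
    rw [e1]
    have e4 : Dm * C2 * ((R j : ℝ) ^ (-cm) * (R j : ℝ) ^ (-(1 / 3) : ℝ)) ≤
        Dm * C2 * (ε / (6 * (Dm * C2)) * (R j : ℝ) ^ (-(1 / 3) : ℝ)) :=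
      mul_le_mul_of_nonneg_left (mul_le_mul_of_nonneg_right h3.le hq.le) (by positivity)
    have e5 : Dm * C2 * (ε / (6 * (Dm * C2)) * (R j : ℝ) ^ (-(1 / 3) : ℝ)) =
        ε / 6 * (R j : ℝ) ^ (-(1 / 3) : ℝ) := by field_simp
    rw [e5] at e4
    linarith
  · have t1 : Tendsto (fun j => (R j : ℝ) ^ (-(2 / 3) : ℝ)) F (𝓝 0) := rp_tend hR (by norm_num)
    set B : ℝ := Dm * C3 + N0 * (Dn * C3) + 1 with hB
    have hB0 : 0 < B := by positivity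
    filter_upwards [fact (ε / 4) (by positivity), base,
      t1.eventually_lt_const (by positivity : (0 : ℝ) < ε / (2 * B))] with j h1 h2 h3 u v huv d1 d2 p g
    have r5 := h2.2.2.2.2
    have hRp : (0 : ℝ) < R j := by linarith
    have k := (h1 u v huv p C3 hC30.le (Or.inr ⟨rfl, d1, d2⟩)).1 g
    refine k.trans ?_
    have hq : (0 : ℝ) < (R j : ℝ) ^ (-(1 / 3) : ℝ) := by positivity
    have e1 := pow_one_le r5 hcm
    have e2 : Dn / R j * C3 = Dn * C3 * ((R j : ℝ) ^ (-(2 / 3) : ℝ) * (R j : ℝ) ^ (-(1 / 3) : ℝ)) := by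
      rw [← inv_split hRp]; ring
    rw [e2]
    have e3 : Dm * C3 * (1 / (R j : ℝ)) ^ (1 + cm) ≤
        Dm * C3 * ((R j : ℝ) ^ (-(2 / 3) : ℝ) * (R j : ℝ) ^ (-(1 / 3) : ℝ)) :=
      mul_le_mul_of_nonneg_left e1 (by positivity)
    have e4 : (R j : ℝ) ^ (-(2 / 3) : ℝ) * (R j : ℝ) ^ (-(1 / 3) : ℝ) ≤
        ε / (2 * B) * (R j : ℝ) ^ (-(1 / 3) : ℝ) := mul_le_mul_of_nonneg_right h3.le hq.le
    have e5 : (Dm * C3 + N0 * (Dn * C3)) * ((R j : ℝ) ^ (-(2 / 3) : ℝ) * (R j : ℝ) ^ (-(1 / 3) : ℝ)) ≤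
        B * (ε / (2 * B) * (R j : ℝ) ^ (-(1 / 3) : ℝ)) :=
      mul_le_mul (by rw [hB]; linarith) e4 (by positivity) hB0.le
    have e6 : B * (ε / (2 * B) * (R j : ℝ) ^ (-(1 / 3) : ℝ)) = ε / 2 * (R j : ℝ) ^ (-(1 / 3) : ℝ) := by
      field_simp
    rw [e6] at e5
    linarith

end Pool.Agent.H44.FM.Br
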