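import Mathlib
import Pool.Agent.H44.FM.Chain
import Pool.Agent.H87.FM.LimOK
import Pool.Agent.H5.FM.WinOf
import Pool.Agent.Q1.M6e.ApWin
import Pool.Agent.Q1.M6b.ABWall
import Pool.Agent.H74.Win.Ring

set_option autoImplicit false
open Filter Topology Set

/-! # Linked points: from the domain to the tiles of the window

`wv p c v` : the point `v` of the frame of the shape in the frame of the world `p` of the window, `c` : shift
of the rows. -/

namespace Pool.Agent.H44.FM.Wi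

open Pool.Agent.Q1.M4 (lat Om Reg Cell PType)
open Pool.Agent.H44.FM.WG (RL RBox)
open Pool.Agent.Q1.M6e (Lk)
open Pool.Agent.H87.FM (gx)
open Pool.Agent.H33.Q1 (TL lt mem_TL tt_lt lt_odd)
open Pool.Agent.H46.Sp (Win)
open Pool.Agent.H74.Win (InP sh)
open Pool.Agent.H5.FM (RowF winOf tl_win)
open Pool.Agent.H21.FM (Shape)
open Pool.Agent.Q1.M6b.ABW (Lnk)

/-- window coordinates -/
def wv (p : Bool) (c : ℤ) (v : ℤ × ℤ) : ℤ × ℤ := (v.1, v.2 - c - sh p)

variable {Q : Finset Cell} {N : ℕ} {η : ℝ} {u v : ℤ × ℤ}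

/-- the centre of a tile -/
lemma centre_mem {x y : ℤ} (hN : 1 ≤ N) (h : (⟨((x : ℝ) + 1 / 2) / N, ((y : ℝ) + 1 / 2) / N⟩ : ℂ) ∈
    Om Q gx gx) : lt (x, y) ∈ TL Q N := by
  have hNr : (0 : ℝ) < N := by exact_mod_cast hN
  have hNz : (0 : ℤ) < N := by exact_mod_cast hN
  obtain ⟨c, hc, ⟨h1, h2⟩, h3, h4⟩ := interior_subset h
  simp only [gx] at h1 h2 h3 h4
  rw [mem_TL hNz, tt_lt]
  have h5 := lt_odd (x, y)
  refine ⟨h5, ?_⟩
  have key : ∀ (k t : ℤ), (k : ℝ) ≤ ((t : ℝ) + 1 / 2) / N → ((t : ℝ) + 1 / 2) / N ≤ ((k + 1 : ℤ) : ℝ) →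
      t / N = k := by
    intro k t a b
    rw [le_div_iff₀ hNr] at a
    rw [div_le_iff₀ hNr] at b
    have a' : ((k * N : ℤ) : ℝ) < ((t + 1 : ℤ) : ℝ) := by push_cast; linarith
    have b' : ((t : ℤ) : ℝ) < (((k + 1) * N : ℤ) : ℝ) := by push_cast at b ⊢; linarith
    have a'' : k * N < t + 1 := by exact_mod_cast a'
    have b'' : t < (k + 1) * N := by exact_mod_cast b'
    have : t / (N : ℤ) < k + 1 := (Int.ediv_lt_iff_lt_mul hNz).2 b''
    have : k ≤ t / (N : ℤ) := (Int.le_ediv_iff_mul_le hNz).2 (by omega)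
    omega
  have e1 := key c.1 x h1 h2
  have e2 := key c.2 y h3 h4
  unfold Pool.Agent.H33.Q1.ct
  simp only
  rw [e1, e2]
  exact hc

/-- **Linked points of the domain are linked points of the tiles.** -/
theorem lk_of_RL (hN : 1 ≤ N) (h : RL (Om Q gx gx) η (lat u / ((N : ℝ) : ℂ)) (lat v / ((N : ℝ) : ℂ))) :
    Lk (fun x y => lt (x, y) ∈ TL Q N) (η * N) u v := by
  have hNr : (0 : ℝ) < N := by exact_mod_cast hN
  intro x y h1 h2 h3 h4
  refine centre_mem hN (h ?_)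
  have r1 : (lat u / ((N : ℝ) : ℂ)).re = u.1 / N := by
    rw [Complex.div_ofReal_re]; rfl
  have r2 : (lat v / ((N : ℝ) : ℂ)).re = v.1 / N := by
    rw [Complex.div_ofReal_re]; rfl
  have r3 : (lat u / ((N : ℝ) : ℂ)).im = u.2 / N := by
    rw [Complex.div_ofReal_im]; rfl
  have r4 : (lat v / ((N : ℝ) : ℂ)).im = v.2 / N := by
    rw [Complex.div_ofReal_im]; rfl
  have lo : ∀ (a b x : ℤ), ((a : ℝ) - η * N ≤ x ∨ (b : ℝ) - η * N ≤ x) →
      min ((a : ℝ) / N) (b / N) - η ≤ ((x : ℝ) + 1 / 2) / N := by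
    intro a b x hx
    rcases hx with hx | hx
    · have : (a : ℝ) / N - η ≤ ((x : ℝ) + 1 / 2) / N := by
        rw [le_div_iff₀ hNr, sub_mul, div_mul_cancel₀ _ hNr.ne']
        linarith
      linarith [min_le_left ((a : ℝ) / N) (b / N)]
    · have : (b : ℝ) / N - η ≤ ((x : ℝ) + 1 / 2) / N := by
        rw [le_div_iff₀ hNr, sub_mul, div_mul_cancel₀ _ hNr.ne']
        linarith
      linarith [min_le_right ((a : ℝ) / N) (b / N)]
  have up : ∀ (a b x : ℤ), ((x : ℝ) + 1 ≤ a + η * N ∨ (x : ℝ) + 1 ≤ b + η * N) →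
      ((x : ℝ) + 1 / 2) / N ≤ max ((a : ℝ) / N) (b / N) + η := by
    intro a b x hx
    rcases hx with hx | hx
    · have : ((x : ℝ) + 1 / 2) / N ≤ (a : ℝ) / N + η := by
        rw [div_le_iff₀ hNr, add_mul, div_mul_cancel₀ _ hNr.ne']
        linarith
      linarith [le_max_left ((a : ℝ) / N) (b / N)]
    · have : ((x : ℝ) + 1 / 2) / N ≤ (b : ℝ) / N + η := by
        rw [div_le_iff₀ hNr, add_mul, div_mul_cancel₀ _ hNr.ne']
        linarith
      linarith [le_max_right ((a : ℝ) / N) (b / N)]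
  refine ⟨?_, ?_, ?_, ?_⟩
  · rw [r1, r2]; exact lo _ _ _ h1
  · rw [r1, r2]; exact up _ _ _ h2
  · rw [r3, r4]; exact lo _ _ _ h3
  · rw [r3, r4]; exact up _ _ _ h4

/-- translation -/
lemma Lk.shift {T : ℤ → ℤ → Prop} {d : ℝ} (h : Lk T d u v) (c : ℤ) :
    Lk (fun x y => T x (y + c)) d (u.1, u.2 - c) (v.1, v.2 - c) := by
  intro x y h1 h2 h3 h4
  refine h x (y + c) h1 h2 ?_ ?_
  · push_cast at h3 ⊢
    rcases h3 with h3 | h3
    · left; linarith
    · right; linarith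
  · push_cast at h4 ⊢
    rcases h4 with h4 | h4
    · left; linarith
    · right; linarith

section

variable {S : Shape} {y0 y1 : ℤ} {a b : ℤ → ℤ} {yP yQ : ℤ} (F : RowF S.P.Q y0 y1 a b yP yQ)
  {n : ℕ} (hn : 1 ≤ n)

/-- **Linked points of the domain are linked points of the window**, both worlds. -/
theorem lk_win (p : Bool) (h : RL (Om S.P.Q gx gx) η (lat u / (((2 * n : ℕ) : ℝ) : ℂ))
    (lat v / (((2 * n : ℕ) : ℝ) : ℂ))) : Lk (InP (winOf F n hn) p) (η * ((2 * n : ℕ) : ℝ))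
      (wv p (2 * n * y0) u) (wv p (2 * n * y0) v) := by
  have h1 := lk_of_RL (by omega) h
  have h2 := Lk.shift h1 (2 * n * y0 + sh p)
  have e : ∀ w : ℤ × ℤ, ((w.1, w.2 - (2 * n * y0 + sh p)) : ℤ × ℤ) = wv p (2 * n * y0) w := by
    intro w; unfold wv; rw [sub_sub]
  rw [e, e] at h2
  refine Pool.Agent.Q1.M6e.Lk.imp h2 fun x y hxy => ?_
  have hxy' : lt (x, y + sh p + 2 * n * y0) ∈ TL S.P.Q (2 * n) := by
    have e2 : y + (2 * (n : ℤ) * y0 + sh p) = y + sh p + 2 * n * y0 := by ring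
    simp only [e2] at hxy
    push_cast at hxy
    exact hxy
  exact tl_win F hn hxy'

/-- the world `false`, helper56's form -/
theorem lnk_of_lk {D : Win} {d : ℝ} {p q : ℤ × ℤ} (h : Lk (InP D false) (d + 1) p q) : Lnk D d p q := by
  intro x y h1 h2 h3 h4
  have key : InP D false x y := by
    refine h x y ?_ ?_ ?_ ?_
    · rcases min_cases (p.1 : ℝ) q.1 with ⟨e, -⟩ | ⟨e, -⟩ <;> rw [e] at h1
      · left; linarith
      · right; linarith
    · rcases max_cases (p.1 : ℝ) q.1 with ⟨e, -⟩ | ⟨e, -⟩ <;> rw [e] at h2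
      · left; linarith
      · right; linarith
    · rcases min_cases (p.2 : ℝ) q.2 with ⟨e, -⟩ | ⟨e, -⟩ <;> rw [e] at h3
      · left; linarith
      · right; linarith
    · rcases max_cases (p.2 : ℝ) q.2 with ⟨e, -⟩ | ⟨e, -⟩ <;> rw [e] at h4
      · left; linarith
      · right; linarith
  unfold InP at key
  simpa using key

end

end Pool.Agent.H44.FM.Wi
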