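import Mathlib
import Pool.Agent.H44.FM.Wi1
import Pool.Agent.H44.FM.Br2
import Pool.Agent.H74.Win.S12

set_option autoImplicit false
open Filter Topology Set

/-! # Natural potentials and line potentials of a window

`HN O p s` : potential of the natural window `XN O p s`. `uN n` : rapidity `π / 2 + i log n`. `HL O p n` : line
potential (environment `0` for `p = false`, environment `h` for `p = true`). `NW`, `VW` : the same in the
coordinates of the shape, for a sequence of windows, `c j` : shift of the rows. -/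

namespace Pool.Agent.H44.FM.Wi

open Pool.Agent.Q1 Pool.Agent.H33.Q1 Pool.Agent.H74.R45
open Pool.Agent.Q1.M4 (lat Om Reg Cell PType)
open Pool.Agent.H44.FM.WG
open Pool.Agent.H44.FM.WG.Gr
open Pool.Agent.H44.FM.Br
open Pool.Agent.Q1.M6e (Lk)
open Pool.Agent.H46.Sp (Win)
open Pool.Agent.H46.Sp.Win (m_le_a b_le_M m_le_a' b_le_M' m_lt_M)
open Pool.Agent.H74.Win
open Pool.Agent.H64.Q1 (wa)
open Pool.Agent.Q1.M6b.ABW (PotT)

section one

variable {D : Win} (O : OutB D) (p : Bool) (s : Finset Gr) (n : ℕ)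

/-- **natural potential** -/
noncomputable def HN : ℤ → ℤ → ℂ :=
  (exists_potX (D := D) (p := p) (X := XN O p s) (EN_sub_EO (A := gA D p s))).choose

lemma potN_HN : PotN D p (XN O p s).inc (HN O p s) :=
  (exists_potX (D := D) (p := p) (X := XN O p s) (EN_sub_EO (A := gA D p s))).choose_spec

/-- rapidity of the line -/
noncomputable def uN : ℂ := ((Real.pi / 2 : ℝ) : ℂ) + ((Real.log n : ℝ) : ℂ) * Complex.I

lemma uN_im : (uN n).im = Real.log n := by
  unfold uN
  rw [Complex.add_im, Complex.ofReal_im, Complex.mul_im, Complex.ofReal_im, Complex.ofReal_re,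
    Complex.I_im, Complex.I_re]
  ring

lemma exists_potT (a b c : ℂ) : ∃ H, PotT O.out p a b c H := by
  unfold PotT
  cases p
  · simpa using exists_potL O.out a b c
  · simpa using exists_potU O.out a b c

/-- **line potential** -/
noncomputable def HL : ℤ → ℤ → ℂ :=
  (exists_potT O p (wa (uN n)) (wa (uN n + Real.pi / 2)) (wa (uN n - Real.pi / 2))).choose

lemma potT_HL : PotT O.out p (wa (uN n)) (wa (uN n + Real.pi / 2)) (wa (uN n - Real.pi / 2))
    (HL O p n) :=
  (exists_potT O p (wa (uN n)) (wa (uN n + Real.pi / 2)) (wa (uN n - Real.pi / 2))).choose_spec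

end one

section seq

variable (D : ℕ → Win) (O : ∀ j, OutB (D j)) (c : ℕ → ℤ)

/-- **natural potentials of a sequence of windows** -/
noncomputable def NW (p : Bool) (s : Finset Gr) (j : ℕ) (v : ℤ × ℤ) : ℂ :=
  HN (O j) p s (wv p (c j) v).1 (wv p (c j) v).2

/-- **line potentials of a sequence of windows** -/
noncomputable def VW (p : Bool) (j n : ℕ) (v : ℤ × ℤ) : ℂ :=
  HL (O j) p n (wv p (c j) v).1 (wv p (c j) v).2

end seq

/-! ### Bounded steps -/

section step

variable {D : Win} {F : ℤ × ℤ → ℂ} {H : ℤ → ℤ → ℂ} {p : Bool} {C : ℝ} {x y : ℤ}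

lemma norm_sg (z : ℤ) : ‖(sg z : ℂ)‖ = 1 := by
  unfold sg
  split_ifs <;> simp

/-- one step to the right -/
lemma potN_hor (hH : PotN D p F H) (hF : ∀ z, ‖F z‖ ≤ C) (h : InP D p x y) :
    ‖H x y - H (x + 1) y‖ ≤ C := by
  obtain ⟨h1, h2, h3, h4⟩ := h
  have k1 := m_le_a' (D := D) (y := y + sh p - 1) (by omega)
  have k2 := b_le_M' (D := D) (y := y + sh p - 1) (by omega)
  rw [sub_add_cancel] at k1 k2
  have := hH.hor x y (by omega) (by omega) (by show D.m (y + sh p - 1) ≤ x; omega)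
    (by show x < D.M (y + sh p - 1); omega)
  rw [← this, norm_mul, norm_sg, one_mul]
  exact hF _

/-- one step up -/
lemma potN_ver (hH : PotN D p F H) (hF : ∀ z, ‖F z‖ ≤ C) (h : InP D p x y) :
    ‖H x y - H x (y + 1)‖ ≤ C := by
  obtain ⟨h1, h2, h3, h4⟩ := h
  have := hH.ver x y (by omega) (by omega) h3 h4.le
  rw [← this, norm_mul, norm_sg, one_mul]
  exact hF _

/-- neighbours (also diagonal) -/
lemma potN_nb (hH : PotN D p F H) (hF : ∀ z, ‖F z‖ ≤ C) {v d : ℤ × ℤ} (h1 : |d.1| ≤ 1)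
    (h2 : |d.2| ≤ 1) (h : ∀ x y, |x - v.1| ≤ 2 → |y - v.2| ≤ 2 → InP D p x y) :
    ‖H (v.1 + d.1) (v.2 + d.2) - H v.1 v.2‖ ≤ 2 * C := by
  have hC : 0 ≤ C := (norm_nonneg _).trans (hF 0)
  rw [abs_le] at h1 h2
  have hx : ‖H (v.1 + d.1) v.2 - H v.1 v.2‖ ≤ C := by
    rcases (by omega : d.1 = -1 ∨ d.1 = 0 ∨ d.1 = 1) with e | e | e
    · rw [e]
      have := potN_hor hH hF (h (v.1 + -1) v.2 (by rw [abs_le]; omega) (by rw [abs_le]; omega))
      rwa [show v.1 + -1 + 1 = v.1 by ring] at this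
    · rw [e, add_zero, sub_self, norm_zero]; exact hC
    · rw [e, norm_sub_rev]
      exact potN_hor hH hF (h v.1 v.2 (by rw [abs_le]; omega) (by rw [abs_le]; omega))
  have hy : ‖H (v.1 + d.1) (v.2 + d.2) - H (v.1 + d.1) v.2‖ ≤ C := by
    rcases (by omega : d.2 = -1 ∨ d.2 = 0 ∨ d.2 = 1) with e | e | e
    · rw [e]
      have := potN_ver hH hF (h (v.1 + d.1) (v.2 + -1) (by rw [abs_le]; omega) (by rw [abs_le]; omega))
      rwa [show v.2 + -1 + 1 = v.2 by ring] at this
    · rw [e, add_zero, sub_self, norm_zero]; exact hC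
    · rw [e, norm_sub_rev]
      exact potN_ver hH hF (h (v.1 + d.1) v.2 (by rw [abs_le]; omega) (by rw [abs_le]; omega))
  have e : H (v.1 + d.1) (v.2 + d.2) - H v.1 v.2 = (H (v.1 + d.1) (v.2 + d.2) - H (v.1 + d.1) v.2) +
      (H (v.1 + d.1) v.2 - H v.1 v.2) := by ring
  rw [e]
  refine (norm_add_le _ _).trans ?_
  linarith

end step

end Pool.Agent.H44.FM.Wi
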