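import Mathlib
import Pool.Agent.H44.FM.Wi2
import Pool.Agent.Q1.M6e.ApRect

set_option autoImplicit false
open Filter Topology Set

/-! # Sequences of windows: the fields `edge` and `ab`

`SeqL` : linked points of `Ω` are linked points of the windows. `DW F j`, `cW` : the windows of a shape.
`SW F O` : the class of these windows with their outsides. -/

namespace Pool.Agent.H44.FM.Wi

open Pool.Agent.Q1 Pool.Agent.H33.Q1 Pool.Agent.H74.R45
open Pool.Agent.Q1.M4 (lat Om Reg Cell PType)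
open Pool.Agent.Q1.M6f.Glue (Ev uu rr)
open Pool.Agent.H44.FM.WG
open Pool.Agent.H44.FM.Br
open Pool.Agent.H87.FM (gx)
open Pool.Agent.Q1.M6e (Lk)
open Pool.Agent.H46.Sp (Win Out)
open Pool.Agent.H74.Win
open Pool.Agent.H64.Q1 (wa)
open Pool.Agent.Q1.M6b.ABW (PotT ABA Ch Lnk)
open Pool.Agent.H5.FM (RowF winOf tl_win)
open Pool.Agent.H21.FM (Shape)

section seq

variable {D : ℕ → Win} {O : ∀ j, OutB (D j)} {c : ℕ → ℤ} {R : ℕ → ℕ} {F : Filter ℕ} {Ω : Set ℂ}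

/-- linked points of `Ω` are linked points of the windows -/
def SeqL (R : ℕ → ℕ) (F : Filter ℕ) (Ω : Set ℂ) (D : ℕ → Win) (c : ℕ → ℤ) : Prop :=
  ∀ᶠ j in F, ∀ η : ℝ, ∀ u v : ℤ × ℤ, RL Ω η (lat u / ((R j : ℝ) : ℂ)) (lat v / ((R j : ℝ) : ℂ)) →
    ∀ p : Bool, Lk (InP (D j) p) (η * (R j : ℝ)) (wv p (c j) u) (wv p (c j) v)

/-- the box around a linked point -/
lemma lk_box {T : ℤ → ℤ → Prop} {d : ℝ} {p q : ℤ × ℤ} (h : Lk T d p q) (hd : 4 ≤ d) :
    ∀ x y : ℤ, |x - p.1| ≤ 2 → |y - p.2| ≤ 2 → T x y := by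
  intro x y hx hy
  rw [abs_le] at hx hy
  refine h.int (n := 4) (by exact_mod_cast hd) ?_ ?_ ?_ ?_
  · have := min_le_left p.1 q.1; omega
  · have := le_max_left p.1 q.1; omega
  · have := min_le_left p.2 q.2; omega
  · have := le_max_left p.2 q.2; omega

/-- **Bounded steps.** -/
theorem edge_NW (hL : SeqL R F Ω D c) (hR : Tendsto R F atTop) (hΩ : IsOpen Ω) (p : Bool)
    (s : Finset Gr) : EdB (fun j => (R j : ℝ)) F Ω (NW D O c p s) := by
  intro K hK hKc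
  have hRr : Tendsto (fun j => (R j : ℝ)) F atTop := tendsto_natCast_atTop_atTop.comp hR
  obtain ⟨η, hη, h⟩ := RL_adj hRr hΩ hK hKc
  refine ⟨2 * 1, ?_⟩
  filter_upwards [h, hL, hRr.eventually_ge_atTop (4 / η)] with j h1 h2 h3 v hv d hd1 hd2
  have k1 := h1 v 0 (by simp) (by simp) hv
  have k2 := h2 η _ _ k1 p
  have h4 : 4 ≤ η * (R j : ℝ) := by
    rw [div_le_iff₀ hη] at h3; linarith
  have k3 := lk_box k2 h4
  have e : NW D O c p s j (v + d) = HN (O j) p s ((wv p (c j) v).1 + d.1) ((wv p (c j) v).2 + d.2) := by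
    unfold NW wv
    simp only [Prod.fst_add, Prod.snd_add]
    congr 1
    ring
  rw [e]
  exact potN_nb (potN_HN (O j) p s) (fun z => Env.inc_norm_le_one _ z) hd1 hd2 k3

/-- **Chapters A and B.** -/
theorem ab_VW (hL : SeqL R F Ω D c) (hR : Tendsto R F atTop)
    {S : ℕ → Set (Σ D : Win, Out D)} (hS : ∀ᶠ j in F, (⟨D j, (O j).out⟩ : Σ D : Win, Out D) ∈ S (R j))
    (hA : ∀ η > 0, ABA S η) : ∀ η > 0, ∀ ρ : ℝ, 0 < ρ → ∀ ε > 0, ∀ᶠ j in F, ∀ u v : ℤ × ℤ, Ev u → Ev v →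
    RL Ω η (lat u / ((R j : ℝ) : ℂ)) (lat v / ((R j : ℝ) : ℂ)) →
    ‖(VW D O c false j ⌊ρ * (R j : ℝ)⌋₊ u - VW D O c false j ⌊ρ * (R j : ℝ)⌋₊ v) -
      (VW D O c true j ⌊ρ * (R j : ℝ)⌋₊ u - VW D O c true j ⌊ρ * (R j : ℝ)⌋₊ v)‖ ≤
      ε * (R j : ℝ) ^ (2 / 3 : ℝ) := by
  intro η hη ρ hρ ε hε
  obtain ⟨R0, h0⟩ := hA (η / 2) (by positivity) 0 ρ hρ ε hε
  have hRr : Tendsto (fun j => (R j : ℝ)) F atTop := tendsto_natCast_atTop_atTop.comp hR
  filter_upwards [hL, hS, hR.eventually_ge_atTop R0, hRr.eventually_ge_atTop (2 / η)]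
    with j h1 h2 h3 h4 u v _ _ huv
  have k1 := h1 η u v huv false
  have h5 : η / 2 * (R j : ℝ) + 1 ≤ η * (R j : ℝ) := by
    rw [div_le_iff₀ hη] at h4; linarith
  have k2 : Lnk (D j) (η / 2 * (R j : ℝ)) (wv false (c j) u) (wv false (c j) v) :=
    lnk_of_lk (Pool.Agent.Q1.M6e.Lk.mono k1 h5)
  have k3 : Ch (D j) (η / 2 * (R j : ℝ)) 0 (wv false (c j) u) (wv false (c j) v) := by
    refine ⟨fun i => if i = 0 then wv false (c j) u else wv false (c j) v, rfl, rfl, fun i hi => ?_⟩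
    have : i = 0 := by omega
    subst this
    exact k2
  have k4 := h0 (R j) h3 _ h2 (uN ⌊ρ * (R j : ℝ)⌋₊) (by rw [uN_im, sub_self, abs_zero]; norm_num)
    (HL (O j) false ⌊ρ * (R j : ℝ)⌋₊) (HL (O j) true ⌊ρ * (R j : ℝ)⌋₊) (potT_HL _ _ _)
    (potT_HL _ _ _) _ _ k3
  have e : ∀ w : ℤ × ℤ, VW D O c true j ⌊ρ * (R j : ℝ)⌋₊ w =
      HL (O j) true ⌊ρ * (R j : ℝ)⌋₊ (wv false (c j) w).1 ((wv false (c j) w).2 - 1) := by
    intro w
    unfold VW wv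
    simp only [sh_false, sh_true, sub_zero]
  have e2 : ∀ w : ℤ × ℤ, VW D O c false j ⌊ρ * (R j : ℝ)⌋₊ w =
      HL (O j) false ⌊ρ * (R j : ℝ)⌋₊ (wv false (c j) w).1 (wv false (c j) w).2 := fun w => rfl
  rw [e, e, e2, e2]
  refine le_trans (le_of_eq ?_) k4
  congr 1
  ring

end seq

section shape

variable {S : Shape} {y0 y1 : ℤ} {a b : ℤ → ℤ} {yP yQ : ℤ} (F : RowF S.P.Q y0 y1 a b yP yQ)

/-- half the side of the cells, at least `30` -/
def nj (j : ℕ) : ℕ := max j 30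

lemma nj_eq {j : ℕ} (h : 30 ≤ j) : nj j = j := by unfold nj; omega

lemma nj_ge (j : ℕ) : 30 ≤ nj j := by unfold nj; omega

/-- **the windows of a shape** -/
noncomputable def DW (j : ℕ) : Win := winOf F (nj j) (by unfold nj; omega)

/-- shift of the rows -/
def cW (y0 : ℤ) (j : ℕ) : ℤ := 2 * (nj j : ℕ) * y0

/-- the class of the windows of a shape -/
def SW (O : ∀ j, OutB (DW F j)) (r : ℕ) : Set (Σ D : Win, Out D) :=
  {v | ∃ j, 30 ≤ j ∧ r = 2 * j ∧ v = ⟨DW F j, (O j).out⟩}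

/-- **The windows of a shape: linked points.** -/
theorem seqL_DW : SeqL (fun j => 2 * j) atTop (Om S.P.Q gx gx) (DW F) (cW y0) := by
  filter_upwards [eventually_ge_atTop 30] with j hj η u v h p
  have e := nj_eq hj
  have h1 := lk_win F (n := nj j) (by unfold nj; omega) (η := η) (u := u) (v := v) p (by rw [e]; exact h)
  have e2 : ((2 * nj j : ℕ) : ℝ) = ((2 * j : ℕ) : ℝ) := by rw [e]
  rw [e2] at h1
  exact h1

end shape

end Pool.Agent.H44.FM.Wi
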