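import Mathlib
import Pool.Agent.H44.FM.Wi2
import Pool.Agent.H31.Sp.Dat
import Pool.Agent.H13.Sp.Bridge
import Pool.Agent.H30.Sp.LineE
import Pool.Agent.H40.Sp.MCor

set_option autoImplicit false
open Filter Topology Set

/-! # The cases of the windows

`gE YP YQ w` : group of a unit edge. `caseD` : the tied natural window with frozen tiles `S` and the L-shaped
path from `a` to `b`. `caseG` : the same with the groups. `TotG` : the totals of `caseD` as sums of weighted
increments (statement). -/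

namespace Pool.Agent.H44.FM.Wi

open Pool.Agent.Q1 Pool.Agent.H33.Q1 Pool.Agent.H74.R45
open Pool.Agent.H44.FM.WG
open Pool.Agent.H44.FM.WG.Gr
open Pool.Agent.H44.FM.Br
open Pool.Agent.Q1.M6e (Lk LC La)
open Pool.Agent.Q1.M6e.Wn (CaseW wS sz swn)
open Pool.Agent.H46.Sp (Win)
open Pool.Agent.H74.Win
open Pool.Agent.H42.Sp (Sd Ix)
open Pool.Agent.H31.Sp (CoarseC Kp datD EdF)
open Pool.Agent.H13.Sp (colp FR)

/-- group of a unit edge, `YP`, `YQ` : the rows of the marks -/
def gE (YP YQ : ℤ) : Sd × ℤ × ℤ → Gr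
  | (.L, _, Y) => if Y < YP then ll else lu
  | (.R, _, Y) => if Y < YQ then rl else ru
  | (.F, _, _) => fo
  | (.C, _, _) => ce

section

variable {D : Win} (O : OutB D) (n H : ℤ) (A B : ℤ → ℤ) (YP YQ : ℤ) (p : Bool) (s0 L m : ℤ)
  (S : Finset (ℤ × ℤ)) (hS : S ⊆ FR D p) (w0 : Kp H A B) (a b : ℤ × ℤ)

/-- **The tied natural window with the path from `a` to `b`.** -/
noncomputable def caseD : CaseW where
  ι := ℤ
  κ := Kp H A B
  d := datD O n H A B p s0 L m S hS w0
  Cs := LC a.1 a.2 b.1 b.2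
  a := La a.1 a.2 b.1 b.2

open Classical in
/-- **The same with the groups of the walls.** -/
noncomputable def caseG : CaseG where
  x := caseD O n H A B p s0 L m S hS w0 a b
  wg := fun g => (Finset.univ : Finset (Kp H A B)).filter fun w => gE YP YQ w.1 = g
  dj := fun g g' hne => by
    rw [Finset.disjoint_left]
    intro w h1 h2
    exact hne ((Finset.mem_filter.1 h1).2.symm.trans (Finset.mem_filter.1 h2).2)

end

section gen

variable {y : CaseG} {gr : y.x.κ → Gr}

lemma ws_iff (h : ∀ g w, w ∈ y.wg g ↔ gr w = g) {s : Finset Gr} {w : y.x.κ} :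
    w ∈ y.ws s ↔ gr w ∈ s := by
  classical
  unfold CaseG.ws
  rw [Finset.mem_biUnion]
  constructor
  · rintro ⟨g, hg, hw⟩
    rw [h] at hw
    rw [hw]; exact hg
  · exact fun h' => ⟨_, h', (h _ _).2 rfl⟩

open Classical in
/-- weights of the groups pushed out -/
noncomputable def tW (s : Finset Gr) (g : Gr) : ℂ := if g ∈ s then 1 / 4 else 0

open Classical in
/-- weights of the line in the world `p` -/
noncomputable def tL (p : Bool) (N : ℕ) (g : Gr) : ℂ := if g ∈ arcG p then swn N (hd g) else 0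

lemma wS_gr (h : ∀ g w, w ∈ y.wg g ↔ gr w = g) (s : Finset Gr) :
    wS (y.ws s) = fun w => tW s (gr w) := by
  classical
  funext w
  unfold wS tW
  by_cases h' : gr w ∈ s
  · rw [if_pos ((ws_iff h).2 h'), if_pos h']
  · rw [if_neg (fun h2 => h' ((ws_iff h).1 h2)), if_neg h']

lemma sz_gr (h : ∀ g w, w ∈ y.wg g ↔ gr w = g) (p : Bool) (N : ℕ) :
    sz (y.ws (arcG p)) N y.hz = fun w => tL p N (gr w) := by
  classical
  funext w
  unfold sz tL
  by_cases h' : gr w ∈ arcG p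
  · rw [if_pos ((ws_iff h).2 h'), if_pos h', CaseG.hz_of ((h _ _).2 rfl)]
  · rw [if_neg (fun h2 => h' ((ws_iff h).1 h2)), if_neg h']

end gen

section

variable {D : Win} {O : OutB D} {n H : ℤ} {A B : ℤ → ℤ} {YP YQ : ℤ} {p : Bool} {s0 L m : ℤ}
  {S : Finset (ℤ × ℤ)} {hS : S ⊆ FR D p} {w0 : Kp H A B} {a b : ℤ × ℤ}

lemma wg_iff (g : Gr) (w : (caseG O n H A B YP YQ p s0 L m S hS w0 a b).x.κ) :
    w ∈ (caseG O n H A B YP YQ p s0 L m S hS w0 a b).wg g ↔
      (fun w : Kp H A B => gE YP YQ w.1) w = g :=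
  Finset.mem_filter.trans ⟨fun h => h.2, fun h => ⟨Finset.mem_univ _, h⟩⟩

/-- the natural weights -/
theorem tot_ws (s : Finset Gr) : (caseG O n H A B YP YQ p s0 L m S hS w0 a b).x.tot
    (wS ((caseG O n H A B YP YQ p s0 L m S hS w0 a b).ws s)) =
      (caseD O n H A B p s0 L m S hS w0 a b).tot (fun w : Kp H A B => tW s (gE YP YQ w.1)) := by
  rw [wS_gr wg_iff]
  rfl

/-- the weights of the line -/
theorem tot_sz (N : ℕ) : (caseG O n H A B YP YQ p s0 L m S hS w0 a b).x.tot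
    (sz ((caseG O n H A B YP YQ p s0 L m S hS w0 a b).ws (arcG p)) N
      (caseG O n H A B YP YQ p s0 L m S hS w0 a b).hz) =
      (caseD O n H A B p s0 L m S hS w0 a b).tot (fun w : Kp H A B => tL p N (gE YP YQ w.1)) := by
  rw [sz_gr wg_iff]
  rfl

end

/-- **The totals as sums of weighted increments** (for every weight `t` of the groups). -/
def TotG : Prop := ∀ {D : Win} (O : OutB D) {n H : ℤ} {A B : ℤ → ℤ} {YP YQ : ℤ} {CL CR : ℤ → Bool},
  CoarseC D n H A B YP YQ CL CR → 30 ≤ n → ∀ (p : Bool) (s0 L m : ℤ),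
  colp D (s0 - 1) ≠ colp D s0 → ∀ (S : Finset (ℤ × ℤ)) (hS : S ⊆ FR D p) (w0 : Kp H A B)
  (a b : ℤ × ℤ) (t : Gr → ℂ),
  (caseD O n H A B p s0 L m S hS w0 a b).tot (fun w : Kp H A B => t (gE YP YQ w.1)) =
    ∑ z ∈ LC a.1 a.2 b.1 b.2, La a.1 a.2 b.1 b.2 z *
      (Pool.Agent.H13.Sp.XA O p S hS).incW (qs D p (fun k => t (grp D p k))) z

end Pool.Agent.H44.FM.Wi
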