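import Mathlib
import Pool.Agent.H44.FM.Wi3
import Pool.Agent.H44.FM.Wi4

set_option autoImplicit false
open Filter Topology Set

/-! # The totals of the natural windows

`potN_rect` : restriction of a natural potential to the rectangle of linked points. `sumN_lk` : the sum along
the path. `tot_nat` : the total of `caseD` at the natural weights is a potential difference of `XO`. -/

namespace Pool.Agent.H44.FM.Wi

open Pool.Agent.Q1 Pool.Agent.H33.Q1 Pool.Agent.H74.R45
open Pool.Agent.H44.FM.WG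
open Pool.Agent.H44.FM.Br
open Pool.Agent.Q1.M6e (Lk LC La LC_sum potW_rect)
open Pool.Agent.Q1.M6e.Wn (CaseW wS sz swn)
open Pool.Agent.H46.Sp (Win)
open Pool.Agent.H46.Sp.Win (m_le_a b_le_M m_le_a' b_le_M' m_lt_M)
open Pool.Agent.H74.Win
open Pool.Agent.H42.Sp (Sd Ix)
open Pool.Agent.H31.Sp (CoarseC Kp datD EdF)
open Pool.Agent.H13.Sp (colp FR)
open Pool.Agent.H13.R45 (Ag)

section

variable {D : Win} {p : Bool} {F : ℤ × ℤ → ℂ} {H : ℤ → ℤ → ℂ} {a b : ℤ × ℤ}

/-- the natural potential on the rectangle of linked points -/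
theorem potN_rect (hP : PotN D p F H) {n : ℤ} (hn : 0 ≤ n) (hL : Lk (InP D p) ((n : ℝ) + 1) a b) :
    Pot F H (min a.1 b.1 - n) (max a.1 b.1 + n) (min a.2 b.2 - n) (max a.2 b.2 + n) := by
  have hn1 : ((n + 1 : ℤ) : ℝ) ≤ (n : ℝ) + 1 := by push_cast; exact le_rfl
  have key : ∀ x y, min a.1 b.1 - n - 1 ≤ x → x ≤ max a.1 b.1 + n → min a.2 b.2 - n - 1 ≤ y →
      y ≤ max a.2 b.2 + n → InP D p x y := fun x y e1 e2 e3 e4 =>
    hL.int hn1 (by omega) (by omega) (by omega) (by omega)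
  have g1 := key (min a.1 b.1 - n - 1) (min a.2 b.2 - n - 1) le_rfl (by omega) le_rfl (by omega)
  have g2 := key (min a.1 b.1 - n - 1) (max a.2 b.2 + n) le_rfl (by omega) (by omega) le_rfl
  refine potW_rect hP (by have := g1.1; omega) (by have := g2.2.1; omega) (fun y e1 e2 => ?_)
    (fun y e1 e2 => ?_)
  · obtain ⟨-, -, u3, -⟩ := key (min a.1 b.1 - n - 1) y le_rfl (by omega) (by omega) (by omega)
    obtain ⟨u0, u1, -, u4⟩ := key (max a.1 b.1 + n) y (by omega) le_rfl (by omega) (by omega)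
    have k1 := m_le_a' (D := D) (y := y + sh p - 1) (by omega)
    have k2 := b_le_M' (D := D) (y := y + sh p - 1) (by omega)
    rw [sub_add_cancel] at k1 k2
    show D.m (y + sh p - 1) ≤ _ ∧ _ ≤ D.M (y + sh p - 1)
    omega
  · obtain ⟨-, -, u3, -⟩ := key (min a.1 b.1 - n - 1) y le_rfl (by omega) (by omega) (by omega)
    obtain ⟨-, -, -, u4⟩ := key (max a.1 b.1 + n) y (by omega) le_rfl (by omega) (by omega)
    show D.a (y + sh p) ≤ _ ∧ _ ≤ D.b (y + sh p)
    omega

/-- **The sum along the path of linked points.** -/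
theorem sumN_lk (hP : PotN D p F H) {d : ℝ} (hd : 1 ≤ d) (hL : Lk (InP D p) d a b) :
    ∑ c ∈ LC a.1 a.2 b.1 b.2, La a.1 a.2 b.1 b.2 c * F c = H a.1 a.2 - H b.1 b.2 := by
  have h := potN_rect hP le_rfl (hL.mono (d' := ((0 : ℤ) : ℝ) + 1) (by push_cast; linarith))
  exact LC_sum h (by omega) (by omega) (by omega) (by omega) (by omega) (by omega) (by omega)
    (by omega)

/-- the corners of the path are edges of tiles of `P^p` -/
lemma rc_path {d : ℝ} (hd : 1 ≤ d) (hL : Lk (InP D p) d a b) {z : ℤ × ℤ}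
    (hz : z ∈ LC a.1 a.2 b.1 b.2) : RC (EN D p) z := by
  have key := fun x y e1 e2 e3 e4 => hL.int (n := 1) (x := x) (y := y) (by exact_mod_cast hd) e1 e2 e3 e4
  rcases Pool.Agent.Q1.M6e.LC_sub (x0 := min a.1 b.1) (x1 := max a.1 b.1) (y0 := min a.2 b.2)
    (y1 := max a.2 b.2) (min_le_left _ _) (le_max_left _ _) (min_le_left _ _) (le_max_left _ _)
    (min_le_right _ _) (le_max_right _ _) (min_le_right _ _) (le_max_right _ _) hz with
    ⟨i, l, rfl, h1, h2, h3, h4⟩ | ⟨i, l, rfl, h1, h2, h3, h4⟩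
  · have k := key i l (by omega) (by omega) (by omega) (by omega)
    rcases Int.emod_two_eq_zero_or_one (i + l) with h | h
    · left; rw [lab_he_N h, mem_EN]; exact k
    · right; rw [plab_he_S h, mem_EN]; exact k
  · have k := key i l (by omega) (by omega) (by omega) (by omega)
    rcases Int.emod_two_eq_zero_or_one (i + l) with h | h
    · right; rw [plab_ve_W h, mem_EN]; exact k
    · left; rw [lab_ve_E h, mem_EN]; exact k

end

variable {D : Win} {O : OutB D} {n H : ℤ} {A B : ℤ → ℤ} {YP YQ : ℤ} {CL CR : ℤ → Bool} {p : Bool}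
  {s0 L m : ℤ} {S : Finset (ℤ × ℤ)} {hS : S ⊆ FR D p} {w0 : Kp H A B} {a b : ℤ × ℤ}

lemma tW_eq (s : Finset Gr) : (fun k => tW s (grp D p k)) = sA (gA D p s) := by
  classical
  funext k
  unfold tW sA gA
  by_cases h : grp D p k ∈ s
  · rw [if_pos h, if_pos h]
  · rw [if_neg h, if_neg h]

/-- **The total at the natural weights is a potential difference.** -/
theorem tot_nat (hT : TotG) (C : CoarseC D n H A B YP YQ CL CR) (hn : 30 ≤ n)
    (hcut : colp D (s0 - 1) ≠ colp D s0) (s : Finset Gr) {d : ℝ} (hd : 1 ≤ d)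
    (hL : Lk (InP D p) d a b) (hS' : S ⊆ FZ D p) {HX : ℤ → ℤ → ℂ}
    (hP : PotN D p (XO O p (gA D p s) S hS').inc HX) :
    (caseG O n H A B YP YQ p s0 L m S hS w0 a b).x.tot
      (wS ((caseG O n H A B YP YQ p s0 L m S hS w0 a b).ws s)) =
      HX a.1 a.2 - HX b.1 b.2 := by
  rw [tot_ws, hT O C hn p s0 L m hcut S hS w0 a b (tW s), ← sumN_lk hP hd hL]
  refine Finset.sum_congr rfl fun z hz => ?_
  congr 1
  rw [XO_XA (Pool.Agent.H30.Sp.tie_RC (rc_path hd hL hz)), Pool.Agent.H13.Sp.XA_eq, tW_eq]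

end Pool.Agent.H44.FM.Wi
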