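import Mathlib
import Pool.Agent.H44.FM.Wi5

set_option autoImplicit false
open Filter Topology Set

/-! # The field `pair` of a sequence of windows

`SeqC` : a sequence of coarse windows. `MemW`, `NatW`, `LinW`, `NbW` : membership of the cases in the class `P`,
natural windows with other frozen tiles, the line, neighbours. `pair_W` : the field `pair` of `BrW`. -/

namespace Pool.Agent.H44.FM.Wi

open Pool.Agent.Q1 Pool.Agent.H33.Q1 Pool.Agent.H74.R45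
open Pool.Agent.Q1.M4 (lat)
open Pool.Agent.H44.FM.WG (RL Gr)
open Pool.Agent.H44.FM.Br
open Pool.Agent.Q1.M6e (Lk LC La LC_sum potW_rect)
open Pool.Agent.Q1.M6e.Wn (CaseW wS sz swn)
open Pool.Agent.H46.Sp (Win)
open Pool.Agent.H74.Win
open Pool.Agent.H31.Sp (CoarseC Kp)
open Pool.Agent.H13.Sp (colp FR FR_eq FRt)
open Pool.Agent.H40.Sp (NatS)

/-- a sequence of coarse windows of the polyomino `H A B`, cells of side `R j` -/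
structure SeqC (R : ℕ → ℕ) (F : Filter ℕ) (D : ℕ → Win) (H : ℤ) (A B : ℤ → ℤ) (YP YQ : ℤ)
    (s0 : ℕ → ℤ) : Prop where
  co : ∀ᶠ j in F, ∃ CL CR : ℤ → Bool, CoarseC (D j) (R j) H A B YP YQ CL CR
  cut : ∀ᶠ j in F, colp (D j) (s0 j - 1) ≠ colp (D j) (s0 j)

variable {P : ℝ → ℕ → CaseW → Prop} {R : ℕ → ℕ} {F : Filter ℕ} {D : ℕ → Win} {H : ℤ} {A B : ℤ → ℤ}
  {YP YQ : ℤ} {s0 : ℕ → ℤ}

/-- the cases of the windows are in the class `P` -/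
def MemW (P : ℝ → ℕ → CaseW → Prop) (R : ℕ → ℕ) (F : Filter ℕ) {D : ℕ → Win} (O : ∀ j, OutB (D j))
    (s0 : ℕ → ℤ) {H : ℤ} {A B : ℤ → ℤ} (w0 : Kp H A B) : Prop :=
  ∀ η > 0, ∃ η' > 0, ∀ᶠ j in F, ∃ L m : ℤ, ∀ (p : Bool) (a b : ℤ × ℤ),
    Lk (InP (D j) p) (η * (R j : ℝ)) a b → ∀ (S : Finset (ℤ × ℤ)) (hS : S ⊆ FR (D j) p),
    NatS (D j) p S → P η' (R j) (caseD (O j) (R j) H A B p (s0 j) L m S hS w0 a b)

/-- natural windows with other frozen tiles -/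
def NatW (R : ℕ → ℕ) (F : Filter ℕ) {D : ℕ → Win} (O : ∀ j, OutB (D j)) : Prop :=
  ∀ η > 0, ∀ ε > 0, ∀ᶠ j in F, ∀ (p : Bool) (s : Finset Gr) (S : Finset (ℤ × ℤ)) (hS : S ⊆ FZ (D j) p)
    (a b : ℤ × ℤ) (HX : ℤ → ℤ → ℂ), Lk (InP (D j) p) (η * (R j : ℝ)) a b →
    PotN (D j) p (XO (O j) p (gA (D j) p s) S hS).inc HX →
    ‖(HX a.1 a.2 - HX b.1 b.2) - (HN (O j) p s a.1 a.2 - HN (O j) p s b.1 b.2)‖ ≤
      ε * (R j : ℝ) ^ (-(1 / 3) : ℝ)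

/-- the line potential is a mean of totals -/
def LinW (R : ℕ → ℕ) (F : Filter ℕ) {D : ℕ → Win} (O : ∀ j, OutB (D j)) (s0 : ℕ → ℤ) {H : ℤ}
    {A B : ℤ → ℤ} (YP YQ : ℤ) (w0 : Kp H A B) : Prop :=
  ∃ C : ℝ, ∀ᶠ j in F, ∀ (p : Bool) (L m : ℤ) (a b : ℤ × ℤ), Lk (InP (D j) p) 1 a b →
    ∀ N : ℕ, 1 ≤ N → ∀ (ζ : ℂ) (M : ℝ), (∀ (S : Finset (ℤ × ℤ)) (hS : S ⊆ FR (D j) p),
      NatS (D j) p S → ‖(caseD (O j) (R j) H A B p (s0 j) L m S hS w0 a b).tot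
        (fun w : Kp H A B => tL p N (gE YP YQ w.1)) - ζ‖ ≤ M) →
    ‖(HL (O j) p N a.1 a.2 - HL (O j) p N b.1 b.2) - ζ‖ ≤ C * M

/-- neighbours -/
def NbW (R : ℕ → ℕ) (F : Filter ℕ) {D : ℕ → Win} (O : ∀ j, OutB (D j)) (s0 : ℕ → ℤ) {H : ℤ}
    {A B : ℤ → ℤ} (w0 : Kp H A B) : Prop :=
  ∃ C : ℝ, ∀ᶠ j in F, ∀ (p : Bool) (L m : ℤ) (a b : ℤ × ℤ), |a.1 - b.1| ≤ 1 → |a.2 - b.2| ≤ 1 →
    ∀ (S : Finset (ℤ × ℤ)) (hS : S ⊆ FR (D j) p),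
      (caseD (O j) (R j) H A B p (s0 j) L m S hS w0 a b).d.HV
        (caseD (O j) (R j) H A B p (s0 j) L m S hS w0 a b).Cs
        (caseD (O j) (R j) H A B p (s0 j) L m S hS w0 a b).a C

/-- the naturally coloured frozen tiles -/
lemma natS_Snat {D : Win} {p : Bool} : NatS D p (Snat D p) := by
  intro x y h _
  unfold Snat
  rw [mem_TB]
  have h1 := Pool.Agent.H13.Sp.FRt_iff.1 h
  exact ⟨fun h2 => h2.2.2.2, fun h2 => ⟨h1.1.inB, h1.1, h1.2, h2⟩⟩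

/-- **The field `pair`.** -/
theorem pair_W (hT : TotG) {O : ∀ j, OutB (D j)} {c : ℕ → ℤ} {Ω : Set ℂ} (hR : Tendsto R F atTop)
    (hL : SeqL R F Ω D c) (hC : SeqC R F D H A B YP YQ s0) {w0 : Kp H A B}
    (hm : MemW P R F O s0 w0) (hn : NatW R F O) (hl : LinW R F O s0 YP YQ w0)
    (hb : NbW R F O s0 w0) : ∀ η > 0, ∃ η' > 0, ∃ C : ℝ, ∀ ε > 0, ∀ᶠ j in F, ∀ u v : ℤ × ℤ,
    RL Ω η (lat u / ((R j : ℝ) : ℂ)) (lat v / ((R j : ℝ) : ℂ)) → ∀ p : Bool,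
    ∃ (σ : Type) (y : σ → CaseG), PairD (P η' (R j)) C (ε * (R j : ℝ) ^ (-(1 / 3) : ℝ)) p
      (fun s => NW D O c p s j u - NW D O c p s j v) (fun n => VW D O c p j n u - VW D O c p j n v) y ∧
      (|u.1 - v.1| ≤ 1 → |u.2 - v.2| ≤ 1 → ∀ i, (y i).x.d.HV (y i).x.Cs (y i).x.a C) := by
  intro η hη
  obtain ⟨η', hη', hm⟩ := hm η hη
  obtain ⟨C1, hl⟩ := hl
  obtain ⟨C2, hb⟩ := hb
  refine ⟨η', hη', max C1 C2, fun ε hε => ?_⟩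
  have hRr : Tendsto (fun j => (R j : ℝ)) F atTop := tendsto_natCast_atTop_atTop.comp hR
  filter_upwards [hL, hC.co, hC.cut, hm, hn η hη ε hε, hl, hb, hR.eventually_ge_atTop 30,
    hRr.eventually_ge_atTop (1 / η)] with j a1 a2 a3 a4 a5 a6 a7 a8 a9 u v huv p
  obtain ⟨CL, CR, a2⟩ := a2
  obtain ⟨L, m, a4⟩ := a4
  have b1 := a1 η u v huv p
  have hη1 : 1 ≤ η * (R j : ℝ) := by
    rw [div_le_iff₀ hη] at a9; linarith
  have h30 : (30 : ℤ) ≤ (R j : ℤ) := by exact_mod_cast a8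
  refine ⟨{S : Finset (ℤ × ℤ) // S ⊆ FR (D j) p ∧ NatS (D j) p S}, fun S =>
    caseG (O j) (R j) H A B YP YQ p (s0 j) L m S.1 S.2.1 w0 (wv p (c j) u) (wv p (c j) v), ?_, ?_⟩
  · refine ⟨?_, ?_, ?_, ?_⟩
    · exact ⟨⟨Snat (D j) p, by rw [FR_eq]; exact Snat_sub, natS_Snat⟩⟩
    · intro S
      exact a4 p _ _ b1 S.1 S.2.1 S.2.2
    · intro S s
      have hS' : S.1 ⊆ FZ (D j) p := by rw [← FR_eq]; exact S.2.1
      obtain ⟨HX, hHX⟩ := exists_potX (D := D j) (p := p) (X := XO (O j) p (gA (D j) p s) S.1 hS')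
        (EN_sub_EO (A := gA (D j) p s))
      have k1 := tot_nat (O := O j) (m := m) (L := L) (hS := S.2.1) (w0 := w0) hT a2 h30 a3 s hη1 b1 hS' hHX
      rw [k1]
      exact a5 p s S.1 hS' _ _ HX b1 hHX
    · intro N hN ζ M hM
      refine (a6 p L m _ _ (b1.mono hη1) N hN ζ M fun S hS hS2 => ?_).trans ?_
      · have := hM ⟨S, hS, hS2⟩
        rwa [tot_sz] at this
      · have hM0 : 0 ≤ M := (norm_nonneg _).trans (hM ⟨Snat (D j) p, by rw [FR_eq]; exact Snat_sub,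
          natS_Snat⟩)
        exact mul_le_mul_of_nonneg_right (le_max_left _ _) hM0
  · intro h1 h2 S ω hω Q hQ
    refine (a7 p L m (wv p (c j) u) (wv p (c j) v) h1 (by
      unfold wv
      simp only
      rw [show u.2 - c j - sh p - (v.2 - c j - sh p) = u.2 - v.2 by ring]
      exact h2) S.1 S.2.1 ω hω Q hQ).trans (le_max_right _ _)

end Pool.Agent.H44.FM.Wi
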