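import Mathlib
import Pool.Agent.H44.FM.Wi6

set_option autoImplicit false
open Filter Topology Set

/-! # Sequences of windows: the comparison of the worlds, `BrW`

`smR_of_lk` : from linked pairs to compact sets. `S0W`, `S12W` : comparison of the natural windows of the two
worlds for linked points (inputs). `brW_of` : the structure `BrW`. -/

namespace Pool.Agent.H44.FM.Wi

open Pool.Agent.Q1 Pool.Agent.H33.Q1 Pool.Agent.H74.R45
open Pool.Agent.Q1.M4 (lat)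
open Pool.Agent.Q1.M6f.Glue (Ev uu rr)
open Pool.Agent.H44.FM.WG
open Pool.Agent.H44.FM.WG.Gr
open Pool.Agent.H44.FM.Br
open Pool.Agent.Q1.M6e (Lk)
open Pool.Agent.Q1.M6e.Wn (CaseW)
open Pool.Agent.H46.Sp (Win Out)
open Pool.Agent.H74.Win hiding gV gH
open Pool.Agent.H31.Sp (CoarseC Kp)
open Pool.Agent.Q1.M6b.ABW (ABA)

section

variable {R : ℕ → ℝ} {F : Filter ℕ} {Ω : Set ℂ} {A : ℕ → ℤ × ℤ → ℂ} {e : ℝ}

/-- **From linked pairs to compact sets.** -/
theorem smR_of_lk (hR : Tendsto R F atTop) (hΩ : IsOpen Ω) (hc : IsPreconnected Ω)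
    (h : ∀ η > 0, ∀ ε > 0, ∀ᶠ j in F, ∀ u v : ℤ × ℤ, RL Ω η (lat u / (R j : ℂ)) (lat v / (R j : ℂ)) →
      ‖A j u - A j v‖ ≤ ε * R j ^ e) : SmR R F Ω e A := by
  intro K hK hKc ε hε
  obtain ⟨η, hη, k, hch⟩ := exists_chain hΩ hc hK hKc
  filter_upwards [h η hη (ε / (k + 1)) (by positivity), hR.eventually hch, hR.eventually_gt_atTop 0]
    with j h1 h2 h3 u v hu hv
  obtain ⟨q, q0, qk, -, q3⟩ := h2 u v hu hv
  have := chain_sum (A := A j) fun i hi => h1 _ _ (q3 i hi)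
  rw [q0, qk] at this
  refine this.trans ?_
  have hq : (0 : ℝ) ≤ R j ^ e := by positivity
  rw [← mul_assoc]
  refine mul_le_mul_of_nonneg_right ?_ hq
  rw [mul_div_assoc', div_le_iff₀ (by positivity)]
  nlinarith

end

variable {R : ℕ → ℕ} {F : Filter ℕ} {D : ℕ → Win}

/-- the world `true`, ceilings out, against the world `false`, floors out -/
def S0W (R : ℕ → ℕ) (F : Filter ℕ) {D : ℕ → Win} (O : ∀ j, OutB (D j)) : Prop :=
  ∀ s ⊆ gV, ∀ η > 0, ∀ ε > 0, ∀ᶠ j in F, ∀ a b : ℤ × ℤ, Lk (InP (D j) true) (η * (R j : ℝ)) a b →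
    Lk (InP (D j) false) (η * (R j : ℝ)) a b →
    ‖(HN (O j) true ({ce} ∪ s) a.1 a.2 - HN (O j) true ({ce} ∪ s) b.1 b.2) -
      (HN (O j) false ({fo} ∪ s) a.1 a.2 - HN (O j) false ({fo} ∪ s) b.1 b.2)‖ ≤
      ε * (R j : ℝ) ^ (-(1 / 3) : ℝ)

/-- the pairs which agree after a translation, up to a phase -/
def S12W (R : ℕ → ℕ) (F : Filter ℕ) {D : ℕ → Win} (O : ∀ j, OutB (D j)) : Prop :=
  ∀ {pA pB : Bool} {sA sB : Finset Gr} {tx ty : ℤ}, Tw pA sA pB sB tx ty → ∃ k : ℕ → ℤ,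
    ∀ η > 0, ∀ ε > 0, ∀ᶠ j in F, ∀ a b : ℤ × ℤ, Lk (InP (D j) pA) (η * (R j : ℝ)) a b →
    Lk (InP (D j) pB) (η * (R j : ℝ)) (a.1 - tx, a.2 - ty) (b.1 - tx, b.2 - ty) →
    ‖(HN (O j) pA sA a.1 a.2 - HN (O j) pA sA b.1 b.2) - Pool.Agent.Q1.ph (k j) *
      (HN (O j) pB sB (a.1 - tx) (a.2 - ty) - HN (O j) pB sB (b.1 - tx) (b.2 - ty))‖ ≤
      ε * (R j : ℝ) ^ (-(1 / 3) : ℝ)

variable {O : ∀ j, OutB (D j)} {c : ℕ → ℤ} {Ω : Set ℂ}

/-- a link of a shifted pair -/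
lemma RL_shift {η r : ℝ} {u v d : ℤ × ℤ} (hr : 0 < r) (hd : ‖lat d‖ / r ≤ η / 2)
    (h : RL Ω η (lat u / (r : ℂ)) (lat v / (r : ℂ))) :
    RL Ω (η / 2) (lat (u - d) / (r : ℂ)) (lat (v - d) / (r : ℂ)) := by
  have e : ∀ w : ℤ × ℤ, lat (w - d) / (r : ℂ) = lat w / (r : ℂ) - lat d / (r : ℂ) := by
    intro w
    have : lat (w - d) = lat w - lat d := by apply Complex.ext <;> simp [lat]
    rw [this, sub_div]
  have hn : ‖lat d / (r : ℂ)‖ ≤ η / 2 := by
    rw [norm_div, Complex.norm_real, Real.norm_of_nonneg hr.le]; exact hd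
  have h1 := (Complex.abs_re_le_norm (lat d / (r : ℂ))).trans hn
  have h2 := (Complex.abs_im_le_norm (lat d / (r : ℂ))).trans hn
  rw [e, e]
  have h3 : |-(lat d / (r : ℂ)).re| ≤ η / 2 := by rw [abs_neg]; exact h1
  have h4 : |-(lat d / (r : ℂ)).im| ≤ η / 2 := by rw [abs_neg]; exact h2
  have := RL.move (δ := η / 2) (z' := lat u / (r : ℂ) - lat d / (r : ℂ)) (w' := lat v / (r : ℂ) - lat d / (r : ℂ)) h
    (by rw [Complex.sub_re, sub_sub_cancel_left]; exact h3)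
    (by rw [Complex.sub_im, sub_sub_cancel_left]; exact h4)
    (by rw [Complex.sub_re, sub_sub_cancel_left]; exact h3)
    (by rw [Complex.sub_im, sub_sub_cancel_left]; exact h4)
  rwa [show η - η / 2 = η / 2 by ring] at this

/-- **The field `s0`** and the case of the same place -/
theorem s0_NW (hL : SeqL R F Ω D c) (hR : Tendsto R F atTop) (hΩ : IsOpen Ω) (hc : IsPreconnected Ω)
    (h : S0W R F O) {s : Finset Gr} (hs : s ⊆ gV) : SmR (fun j => (R j : ℝ)) F Ω (-(1 / 3))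
      (NW D O c true ({ce} ∪ s) - Sh uu (NW D O c false ({fo} ∪ s))) := by
  have hRr : Tendsto (fun j => (R j : ℝ)) F atTop := tendsto_natCast_atTop_atTop.comp hR
  refine smR_of_lk hRr hΩ hc fun η hη ε hε => ?_
  filter_upwards [hL, h s hs (η / 2) (by positivity) ε hε, hRr.eventually_gt_atTop 0,
    hRr.eventually_gt_atTop (‖lat uu‖ / (η / 2))] with j h1 h2 h3 h4 u v huv
  have hd : ‖lat uu‖ / (R j : ℝ) ≤ η / 2 := by
    rw [div_lt_iff₀ (by positivity)] at h4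
    rw [div_le_iff₀ h3]; linarith
  have k1 := h1 η u v huv true
  have k2 := h1 (η / 2) _ _ (RL_shift h3 hd huv) false
  have e : ∀ w : ℤ × ℤ, wv false (c j) (w - uu) = wv true (c j) w := by
    intro w
    unfold wv uu
    rw [sh_false, sh_true]
    refine Prod.ext ?_ ?_ <;> simp only [Prod.fst_sub, Prod.snd_sub] <;> ring
  rw [e, e] at k2
  have := h2 _ _ (k1.mono (by nlinarith)) k2
  refine le_trans (le_of_eq ?_) this
  congr 1
  simp only [Pi.sub_apply, Sh, NW, e]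
  ring

/-- the translated pairs -/
theorem s12_NW (hL : SeqL R F Ω D c) (hR : Tendsto R F atTop) (hΩ : IsOpen Ω) (hc : IsPreconnected Ω)
    (h : S12W R F O) {pA pB : Bool} {sA sB : Finset Gr} {tx ty : ℤ} (ht : Tw pA sA pB sB tx ty)
    {d : ℤ × ℤ} (hd : ∀ c w, wv pB c (w - d) = ((wv pA c w).1 - tx, (wv pA c w).2 - ty)) :
    ∃ k : ℕ → ℤ, SmR (fun j => (R j : ℝ)) F Ω (-(1 / 3))
      (NW D O c pA sA - fun j v => Pool.Agent.Q1.ph (k j) * Sh d (NW D O c pB sB) j v) := by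
  have hRr : Tendsto (fun j => (R j : ℝ)) F atTop := tendsto_natCast_atTop_atTop.comp hR
  obtain ⟨k, h⟩ := h ht
  refine ⟨k, smR_of_lk hRr hΩ hc fun η hη ε hε => ?_⟩
  filter_upwards [hL, h (η / 2) (by positivity) ε hε, hRr.eventually_gt_atTop 0,
    hRr.eventually_gt_atTop (‖lat d‖ / (η / 2))] with j h1 h2 h3 h4 u v huv
  have hd' : ‖lat d‖ / (R j : ℝ) ≤ η / 2 := by
    rw [div_lt_iff₀ (by positivity)] at h4
    rw [div_le_iff₀ h3]; linarith
  have k1 := h1 η u v huv pA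
  have k2 := h1 (η / 2) _ _ (RL_shift h3 hd' huv) pB
  rw [hd, hd] at k2
  have := h2 _ _ (k1.mono (by nlinarith)) k2
  refine le_trans (le_of_eq ?_) this
  congr 1
  simp only [Pi.sub_apply, Sh, NW, hd]
  ring

/-- **The structure `BrW` of a sequence of windows.** -/
theorem brW_of {P : ℝ → ℕ → CaseW → Prop} {H : ℤ} {A B : ℤ → ℤ} {YP YQ : ℤ} {s0 : ℕ → ℤ}
    (hT : TotG) (hR : Tendsto R F atTop) (hΩ : IsOpen Ω) (hc : IsPreconnected Ω)
    (hL : SeqL R F Ω D c) (hC : SeqC R F D H A B YP YQ s0) {w0 : Kp H A B}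
    (hm : MemW P R F O s0 w0) (hn : NatW R F O) (hl : LinW R F O s0 YP YQ w0)
    (hb : NbW R F O s0 w0) (h0 : S0W R F O) (h12 : S12W R F O)
    {S : ℕ → Set (Σ D : Win, Out D)} (hS : ∀ᶠ j in F, (⟨D j, (O j).out⟩ : Σ D : Win, Out D) ∈ S (R j))
    (hA : ∀ η > 0, ABA S η) : BrW P R F Ω (NW D O c) (VW D O c) where
  pair := pair_W hT hR hL hC hm hn hl hb
  edge := fun p s => edge_NW hL hR hΩ p s
  s0 := by
    have := s0_NW hL hR hΩ hc h0 (s := ∅) (by simp)
    simpa only [Finset.union_empty] using this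
  s1 := fun p s hs => by
    cases p with
    | false =>
      refine ⟨fun _ => 0, ?_⟩
      have := s0_NW hL hR hΩ hc h0 hs
      simp only [Pool.Agent.Q1.ph_zero, one_mul]
      exact this
    | true =>
      exact s12_NW hL hR hΩ hc h12 (Tw.v1 s (show s ⊆ Pool.Agent.H74.Win.gV from hs)) fun c w => by
        unfold wv uu
        rw [sh_false, sh_true]
        refine Prod.ext ?_ ?_ <;> simp only [Prod.fst_sub, Prod.snd_sub] <;> ring
  s2 := fun p s hs => by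
    cases p with
    | false =>
      exact s12_NW hL hR hΩ hc h12 (Tw.h0 s (show s ⊆ Pool.Agent.H74.Win.gH from hs)) fun c w => by
        unfold wv rr
        rw [sh_false, sh_true]
        refine Prod.ext ?_ ?_ <;> simp only [Prod.fst_sub, Prod.snd_sub] <;> ring
    | true =>
      exact s12_NW hL hR hΩ hc h12 (Tw.h1 s (show s ⊆ Pool.Agent.H74.Win.gH from hs)) fun c w => by
        unfold wv rr
        rw [sh_false, sh_true]
        refine Prod.ext ?_ ?_ <;> simp only [Prod.fst_sub, Prod.snd_sub] <;> ring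
  ab := ab_VW hL hR hS hA

end Pool.Agent.H44.FM.Wi
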