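import Mathlib
import Pool.Agent.H44.FM.Br2

set_option autoImplicit false
open Filter Topology Set

/-! # Windows: linear response of the two worlds, `RawP` -/

namespace Pool.Agent.H44.FM.Br

open Pool.Agent.Q1.M4 (lat)
open Pool.Agent.Q1.M6f.Glue (Ev uu rr TI ILim)
open Pool.Agent.Q1.M6e.Wn (CaseW wS sz swn FineP HVP lrJ nrP mixP LRat)
open Pool.Agent.Q1.M6e (Fine45 HV45 DL45)
open Pool.Agent.H44.FM (C45at gfix45 c45at_of)
open Pool.Agent.H44.FM.WG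
open Pool.Agent.H44.FM.WG.Gr
open Pool.Agent.H53.FM (GHypX UBY UB)
open Pool.Agent.H95.R45 (AB45 C45 N45 M45)

variable {P : ℝ → ℕ → CaseW → Prop} {R : ℕ → ℕ} {F : Filter ℕ} {Ω : Set ℂ}
  {N : Bool → Finset Gr → ℕ → ℤ × ℤ → ℂ} {V : Bool → ℕ → ℕ → ℤ × ℤ → ℂ}

/-- the response function at the headings -/
lemma hd_bound {C c Y : ℝ} {G : ℂ → ℂ} (hG : GHypX C c Y G) (hY : 0 < Y) (g : Gr) :
    ‖G (hd g)‖ ≤ |C| + 1 := by
  obtain ⟨h1, h2, h3⟩ := CaseG.hd_re g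
  have hp := Real.pi_pos
  have h4 : hd g ∈ UBY Y := ⟨⟨by linarith, by linarith⟩, by rw [h3, abs_zero]; exact hY⟩
  have := hG.boundX _ h4
  rw [h3, Real.exp_zero, mul_one] at this
  linarith [le_abs_self C]

/-- **Linear response for linked pairs.** The response function is arbitrary. -/
theorem BrW.lin (H : BrW P R F Ω N V) (hR : Tendsto R F atTop) (hF : FineP P) (hH : HVP P) {η : ℝ}
    (hη : 0 < η) (C c : ℝ) : ∃ η' > 0, ∀ ε > 0, ∃ δ > 0, ∀ ρ : ℝ, 0 < ρ → ∀ᶠ j in F,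
    ∀ (G : ℂ → ℂ) (Y : ℝ), 0 < Y → GHypX C c Y G →
    (∀ x : CaseW, P η' (R j) x → ∀ (S : Finset x.κ) (z : x.κ → ℂ),
      (∀ w, 0 ≤ (z w).re ∧ (z w).re ≤ Real.pi ∧ |(z w).im| ≤ 1) →
      ‖x.tot (sz S ⌊ρ * (R j : ℝ)⌋₊ z) - x.tot0 -
        (⌊ρ * (R j : ℝ)⌋₊ : ℂ) * ∑ w ∈ S, G (z w) * (x.tot (wS {w}) - x.tot0)‖ ≤
        δ * ρ * (R j : ℝ) ^ (2 / 3 : ℝ)) →
    ∀ u v : ℤ × ℤ, RL Ω η (lat u / ((R j : ℝ) : ℂ)) (lat v / ((R j : ℝ) : ℂ)) → ∀ p,
      ‖(V p j ⌊ρ * (R j : ℝ)⌋₊ u - V p j ⌊ρ * (R j : ℝ)⌋₊ v) - (N p ∅ j u - N p ∅ j v) -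
        (⌊ρ * (R j : ℝ)⌋₊ : ℂ) * ∑ g ∈ arcG p, G (hd g) * (XG N p g j u - XG N p g j v)‖ ≤
        ε * ρ * (R j : ℝ) ^ (2 / 3 : ℝ) := by
  obtain ⟨η', hη', C1, hp⟩ := H.pair η hη
  obtain ⟨Dm, cm, R3, hDm, hcm, hmx⟩ := mixP hF η' hη'
  obtain ⟨Ch, R4, hHV⟩ := hH η' hη'
  refine ⟨η', hη', fun ε hε => ?_⟩
  have hRr : Tendsto (fun j => (R j : ℝ)) F atTop := tendsto_natCast_atTop_atTop.comp hR
  set C2 : ℝ := |Ch| + 1 with hC2
  have hC20 : 0 < C2 := by positivity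
  set C3 : ℝ := |C1| + 1 with hC3
  have hC30 : 0 < C3 := by positivity
  set CG : ℝ := |C| + 1 with hCG
  have hCG0 : 0 < CG := by positivity
  refine ⟨ε / (4 * C3), by positivity, fun ρ hρ => ?_⟩
  set ε1 : ℝ := ε / (4 * C3 * (1 + 6 * CG)) with hε1
  have hε10 : 0 < ε1 := by positivity
  filter_upwards [hp ε1 hε10, hR.eventually_ge_atTop R3, hR.eventually_ge_atTop R4,
    hRr.eventually_ge_atTop 1, hRr.eventually_ge_atTop (1 / ρ),
    (rp_tend hR hcm).eventually_lt_const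
      (by positivity : (0 : ℝ) < ε / (4 * C3 * (3 * CG * (Dm * C2))))]
    with j h1 r3 r4 r5 r6 r7 G Y hY hG hlr u v huv p
  obtain ⟨σ, y, hy, -⟩ := h1 u v huv p
  have hRp : (0 : ℝ) < R j := by linarith
  set r : ℝ := (R j : ℝ) with hr
  set n : ℕ := ⌊ρ * r⌋₊ with hn
  have hρr : 1 ≤ ρ * r := by rw [div_le_iff₀ hρ] at r6; linarith
  have hn1 : 1 ≤ n := (Nat.one_le_floor_iff _).2 hρr
  have hnr : (n : ℝ) ≤ ρ * r := Nat.floor_le (by positivity)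
  have hv : ∀ i, (y i).x.d.HV (y i).x.Cs (y i).x.a (C2 * r ^ (2 / 3 : ℝ)) := by
    intro i ω hω Q hQ
    refine (hHV (R j) r4 (y i).x (hy.mem i) ω hω Q hQ).trans ?_
    exact mul_le_mul_of_nonneg_right (by rw [hC2]; linarith [le_abs_self Ch]) (by positivity)
  have hmix : ∀ x : CaseW, P η' (R j) x → ∀ M : ℝ, x.d.HV x.Cs x.a M → ∀ S : Finset x.κ,
      ‖x.tot (wS S) - x.tot0 - ∑ w ∈ S, (x.tot (wS {w}) - x.tot0)‖ ≤
      Dm * M * (1 / r) ^ (1 + cm) := fun x hx M hM S => hmx (R j) r3 x hx M hM S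
  have hsmall : (0 : ℝ) ≤ ε / (4 * C3) * ρ * r ^ (2 / 3 : ℝ) + ε1 * r ^ (-(1 / 3) : ℝ) +
      n * (3 * (CG * (2 * (ε1 * r ^ (-(1 / 3) : ℝ)) +
        Dm * (C2 * r ^ (2 / 3 : ℝ)) * (1 / r) ^ (1 + cm)))) := by positivity
  have key := hy.linR hv hmix hn1 (hd_bound hG hY) hlr
  have e : (V p j n u - V p j n v) - (N p ∅ j u - N p ∅ j v) -
        (n : ℂ) * ∑ g ∈ arcG p, G (hd g) * (XG N p g j u - XG N p g j v) =
      (V p j n u - V p j n v) - (N p ∅ j u - N p ∅ j v) -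
        (n : ℂ) * ∑ g ∈ arcG p, G (hd g) * ((N p {g} j u - N p {g} j v) -
          (N p ∅ j u - N p ∅ j v)) := by
    congr 2
    refine Finset.sum_congr rfl fun g _ => ?_
    simp only [XG, Pi.sub_apply]
    ring
  rw [e]
  refine key.trans ((mul_le_mul_of_nonneg_right (by linarith [le_abs_self C1] : C1 ≤ C3)
    hsmall).trans ?_)
  have hq : (0 : ℝ) < r ^ (2 / 3 : ℝ) := by positivity
  have e0 : r ^ (-(1 / 3) : ℝ) * r = r ^ (2 / 3 : ℝ) := by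
    rw [← Real.rpow_add_one hRp.ne']; norm_num
  have hq3 : (0 : ℝ) < r ^ (-(1 / 3) : ℝ) := by positivity
  have n1 : (n : ℝ) * r ^ (-(1 / 3) : ℝ) ≤ ρ * r ^ (2 / 3 : ℝ) := by
    calc (n : ℝ) * r ^ (-(1 / 3) : ℝ) ≤ ρ * r * r ^ (-(1 / 3) : ℝ) :=
          mul_le_mul_of_nonneg_right hnr hq3.le
      _ = ρ * (r ^ (-(1 / 3) : ℝ) * r) := by ring
      _ = _ := by rw [e0]
  have n2 : r ^ (-(1 / 3) : ℝ) ≤ ρ * r ^ (2 / 3 : ℝ) := by
    calc r ^ (-(1 / 3) : ℝ) = 1 * r ^ (-(1 / 3) : ℝ) := (one_mul _).symm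
      _ ≤ ρ * r * r ^ (-(1 / 3) : ℝ) := mul_le_mul_of_nonneg_right hρr hq3.le
      _ = ρ * (r ^ (-(1 / 3) : ℝ) * r) := by ring
      _ = _ := by rw [e0]
  have e1 : Dm * (C2 * r ^ (2 / 3 : ℝ)) * (1 / r) ^ (1 + cm) =
      Dm * C2 * (r ^ (-cm) * r ^ (-(1 / 3) : ℝ)) := by
    rw [← pow_split hRp]; ring
  rw [e1]
  set X : ℝ := ρ * r ^ (2 / 3 : ℝ) with hX
  have hX0 : 0 < X := by positivity
  have t1 : (n : ℝ) * (3 * (CG * (2 * (ε1 * r ^ (-(1 / 3) : ℝ)) +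
      Dm * C2 * (r ^ (-cm) * r ^ (-(1 / 3) : ℝ))))) =
      (6 * CG * ε1 + 3 * CG * (Dm * C2) * r ^ (-cm)) * (n * r ^ (-(1 / 3) : ℝ)) := by ring
  have t2 : (6 * CG * ε1 + 3 * CG * (Dm * C2) * r ^ (-cm)) * (n * r ^ (-(1 / 3) : ℝ)) ≤
      (6 * CG * ε1 + 3 * CG * (Dm * C2) * (ε / (4 * C3 * (3 * CG * (Dm * C2))))) * X := by
    refine mul_le_mul ?_ n1 (by positivity) (by positivity)
    have := mul_le_mul_of_nonneg_left r7.le (by positivity : 0 ≤ 3 * CG * (Dm * C2))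
    linarith
  have t3 : 3 * CG * (Dm * C2) * (ε / (4 * C3 * (3 * CG * (Dm * C2)))) = ε / (4 * C3) := by
    field_simp
  have t4 : ε1 * r ^ (-(1 / 3) : ℝ) ≤ ε1 * X := mul_le_mul_of_nonneg_left n2 hε10.le
  have t5 : ε1 * (1 + 6 * CG) = ε / (4 * C3) := by
    rw [hε1]; field_simp
  rw [t3] at t2
  have t6 : ε / (4 * C3) * ρ * r ^ (2 / 3 : ℝ) = ε / (4 * C3) * X := by rw [hX]; ring
  have t7 : ε * ρ * r ^ (2 / 3 : ℝ) = ε * X := by rw [hX]; ring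
  rw [t1, t6, t7]
  have t8 : C3 * (3 * (ε / (4 * C3) * X)) = 3 / 4 * ε * X := by field_simp
  have t9 : ε / (4 * C3) * X + ε1 * r ^ (-(1 / 3) : ℝ) +
      (6 * CG * ε1 + 3 * CG * (Dm * C2) * r ^ (-cm)) * (n * r ^ (-(1 / 3) : ℝ)) ≤
      3 * (ε / (4 * C3) * X) := by
    have : ε1 * (1 + 6 * CG) * X = ε / (4 * C3) * X := by rw [t5]
    linarith only [this, t2, t4]
  calc C3 * _ ≤ C3 * (3 * (ε / (4 * C3) * X)) := mul_le_mul_of_nonneg_left t9 hC30.le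
    _ = 3 / 4 * ε * X := t8
    _ ≤ ε * X := by linarith only [mul_pos hε hX0]

/-- **The estimates for the windows.** -/
theorem BrW.raw (h45 : Fine45) (hH45 : HV45) (hDL : DL45) (hAB : AB45) (hC : C45) (hN : N45)
    (hM : M45) (hF : FineP P) (hH : HVP P) {m : ℕ → ℕ} (hm : Tendsto m F atTop)
    (H : BrW P (fun j => 2 * m j) F Ω N V) (hΩ : IsOpen Ω) (hc : IsPreconnected Ω) :
    RawP (fun j => ((2 * m j : ℕ) : ℝ)) F Ω N (V false) (V true) := by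
  have hR : Tendsto (fun j => 2 * m j) F atTop :=
    tendsto_atTop_mono (fun j => by omega) hm
  have hRr : Tendsto (fun j => ((2 * m j : ℕ) : ℝ)) F atTop := tendsto_natCast_atTop_atTop.comp hR
  obtain ⟨C, c, hc0, hlr⟩ := lrJ h45 hH45
  refine ⟨fun p g K hK hKc => ?_, fun p s t hst K hK hKc ε hε => ?_, fun p g K hK hKc ε hε => ?_,
    fun p g K hK hKc ε hε => ?_, H.edge, H.s0, H.s1, H.s2, fun K hK hKc => ?_, fun K hK hKc => ?_⟩
  · -- responses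
    obtain ⟨η, hη, k, hch⟩ := exists_chain hΩ hc hK hKc
    obtain ⟨⟨B, hB⟩, -, -⟩ := H.nat hR hF hH hη
    refine ⟨k * B, ?_⟩
    filter_upwards [hB, hRr.eventually hch] with j h1 h2 u v hu hv
    obtain ⟨q, q0, qk, -, q3⟩ := h2 u v hu hv
    have := chain_sum (A := XG N p g j) fun i hi => h1 _ _ (q3 i hi) p g
    rw [q0, qk] at this
    linarith
  · -- mixed differences
    obtain ⟨η, hη, k, hch⟩ := exists_chain hΩ hc hK hKc
    obtain ⟨-, hB, -⟩ := H.nat hR hF hH hη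
    filter_upwards [hB (ε / (k + 1)) (by positivity), hRr.eventually hch,
      hRr.eventually_gt_atTop 0] with j h1 h2 h3 u v hu hv
    obtain ⟨q, q0, qk, -, q3⟩ := h2 u v hu hv
    have := chain_sum (A := (N p (s ∪ t) - N p s - N p t + N p ∅) j) fun i hi =>
      h1 _ _ (q3 i hi) p s t hst
    rw [q0, qk] at this
    refine this.trans ?_
    have hq : (0 : ℝ) ≤ ((2 * m j : ℕ) : ℝ) ^ (-(1 / 3) : ℝ) := by positivity
    rw [← mul_assoc]
    refine mul_le_mul_of_nonneg_right ?_ hq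
    rw [mul_div_assoc', div_le_iff₀ (by positivity)]
    nlinarith
  · obtain ⟨η, hη, hch⟩ := RL_adj hRr hΩ hK hKc
    obtain ⟨-, -, hB⟩ := H.nat hR hF hH hη
    filter_upwards [hB ε hε, hch] with j h1 h2 v hv
    refine h1 v (v - uu) (h2 v uu (by decide) (by decide) hv) ?_ ?_ p g
    · simp [uu]
    · simp [uu]
  · obtain ⟨η, hη, hch⟩ := RL_adj hRr hΩ hK hKc
    obtain ⟨-, -, hB⟩ := H.nat hR hF hH hη
    filter_upwards [hB ε hε, hch] with j h1 h2 v hv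
    refine h1 v (v - rr) (h2 v rr (by decide) (by decide) hv) ?_ ?_ p g
    · simp [rr]
    · simp [rr]
  · -- chapters A and B
    obtain ⟨η, hη, k, hch⟩ := exists_chain hΩ hc hK hKc
    refine ⟨1, one_pos, fun ρ hρ _ ε hε => ?_⟩
    filter_upwards [H.ab η hη ρ hρ (ε / (k + 1)) (by positivity), hRr.eventually hch,
      hRr.eventually_gt_atTop 0] with j h1 h2 h3 u v eu ev hu hv
    obtain ⟨q, q0, qk, qe, q3⟩ := h2 u v hu hv
    have qe' : ∀ i ≤ k, Ev (q i) := by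
      intro i hi
      rcases Nat.eq_zero_or_pos i with c | c
      · subst c; rw [q0]; exact eu
      · rcases Nat.lt_or_ge i k with c' | c'
        · exact qe i c c'
        · have : i = k := by omega
          subst this; rw [qk]; exact ev
    have := chain_sum (A := fun v => V false j ⌊ρ * ((2 * m j : ℕ) : ℝ)⌋₊ v -
      V true j ⌊ρ * ((2 * m j : ℕ) : ℝ)⌋₊ v) (B := ε / (k + 1) * ((2 * m j : ℕ) : ℝ) ^ (2 / 3 : ℝ))
      (p := q) (k := k) fun i hi => by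
        have := h1 _ _ (qe' i hi.le) (qe' _ hi) (q3 i hi)
        refine le_trans (le_of_eq ?_) this
        congr 1
        ring
    rw [q0, qk] at this
    refine (le_of_eq ?_).trans (this.trans ?_)
    · congr 1
      ring
    have hq : (0 : ℝ) ≤ ((2 * m j : ℕ) : ℝ) ^ (2 / 3 : ℝ) := by positivity
    rw [← mul_assoc]
    refine mul_le_mul_of_nonneg_right ?_ hq
    rw [mul_div_assoc', div_le_iff₀ (by positivity)]
    nlinarith
  · -- linear response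
    obtain ⟨η, hη, k, hch⟩ := exists_chain hΩ hc hK hKc
    refine ⟨c, hc0, fun ε hε => ?_⟩
    obtain ⟨η', hη', hlin⟩ := H.lin hR hF hH hη C c
    obtain ⟨δ, hδ, hlin⟩ := hlin (ε / (k + 1)) (by positivity)
    obtain ⟨ε', hε', Y, η2, hη2, ρ2, hρ2, hfix⟩ := gfix45 hAB hC hN hM C c hc0 ε hε
    obtain ⟨ρ3, hρ3, hlr⟩ := hlr P hF hH η' η2 hη' hη2 (min δ (ε' / 8)) (by positivity) (max Y 2)
    refine ⟨min ρ2 ρ3, lt_min hρ2 hρ3, fun ρ hρ hρl => ?_⟩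
    obtain ⟨n0, hfix⟩ := hfix ρ hρ (hρl.trans_le (min_le_left _ _))
    obtain ⟨R0, hlr⟩ := hlr ρ hρ (hρl.trans_le (min_le_right _ _))
    obtain ⟨R1, hat⟩ := c45at_of hDL hη2 C c hε' (le_max_right Y 2) hρ
    filter_upwards [hlin ρ hρ, hm.eventually_ge_atTop n0, hR.eventually_ge_atTop R0,
      hR.eventually_ge_atTop R1, hRr.eventually hch, hRr.eventually_gt_atTop 0]
      with j h1 h2 h3 h4 h5 h6
    obtain ⟨G, hG, hL, hx⟩ := hlr (2 * m j) h3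
    have hq : (0 : ℝ) ≤ ((2 * m j : ℕ) : ℝ) ^ (2 / 3 : ℝ) := by positivity
    have hL' : LRat η2 (2 * m j) ⌊ρ * ((2 * m j : ℕ) : ℝ)⌋₊ G
        (ε' / 8 * ρ * ((2 * m j : ℕ) : ℝ) ^ (2 / 3 : ℝ)) := by
      intro w h O hO top S hS p q hp hq' t ht d hd
      refine (hL w h O hO top S hS p q hp hq' t ht d hd).trans ?_
      exact mul_le_mul_of_nonneg_right (mul_le_mul_of_nonneg_right (min_le_right _ _) hρ.le) hq
    have h45at := hat (2 * m j) h4 G hG hL'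
    obtain ⟨f1, f2⟩ := hfix (m j) h2 G (Pool.Agent.H53.FM.GHypX.restr hG (le_max_left _ _)) h45at
    have hY0 : (0 : ℝ) < max Y 2 := lt_max_of_lt_right (by norm_num)
    have h7 := h1 G (max Y 2) hY0 hG (fun x hPx S z hz => (hx x hPx S z hz).trans
      (mul_le_mul_of_nonneg_right (mul_le_mul_of_nonneg_right (min_le_left _ _) hρ.le) hq))
    refine ⟨G, hG.lower, f1, f2, fun u v eu ev hu hv => ?_⟩
    obtain ⟨q, q0, qk, -, q3⟩ := h5 u v hu hv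
    have key : ∀ p, ‖(V p j ⌊ρ * ((2 * m j : ℕ) : ℝ)⌋₊ u - V p j ⌊ρ * ((2 * m j : ℕ) : ℝ)⌋₊ v) -
        (N p ∅ j u - N p ∅ j v) - (⌊ρ * ((2 * m j : ℕ) : ℝ)⌋₊ : ℂ) *
          ∑ g ∈ arcG p, G (hd g) * (XG N p g j u - XG N p g j v)‖ ≤
        ε * ρ * ((2 * m j : ℕ) : ℝ) ^ (2 / 3 : ℝ) := by
      intro p
      have := chain_sum (A := fun v => V p j ⌊ρ * ((2 * m j : ℕ) : ℝ)⌋₊ v - N p ∅ j v -
        (⌊ρ * ((2 * m j : ℕ) : ℝ)⌋₊ : ℂ) * ∑ g ∈ arcG p, G (hd g) * XG N p g j v)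
        (B := ε / (k + 1) * ρ * ((2 * m j : ℕ) : ℝ) ^ (2 / 3 : ℝ)) (p := q) (k := k) fun i hi => by
          have := h7 _ _ (q3 i hi) p
          refine le_trans (le_of_eq ?_) this
          congr 1
          simp only [mul_sub, Finset.sum_sub_distrib]
          ring
      rw [q0, qk] at this
      refine (le_of_eq ?_).trans (this.trans ?_)
      · congr 1
        simp only [mul_sub, Finset.sum_sub_distrib]
        ring
      rw [← mul_assoc, ← mul_assoc]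
      refine mul_le_mul_of_nonneg_right (mul_le_mul_of_nonneg_right ?_ hρ.le) hq
      rw [mul_div_assoc', div_le_iff₀ (by positivity)]
      nlinarith
    have k0 := key false
    have k1 := key true
    have s0 : ∀ f : Gr → ℂ, ∑ g ∈ arcG false, f g = f fo + f ll + f rl := by
      intro f
      unfold arcG
      rw [Finset.sum_insert (by decide), Finset.sum_insert (by decide), Finset.sum_singleton]
      ring
    have s1 : ∀ f : Gr → ℂ, ∑ g ∈ arcG true, f g = f ce + f ru + f lu := by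
      intro f
      unfold arcG
      rw [Finset.sum_insert (by decide), Finset.sum_insert (by decide), Finset.sum_singleton]
      ring
    rw [s0] at k0
    rw [s1] at k1
    exact ⟨k0, k1⟩

end Pool.Agent.H44.FM.Br
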