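import Mathlib
import Pool.Agent.H44.FM.Br3
import Pool.Agent.H44.FM.HolT

set_option autoImplicit false
open Filter Topology Set

/-! # Cardy's formula on a shape from the windows

`ShapeBr` : the three environments of a shape are close to natural windows. `ti3_of_br` : translation
invariance. -/

namespace Pool.Agent.H44.FM.Br

open Pool.Agent.Q1 Pool.Agent.Q1.M4
open Pool.Agent.Q1.M6f.Glue (Ev uu rr TI ILim TI3 PreLim preLim_of_isLim0)
open Pool.Agent.Q1.M6e.Wn (CaseW FineP HVP)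
open Pool.Agent.Q1.M6e (Fine45 HV45 DL45)
open Pool.Agent.H44.FM.WG
open Pool.Agent.H95.R45 (AB45 C45 N45 M45)
open Pool.Agent.H21.FM (Shape Tri3 Hol3 bp)
open Pool.Agent.H87.FM (gx gx_mono Rs Rs_top)

variable {P : ℝ → ℕ → CaseW → Prop} {R : ℕ → ℕ} {F F' : Filter ℕ} {Ω : Set ℂ}
  {N : Bool → Finset Gr → ℕ → ℤ × ℤ → ℂ} {V : Bool → ℕ → ℕ → ℤ × ℤ → ℂ}

lemma BrW.mono (H : BrW P R F Ω N V) (hF : F' ≤ F) : BrW P R F' Ω N V where
  pair := fun η hη => by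
    obtain ⟨η', h1, C, h2⟩ := H.pair η hη
    exact ⟨η', h1, C, fun ε hε => hF (h2 ε hε)⟩
  edge := fun p s K hK hKc => by
    obtain ⟨C, h⟩ := H.edge p s K hK hKc
    exact ⟨C, hF h⟩
  s0 := fun K hK hKc ε hε => hF (H.s0 K hK hKc ε hε)
  s1 := fun p s hs => by
    obtain ⟨k, h⟩ := H.s1 p s hs
    exact ⟨k, fun K hK hKc ε hε => hF (h K hK hKc ε hε)⟩
  s2 := fun p s hs => by
    obtain ⟨k, h⟩ := H.s2 p s hs
    exact ⟨k, fun K hK hKc ε hε => hF (h K hK hKc ε hε)⟩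
  ab := fun η hη ρ hρ ε hε => hF (H.ab η hη ρ hρ ε hε)

/-- **The environments of a shape are close to natural windows.** -/
def ShapeBr (P : ℝ → ℕ → CaseW → Prop) (S : Shape) : Prop :=
  ∀ (X : ℕ → Fin 3 → Env) (H : ℕ → Fin 3 → ℤ × ℤ → ℂ), (∀ᶠ h in atTop, Tri3 S h (X h) (H h)) →
    ∀ i : Fin 3, ∃ (N : Bool → Finset Gr → ℕ → ℤ × ℤ → ℂ) (V : Bool → ℕ → ℕ → ℤ × ℤ → ℂ)
      (κ : ℕ → ℂ), BrW P (fun j => 2 * j) atTop (Om S.P.Q gx gx) N V ∧ (∀ n, ‖κ n‖ = 1) ∧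
      SmR (fun j => ((2 * j : ℕ) : ℝ)) atTop (Om S.P.Q gx gx) (2 / 3)
        (fun j v => κ j * N false ∅ j v - H j i v)

/-- **Translation invariance for the three environments of a shape.** -/
theorem ti3_of_br (h45 : Fine45) (hH45 : HV45) (hDL : DL45) (hAB : AB45) (hC : C45) (hN : N45)
    (hM : M45) (hF : FineP P) (hH : HVP P) {S : Shape} (hS : ShapeBr P S) : TI3 S := by
  intro X H hX U hU i g hg
  obtain ⟨N, V, κ, hB, hκ, hcl⟩ := hS X H hX i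
  set Ω := Om S.P.Q gx gx with hΩd
  have hΩ : IsOpen Ω := isOpen_Om _ _ _
  have hc : IsPreconnected Ω := isPreconnected_Om gx_mono gx_mono S.P.good.conn
  have hUt : Tendsto (fun j : ℕ => j) (U : Filter ℕ) atTop := hU
  have raw := BrW.raw h45 hH45 hDL hAB hC hN hM hF hH hUt (hB.mono hU) hΩ hc
  have hR : Tendsto (fun j : ℕ => ((2 * j : ℕ) : ℝ)) atTop atTop :=
    tendsto_natCast_atTop_atTop.comp (tendsto_atTop_mono (fun j => by simp only [id]; omega) tendsto_id)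
  have hRs : (Rs id) = fun j : ℕ => ((2 * j : ℕ) : ℝ) := by
    funext j
    simp only [Rs, id]
    push_cast
    rfl
  have hlim := (preLim_of_isLim0 hg).ilim tendsto_id hU
  have hcont : ContinuousOn g Ω := hg.cont.mono (Om_subset _ _ _)
  rw [hRs] at hlim
  refine RawP.ti (κ := κ) hR hU hΩ raw hκ ?_ hlim hcont
  intro K hK hKc τ hτ
  filter_upwards [hU (hcl K hK hKc τ hτ), hU (eventually_gt_atTop 0)] with j h1 h2 u v hu hv
  have k := h1 u v hu hv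
  have hRp : (0 : ℝ) < ((2 * j : ℕ) : ℝ) := by
    have : 0 < 2 * j := by omega
    exact_mod_cast this
  have e : (nz (fun j => ((2 * j : ℕ) : ℝ)) κ (N false ∅) j u -
      nz (fun j => ((2 * j : ℕ) : ℝ)) κ (N false ∅) j v) - (H21.FM.nrm S.P j (H j i) u - H21.FM.nrm S.P j (H j i) v) =
      ((((2 * j : ℕ) : ℝ) ^ (-(2 / 3) : ℝ) : ℝ) : ℂ) *
        ((κ j * N false ∅ j u - H j i u) - (κ j * N false ∅ j v - H j i v)) := by
    unfold nz H21.FM.nrm
    push_cast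
    ring
  simp only [id]
  rw [e, norm_mul, Complex.norm_real, Real.norm_of_nonneg (by positivity)]
  calc ((2 * j : ℕ) : ℝ) ^ (-(2 / 3) : ℝ) * _ ≤ ((2 * j : ℕ) : ℝ) ^ (-(2 / 3) : ℝ) *
        (τ * ((2 * j : ℕ) : ℝ) ^ (2 / 3 : ℝ)) := mul_le_mul_of_nonneg_left k (by positivity)
    _ = τ * (((2 * j : ℕ) : ℝ) ^ (-(2 / 3) : ℝ) * ((2 * j : ℕ) : ℝ) ^ (2 / 3 : ℝ)) := by ring
    _ = τ := by rw [pw1 hRp, mul_one]

/-- **`Hol3` for a shape**, from the windows. -/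
theorem hol3_of_br (h45 : Fine45) (hH45 : HV45) (hDL : DL45) (hAB : AB45) (hC : C45) (hN : N45)
    (hM : M45) (hF : FineP P) (hH : HVP P) {S : Shape} (hS : ShapeBr P S) : Hol3 S :=
  hol3_of_ti' (ti3_of_br h45 hH45 hDL hAB hC hN hM hF hH hS)

end Pool.Agent.H44.FM.Br
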