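import Mathlib
import Pool.Agent.H44.FM.Wi7
import Pool.Agent.H44.FM.Br4
import Pool.Agent.H5.FM.WinCo
import Pool.Agent.H20.Sp.WinC
import Pool.Agent.H33.Sp.NatId

set_option autoImplicit false
open Filter Topology Set

/-! # The windows of a shape

`seqC_DW` : the windows of a shape are coarse. `w0F` : a unit edge. `OSeq` : good outsides. `TriW` : the three
environments of a shape are close to natural windows (input). `WIn` : the inputs for a sequence of outsides.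
`shapeBr_of` : `ShapeBr`. -/

namespace Pool.Agent.H44.FM.Wi

open Pool.Agent.Q1 Pool.Agent.H33.Q1
open Pool.Agent.Q1.M4 (lat Om isOpen_Om isPreconnected_Om)
open Pool.Agent.H44.FM.WG
open Pool.Agent.H44.FM.Br
open Pool.Agent.H87.FM (gx gx_mono)
open Pool.Agent.Q1.M6e.Wn (CaseW)
open Pool.Agent.H46.Sp (Win Out)
open Pool.Agent.H74.Win (OutB)
open Pool.Agent.H31.Sp (CoarseC Kp EdF mem_EdF Ed CQ)
open Pool.Agent.H13.Sp (colp)
open Pool.Agent.Q1.M6b.ABW (ABA)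
open Pool.Agent.H5.FM (RowF winOf winOf_coarseC cL cR)
open Pool.Agent.H20.Sp (OutOK)
open Pool.Agent.H21.FM (Shape Tri3)
open Pool.Agent.H42.Sp (Sd)
open Pool.Agent.H33.Sp (oX oY1 oY3)

section

variable {S : Shape} {y0 y1 : ℤ} {a b : ℤ → ℤ} {yP yQ : ℤ} (F : RowF S.P.Q y0 y1 a b yP yQ)

/-- a window of a shape is coarse -/
theorem coarse_DW {j : ℕ} (hj : 30 ≤ j) : CoarseC (DW F j) ((2 * j : ℕ) : ℤ) (y1 - y0)
    (fun Y => a (Y + y0)) (fun Y => b (Y + y0)) (yP - y0) (yQ - y0) (fun Y => cL S a (Y + y0))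
    (fun Y => cR S b (Y + y0)) := by
  have e := nj_eq hj
  have h := winOf_coarseC F (n := nj j) (by unfold nj; omega) (by unfold nj; omega)
  have e2 : ((2 * j : ℕ) : ℤ) = 2 * ((nj j : ℕ) : ℤ) := by rw [e]; push_cast; ring
  rw [e2]
  exact h

/-- the windows of a shape are coarse -/
theorem seqC_DW {s0 : ℕ → ℤ} (h : ∀ᶠ j in atTop, colp (DW F j) (s0 j - 1) ≠ colp (DW F j) (s0 j)) :
    SeqC (fun j => 2 * j) atTop (DW F) (y1 - y0) (fun Y => a (Y + y0)) (fun Y => b (Y + y0)) (yP - y0)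
      (yQ - y0) s0 where
  co := by
    filter_upwards [eventually_ge_atTop 30] with j hj
    exact ⟨_, _, coarse_DW F hj⟩
  cut := h

include F in
lemma edge0 : ((Sd.F, a y0, (0 : ℤ)) : Sd × ℤ × ℤ) ∈
    EdF (y1 - y0) (fun Y => a (Y + y0)) (fun Y => b (Y + y0)) := by
  rw [mem_EdF]
  have h1 := F.y01
  have h2 := F.ab y0 le_rfl h1
  simp only [Ed, CQ, zero_add]
  exact ⟨⟨le_rfl, by omega, le_rfl, h2⟩, fun h => by omega⟩

/-- a unit edge -/
def w0F : Kp (y1 - y0) (fun Y => a (Y + y0)) (fun Y => b (Y + y0)) := ⟨_, edge0 F⟩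

lemma nj_two (j : ℕ) : 2 ≤ nj j := by unfold nj; omega

lemma nj_L (j : ℕ) : (2 : ℤ) ≤ (nj j : ℤ) := by unfold nj; omega

/-- the outsides of helper33, one type for all windows -/
def OTyp (O : ∀ j, OutB (DW F j)) : Prop :=
  (∀ j, O j = oX F (nj j) (nj_two j) (nj j) (nj_L j)) ∨
  (∀ j, O j = oY1 F (nj j) (nj_two j) (nj j) (nj_L j)) ∨
  (∀ j, O j = oY3 F (nj j) (nj_two j) (nj j) (nj_L j))

/-- good outsides -/
structure OSeq (O : ∀ j, OutB (DW F j)) : Prop where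
  ok : ∀ᶠ j in atTop, OutOK (O j) (j : ℤ)
  ty : OTyp F O

/-- **The three environments of a shape are close to natural windows.** -/
def TriW : Prop := ∀ (X : ℕ → Fin 3 → Env) (H : ℕ → Fin 3 → ℤ × ℤ → ℂ),
  (∀ᶠ h in atTop, Tri3 S h (X h) (H h)) → ∀ i : Fin 3, ∃ (O : ∀ j, OutB (DW F j)) (κ : ℕ → ℂ),
    OSeq F O ∧ (∀ n, ‖κ n‖ = 1) ∧
    SmR (fun j => ((2 * j : ℕ) : ℝ)) atTop (Om S.P.Q gx gx) (2 / 3)
      (fun j v => κ j * NW (DW F) O (cW y0) false ∅ j v - H j i v)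

/-- **The inputs for a sequence of outsides.** -/
structure WIn (P : ℝ → ℕ → CaseW → Prop) (O : ∀ j, OutB (DW F j)) : Prop where
  mem : ∃ s0 : ℕ → ℤ, (∀ᶠ j in atTop, colp (DW F j) (s0 j - 1) ≠ colp (DW F j) (s0 j)) ∧
    MemW P (fun j => 2 * j) atTop O s0 (w0F F) ∧
    LinW (fun j => 2 * j) atTop O s0 (yP - y0) (yQ - y0) (w0F F) ∧
    NbW (fun j => 2 * j) atTop O s0 (w0F F)
  nat : NatW (fun j => 2 * j) atTop O
  s0 : S0W (fun j => 2 * j) atTop O
  s12 : S12W (fun j => 2 * j) atTop O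
  ab : ∀ η > 0, ABA (SW F O) η

/-- **`BrW` for the windows of a shape.** -/
theorem WIn.brW {P : ℝ → ℕ → CaseW → Prop} {O : ∀ j, OutB (DW F j)} (hT : TotG)
    (h : WIn F P O) : BrW P (fun j => 2 * j) atTop (Om S.P.Q gx gx) (NW (DW F) O (cW y0))
      (VW (DW F) O (cW y0)) := by
  obtain ⟨s0, hs, hm, hl, hb⟩ := h.mem
  have hR : Tendsto (fun j : ℕ => 2 * j) atTop atTop :=
    tendsto_atTop_mono (fun j => by simp only [id]; omega) tendsto_id
  refine brW_of hT hR (isOpen_Om _ _ _) (isPreconnected_Om gx_mono gx_mono S.P.good.conn) (seqL_DW F)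
    (seqC_DW F hs) hm h.nat hl hb h.s0 h.s12 (S := SW F O) ?_ h.ab
  filter_upwards [eventually_ge_atTop 30] with j hj
  exact ⟨j, hj, rfl, rfl⟩

/-- **`ShapeBr` from the windows of the shape.** -/
theorem shapeBr_of {P : ℝ → ℕ → CaseW → Prop} (hT : TotG) (hTri : TriW F)
    (hin : ∀ O : ∀ j, OutB (DW F j), OSeq F O → WIn F P O) : ShapeBr P S := by
  intro X H hX i
  obtain ⟨O, κ, hO, hκ, hS⟩ := hTri X H hX i
  exact ⟨_, _, κ, (hin O hO).brW F hT, hκ, hS⟩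

end

end Pool.Agent.H44.FM.Wi
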