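import Mathlib
import Pool.Agent.H14.Win.Lnk
import Pool.Agent.H14.Win.NatX
import Pool.Agent.H44.FM.Wi8

set_option autoImplicit false
open Filter

/-! # The input `S0W`: the windows of the two worlds at the same place -/

namespace Pool.Agent.H44.FM.Wi

open Pool.Agent.Q1 Pool.Agent.Q1.M6c
open Pool.Agent.H33.Q1
open Pool.Agent.H75.Perc hiding ph
open Pool.Agent.H75.TwoArm
open Pool.Agent.H46.Sp (Win)
open Pool.Agent.H74.Win hiding gV gH
open Pool.Agent.H44.FM.WG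
open Pool.Agent.H44.FM.WG.Gr
open Pool.Agent.H31.Sp (Coarse CoarseC)
open Pool.Agent.H14.Win (RootC rootC_of NatA natA_XN natA_v0 disp_eps PotT potT_of_potN PotT.mono)
open Pool.Agent.Q1.M6e (Lk)
open Pool.Agent.H5.FM (RowF winOf)
open Pool.Agent.H21.FM (Shape)

/-- **`S0W` from the displacement lemma** -/
theorem s0W_of (hAP : AP PlaneK) {R : ℕ → ℕ} {F : Filter ℕ} {D : ℕ → Win} {O : ∀ j, OutB (D j)}
    {H : ℤ} {A B : ℤ → ℤ} {YP YQ : ℤ} (hR : Tendsto R F atTop)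
    (hC : ∀ᶠ j in F, ∃ CL CR : ℤ → Bool, CoarseC (D j) (R j) H A B YP YQ CL CR)
    (hO : ∀ᶠ j in F, RootC (1 / 8) (R j) H A B (O j)) : S0W R F O := by
  intro s hs η hη ε hε
  obtain ⟨n0, key⟩ := disp_eps hAP H A B hη hε
  filter_upwards [hC, hO, hR.eventually_ge_atTop n0, hR.eventually_ge_atTop 30]
    with j a1 a2 a3 a4 a b hL1 hL0
  obtain ⟨CL, CR, a1⟩ := a1
  have h30 : (30 : ℤ) ≤ (R j : ℕ) := by exact_mod_cast a4
  have hE : ∀ (p : Bool) (r : Finset Gr) (x y : ℤ), InP (D j) p x y →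
      lt (x, y) ∈ EO (D j) p (gA (D j) p r) := fun p r x y h => EN_sub_EO (mem_EN.2 h)
  refine key (R j) a3 (D j) YP YQ CL CR a1 (O j) a2 true ({ce} ∪ s)
    (EO (D j) true (gA (D j) true ({ce} ∪ s))) (WO (D j) true (gA (D j) true ({ce} ∪ s)) (Snat (D j) true))
    (EO (D j) false (gA (D j) false ({fo} ∪ s)))
    (WO (D j) false (gA (D j) false ({fo} ∪ s)) (Snat (D j) false))
    (EO_sub_EU.trans EU_sub) (WO_sub Snat_sub) (disj_O Snat_sub)
    (EO_sub_EU.trans EU_sub) (WO_sub Snat_sub) (disj_O Snat_sub)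
    (natA_XN a1 h30 true ({ce} ∪ s)) (natA_v0 a1 h30 hs)
    (fun x y => InP (D j) true x y ∧ InP (D j) false x y) (fun x y h => hE _ _ x y h.1)
    (fun x y h => hE _ _ x y h.2) (HN (O j) true ({ce} ∪ s)) (HN (O j) false ({fo} ∪ s)) ?_ ?_ a b ?_
  · exact (potT_of_potN (potN_HN (O j) true ({ce} ∪ s))).mono fun x y h => h.1
  · exact (potT_of_potN (potN_HN (O j) false ({fo} ∪ s))).mono fun x y h => h.2
  · exact fun x y h1 h2 h3 h4 => ⟨hL1 x y h1 h2 h3 h4, hL0 x y h1 h2 h3 h4⟩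

variable {S : Shape} {y0 y1 : ℤ} {a b : ℤ → ℤ} {yP yQ : ℤ} (F : RowF S.P.Q y0 y1 a b yP yQ)

/-- the root of the outsides of a sequence is away from the corners -/
theorem rootC_F {O : ∀ j, OutB (DW F j)} (hO : OSeq F O) :
    ∀ᶠ j in atTop, RootC (1 / 8) ((2 * j : ℕ) : ℤ) (y1 - y0) (fun Y => a (Y + y0))
      (fun Y => b (Y + y0)) (O j) := by
  filter_upwards [eventually_ge_atTop 30, hO.ok] with j hj h1
  refine rootC_of (coarse_DW F hj).toCoarse (N := (j : ℤ)) h1.root ?_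
  have : (30 : ℝ) ≤ j := by exact_mod_cast hj
  push_cast
  linarith

/-- **The input `S0W` for the windows of a shape** -/
theorem s0W_F (hAP : AP PlaneK) {O : ∀ j, OutB (DW F j)} (hO : OSeq F O) :
    S0W (fun j => 2 * j) atTop O := by
  have hR : Tendsto (fun j : ℕ => 2 * j) atTop atTop :=
    tendsto_atTop_mono (fun j => by simp only [id]; omega) tendsto_id
  refine s0W_of (H := y1 - y0) (A := fun Y => a (Y + y0)) (B := fun Y => b (Y + y0))
    (YP := yP - y0) (YQ := yQ - y0) hAP hR ?_ (rootC_F F hO)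
  filter_upwards [eventually_ge_atTop 30] with j hj
  exact ⟨_, _, coarse_DW F hj⟩

end Pool.Agent.H44.FM.Wi
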