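import Mathlib
import Pool.Agent.H44.FM.Wi6
import Pool.Agent.H31.Sp.TotG
import Pool.Agent.H30.Sp.NatF
import Pool.Agent.H20.Sp.WinC
import Pool.Agent.Q1.M6e.Comb

set_option autoImplicit false
open Filter Topology Set

/-! # The line potentials of the windows are means of totals

`linW_of` : the input `LinW`. -/

namespace Pool.Agent.H44.FM.Wi

open Pool.Agent.Q1 Pool.Agent.H33.Q1 Pool.Agent.H74.R45
open Pool.Agent.H44.FM.WG (Gr)
open Pool.Agent.H44.FM.WG.Gr
open Pool.Agent.H44.FM.Br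
open Pool.Agent.Q1.M6e (Lk LC La LC_sum norm_wa norm_one_sub_wa sumL_lk sumU_lk)
open Pool.Agent.Q1.M6e.Wn (CaseW wS sz swn)
open Pool.Agent.H46.Sp (Win)
open Pool.Agent.H74.Win
open Pool.Agent.H64.Q1 (wa)
open Pool.Agent.H31.Sp (CoarseC Kp totG sG sL_grp)
open Pool.Agent.H13.Sp (colp FR FR_eq)
open Pool.Agent.H40.Sp (NatS)
open Pool.Agent.H30.Sp (Few sL frz frz_sub natS_false natS_true X0_near Xh_near tie_RC)
open Pool.Agent.H20.Sp (GC lev_C card_GC)
open Pool.Agent.Q1.M6b.ABW (PotT)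

/-- the weights of the line by groups -/
lemma sG_tL (p : Bool) (N : ℕ) (g : Gr) : sG p (wa (uN N)) (wa (uN N + Real.pi / 2))
    (wa (uN N - Real.pi / 2)) g = tL p N g := by
  have hp := Real.pi_pos
  have key : ∀ x : ℝ, 0 ≤ x → x ≤ Real.pi →
      wa ((x : ℂ) + ((Real.log N : ℝ) : ℂ) * Complex.I) * (1 - wa ((x : ℂ) + ((Real.log N : ℝ) : ℂ) *
        Complex.I)) = swn N (x : ℂ) := by
    intro x h0 h1
    have hre : ((x : ℂ) + ((Real.log N : ℝ) : ℂ) * Complex.I).re = x := by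
      rw [Complex.add_re, Complex.ofReal_re, Complex.mul_re, Complex.ofReal_re, Complex.ofReal_im,
        Complex.I_re, Complex.I_im]
      ring
    unfold swn
    rw [Pool.Agent.Q1.M6e.sw_wa (by rw [hre]; exact h0) (by rw [hre]; exact h1)]
  have e1 : uN N + (Real.pi : ℂ) / 2 = ((Real.pi : ℝ) : ℂ) + ((Real.log N : ℝ) : ℂ) * Complex.I := by
    unfold uN; push_cast; ring
  have e2 : uN N - (Real.pi : ℂ) / 2 = ((0 : ℝ) : ℂ) + ((Real.log N : ℝ) : ℂ) * Complex.I := by
    unfold uN; push_cast; ring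
  have e3 : uN N = ((Real.pi / 2 : ℝ) : ℂ) + ((Real.log N : ℝ) : ℂ) * Complex.I := rfl
  have k1 := key Real.pi hp.le le_rfl
  have k2 := key 0 le_rfl hp.le
  have k3 := key (Real.pi / 2) (by linarith) (by linarith)
  rw [← e1] at k1
  rw [← e2] at k2
  rw [← e3] at k3
  have z : ((0 : ℝ) : ℂ) = 0 := Complex.ofReal_zero
  rw [z] at k2
  unfold tL
  cases p <;> cases g <;> simp only [sG, arcG, hd, Finset.mem_insert, Finset.mem_singleton,
    reduceCtorEq, or_self, or_false, or_true, if_true, if_false] <;> first | rfl | assumption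

lemma uN_re (N : ℕ) : (uN N).re = Real.pi / 2 := by
  unfold uN
  rw [Complex.add_re, Complex.ofReal_re, Complex.mul_re, Complex.ofReal_re, Complex.ofReal_im,
    Complex.I_re, Complex.I_im]
  ring

lemma qs_congr {D : Win} {p : Bool} {s s' : Pool.Agent.H42.Sp.Ix → ℂ}
    (h : ∀ k, CA D p k → s k = s' k) : qs D p s = qs D p s' := by
  funext e
  unfold qs
  split_ifs with h1 h2
  · exact h _ h1.choose_spec.1
  · rw [h _ h1.choose_spec.1]
  · rfl

/-- the totals of a window with the weights of the line -/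
lemma tot_line {D : Win} (O : OutB D) {n H : ℤ} {A B : ℤ → ℤ} {YP YQ : ℤ} {CL CR : ℤ → Bool}
    (C : CoarseC D n H A B YP YQ CL CR) (hn : 30 ≤ n) (p : Bool) {s0 L m : ℤ}
    (hcut : colp D (s0 - 1) ≠ colp D s0) {S : Finset (ℤ × ℤ)} (hS : S ⊆ FR D p) (hS' : S ⊆ FZ D p)
    (w0 : Kp H A B) (a b : ℤ × ℤ) (N : ℕ) :
    (caseD O n H A B p s0 L m S hS w0 a b).tot (fun w : Kp H A B => tL p N (gE YP YQ w.1)) =
      ∑ z ∈ LC a.1 a.2 b.1 b.2, La a.1 a.2 b.1 b.2 z * (Pool.Agent.H74.Win.XA O p S hS').incW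
        (qs D p (sL D p (wa (uN N)) (wa (uN N + Real.pi / 2)) (wa (uN N - Real.pi / 2)))) z := by
  rw [totG O C hn p s0 L m hcut S hS w0 a b (tL p N)]
  have e : qs D p (fun k => tL p N (grp D p k)) = qs D p (sL D p (wa (uN N))
      (wa (uN N + Real.pi / 2)) (wa (uN N - Real.pi / 2))) := by
    refine qs_congr fun k hk => ?_
    rw [sL_grp (by rw [Pool.Agent.H13.Sp.CA_iff]; exact hk), sG_tL]
  rw [e]
  refine Finset.sum_congr rfl fun z _ => ?_
  rw [Pool.Agent.H13.Sp.XA_eq]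

/-- **The input `LinW`.** -/
theorem linW_of {R : ℕ → ℕ} {F : Filter ℕ} {D : ℕ → Win} {H : ℤ} {A B : ℤ → ℤ} {YP YQ : ℤ}
    {s0 : ℕ → ℤ} (hR : Tendsto R F atTop) (hC : SeqC R F D H A B YP YQ s0) (O : ∀ j, OutB (D j))
    (w0 : Kp H A B) : LinW R F O s0 YP YQ w0 := by
  refine ⟨4 ^ (8 * (6 * (3 * (H.toNat + 1)) + 30)), ?_⟩
  filter_upwards [hC.co, hC.cut, hR.eventually_ge_atTop 30] with j h1 h2 h3 p L m a b hL N hN ζ M hM
  obtain ⟨CL, CR, C⟩ := h1
  have h30 : (30 : ℤ) ≤ (R j : ℤ) := by exact_mod_cast h3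
  have hFew : Few (D j) (GC (D j) (R j) H) := (lev_C C).ab
  have hcard : (GC (D j) (R j) H).card ≤ 3 * (H.toNat + 1) :=
    card_GC C.HH.le (by have := C.HH; omega)
  have hp := Real.pi_pos
  have re := uN_re N
  have re1 : (uN N + (Real.pi : ℂ) / 2).re = Real.pi := by
    rw [show (Real.pi : ℂ) / 2 = ((Real.pi / 2 : ℝ) : ℂ) by push_cast; ring, Complex.add_re,
      Complex.ofReal_re, re]; ring
  have re2 : (uN N - (Real.pi : ℂ) / 2).re = 0 := by
    rw [show (Real.pi : ℂ) / 2 = ((Real.pi / 2 : ℝ) : ℂ) by push_cast; ring, Complex.sub_re,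
      Complex.ofReal_re, re]; ring
  have na := norm_wa (z := uN N) (by linarith) (by linarith)
  have na' := norm_one_sub_wa (z := uN N) (by linarith) (by linarith)
  have nb := norm_wa (z := uN N + Real.pi / 2) (by linarith) (by linarith)
  have nc := norm_wa (z := uN N - Real.pi / 2) (by linarith) (by linarith)
  have nc' := norm_one_sub_wa (z := uN N - Real.pi / 2) (by linarith) (by linarith)
  have hz : ∀ z ∈ LC a.1 a.2 b.1 b.2, ∀ k, CA (D j) p k → ¬ Pool.Agent.H13.R45.Ag k.2 z :=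
    fun z hz k hk => tie_RC (rc_path le_rfl hL hz) k hk
  have hM0 : 0 ≤ M := (norm_nonneg _).trans (hM (Snat (D j) p) (by rw [FR_eq]; exact Snat_sub) natS_Snat)
  have pw : ∀ x : ℝ, 0 ≤ x → (4 : ℝ) ^ (8 * (6 * (GC (D j) (R j) H).card + 30)) * x ≤
      4 ^ (8 * (6 * (3 * (H.toNat + 1)) + 30)) * x := fun x hx =>
    mul_le_mul_of_nonneg_right (pow_le_pow_right₀ (by norm_num) (by omega)) hx
  cases p with
  | false =>
    have key := X0_near (O j) (Cs := LC a.1 a.2 b.1 b.2) (La := La a.1 a.2 b.1 b.2) (ζ := ζ) (B := M)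
      hFew na na' nb nc nc' hz fun S hS => by
        have k1 := hM (frz (O j) false 0 S) (by rw [FR_eq]; exact frz_sub _ _ _ _)
          (natS_false (O j) hS)
        rwa [tot_line (O j) C h30 false h2 _ (frz_sub _ _ _ _)] at k1
    refine le_trans ?_ (key.trans (pw M hM0))
    have hP := potT_HL (O j) false N
    unfold PotT at hP
    simp only [Bool.false_eq_true, if_false] at hP
    have hLk : Lk (Pool.Agent.Q1.M6e.InP (D j)) 1 a b := hL.imp fun x y h => by
      unfold InP at h; simpa [Pool.Agent.Q1.M6e.InP] using h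
    have k2 := sumL_lk hP le_rfl hLk
    have k3 : ∑ z ∈ LC a.1 a.2 b.1 b.2, La a.1 a.2 b.1 b.2 z *
        (Pool.Agent.H46.Sp.Win.XJ (O j).out 0 le_rfl).incW ((D j).qJ 0 (wa (uN N))
          (wa (uN N + Real.pi / 2)) (wa (uN N - Real.pi / 2))) z = HL (O j) false N a.1 a.2 -
            HL (O j) false N b.1 b.2 := by
      rw [← show Pool.Agent.Q1.M6e.inc2 (HL (O j) false N) a b = HL (O j) false N a.1 a.2 -
            HL (O j) false N b.1 b.2 from rfl, ← k2]
      refine Finset.sum_congr rfl fun z _ => ?_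
      rw [FW_eq le_rfl]
    rw [k3]
  | true =>
    have hh : 0 ≤ (D j).h := by have := (D j).hh; omega
    have key := Xh_near (O j) (Cs := LC a.1 a.2 b.1 b.2) (La := La a.1 a.2 b.1 b.2) (ζ := ζ) (B := M)
      hh hFew na na' nb nc nc' hz fun S hS => by
        have k1 := hM (frz (O j) true (D j).h S) (by rw [FR_eq]; exact frz_sub _ _ _ _)
          (natS_true (O j) hS)
        rwa [tot_line (O j) C h30 true h2 _ (frz_sub _ _ _ _)] at k1
    refine le_trans ?_ (key.trans (pw M hM0))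
    have hP := potT_HL (O j) true N
    unfold PotT at hP
    simp only [if_true] at hP
    have hLk : Lk (Pool.Agent.Q1.M6e.InQ (D j)) 1 a b := hL.imp fun x y h => by
      unfold InP at h
      rw [sh_true] at h
      unfold Pool.Agent.Q1.M6e.InQ
      omega
    have k2 := sumU_lk hP le_rfl hLk
    have k3 : ∑ z ∈ LC a.1 a.2 b.1 b.2, La a.1 a.2 b.1 b.2 z *
        (Pool.Agent.H46.Sp.Win.XJ (O j).out (D j).h hh).incW ((D j).qJ (D j).h (wa (uN N))
          (wa (uN N + Real.pi / 2)) (wa (uN N - Real.pi / 2))) z = HL (O j) true N a.1 a.2 -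
            HL (O j) true N b.1 b.2 := by
      rw [← show Pool.Agent.Q1.M6e.inc2 (HL (O j) true N) a b = HL (O j) true N a.1 a.2 -
            HL (O j) true N b.1 b.2 from rfl, ← k2]
      refine Finset.sum_congr rfl fun z _ => ?_
      rw [FW_eq hh]
    rw [k3]

end Pool.Agent.H44.FM.Wi
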