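import Pool.Agent.H95.R45.Fin
import Pool.Agent.H44.FM.Br4

set_option autoImplicit false

/-! # `Hol3` for a shape from the windows, the results of stage 1 plugged in -/

namespace Pool.Agent.H44.FM.Br

open Pool.Agent.Q1.M6e.Wn (CaseW FineP HVP)
open Pool.Agent.H21.FM (Shape Hol3)

/-- **`Hol3` for a shape from `FineP`, `HVP` and `ShapeBr`.** -/
theorem hol3_br {P : ℝ → ℕ → CaseW → Prop} (hF : FineP P) (hH : HVP P) {S : Shape}
    (hS : ShapeBr P S) : Hol3 S :=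
  hol3_of_br Pool.Agent.Q1.M6e.fine45 Pool.Agent.Q1.M6e.hv45 Pool.Agent.H95.R45.dlF
    Pool.Agent.Q1.M6b.AB.ab45 Pool.Agent.H95.R45.c45 Pool.Agent.H95.R45.n45 Pool.Agent.H95.R45.m45
    hF hH hS

end Pool.Agent.H44.FM.Br
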