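import Mathlib
import Pool.Agent.H44.FM.Cvx
import Pool.Agent.H44.FM.QuadArm
import Pool.Agent.H21.FM.Common
import Pool.Agent.H21.FM.Index
import Pool.Agent.H42.FM.Ray
import Pool.Agent.H44.FM.Comb0

set_option autoImplicit false
open Finset

/-! # Arms at a convex corner: free/free and wired/wired -/

namespace Pool.Agent.H44.FM

open Pool.Agent.H75.Perc hiding WL CT hh ph EE sh
open Pool.Agent.H75.TwoArm Pool.Agent.H75.Four Pool.Agent.H69.Q1 Pool.Agent.Q1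
open Pool.Agent.H33.Q1 Pool.Agent.H21.FM Pool.Agent.H42.FM
open Pool.Agent.Q1.M4 (Cell IsSide PType)
open Pool.Agent.H60.Q1 (Near Far)
open Pool.Agent.H99.NC (BR)
open Pool.Agent.H20.Q1 (BR_mono)

/-- exceptional arms at a convex corner -/
def XC (E : Finset (ℤ × ℤ)) (k : ℤ) (w : ℤ × ℤ) (ρ R : ℤ) (ω : Finset (ℤ × ℤ)) : Prop :=
  UA k w ρ R ω ∨ UA k (w - dir (k + 1)) (ρ + 2) (R - 2) (du E ω)

/-- vertex, face and labels of a corner -/
lemma lab_pos {z l : ℤ × ℤ} (hl : l = lab z ∨ l = plab z) :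
    (l.1 + l.2) % 2 = 1 ∧ (-1 ≤ l.1 - 2 * (vx z).1 ∧ l.1 - 2 * (vx z).1 ≤ 1 ∧
      -1 ≤ l.2 - 2 * (vx z).2 ∧ l.2 - 2 * (vx z).2 ≤ 1) ∧
    (-1 ≤ l.1 + 1 - 2 * (fi z).1 ∧ l.1 + 1 - 2 * (fi z).1 ≤ 1 ∧
      -1 ≤ l.2 + 1 - 2 * (fi z).2 ∧ l.2 + 1 - 2 * (fi z).2 ≤ 1) := by
  obtain ⟨a, b⟩ := z
  rcases hl with rfl | rfl
  · unfold lab vx fi
    simp only
    split_ifs <;> simp only <;> omega
  · unfold plab vx fi
    simp only
    split_ifs <;> simp only <;> omega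

lemma fi_near (z : ℤ × ℤ) : 0 ≤ (fi z).1 - (vx z).1 ∧ (fi z).1 - (vx z).1 ≤ 1 ∧
    0 ≤ (fi z).2 - (vx z).2 ∧ (fi z).2 - (vx z).2 ≤ 1 := by
  unfold fi vx
  simp only
  omega

lemma lab_BR {w z l : ℤ × ℤ} {ρ : ℤ} (hl : l = lab z ∨ l = plab z) (hn : Near w ρ (vx z)) :
    l ∈ BR w (ρ + 1) := by
  obtain ⟨h1, h2, -⟩ := lab_pos hl
  unfold Near at hn
  rw [abs_le, abs_le] at hn
  rw [mem_BR]
  omega

lemma lab_vx {k : ℤ} {w z l : ℤ × ℤ} (hl : l = lab z ∨ l = plab z) (hd : dK k w l) :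
    cr k w ≤ cr k (vx z) ∧ cr (k + 1) w ≤ cr (k + 1) (vx z) := by
  obtain ⟨h1, h2, -⟩ := lab_pos hl
  unfold dK at hd
  rcases cr_all k with ⟨-, e, f⟩ | ⟨-, e, f⟩ | ⟨-, e, f⟩ | ⟨-, e, f⟩ <;>
  rw [e, e, f, f] at hd ⊢ <;> omega

lemma lab_fi {k : ℤ} {w z l : ℤ × ℤ} (hl : l = lab z ∨ l = plab z) (hd : dK k w l) :
    2 * cr k w ≤ 2 * cr k (fi z) - cr k (1, 1) ∧
      2 * cr (k + 1) w ≤ 2 * cr (k + 1) (fi z) - cr (k + 1) (1, 1) := by
  obtain ⟨h1, -, h2⟩ := lab_pos hl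
  unfold dK at hd
  rcases cr_all k with ⟨-, e, f⟩ | ⟨-, e, f⟩ | ⟨-, e, f⟩ | ⟨-, e, f⟩ <;>
  simp only [e, f] at hd ⊢ <;> omega

variable {Q : Finset Cell} {s : Cell × ℤ} {h : ℕ} {ω W : Finset (ℤ × ℤ)} {z : ℤ × ℤ} {ρ : ℤ}

/-- the diagonal label -/
lemma eq_diag {k : ℤ} {w l : ℤ × ℤ} (h1 : cr k l = 2 * cr k w - 1)
    (h2 : cr (k + 1) l = 2 * cr (k + 1) w - 1) : l = ql w (k - 1) := by
  unfold ql
  rw [dir_pred]
  rcases cr_all k with ⟨⟨a, b⟩, e, f⟩ | ⟨⟨a, b⟩, e, f⟩ | ⟨⟨a, b⟩, e, f⟩ | ⟨⟨a, b⟩, e, f⟩ <;>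
  rw [e, e] at h1 <;> rw [f, f] at h2 <;> rw [b] <;> refine Prod.ext ?_ ?_ <;>
  simp only [Prod.fst_add, Prod.snd_add, Prod.fst_neg, Prod.snd_neg] <;> omega

/-- **free/free corner** -/
theorem ua_free (hC : Cv Q s) (hh : 2 < h) (hω : ω ⊆ TL Q (2 * h)) (hdW : Disjoint (TL Q (2 * h)) W)
    {s' : Cell × ℤ} (e1 : s'.1 = s.1) (e2 : (s'.2 - s.2 + 1) % 4 = 0)
    (hf : Disjoint (LY (2 * h) s) W) (hf' : Disjoint (LY (2 * h) s') W)
    (hdg : ql (wv h s 0) (s.2 - 1) ∉ W) (hρ : ρ < h - 2)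
    (hz : lab z ∈ TL Q (2 * h) ∨ plab z ∈ TL Q (2 * h))
    (hn : Near (wv h s 0) ρ (vx z)) {v : ℤ × ℤ} (hv : Far (wv h s 0) (h - 2) v)
    (hc : Co (ω ∪ W) (vx z) v) : UA s.2 (wv h s 0) ρ (h - 2) ω := by
  have hX : cr s.2 (wv h s 0) ≤ cr s.2 (vx z) ∧
      cr (s.2 + 1) (wv h s 0) ≤ cr (s.2 + 1) (vx z) := by
    have : ∃ l, (l = lab z ∨ l = plab z) ∧ l ∈ TL Q (2 * h) := by
      rcases hz with g | g
      · exact ⟨_, Or.inl rfl, g⟩
      · exact ⟨_, Or.inr rfl, g⟩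
    obtain ⟨l, hl, hlE⟩ := this
    exact lab_vx hl ((hC.mem_TL (by omega) (BR_mono (by omega) (lab_BR hl hn))).1 hlE)
  obtain ⟨v', hv', hc'⟩ := conf (η := ω ∪ W) (η' := ω) (k := s.2) (w := wv h s 0) (R := h - 2)
    (X := fun y => cr s.2 (wv h s 0) ≤ cr s.2 y ∧ cr (s.2 + 1) (wv h s 0) ≤ cr (s.2 + 1) y)
    (u := vx z) (v := v) (by
      intro a b hab hXa hFa
      have hB : a + b ∈ BR (wv h s 0) (h - 1) := by
        have h5 := unit_cases hab.1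
        rw [mem_BR]
        simp only [Prod.fst_add, Prod.snd_add]
        unfold Far at hFa
        rw [not_or, not_le, not_le, abs_lt, abs_lt] at hFa
        omega
      have hB' : a + b ∈ BR (wv h s 0) h := BR_mono (by omega) hB
      by_cases hd : dK s.2 (wv h s 0) (a + b)
      · have hE := (hC.mem_TL (by omega) hB').2 hd
        have hω' : a + b ∈ ω := by
          rcases mem_union.1 hab.2 with g | g
          · exact g
          · exact absurd g (disjoint_left.1 hdW hE)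
        exact ⟨hω', hd, fun _ => (dK_ends hab.1 hd).2⟩
      · exfalso
        have hW : a + b ∈ W := by
          rcases mem_union.1 hab.2 with g | g
          · exact absurd ((hC.mem_TL (by omega) hB').1 (hω g)) hd
          · exact g
        obtain ⟨u1, u2⟩ := cr_unit s.2 hab.1
        have c1 : cr s.2 (a + b) = cr s.2 a + cr s.2 b := cr_add _ _ _
        have c2 : cr (s.2 + 1) (a + b) = cr (s.2 + 1) a + cr (s.2 + 1) b := cr_add _ _ _
        unfold dK at hd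
        by_cases hA : 2 * cr s.2 (wv h s 0) ≤ cr s.2 (a + b)
        · have hBn : cr (s.2 + 1) (a + b) = 2 * cr (s.2 + 1) (wv h s 0) - 1 := by
            have : ¬ 2 * cr (s.2 + 1) (wv h s 0) ≤ cr (s.2 + 1) (a + b) := fun g => hd ⟨hA, g⟩
            omega
          exact disjoint_left.1 hf (LY_of1 (by omega) hB hBn hA) hW
        · have hAn : cr s.2 (a + b) = 2 * cr s.2 (wv h s 0) - 1 := by omega
          by_cases hBd : 2 * cr (s.2 + 1) (wv h s 0) ≤ cr (s.2 + 1) (a + b)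
          · exact disjoint_left.1 hf' (LY_of2 (by omega) hB hAn hBd e1 e2) hW
          · have hBn : cr (s.2 + 1) (a + b) = 2 * cr (s.2 + 1) (wv h s 0) - 1 := by omega
            rw [eq_diag hAn hBn] at hW
            exact hdg hW) hX hv hc
  exact UA_of hρ hn hv' hc'

/-- face inside the closed quadrant -/
def XF (k : ℤ) (w f : ℤ × ℤ) : Prop := 2 * cr k w ≤ 2 * cr k f - cr k (1, 1) ∧
  2 * cr (k + 1) w ≤ 2 * cr (k + 1) f - cr (k + 1) (1, 1)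

/-- **wired/wired corner** -/
theorem ua_wired (hC : Cv Q s) (hh : 6 < h) {s' : Cell × ℤ} (e1 : s'.1 = s.1)
    (e2 : (s'.2 - s.2 + 1) % 4 = 0) (hf : LY (2 * h) s ⊆ W) (hf' : LY (2 * h) s' ⊆ W)
    (hρ : ρ < h - 6) (hz : lab z ∈ TL Q (2 * h) ∨ plab z ∈ TL Q (2 * h))
    (hn : Near (wv h s 0) ρ (vx z)) {f : ℤ × ℤ} (hv : Far (wv h s 0 - dir (s.2 + 1)) (h - 4) f)
    (hc : DCo (ω ∪ W) (fi z) f) :
    UA s.2 (wv h s 0 - dir (s.2 + 1)) (ρ + 2) (h - 4) (du (TL Q (2 * h)) ω) := by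
  have hX : XF s.2 (wv h s 0) (fi z) := by
    have : ∃ l, (l = lab z ∨ l = plab z) ∧ l ∈ TL Q (2 * h) := by
      rcases hz with g | g
      · exact ⟨_, Or.inl rfl, g⟩
      · exact ⟨_, Or.inr rfl, g⟩
    obtain ⟨l, hl, hlE⟩ := this
    exact lab_fi hl ((hC.mem_TL (by omega) (BR_mono (by omega) (lab_BR hl hn))).1 hlE)
  have hwd : (-1 ≤ (dir (s.2 + 1)).1 ∧ (dir (s.2 + 1)).1 ≤ 1 ∧ -1 ≤ (dir (s.2 + 1)).2 ∧
      (dir (s.2 + 1)).2 ≤ 1) ∧ cr s.2 (dir (s.2 + 1)) = 1 ∧ cr (s.2 + 1) (dir (s.2 + 1)) = 1 ∧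
      cr s.2 (1, 1) + 2 ≥ 0 ∧ cr (s.2 + 1) (1, 1) + 2 ≥ 0 := by
    rcases cr_all s.2 with ⟨⟨a, b⟩, e, f⟩ | ⟨⟨a, b⟩, e, f⟩ | ⟨⟨a, b⟩, e, f⟩ | ⟨⟨a, b⟩, e, f⟩ <;>
    rw [b, e, f, e, f] <;> simp
  obtain ⟨⟨w1, w2, w3, w4⟩, w5, w6, w7, w8⟩ := hwd
  obtain ⟨F, hF⟩ := hc
  have hcw : cr s.2 (wv h s 0 - dir (s.2 + 1)) = cr s.2 (wv h s 0) - 1 ∧
      cr (s.2 + 1) (wv h s 0 - dir (s.2 + 1)) = cr (s.2 + 1) (wv h s 0) - 1 := by
    have g1 := cr_add s.2 (wv h s 0 - dir (s.2 + 1)) (dir (s.2 + 1))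
    have g2 := cr_add (s.2 + 1) (wv h s 0 - dir (s.2 + 1)) (dir (s.2 + 1))
    rw [sub_add_cancel] at g1 g2
    omega
  obtain ⟨v', hv', hc'⟩ := conf (η := du F (ω ∪ W)) (η' := du (TL Q (2 * h)) ω) (k := s.2)
    (w := wv h s 0 - dir (s.2 + 1)) (R := h - 4) (X := XF s.2 (wv h s 0)) (u := fi z) (v := f) (by
      intro a b hab hXa hFa
      have hel := Pool.Agent.H65.Dom.mem_du_iff'.1 hab.2
      set e := a + b - (1, 1) with he
      have heW : e ∉ W := fun g => hel.2 (mem_union_right _ g)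
      have heω : e ∉ ω := fun g => hel.2 (mem_union_left _ g)
      have hab' : a + b = e + (1, 1) := by rw [he, sub_add_cancel]
      have hB : e ∈ BR (wv h s 0) (h - 1) := by
        have h5 := unit_cases hab.1
        rw [mem_BR, he]
        simp only [Prod.fst_add, Prod.snd_add, Prod.fst_sub, Prod.snd_sub]
        unfold Far at hFa
        rw [not_or, not_le, not_le, abs_lt, abs_lt] at hFa
        simp only [Prod.fst_sub, Prod.snd_sub] at hFa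
        omega
      have hB' : e ∈ BR (wv h s 0) h := BR_mono (by omega) hB
      obtain ⟨u1, u2⟩ := cr_unit s.2 hab.1
      have c1 : cr s.2 e + cr s.2 (1, 1) = cr s.2 a + cr s.2 b := by
        rw [← cr_add, ← cr_add, hab']
      have c2 : cr (s.2 + 1) e + cr (s.2 + 1) (1, 1) = cr (s.2 + 1) a + cr (s.2 + 1) b := by
        rw [← cr_add, ← cr_add, hab']
      have hodd : cr s.2 e % 2 = 1 ∧ cr (s.2 + 1) e % 2 = 1 := by
        have := (mem_BR.1 hB).2.2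
        rcases cr_all s.2 with ⟨-, e, f⟩ | ⟨-, e, f⟩ | ⟨-, e, f⟩ | ⟨-, e, f⟩ <;> rw [e, f] <;> omega
      unfold XF at hXa
      by_cases hd : dK s.2 (wv h s 0) e
      · have hE := (hC.mem_TL (by omega) hB').2 hd
        unfold dK at hd
        refine ⟨Pool.Agent.H65.Dom.mem_du_iff'.2 ⟨by rw [← he]; exact hE, by rw [← he]; exact heω⟩, ?_, fun _ => ?_⟩
        · unfold dK
          rw [hcw.1, hcw.2, hab', cr_add, cr_add]
          omega
        · unfold XF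
          omega
      · exfalso
        unfold dK at hd
        by_cases hA : 2 * cr s.2 (wv h s 0) ≤ cr s.2 e
        · have hBn : cr (s.2 + 1) e = 2 * cr (s.2 + 1) (wv h s 0) - 1 := by
            have : ¬ 2 * cr (s.2 + 1) (wv h s 0) ≤ cr (s.2 + 1) e := fun g => hd ⟨hA, g⟩
            omega
          exact heW (hf (LY_of1 (by omega) hB hBn hA))
        · have hAn : cr s.2 e = 2 * cr s.2 (wv h s 0) - 1 := by omega
          by_cases hBd : 2 * cr (s.2 + 1) (wv h s 0) ≤ cr (s.2 + 1) e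
          · exact heW (hf' (LY_of2 (by omega) hB hAn hBd e1 e2))
          · -- the face would be at the corner vertex
            have q1 : 2 * cr s.2 a - cr s.2 (1, 1) = 2 * cr s.2 (wv h s 0) := by omega
            have q2 : 2 * cr (s.2 + 1) a - cr (s.2 + 1) (1, 1) =
                2 * cr (s.2 + 1) (wv h s 0) := by omega
            rcases cr_all s.2 with ⟨-, e, f⟩ | ⟨-, e, f⟩ | ⟨-, e, f⟩ | ⟨-, e, f⟩ <;>
            rw [e, e, e] at q1 <;> rw [f, f, f] at q2 <;> simp only at q1 q2 <;> omega) hX hv hF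
  refine UA_of (by omega) ?_ hv' hc'
  have h5 := fi_near z
  unfold Near at hn ⊢
  rw [abs_le, abs_le] at hn ⊢
  simp only [Prod.fst_sub, Prod.snd_sub]
  omega

end Pool.Agent.H44.FM
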