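import Mathlib
import Pool.Agent.H44.FM.Corner
import Pool.Agent.H44.FM.Small

set_option autoImplicit false
open Finset

/-! # The primitives at an unmarked convex corner

At a convex corner between two sides of the same kind (free/free or wired/wired), which is not a mark,
`|Ht u - Ht v| ≤ C (ρ / h) ^ (2/3) |u - v| ^ (2/3)` for `u, v` at distance at most `ρ` of the corner. -/

namespace Pool.Agent.H44.FM

open Pool.Agent.H75.Perc hiding WL CT hh ph EE sh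
open Pool.Agent.H75.TwoArm Pool.Agent.H75.Four Pool.Agent.H69.Q1 Pool.Agent.Q1
open Pool.Agent.H33.Q1 Pool.Agent.H21.FM Pool.Agent.H42.FM Pool.Agent.H76.FM
open Pool.Agent.Q1.M4 (Cell IsSide PType tail RegBound lat)
open Pool.Agent.H60.Q1 (Near Far)
open Pool.Agent.H99.NC
open Pool.Agent.Q1.M6c (PlaneK PlaneEnv planeK_freeze)

theorem XC_prob : ∃ C : ℝ, 0 < C ∧ ∀ (E : Finset (ℤ × ℤ)) (k : ℤ) (w : ℤ × ℤ) (h ρ : ℕ), 1 ≤ ρ →
    8 ≤ h → Pr E (XC E k w ρ (h - 2)) ≤ C * ((ρ : ℝ) / h) ^ (2 / 3 : ℝ) := by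
  obtain ⟨C1, hC1, h1⟩ := quad_arm
  obtain ⟨C2, hC2, h2⟩ := quad_arm_dual
  refine ⟨6 * (C1 + C2 + 2), by positivity, fun E k w h ρ hρ hh => ?_⟩
  have hρ' : (1 : ℝ) ≤ ρ := by exact_mod_cast hρ
  have hh' : (8 : ℝ) ≤ h := by exact_mod_cast hh
  have hX : 0 ≤ ((ρ : ℝ) / h) ^ (2 / 3 : ℝ) := by positivity
  -- comparison of the ratios
  have comp : ∀ a b : ℝ, 0 ≤ a → 0 < b → a / b ≤ 6 * ((ρ : ℝ) / h) →
      (a / b) ^ (2 / 3 : ℝ) ≤ 6 * ((ρ : ℝ) / h) ^ (2 / 3 : ℝ) := by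
    intro a b ha hb hab
    have e1 : (a / b) ^ (2 / 3 : ℝ) ≤ (6 * ((ρ : ℝ) / h)) ^ (2 / 3 : ℝ) :=
      Real.rpow_le_rpow (by positivity) hab (by norm_num)
    refine e1.trans ?_
    rw [Real.mul_rpow (by norm_num) (by positivity)]
    refine mul_le_mul_of_nonneg_right ?_ hX
    calc (6 : ℝ) ^ (2 / 3 : ℝ) ≤ (6 : ℝ) ^ (1 : ℝ) :=
          Real.rpow_le_rpow_of_exponent_le (by norm_num) (by norm_num)
      _ = 6 := Real.rpow_one 6
  have hsplit : Pr E (XC E k w ρ (h - 2)) ≤ Pr E (UA k w ρ (h - 2)) +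
      Pr E (fun ω => UA k (w - dir (k + 1)) (ρ + 2) (h - 2 - 2) (du E ω)) := Pr_or_le _ _ _
  refine hsplit.trans ?_
  by_cases hbig : ρ + 6 ≤ h
  · have a1 : Pr E (UA k w ρ (h - 2)) ≤ C1 * (6 * ((ρ : ℝ) / h) ^ (2 / 3 : ℝ)) := by
      have b1 := h1 k w ρ (h - 2) E hρ (by omega)
      have e : ((h - 2 : ℕ) : ℤ) = h - 2 := by omega
      rw [e] at b1
      refine (Pr_mono fun ω _ hω => hω.qa).trans (b1.trans ?_)
      refine mul_le_mul_of_nonneg_left (comp _ _ (by positivity) ?_ ?_) hC1.le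
      · have : 0 < h - 2 := by omega
        exact_mod_cast this
      · rw [Nat.cast_sub (by omega)]
        push_cast
        have : (h : ℝ) / 6 ≤ h - 2 := by linarith
        calc (ρ : ℝ) / (h - 2) ≤ ρ / (h / 6) :=
              div_le_div_of_nonneg_left (by positivity) (by positivity) this
          _ = 6 * (ρ / h) := by field_simp
    have a2 : Pr E (fun ω => UA k (w - dir (k + 1)) (ρ + 2) (h - 2 - 2) (du E ω)) ≤
        C2 * (6 * ((ρ : ℝ) / h) ^ (2 / 3 : ℝ)) := by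
      have b1 := h2 k (w - dir (k + 1)) (ρ + 2) (h - 4) E (by omega) (by omega)
      have e : ((h - 4 : ℕ) : ℤ) = h - 2 - 2 := by omega
      have e' : ((ρ + 2 : ℕ) : ℤ) = ρ + 2 := by push_cast; ring
      rw [e, e'] at b1
      refine (Pr_mono fun ω _ hω => UA.qa hω).trans (b1.trans ?_)
      refine mul_le_mul_of_nonneg_left (comp _ _ (by positivity) ?_ ?_) hC2.le
      · have : 0 < h - 4 := by omega
        exact_mod_cast this
      · rw [Nat.cast_sub (by omega)]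
        push_cast
        have g1 : (h : ℝ) / 2 ≤ h - 4 := by linarith
        have g2 : (ρ : ℝ) + 2 ≤ 3 * ρ := by linarith
        calc ((ρ : ℝ) + 2) / (h - 4) ≤ (3 * ρ) / (h / 2) :=
              div_le_div₀ (by positivity) g2 (by positivity) g1
          _ = 6 * (ρ / h) := by field_simp; ring
    have : 0 ≤ 6 * ((ρ : ℝ) / h) ^ (2 / 3 : ℝ) := by positivity
    calc _ ≤ C1 * (6 * ((ρ : ℝ) / h) ^ (2 / 3 : ℝ)) + C2 * (6 * ((ρ : ℝ) / h) ^ (2 / 3 : ℝ)) :=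
          add_le_add a1 a2
      _ ≤ _ := by nlinarith
  · push Not at hbig
    have e1 : (h : ℝ) ≤ ρ + 5 := by
      have : h ≤ ρ + 5 := by omega
      exact_mod_cast this
    have e2 : (1 : ℝ) / 6 ≤ (ρ : ℝ) / h := by
      rw [div_le_div_iff₀ (by norm_num) (by linarith)]
      linarith
    have e3 : (1 : ℝ) / 6 ≤ ((ρ : ℝ) / h) ^ (2 / 3 : ℝ) := by
      calc (1 : ℝ) / 6 ≤ (1 / 6 : ℝ) ^ (2 / 3 : ℝ) := by
            conv_lhs => rw [← Real.rpow_one (1 / 6 : ℝ)]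
            exact Real.rpow_le_rpow_of_exponent_ge (by norm_num) (by norm_num) (by norm_num)
        _ ≤ _ := Real.rpow_le_rpow (by norm_num) e2 (by norm_num)
    refine (add_le_add (Pr_le_one _ _) (Pr_le_one _ _)).trans ?_
    nlinarith

/-- different vertices of the polygon are far from each other -/
theorem vert_far {h : ℕ} {s s' : Cell × ℤ} (hne : tail s' ≠ tail s) :
    Far (wv h s 0) h (wv h s' 0) := by
  have e1 : (wv h s' 0).1 - (wv h s 0).1 = h * (((tail s').1 - (tail s).1) -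
      ((tail s').2 - (tail s).2)) := by
    unfold wv
    simp only [Nat.cast_zero, zero_mul, add_zero]
    ring
  have e2 : (wv h s' 0).2 - (wv h s 0).2 = h * (((tail s').1 - (tail s).1) +
      ((tail s').2 - (tail s).2)) := by
    unfold wv
    simp only [Nat.cast_zero, zero_mul, add_zero]
    ring
  have hz : (0 : ℤ) ≤ h := Int.natCast_nonneg h
  unfold Far
  rw [e1, e2, abs_mul, abs_mul, abs_of_nonneg hz]
  have hD : ((tail s').1 - (tail s).1) - ((tail s').2 - (tail s).2) ≠ 0 ∨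
      ((tail s').1 - (tail s).1) + ((tail s').2 - (tail s).2) ≠ 0 := by
    by_contra hcon
    push Not at hcon
    apply hne
    refine Prod.ext ?_ ?_ <;> omega
  rcases hD with hD | hD
  · left
    have := Int.one_le_abs hD
    nlinarith
  · right
    have := Int.one_le_abs hD
    nlinarith

/-- an unmarked convex corner, between the sides `i` and `i + 1` -/
structure UC (S : Shape) (i : ℕ) : Prop where
  cvx : S.P.side (i + 1) = ((S.P.side i).1, (S.P.side i).2 + 1)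
  same : (S.Fr i ∧ S.Fr (i + 1)) ∨ (S.Wd i ∧ S.Wd (i + 1))

variable {S : Shape} {h : ℕ}

lemma UC.lt {i : ℕ} (hU : UC S i) : i + 1 < S.N ∧ i + 1 ≠ S.m3 := by
  have := S.h02; have := S.h23; have := S.h34; have := S.m4N
  have e : S.m4 = S.P.m := rfl
  have hs := hU.same
  unfold Shape.Fr Shape.Wd at hs
  omega

lemma UC.tail_ne {i j : ℕ} (hU : UC S i) (hj : j < S.N) (hij : i + 1 ≠ j) :
    tail (S.P.side j) ≠ tail (S.P.side (i + 1)) := by
  intro h1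
  have h2 := Pool.Agent.Q1.M4.tail_inj S.P.good (isSide_side' S.P j) (isSide_side' S.P (i + 1)) h1
  exact hij (side_inj (S := S) hj hU.lt.1 h2.1 h2.2).symm

/-- **the path near an unmarked convex corner** -/
theorem corner_arms {W : Finset (ℤ × ℤ)} (hW : Wir S h W) {i : ℕ} (hU : UC S i) (hh : 8 ≤ h)
    {r : ℤ × ℤ} (hr : r = r1 S h ∨ r = r3 S h) {ω : Finset (ℤ × ℤ)} (hω : ω ⊆ EE S h) {ρ : ℤ}
    (hρ : ρ < h - 6) {z : ℤ × ℤ} (hz : lab z ∈ EE S h ∨ plab z ∈ EE S h)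
    (hn : Near (wv h (S.P.side (i + 1)) 0) ρ (vx z)) (hO : InOrb (nx (ω ∪ W)) r z) :
    XC (EE S h) (S.k (i + 1)) (wv h (S.P.side (i + 1)) 0) ρ (h - 2) ω := by
  have hlt := hU.lt
  have hN : 0 < S.N := by omega
  have hm3 : S.m3 < S.N := by
    have e : S.m4 = S.P.m := rfl
    have := S.h34
    have := S.m4N
    omega
  have hfar : Far (wv h (S.P.side (i + 1)) 0) h (vx r) := by
    rcases hr with rfl | rfl
    · unfold r1
      rw [Pool.Agent.H5.Q1.vx_oc]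
      exact vert_far (hU.tail_ne hN (by omega))
    · unfold r3
      rw [Pool.Agent.H5.Q1.vx_oc]
      exact vert_far (hU.tail_ne hm3 hlt.2)
  have hcv := cv_side S.P hU.cvx
  have e1 : (S.P.side i).1 = (S.P.side (i + 1)).1 := by rw [hU.cvx]
  have e2 : ((S.P.side i).2 - (S.P.side (i + 1)).2 + 1) % 4 = 0 := by
    rw [hU.cvx]; simp only; omega
  rcases hU.same with ⟨g1, g2⟩ | ⟨g1, g2⟩
  · left
    refine ua_free hcv (by omega) hω hW.disj e1 e2 (hW.free _ g2) (hW.free _ g1) ?_ (by omega)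
      hz hn (v := vx r) ?_ (inOrb_vx hO).symm
    · have := hW.diag i g1 g2 hU.cvx
      have e3 : (S.P.side (i + 1)).2 - 1 = S.k i := by
        rw [hU.cvx]; unfold Shape.k; simp
      rw [e3]
      exact this
    · unfold Far at hfar ⊢
      omega
  · right
    rw [show (h : ℤ) - 2 - 2 = h - 4 by ring]
    refine ua_wired (W := W) hcv (by omega) e1 e2 (hW.wired _ g2) (hW.wired _ g1) hρ hz hn
      (f := fi r) ?_ (inOrb_fi hO).symm
    have h5 := fi_near r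
    unfold Far at hfar ⊢
    simp only [Prod.fst_sub, Prod.snd_sub]
    rcases dir_cases ((S.P.side (i + 1)).2 + 1) with ⟨-, a⟩ | ⟨-, a⟩ | ⟨-, a⟩ | ⟨-, a⟩ <;>
      rw [a] <;> simp only <;> rw [le_abs, le_abs] at hfar ⊢ <;> omega

/-- visit form -/
theorem corner_visit {W : Finset (ℤ × ℤ)} (hW : Wir S h W) {i : ℕ} (hU : UC S i) (hh : 8 ≤ h)
    {r : ℤ × ℤ} (hr : r = r1 S h ∨ r = r3 S h) {k0 : ℤ} {X : Env} (hX : IsEnv S h W r k0 X)
    {ω : Finset (ℤ × ℤ)} (hω : ω ⊆ EE S h) {t : ℤ} (ht : t < h - 6)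
    (hV : VT X t (tv (wv h (S.P.side (i + 1)) 0)) ω) :
    XC (EE S h) (S.k (i + 1)) (wv h (S.P.side (i + 1)) 0) t (h - 2) ω := by
  obtain ⟨j, hj, h1, h2⟩ := hV
  obtain ⟨P, hE, hc, -⟩ := hX
  rw [hE] at h1
  refine corner_arms hW hU hh hr hω ht h1 (near_tile h2) ⟨j, ?_⟩
  rw [P.zz ω (by rw [hE]; exact hω), hc]

theorem regBound_corner (hAP : AP PlaneK) : ∃ C : ℝ, 0 < C ∧ ∀ (S : Shape) (h : ℕ)
    (W : Finset (ℤ × ℤ)), Wir S h W → ∀ r, (r = r1 S h ∨ r = r3 S h) → ∀ k0 X,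
    IsEnv S h W r k0 X → ∀ Ht, GPrim X Ht → ∀ i, UC S i → ∀ L : ℕ, 1 ≤ L → L + 9 ≤ h →
    RegBound S.P.Q (fun i => 2 * h * i) (fun i => 2 * h * i) L
      (tv (wv h (S.P.side (i + 1)) 0)) (C * ((L : ℝ) / h) ^ (2 / 3 : ℝ)) Ht := by
  obtain ⟨C0, hC0, hVF⟩ := visitForm hAP fun _ hZ _ _ _ _ ω1 _ => planeK_freeze hZ _ ω1
  obtain ⟨C1, hC1, hXP⟩ := XC_prob
  refine ⟨C0 * (3 * C1), by positivity, fun S h W hW r hr k0 X hX Ht hG i hU L hL hLh => ?_⟩
  have hhR : (0 : ℝ) < h := by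
    have : 0 < h := by omega
    exact_mod_cast this
  have hL' : (1 : ℝ) ≤ L := by exact_mod_cast hL
  have key := hVF S.P h (by omega) X ⟨W, hX.1⟩ hX.2.1 Ht hG L
    (tv (wv h (S.P.side (i + 1)) 0)) (3 * C1 * ((L : ℝ) / h) ^ (2 / 3 : ℝ)) ?_
  · have e : C0 * (3 * C1) * ((L : ℝ) / h) ^ (2 / 3 : ℝ) =
        C0 * (3 * C1 * ((L : ℝ) / h) ^ (2 / 3 : ℝ)) := by ring
    rw [e]
    exact key
  · rw [PrP_half, hX.2.1]
    have h1 := hXP (EE S h) (S.k (i + 1)) (wv h (S.P.side (i + 1)) 0) h (L + 2) (by omega)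
      (by omega)
    push_cast at h1
    refine (Pr_mono fun ω hω hV => corner_visit hW hU (by omega) hr hX hω (by omega) hV).trans
      (h1.trans ?_)
    have h2 : (((L : ℝ) + 2) / h) ^ (2 / 3 : ℝ) ≤ 3 * ((L : ℝ) / h) ^ (2 / 3 : ℝ) := by
      have e1 : ((L : ℝ) + 2) / h ≤ 3 * (L / h) := by
        rw [mul_div_assoc']
        exact div_le_div_of_nonneg_right (by linarith) hhR.le
      refine (Real.rpow_le_rpow (by positivity) e1 (by norm_num)).trans ?_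
      rw [Real.mul_rpow (by norm_num) (by positivity)]
      refine mul_le_mul_of_nonneg_right ?_ (by positivity)
      calc (3 : ℝ) ^ (2 / 3 : ℝ) ≤ (3 : ℝ) ^ (1 : ℝ) :=
            Real.rpow_le_rpow_of_exponent_le (by norm_num) (by norm_num)
        _ = 3 := Real.rpow_one 3
    calc C1 * (((L : ℝ) + 2) / h) ^ (2 / 3 : ℝ) ≤ C1 * (3 * ((L : ℝ) / h) ^ (2 / 3 : ℝ)) :=
          mul_le_mul_of_nonneg_left h2 hC1.le
      _ = _ := by ring

/-- from `RegBound` to the Hölder bound at a point -/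
lemma holder_of_reg {Q : Finset Cell} {h : ℕ} {p : ℤ × ℤ} {C : ℝ} (hC : 0 < C) {G : ℤ × ℤ → ℂ}
    {ρ : ℕ} (hh : 0 < h) (hρ : 19 * ρ ≤ h)
    (hR : RegBound Q (fun i => 2 * h * i) (fun i => 2 * h * i) (19 * ρ : ℕ) p
      (C * (((19 * ρ : ℕ) : ℝ) / h) ^ (2 / 3 : ℝ)) G) {u v : ℤ × ℤ}
    (hu : M4.inV Q (fun i => 2 * h * i) (fun i => 2 * h * i) u)
    (hv : M4.inV Q (fun i => 2 * h * i) (fun i => 2 * h * i) v)
    (hup : M4.Near ρ u p) (hvp : M4.Near ρ v p) :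
    ‖G u - G v‖ ≤ 220 * (19 * C) * ((ρ : ℝ) / h) ^ (2 / 3 : ℝ) *
      ‖lat u - lat v‖ ^ (2 / 3 : ℝ) := by
  have hhR : (0 : ℝ) < h := by exact_mod_cast hh
  have h1 := hR.holder' (by positivity) (ρ := 2 * ρ)
    (wide_tile Q (by push_cast; omega)) hu hv
    ((hup.trans hvp.symm).mono (by push_cast; omega)) (hup.mono (by push_cast; omega))
  refine h1.trans (mul_le_mul_of_nonneg_right ?_ (by positivity))
  have h2 : (((19 * ρ : ℕ) : ℝ) / h) ^ (2 / 3 : ℝ) ≤ 19 * ((ρ : ℝ) / h) ^ (2 / 3 : ℝ) := by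
    push_cast
    rw [mul_div_assoc, Real.mul_rpow (by norm_num) (by positivity)]
    refine mul_le_mul_of_nonneg_right ?_ (by positivity)
    calc (19 : ℝ) ^ (2 / 3 : ℝ) ≤ (19 : ℝ) ^ (1 : ℝ) :=
          Real.rpow_le_rpow_of_exponent_le (by norm_num) (by norm_num)
      _ = 19 := Real.rpow_one 19
  nlinarith [mul_le_mul_of_nonneg_left h2 hC.le]

/-- **The primitives near an unmarked convex corner.** -/
theorem corner_small_of (hAP : AP PlaneK) : ∃ C : ℝ, 0 < C ∧ ∀ (S : Shape) (h : ℕ)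
    (W : Finset (ℤ × ℤ)), Wir S h W → ∀ r, (r = r1 S h ∨ r = r3 S h) → ∀ k0 X,
    IsEnv S h W r k0 X → ∀ Ht, GPrim X Ht → ∀ i, UC S i → ∀ ρ : ℕ, 1 ≤ ρ → 19 * ρ + 9 ≤ h →
    ∀ u v, inG S.P h u → inG S.P h v → M4.Near ρ u (tv (wv h (S.P.side (i + 1)) 0)) →
    M4.Near ρ v (tv (wv h (S.P.side (i + 1)) 0)) →
    ‖Ht u - Ht v‖ ≤ C * ((ρ : ℝ) / h) ^ (2 / 3 : ℝ) * ‖lat u - lat v‖ ^ (2 / 3 : ℝ) := by
  obtain ⟨C, hC, H⟩ := regBound_corner hAP
  refine ⟨220 * (19 * C), by positivity, ?_⟩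
  intro S h W hW r hr k0 X hX Ht hG i hU ρ hρ hρh u v hu hv hup hvp
  exact holder_of_reg hC (by omega) (by omega)
    (H S h W hW r hr k0 X hX Ht hG i hU (19 * ρ) (by omega) (by omega)) hu hv hup hvp

end Pool.Agent.H44.FM
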