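import Mathlib
import Pool.Agent.H44.FM.Br5
import Pool.Agent.H44.FM.Wi8
import Pool.Agent.H44.FM.Wi9
import Pool.Agent.H44.FM.S0F
import Pool.Agent.H31.Sp.TotG
import Pool.Agent.H31.Sp.NatF
import Pool.Agent.H74.Win.FinF
import Pool.Agent.H59.W.FinePW
import Pool.Agent.H59.W.HvPW
import Pool.Agent.Q1.M6e.Wn.Mem
import Pool.Agent.H57.FM.NbW
import Pool.Agent.H13.Sp.CutW
import Pool.Agent.H54.FM.TriF
import Pool.Agent.H56.Sp.AbaW
import Pool.Agent.H64.Win.SameCI
import Pool.Agent.H64.Win.Dis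
import Pool.Agent.Q1.M6c.APMain

set_option autoImplicit false
open Filter

/-! # The holomorphy of the limits on shapes whose rows and columns are intervals

`wIn_F` : the inputs `WIn` for the windows of a shape. `hol3_row`, `hol3_hvc` : `Hol3`. -/

namespace Pool.Agent.H44.FM.Wi

open Pool.Agent.H21.FM (Shape Hol3)
open Pool.Agent.H5.FM (RowF HVC Dis exists_rowF winOf)
open Pool.Agent.H74.Win (OutB)
open Pool.Agent.H13.Sp (colp exists_cut outOK_oX outOK_oY1 outOK_oY3)
open Pool.Agent.H20.Sp (OutOK)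
open Pool.Agent.Q1.M6e.Wn (PW memW_PW outOK_mono)
open Pool.Agent.Q1.M6c (ap_planeK)
open Pool.Agent.H56.Sp (aba_shape SQ)

section

variable {S : Shape} {y0 y1 : ℤ} {a b : ℤ → ℤ} {yP yQ : ℤ} (F : RowF S.P.Q y0 y1 a b yP yQ)

/-- the outsides of the three types are good at every scale -/
lemma outOK_ty {O : ∀ j, OutB (DW F j)} (hO : OTyp F O) (j : ℕ) : OutOK (O j) (j : ℤ) := by
  have h : (j : ℤ) ≤ (nj j : ℤ) + 3 := by unfold nj; omega
  rcases hO with e | e | e
  · rw [e j]; exact outOK_oX h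
  · rw [e j]; exact outOK_oY1 h
  · rw [e j]; exact outOK_oY3 h

/-- **The inputs for the windows of a shape** -/
theorem wIn_F (hD : Dis S.P.Q) {O : ∀ j, OutB (DW F j)} (hO : OSeq F O) : WIn F PW O where
  mem := by
    choose s0 hs0 using fun j => exists_cut (F := F) (nj_two j) (show 1 ≤ nj j by unfold nj; omega)
    have hcut : ∀ᶠ j in atTop, colp (DW F j) (s0 j - 1) ≠ colp (DW F j) (s0 j) :=
      Eventually.of_forall hs0
    have hR : Tendsto (fun j : ℕ => 2 * j) atTop atTop :=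
      tendsto_atTop_mono (fun j => by simp only [id]; omega) tendsto_id
    refine ⟨s0, hcut, memW_PW (seqC_DW F hcut) ⟨1 / 2, by norm_num, ?_⟩ (w0F F),
      linW_of hR (seqC_DW F hcut) O (w0F F), Pool.Agent.H57.FM.nbW _ _ O s0 (w0F F)⟩
    filter_upwards [hO.ok] with j hj
    have e : ⌊(1 / 2 : ℝ) * ((2 * j : ℕ) : ℝ)⌋ = (j : ℤ) := by
      rw [show (1 / 2 : ℝ) * ((2 * j : ℕ) : ℝ) = ((j : ℤ) : ℝ) by push_cast; ring, Int.floor_intCast]
    rw [e]
    exact hj
  nat := Pool.Agent.H31.Sp.natW_F F ap_planeK hO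
  s0 := s0W_F F ap_planeK hO
  s12 := Pool.Agent.H74.Win.s12W_F F ap_planeK hO
  ab := by
    refine aba_shape F (O := O) (fun j hj => exists_cut (n := max j 30) (by omega) (by omega))
      (fun j hj => outOK_mono (outOK_ty F hO.ty j) (by omega)) (Pool.Agent.H64.Win.sameC_of ?_)
    rintro R v ⟨j, hj, rfl, rfl⟩
    exact Pool.Agent.H64.Win.noRR_win F hD (by omega) (nj_two j)

include F in
/-- **Holomorphy of the limits for a shape with intervals in rows and columns** -/
theorem hol3_row (hD : Dis S.P.Q) : Hol3 S :=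
  Pool.Agent.H44.FM.Br.hol3_br Pool.Agent.H59.W.finePW Pool.Agent.H59.W.hvPW
    (shapeBr_of F Pool.Agent.H31.Sp.totG (Pool.Agent.H54.FM.triW_F F) fun _ hO => wIn_F F hD hO)

end

/-- **Holomorphy of the limits** -/
theorem hol3_hvc {S : Shape} (hQ : HVC S.P.Q) (hD : Dis S.P.Q) : Hol3 S := by
  obtain ⟨y0, y1, a, b, yP, yQ, F⟩ := exists_rowF S.P.good hQ
  exact hol3_row F hD

end Pool.Agent.H44.FM.Wi
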